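import Mathlib
import Pool.Agent.Lib.VQ.Defs
import Pool.Agent.Lib.VQ.WDefs
import Pool.Agent.Lib.TS2.Grp

/-!
# Theorem NV (MP_663568_nt): nilsequences of step two with few changes.  Definitions and rows.

`f` is a continuous function on `ℝ^D` with `f (u + n) = e(-b(u, n)) f u` for integral `n`, `b` an
integral bilinear form; the data are a slope `a`, a base point `y` and a polynomial `C` of degree at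
most `2`, and the nilsequence is `m ↦ e(C(m)) f(m a + y)`.  `NS D`: for families of data with few
changes the mean over `n` of `|∑_{h ≤ H} μ(n + h) Φ_n(n + h)| / H` is small.  Induction on `D`.
The paper proof is the note nv_MP_663568_nt_h28.  (helper28)
-/

set_option autoImplicit false
open Finset MeasureTheory Polynomial

namespace Pool.Agent.NV

open Pool.Agent.Lib.MP_663568_nt Pool.Agent.Lib.MP_663568_nt.Katai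
  Pool.Agent.Lib.MP_663568_nt.Nul Pool.Agent.SV Pool.Agent.VQ

noncomputable section

/-! ### Windows and families of bounded functions -/

/-- The mean of the window `(m, m + l]` with the weights `g`. -/
def Wg (l m : ℕ) (g : ℕ → ℂ) : ℝ := ‖∑ h ∈ Icc 1 l, muC (m + h) * g (m + h)‖ / l

/-- The correlation of two functions on the window. -/
def Kg (l m : ℕ) (g g' : ℕ → ℂ) : ℝ :=
  ‖∑ h ∈ Icc 1 l, g (m + h) * (starRingEnd ℂ) (g' (m + h))‖ / l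

/-- The family changes at most `K` times in each dyadic block. -/
def SlowA {α : Type} (Q : ℕ → α) (K : ℝ) : Prop := ∀ j : ℕ, (by
  classical
  exact (#((Ico (2 ^ j) (2 ^ (j + 1))).filter fun n => Q (n + 1) ≠ Q n) : ℝ)) ≤ K

/-- `Q_{⌊p e^v⌋}` is constant on the cell of `v`. -/
def CstA {α : Type} (Q : ℕ → α) (K p : ℕ) (v : ℝ) : Prop :=
  ∀ v' : ℝ, cl K v' = cl K v → Q ⌊(p : ℝ) * Real.exp v'⌋₊ = Q ⌊(p : ℝ) * Real.exp v⌋₊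

/-- The function at the lower level: `m ↦ ev (Q_{⌊p e^v⌋}) (p m)`. -/
def lo {α : Type} (ev : α → ℕ → ℂ) (Q : ℕ → α) (p : ℕ) (v : ℝ) : ℕ → ℂ :=
  fun m => ev (Q ⌊(p : ℝ) * Real.exp v⌋₊) (p * m)

/-- Row DILA: passage to the lower level (`VQ.DIL_stmt` for bounded functions). -/
def DILA_stmt : Prop := TKG_stmt → ∀ A ε κ₂ : ℝ, 0 ≤ A → 0 < ε → ε ≤ 1 → 0 < κ₂ → κ₂ ≤ 1 / 4 →
  ∃ κ₁ η B : ℝ, 0 < κ₁ ∧ κ₁ ≤ κ₂ ∧ 0 < η ∧ η ≤ 1 ∧ 0 ≤ B ∧ ∃ H₀ : ℕ, ∀ H : ℕ, H₀ ≤ H →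
  1 ≤ Ls (PPs H κ₁ κ₂) ∧ ∀ (α : Type) (ev : α → ℕ → ℂ), (∀ x m, ‖ev x m‖ ≤ 1) →
  ∀ xa xb : ℝ, (H : ℝ) ^ B ≤ xa → xa * H ≤ xb → ∀ Q : ℕ → α, SlowA Q ((H : ℝ) ^ A) →
  ε * (Real.log xb - Real.log xa) ≤ ∑ n ∈ Ioc ⌊xa⌋₊ ⌊xb⌋₊, (1 / (n : ℝ)) * Wg H n (ev (Q n)) →
  ε / 2 * (Real.log xb - Real.log xa) ≤ ∑ p ∈ PPs H κ₁ κ₂, wt (PPs H κ₁ κ₂) p *
    ∫ v in (Real.log xa - Real.log p)..(Real.log xb - Real.log p),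
      Wg ⌊η * (H : ℝ) ^ (1 - κ₂)⌋₊ ⌊Real.exp v⌋₊ (lo ev Q p v)

/-- Row PAIRA: Cauchy's inequality (`VQ.PAIR_stmt` for bounded functions). -/
def PAIRA_stmt : Prop := ∀ (l m : ℕ) (GG : Finset ℕ) (w : ℕ → ℝ) (g : ℕ → ℕ → ℂ) (ε : ℝ),
  1 ≤ l → (∀ p ∈ GG, 0 ≤ w p) → 0 ≤ ε → (∀ p ∈ GG, ε ≤ Wg l m (g p)) →
  ε ^ 2 * (∑ p ∈ GG, w p) ^ 2 ≤ ∑ p ∈ GG, ∑ p' ∈ GG, w p * w p' * Kg l m (g p) (g p')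

/-- `v` is good for `p`. -/
def GoodA {α : Type} (ev : α → ℕ → ℂ) (Q : ℕ → α) (K l : ℕ) (xa xb e : ℝ) (p : ℕ) (v : ℝ) :
    Prop :=
  Real.log xa - Real.log p ≤ v ∧ v ≤ Real.log xb - Real.log p ∧ CstA Q K p v ∧
    e ≤ Wg l ⌊Real.exp v⌋₊ (lo ev Q p v)

/-- `p` and `p'` are good at `v` and their functions correlate. -/
def NpA {α : Type} (ev : α → ℕ → ℂ) (Q : ℕ → α) (K l : ℕ) (xa xb e c : ℝ) (p p' : ℕ) : Set ℝ :=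
  {v | GoodA ev Q K l xa xb e p v ∧ GoodA ev Q K l xa xb e p' v ∧
    c ≤ Kg l ⌊Real.exp v⌋₊ (lo ev Q p v) (lo ev Q p' v)}

/-- Row SYAA: many pairs (`VQ.SYA_stmt` for bounded functions). -/
def SYAA_stmt : Prop := PAIRA_stmt → ∀ A ε κ₁ κ₂ : ℝ, 0 ≤ A → 0 < ε → ε ≤ 1 → 0 < κ₁ → κ₁ ≤ κ₂ →
  κ₂ ≤ 1 / 4 → ∃ (c B : ℝ) (H₀ : ℕ), 0 < c ∧ c ≤ 1 ∧ 0 ≤ B ∧ ∀ H : ℕ, H₀ ≤ H →
  1 ≤ Ls (PPs H κ₁ κ₂) → ∀ (α : Type) (ev : α → ℕ → ℂ), (∀ x m, ‖ev x m‖ ≤ 1) →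
  ∀ xa xb : ℝ, (H : ℝ) ^ B ≤ xa → xa * H ≤ xb → xb ≤ xa * (H : ℝ) ^ 2 →
  ∀ Q : ℕ → α, SlowA Q ((H : ℝ) ^ A) → ∀ l : ℕ, 1 ≤ l → l ≤ H →
  ε * (Real.log xb - Real.log xa) ≤ ∑ p ∈ PPs H κ₁ κ₂, wt (PPs H κ₁ κ₂) p *
    ∫ v in (Real.log xa - Real.log p)..(Real.log xb - Real.log p),
      Wg l ⌊Real.exp v⌋₊ (lo ev Q p v) →
  (∀ p p', MeasurableSet (NpA ev Q ⌈(H : ℝ) ^ (A + 1)⌉₊ l xa xb (ε / 4) c p p')) ∧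
  c * (Real.log xb - Real.log xa) ≤ ∑ p ∈ PPs H κ₁ κ₂, ∑ p' ∈ PPs H κ₁ κ₂,
    wt (PPs H κ₁ κ₂) p * wt (PPs H κ₁ κ₂) p' *
      (volume (NpA ev Q ⌈(H : ℝ) ^ (A + 1)⌉₊ l xa xb (ε / 4) c p p')).toReal

open Classical in
/-- Row SYC: choice of a reference prime in each cell and of a type of relation (see
`VQ.SYB_stmt`; `Rel θ p p' j` is any relation which holds, for some type `θ`, whenever the functions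
of `p` and `p'` correlate on many windows of the cell `j`). -/
def SYC_stmt : Prop := ∀ (T : Type) [Fintype T] [Nonempty T] (A κ₁ κ₂ e c : ℝ), 0 ≤ A →
  0 < κ₁ → κ₁ ≤ κ₂ → κ₂ ≤ 1 / 4 → 0 < e → 0 < c → c ≤ 1 →
  ∃ (δ B : ℝ) (H₀ : ℕ), 0 < δ ∧ δ ≤ 1 ∧ 0 ≤ B ∧ ∀ H : ℕ, H₀ ≤ H →
  1 ≤ Ls (PPs H κ₁ κ₂) → ∀ (α : Type) (ev : α → ℕ → ℂ), (∀ x m, ‖ev x m‖ ≤ 1) →
  ∀ xa xb : ℝ, (H : ℝ) ^ B ≤ xa → xa * H ≤ xb → xb ≤ xa * (H : ℝ) ^ 2 →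
  ∀ (Q : ℕ → α) (l K : ℕ), 1 ≤ l → l ≤ H → K = ⌈(H : ℝ) ^ (A + 1)⌉₊ →
  ∀ Rel : T → ℕ → ℕ → ℕ → Prop,
  (∀ p ∈ PPs H κ₁ κ₂, ∀ p' ∈ PPs H κ₁ κ₂, ∀ (v : ℝ) (n L : ℕ), CstA Q K p v → CstA Q K p' v →
    xa / (H : ℝ) ^ B ≤ L →
    c / 8 * L ≤ (#((Ico n (n + L)).filter fun m : ℕ =>
      c ≤ Kg l m (lo ev Q p v) (lo ev Q p' v)) : ℝ) → ∃ θ : T, Rel θ p p' (cl K v)) →
  (∀ p p', MeasurableSet (NpA ev Q K l xa xb e c p p')) →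
  c * (Real.log xb - Real.log xa) ≤ ∑ p ∈ PPs H κ₁ κ₂, ∑ p' ∈ PPs H κ₁ κ₂,
    wt (PPs H κ₁ κ₂) p * wt (PPs H κ₁ κ₂) p' *
      (volume (NpA ev Q K l xa xb e c p p')).toReal →
  ∃ (θ : T) (pr : ℕ → ℕ) (G : ℕ → Set ℝ), (∀ p, MeasurableSet (G p)) ∧
    (∀ p, ∀ u ∈ G p, p ∈ PPs H κ₁ κ₂ ∧ pr (cl K u) ∈ PPs H κ₁ κ₂ ∧
      GoodA ev Q K l xa xb e p u ∧ GoodA ev Q K l xa xb e (pr (cl K u)) u ∧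
      Rel θ p (pr (cl K u)) (cl K u)) ∧
    δ * (Real.log xb - Real.log xa) ≤ ∑ p ∈ PPs H κ₁ κ₂, wt (PPs H κ₁ κ₂) p *
      (volume (G p)).toReal

/-- Row DESA: the family at the lower level (`VQ.DESC_stmt` for bounded functions; the prime may
depend on the cell). -/
def DESA_stmt : Prop := ∀ (α : Type) (ev : α → ℕ → ℂ) (dl : ℕ → α → α),
  (∀ (p : ℕ) (x : α) (m : ℕ), ev (dl p x) m = ev x (p * m)) → ∀ (P : α → Prop) (x₀ : α), P x₀ →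
  ∀ (l K : ℕ) (xa xb e : ℝ) (Q : ℕ → α) (pr : ℕ → ℕ) (S : Set ℝ), 1 ≤ l → 1 ≤ K → 1 ≤ xa →
  0 ≤ e → MeasurableSet S →
  (∀ u ∈ S, xa < (⌊Real.exp u⌋₊ : ℝ) ∧ (⌊Real.exp u⌋₊ : ℝ) ≤ xb ∧ CstA Q K (pr (cl K u)) u ∧
    e ≤ Wg l ⌊Real.exp u⌋₊ (lo ev Q (pr (cl K u)) u) ∧
    P (dl (pr (cl K u)) (Q ⌊((pr (cl K u) : ℕ) : ℝ) * Real.exp u⌋₊))) →
  ∃ Q' : ℕ → α, SlowA Q' (K + 2) ∧ (∀ m, P (Q' m)) ∧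
    e * (volume S).toReal ≤ ∑ m ∈ Ioc ⌊xa⌋₊ ⌊xb⌋₊, (1 / (m : ℝ)) * Wg l m (ev (Q' m))

/-- Row SUBA: passage to shorter windows. -/
def SUBA_stmt : Prop := ∀ A ε η : ℝ, 0 ≤ A → 0 < ε → 0 < η → η ≤ ε / 8 → η ≤ 1 →
  ∃ (B : ℝ) (H₀ : ℕ), 0 ≤ B ∧ ∀ l : ℕ, H₀ ≤ l → ∀ (α : Type) (ev : α → ℕ → ℂ),
  (∀ x m, ‖ev x m‖ ≤ 1) → ∀ xa xb : ℝ, (l : ℝ) ^ B ≤ xa → xa * l ≤ xb →
  ∀ Q : ℕ → α, SlowA Q ((l : ℝ) ^ A) →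
  ∑ m ∈ Ioc ⌊xa⌋₊ ⌊xb⌋₊, (1 / (m : ℝ)) * Wg l m (ev (Q m)) ≤
    ∑ m ∈ Ioc ⌊xa⌋₊ ⌊xb⌋₊, (1 / (m : ℝ)) * Wg ⌊η * (l : ℝ)⌋₊ m (ev (Q m)) +
      ε * (Real.log xb - Real.log xa)

/-! ### Theta functions and nilsequences -/

/-- The real vector of an integral vector. -/
def ic {D : ℕ} (n : Fin D → ℤ) : Fin D → ℝ := fun i => (n i : ℝ)

/-- The scalar product with an integral vector. -/
def dp {D : ℕ} (k : Fin D → ℤ) (u : Fin D → ℝ) : ℝ := ∑ i, (k i : ℝ) * u i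

/-- The bilinear form of an integral matrix. -/
def bf {D : ℕ} (b : Fin D → Fin D → ℤ) (u v : Fin D → ℝ) : ℝ :=
  ∑ i, ∑ j, (b i j : ℝ) * (u i * v j)

/-- The commutator form. -/
def om {D : ℕ} (b : Fin D → Fin D → ℤ) (u v : Fin D → ℝ) : ℝ := bf b u v - bf b v u

/-- The unit vectors. -/
def ev1 {D : ℕ} (i : Fin D) : Fin D → ℝ := Pi.single i 1

/-- `f` is continuous, bounded by `1` and quasi-periodic with respect to `b`. -/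
structure QP {D : ℕ} (b : Fin D → Fin D → ℤ) (f : (Fin D → ℝ) → ℂ) : Prop where
  cont : Continuous f
  le : ∀ u, ‖f u‖ ≤ 1
  add : ∀ (u : Fin D → ℝ) (n : Fin D → ℤ), f (u + ic n) = ee (-bf b u (ic n)) * f u

/-- The data of a nilsequence: slope, base point and phase. -/
structure Dat (D : ℕ) where
  a : Fin D → ℝ
  y : Fin D → ℝ
  C : ℝ[X]

/-- The nilsequence `m ↦ e(C(m)) f(m a + y)`. -/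
def Dat.fn {D : ℕ} (f : (Fin D → ℝ) → ℂ) (X : Dat D) (m : ℕ) : ℂ :=
  ee (X.C.eval (m : ℝ)) * f ((m : ℝ) • X.a + X.y)

/-- The dilated data. -/
def Dat.dil {D : ℕ} (p : ℕ) (X : Dat D) : Dat D :=
  ⟨(p : ℝ) • X.a, X.y, X.C.comp (Polynomial.C (p : ℝ) * Polynomial.X)⟩

/-- The phase has degree at most two. -/
def Dat.Dg {D : ℕ} (X : Dat D) : Prop := X.C.natDegree ≤ 2

/-- **The statement for the dimension `D`.** -/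
def NS (D : ℕ) : Prop := ∀ (b : Fin D → Fin D → ℤ) (f : (Fin D → ℝ) → ℂ), QP b f →
  ∀ A ε : ℝ, 0 ≤ A → 0 < ε → ∃ (B : ℝ) (H₀ : ℕ), 0 ≤ B ∧
  ∀ H : ℕ, H₀ ≤ H → ∀ xa xb : ℝ, (H : ℝ) ^ B ≤ xa → xa * H ≤ xb → ∀ Q : ℕ → Dat D,
  (∀ n, (Q n).Dg) → SlowA Q ((H : ℝ) ^ A) →
  ∑ n ∈ Ioc ⌊xa⌋₊ ⌊xb⌋₊, (1 / (n : ℝ)) * Wg H n ((Q n).fn f) ≤
    ε * (Real.log xb - Real.log xa)

/-- Row TW: continuity of theta functions, uniform on the whole space. -/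
def TW_stmt : Prop := ∀ (D : ℕ) (b : Fin D → Fin D → ℤ) (f : (Fin D → ℝ) → ℂ), QP b f →
  ∀ ε : ℝ, 0 < ε → ∃ δ : ℝ, 0 < δ ∧ ∀ x d : Fin D → ℝ, (∀ i, |d i| ≤ δ) →
    ‖f (x + d) - ee (-bf b d x) * f x‖ ≤ ε

/-- Row TRIG: trigonometric approximation of a continuous family of periodic functions. -/
def TRIG_stmt : Prop := ∀ (D D' : ℕ) (G : (Fin D → ℝ) → (Fin D' → ℝ) → ℂ),
  Continuous (Function.uncurry G) → (∀ x u (n : Fin D' → ℤ), G x (u + ic n) = G x u) →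
  ∀ ε : ℝ, 0 < ε → ∃ (K : Finset (Fin D' → ℤ)) (M : ℝ), 0 ≤ M ∧
  ∀ x : Fin D → ℝ, (∀ i, 0 ≤ x i ∧ x i ≤ 1) → ∃ c : (Fin D' → ℤ) → ℂ, (∀ k, ‖c k‖ ≤ M) ∧
    ∀ u, ‖G x u - ∑ k ∈ K, c k * ee (dp k u)‖ ≤ ε

/-- Row NSZ: dimension zero. -/
def NSZ_stmt : Prop := VW 2 → NS 0

/-! ### Two nilsequences which correlate on many windows -/

open Classical in
/-- Row SHIFT: van der Corput's inequality. -/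
def SHIFT' : Prop := ∀ c : ℝ, 0 < c → c ≤ 1 → ∃ (c' : ℝ) (n₀ : ℕ), 0 < c' ∧ c' ≤ 1 ∧
  ∀ l L n : ℕ, n₀ ≤ l → l * l ≤ L → ∀ g : ℕ → ℂ, (∀ m, ‖g m‖ ≤ 1) →
  c * L ≤ (#((Ico n (n + L)).filter fun m : ℕ => c ≤ ‖∑ h ∈ Icc 1 l, g (m + h)‖ / l) : ℝ) →
  c' * l ≤ (#((Icc 1 l).filter fun r : ℕ =>
    c' * L ≤ ‖∑ m ∈ Ico n (n + L), g (m + r) * (starRingEnd ℂ) (g m)‖) : ℝ)

/-- The integral part of `r a`. -/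
def fl {D : ℕ} (r : ℕ) (a : Fin D → ℝ) : Fin D → ℝ := fun i => (⌊(r : ℝ) * a i⌋ : ℝ)

open Classical in
/-- The hypothesis on the pair: the two nilsequences correlate on many windows. -/
def Many {D : ℕ} (f : (Fin D → ℝ) → ℂ) (c : ℝ) (l L n : ℕ) (X X' : Dat D) : Prop :=
  c * L ≤ (#((Ico n (n + L)).filter fun m : ℕ => c ≤ Kg l m (X.fn f) (X'.fn f)) : ℝ)

open Classical in
/-- Row DER: differences `m ↦ Φ(m + r) conj Φ(m)`. -/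
def DER' : Prop := ∀ (D : ℕ) (b : Fin D → Fin D → ℤ) (f : (Fin D → ℝ) → ℂ), QP b f →
  ∀ c : ℝ, 0 < c → c ≤ 1 → ∃ (c' E : ℝ) (n₀ : ℕ), 0 < c' ∧ c' ≤ 1 ∧ 0 ≤ E ∧
  ∀ l L n : ℕ, n₀ ≤ l → l * l ≤ L → ∀ X X' : Dat D, X.Dg → X'.Dg → Many f c l L n X X' →
  ∃ ξ θ : ℝ, c' * l ≤ (#((Icc 1 l).filter fun r : ℕ =>
    nd (ξ * r - om b X.a (fl r X.a) + om b X'.a (fl r X'.a) + θ) ≤ E / L) : ℝ)
def DER_stmt : Prop := SHIFT' → TRIG_stmt → DER'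

open Classical in
/-- Row BRK: the bracket lemma. -/
def BRK_stmt : Prop := ∀ (d : ℕ) (c : ℝ), 0 < c → c ≤ 1 → ∃ C : ℕ, 1 ≤ C ∧
  ∀ (l : ℕ) (γ β : Fin d → ℝ) (ξ θ τ : ℝ), C ≤ l → 0 ≤ τ →
  c * l ≤ (#((Icc 1 l).filter fun r : ℕ =>
    nd (ξ * r + ∑ i, β i * (⌊(r : ℝ) * γ i⌋ : ℝ) + θ) ≤ τ) : ℝ) →
  ∃ (q : ℕ) (KK : Finset (Fin d → ℤ)), 1 ≤ q ∧ q ≤ C ∧
    (∀ κ ∈ KK, (∀ i, |κ i| ≤ C) ∧ nd (dp κ γ) ≤ C / l) ∧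
    ∀ w : Fin d → ℤ, (∀ κ ∈ KK, ∑ i, κ i * w i = 0) →
      nd (q * dp w β) ≤ C * (∑ i, |(w i : ℝ)|) * τ

/-- Row LIN: linear algebra: either the rows of the commutator form (on both factors) are combinations
of the relations, or some vector orthogonal to the relations has a non-zero image. -/
def LIN_stmt : Prop := ∀ (D C : ℕ) (b : Fin D → Fin D → ℤ), ∃ M S : ℕ, 1 ≤ M ∧
  ∀ KK : Finset (Fin (D + D) → ℤ), (∀ κ ∈ KK, ∀ i, |κ i| ≤ C) →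
  ((∀ i : Fin D, ∃ n n' : (Fin (D + D) → ℤ) → ℤ, (∀ κ, |n κ| ≤ S) ∧ (∀ κ, |n' κ| ≤ S) ∧
    (∀ j : Fin D, (M : ℤ) * (b i j - b j i) = ∑ κ ∈ KK, n κ * κ (Fin.castAdd D j)) ∧
    (∀ j : Fin D, 0 = ∑ κ ∈ KK, n κ * κ (Fin.natAdd D j)) ∧
    (∀ j : Fin D, 0 = ∑ κ ∈ KK, n' κ * κ (Fin.castAdd D j)) ∧
    (∀ j : Fin D, (M : ℤ) * (b i j - b j i) = ∑ κ ∈ KK, n' κ * κ (Fin.natAdd D j))) ∨
  ∃ w : Fin (D + D) → ℤ, (∀ i, |w i| ≤ S) ∧ (∀ κ ∈ KK, ∑ i, κ i * w i = 0) ∧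
    ∃ i : Fin D, (∑ j, (b i j - b j i) * w (Fin.castAdd D j) ≠ 0 ∨
      ∑ j, (b i j - b j i) * w (Fin.natAdd D j) ≠ 0))

/-- The values of the commutator form at the slope are rational up to `1 / l`. -/
def Maj {D : ℕ} (b : Fin D → Fin D → ℤ) (M : ℕ) (E : ℝ) (l : ℕ) (a : Fin D → ℝ) : Prop :=
  ∀ i, nd ((M : ℝ) * om b (ev1 i) a) ≤ E / l

/-- Row PBRK: two nilsequences which correlate on many windows. -/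
def PBRK' : Prop := ∀ (D : ℕ) (b : Fin D → Fin D → ℤ) (f : (Fin D → ℝ) → ℂ), QP b f →
  ∀ c : ℝ, 0 < c → c ≤ 1 → ∃ (M n₀ : ℕ) (E : ℝ) (KK : Finset ((Fin D → ℤ) × (Fin D → ℤ))),
  1 ≤ M ∧ 0 ≤ E ∧ (∀ k ∈ KK, k ≠ 0) ∧
  ∀ l L n : ℕ, n₀ ≤ l → l * l ≤ L → ∀ X X' : Dat D, X.Dg → X'.Dg → Many f c l L n X X' →
    (Maj b M E l X.a ∧ Maj b M E l X'.a) ∨ ∃ k ∈ KK, nd (dp k.1 X.a - dp k.2 X'.a) ≤ E / L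
def PBRK_stmt : Prop := DER' → BRK_stmt → LIN_stmt → PBRK'

/-! ### First case: the commutator form is almost rational at the slope -/

/-- Row DEC: decomposition of the slope. -/
def DEC_stmt : Prop := ∀ (D : ℕ) (b : Fin D → Fin D → ℤ) (M : ℕ) (E : ℝ), 1 ≤ M → 0 ≤ E →
  ∃ (M' : ℕ) (E' : ℝ), 1 ≤ M' ∧ 0 ≤ E' ∧ ∀ (l : ℕ) (a : Fin D → ℝ), 1 ≤ l → Maj b M E l a →
  ∃ (n : Fin D → ℤ) (v η : Fin D → ℝ), a = (fun i => (n i : ℝ) / M') + v + η ∧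
    (∀ w, om b w v = 0) ∧ ∀ i, |η i| ≤ E' / l

/-- Row LOC: on short windows the nilsequence is a sum of quadratic phases. -/
def LOC' : Prop := ∀ (D : ℕ) (b : Fin D → Fin D → ℤ) (f : (Fin D → ℝ) → ℂ), QP b f →
  ∀ (M' : ℕ) (ε : ℝ), 1 ≤ M' → 0 < ε → ∃ (T : ℕ) (Mc δ : ℝ), 0 ≤ Mc ∧ 0 < δ ∧
  ∀ (n : Fin D → ℤ) (v η ρ : Fin D → ℝ), (∀ w, om b w v = 0) → (ρ = fun i => (n i : ℝ) / M') →
  ∃ (s : ℕ → ℕ → ℝ) (al : ℝ), ∀ z : Fin D → ℝ, ∃ c : ℕ → ℕ → ℂ, (∀ k r, ‖c k r‖ ≤ Mc) ∧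
    ∀ h : ℕ, (∀ i, |(h : ℝ) * η i| ≤ δ) →
      ‖f (z + (h : ℝ) • (ρ + v + η)) - ∑ k ∈ range T, c k (h % M') *
        ee (al * (h : ℝ) ^ 2 + (s k (h % M') - bf b η z - bf b z (ρ + v)) * h)‖ ≤ ε
def LOC_stmt : Prop := TW_stmt → TRIG_stmt → LOC'

/-- Row CASE1: the first case. -/
def CASE1' : Prop := ∀ (D : ℕ) (b : Fin D → Fin D → ℤ) (f : (Fin D → ℝ) → ℂ), QP b f →
  ∀ (M : ℕ) (E A ε : ℝ), 1 ≤ M → 0 ≤ E → 0 ≤ A → 0 < ε → ∃ (B : ℝ) (H₀ : ℕ), 0 ≤ B ∧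
  ∀ l : ℕ, H₀ ≤ l → ∀ xa xb : ℝ, (l : ℝ) ^ B ≤ xa → xa * l ≤ xb → ∀ Q : ℕ → Dat D,
  (∀ m, (Q m).Dg) → SlowA Q ((l : ℝ) ^ A) → (∀ m, Maj b M E l (Q m).a) →
  ∑ m ∈ Ioc ⌊xa⌋₊ ⌊xb⌋₊, (1 / (m : ℝ)) * Wg l m ((Q m).fn f) ≤
    ε * (Real.log xb - Real.log xa)
def CASE1_stmt : Prop := DEC_stmt → LOC' → SUBA_stmt → WW 2 2 → CASE1'

/-! ### Second case: a relation for the slope -/

/-- Row RES: if `κ · a = j / Q₀`, the nilsequence is, on residue classes, a nilsequence of the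
dimension `D` (for one of finitely many functions). -/
def RES' : Prop := ∀ (D : ℕ) (b : Fin (D + 1) → Fin (D + 1) → ℤ) (f : (Fin (D + 1) → ℝ) → ℂ),
  QP b f → ∀ (κ : Fin (D + 1) → ℤ) (Q₀ : ℕ) (ε : ℝ), κ ≠ 0 → 1 ≤ Q₀ → 0 < ε →
  ∃ (M T : ℕ) (b' : Fin D → Fin D → ℤ) (g : ℕ → (Fin D → ℝ) → ℂ), 1 ≤ M ∧ (∀ t, QP b' (g t)) ∧
  ∀ X : Dat (D + 1), X.Dg → (∃ j : ℤ, dp κ X.a = j / Q₀) → ∀ r < M,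
    ∃ t < T, ∃ Y : Dat D, Y.Dg ∧ ∀ m : ℕ, m % M = r → ‖X.fn f m - Y.fn (g t) m‖ ≤ ε
def RES_stmt : Prop := TW_stmt → RES'

/-- Row FRZ: from approximate to exact relations. -/
def FRZ' : Prop := ∀ (D : ℕ) (b : Fin D → Fin D → ℤ) (f : (Fin D → ℝ) → ℂ), QP b f →
  ∀ (κ : Fin D → ℤ) (Q₀ : ℕ) (A B ε : ℝ), κ ≠ 0 → 1 ≤ Q₀ → 0 ≤ A → 0 ≤ B → 0 < ε →
  ∃ (A' B' : ℝ) (l₀ : ℕ), 0 ≤ A' ∧ 0 ≤ B' ∧ ∀ l : ℕ, l₀ ≤ l → ∀ xa xb : ℝ, (l : ℝ) ^ B' ≤ xa →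
  ∀ Q : ℕ → Dat D, (∀ m, (Q m).Dg) → SlowA Q ((l : ℝ) ^ A) →
  (∀ m : ℕ, xa < m → (m : ℝ) ≤ xb → ∃ j : ℤ, |dp κ (Q m).a - j / Q₀| ≤ (l : ℝ) ^ B / m) →
  ∃ Q' : ℕ → Dat D, (∀ m, (Q' m).Dg) ∧ SlowA Q' ((l : ℝ) ^ A') ∧
    (∀ m, ∃ j : ℤ, dp κ (Q' m).a = j / Q₀) ∧
    ∀ m : ℕ, xa < m → (m : ℝ) ≤ xb → ∀ h ∈ Icc 1 l,
      ‖(Q m).fn f (m + h) - (Q' m).fn f (m + h)‖ ≤ ε
def FRZ_stmt : Prop := TW_stmt → FRZ'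

/-- Row CASE2: the second case. -/
def CASE2' (D : ℕ) : Prop := ∀ (b : Fin D → Fin D → ℤ) (f : (Fin D → ℝ) → ℂ), QP b f →
  ∀ (κ : Fin D → ℤ) (Q₀ : ℕ) (A B₀ ε : ℝ), κ ≠ 0 → 1 ≤ Q₀ → 0 ≤ A → 0 ≤ B₀ → 0 < ε →
  ∃ (B : ℝ) (H₀ : ℕ), 0 ≤ B ∧ ∀ l : ℕ, H₀ ≤ l → ∀ xa xb : ℝ, (l : ℝ) ^ B ≤ xa → xa * l ≤ xb →
  ∀ Q : ℕ → Dat D, (∀ m, (Q m).Dg) → SlowA Q ((l : ℝ) ^ A) →
  (∀ m : ℕ, xa < m → (m : ℝ) ≤ xb → ∃ j : ℤ, |dp κ (Q m).a - j / Q₀| ≤ (l : ℝ) ^ B₀ / m) →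
  ∑ m ∈ Ioc ⌊xa⌋₊ ⌊xb⌋₊, (1 / (m : ℝ)) * Wg l m ((Q m).fn f) ≤
    ε * (Real.log xb - Real.log xa)
def CASE2_stmt : Prop := RES' → FRZ' → ∀ D : ℕ, NS D → CASE2' (D + 1)

/-- Row NSTEP: the induction step. -/
def NSTEP_stmt : Prop := WIN_stmt → TKG_stmt → DILA_stmt → PAIRA_stmt → SYAA_stmt → SYC_stmt →
  OKQ_stmt → RICH' → DESA_stmt → PBRK' → CASE1' → ∀ D : ℕ, CASE2' (D + 1) → NS (D + 1)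

/-! ### Groups of step two -/

/-- The integral bilinear form of a vertical frequency. -/
def kB {d r : ℕ} (B : Fin r → Fin d → Fin d → ℤ) (k : Fin r → ℤ) : Fin d → Fin d → ℤ :=
  fun i j => ∑ c, k c * B c i j

/-- Row VRTA: a continuous function on `G ⧸ Γ` is, up to a small error, a combination of functions
with one vertical frequency. -/
def VRTA_stmt : Prop := ∀ (d r : ℕ) (B : Fin r → Fin d → Fin d → ℤ) (F : TS2.Two B → ℂ),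
  Continuous F → (∀ g : TS2.Two B, ∀ γ ∈ TS2.Gam B, F (g * γ) = F g) → ∀ ε : ℝ, 0 < ε →
  ∃ (T : ℕ) (M : ℝ) (k : ℕ → Fin r → ℤ) (f : ℕ → (Fin d → ℝ) → ℂ), 0 ≤ M ∧
    (∀ t, QP (kB B (k t)) (f t)) ∧
    ∀ g : TS2.Two B, ‖F g - ∑ t ∈ range T, (M : ℂ) * (ee (dp (k t) g.z) * f t g.x)‖ ≤ ε

/-- Row POW: the powers. -/
def POW_stmt : Prop := ∀ (d r : ℕ) (B : Fin r → Fin d → Fin d → ℤ) (k : Fin r → ℤ)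
  (g x : TS2.Two B), ∃ C : ℝ[X], C.natDegree ≤ 2 ∧ ∀ m : ℕ,
    (g ^ m * x).x = (m : ℝ) • g.x + x.x ∧ dp k (g ^ m * x).z = C.eval (m : ℝ)

/-- **Theorem NV**: one window, all groups of step two. -/
def NVT : Prop := ∀ (d r : ℕ) (B : Fin r → Fin d → Fin d → ℤ) (F : TS2.Two B → ℂ),
  Continuous F → (∀ g : TS2.Two B, ∀ γ ∈ TS2.Gam B, F (g * γ) = F g) → ∀ A ε : ℝ, 0 ≤ A →
  0 < ε → ∃ (B₀ : ℝ) (H₀ : ℕ), 0 ≤ B₀ ∧ ∀ H : ℕ, H₀ ≤ H → ∀ xa xb : ℝ, (H : ℝ) ^ B₀ ≤ xa →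
  xa * H ≤ xb → ∀ g x : ℕ → TS2.Two B, SlowA (fun n => (g n, x n)) ((H : ℝ) ^ A) →
  ∑ n ∈ Ioc ⌊xa⌋₊ ⌊xb⌋₊, (1 / (n : ℝ)) *
    (‖∑ h ∈ Icc 1 H, muC (n + h) * F ((g n) ^ (n + h) * x n)‖ / H) ≤
      ε * (Real.log xb - Real.log xa)

/-- Row NFIN: the theorem for the groups. -/
def NFIN_stmt : Prop := VRTA_stmt → POW_stmt → (∀ D, NS D) → NVT

end

end Pool.Agent.NV
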