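import Mathlib
import Pool.Agent.Lib.NV.Defs

/-!
# Row NFIN of Theorem NV (MP_663568_nt): the theorem for the groups (helper95)
-/

set_option autoImplicit false
open Finset MeasureTheory Polynomial

namespace Pool.Agent.NV

open Pool.Agent.Lib.MP_663568_nt Pool.Agent.Lib.MP_663568_nt.Katai
  Pool.Agent.Lib.MP_663568_nt.Nul Pool.Agent.SV Pool.Agent.VQ

namespace NFINx

theorem sum_inv_le (xa xb : ℝ) (hxa : 2 ≤ xa) (hab : xa ≤ xb) :
    ∑ n ∈ Ioc ⌊xa⌋₊ ⌊xb⌋₊, (1 / (n : ℝ)) ≤ Real.log xb - Real.log xa + 1 := by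
  have h1 : ∀ a b : ℕ, 1 ≤ a → a ≤ b → ∑ n ∈ Ioc a b, (1 / (n : ℝ)) ≤
      Real.log b - Real.log a := by
    intro a b ha hab
    induction b, hab using Nat.le_induction with
    | base => simp
    | succ b hab ih =>
      rw [← Finset.insert_Ioc_right_eq_Ioc_add_one (by omega), sum_insert (by simp)]
      have hb0 : (0 : ℝ) < b := by
        have : 0 < b := by omega
        exact_mod_cast this
      have h2 : 1 / ((b + 1 : ℕ) : ℝ) ≤ Real.log ((b + 1 : ℕ) : ℝ) - Real.log b := by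
        have h3 := Real.log_le_sub_one_of_pos (show 0 < (b : ℝ) / (b + 1) by positivity)
        rw [Real.log_div hb0.ne' (by positivity)] at h3
        have h4 : (b : ℝ) / (b + 1) - 1 = -(1 / (b + 1)) := by field_simp; ring
        rw [h4] at h3
        push_cast
        linarith
      linarith
  have h0 : 2 ≤ ⌊xa⌋₊ := Nat.le_floor (by exact_mod_cast hxa)
  refine (h1 _ _ (by omega) (Nat.floor_mono hab)).trans ?_
  have h2 : Real.log (⌊xb⌋₊ : ℝ) ≤ Real.log xb := by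
    apply Real.log_le_log
    · have : 0 < ⌊xb⌋₊ := lt_of_lt_of_le (by omega) (Nat.floor_mono hab)
      exact_mod_cast this
    · exact Nat.floor_le (by linarith)
  have h3 : Real.log xa - 1 ≤ Real.log (⌊xa⌋₊ : ℝ) := by
    have h4 : xa / Real.exp 1 ≤ (⌊xa⌋₊ : ℝ) := by
      have h5 := Nat.lt_floor_add_one xa
      have h6 : (2 : ℝ) ≤ Real.exp 1 := by
        have := Real.add_one_le_exp (1 : ℝ)
        linarith
      rw [div_le_iff₀ (Real.exp_pos 1)]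
      have h7 : (2 : ℝ) ≤ ⌊xa⌋₊ := by exact_mod_cast h0
      nlinarith
    have h5 := Real.log_le_log (by positivity) h4
    rwa [Real.log_div (by linarith) (Real.exp_ne_zero 1), Real.log_exp] at h5
  linarith

lemma slowA_map {α β : Type} {Q : ℕ → α} {K : ℝ} (φ : α → β) (h : SlowA Q K) :
    SlowA (fun n => φ (Q n)) K := by
  classical
  intro j
  refine le_trans ?_ (h j)
  have : (#((Ico (2 ^ j) (2 ^ (j + 1))).filter fun n => φ (Q (n + 1)) ≠ φ (Q n))) ≤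
      #((Ico (2 ^ j) (2 ^ (j + 1))).filter fun n => Q (n + 1) ≠ Q n) := by
    refine card_le_card fun n hn => ?_
    rw [mem_filter] at hn ⊢
    exact ⟨hn.1, fun e => hn.2 (by rw [e])⟩
  convert (Nat.cast_le (α := ℝ)).2 this

lemma window {T H : ℕ} (hH : 1 ≤ H) {M e : ℝ} (hM : 0 ≤ M) (w : ℕ → ℂ)
    (G : ℕ → ℂ) (g : ℕ → ℕ → ℂ) (hw : ∀ h, ‖w h‖ ≤ 1)
    (h : ∀ h, ‖G h - ∑ t ∈ range T, (M : ℂ) * g t h‖ ≤ e) :
    ‖∑ h ∈ Icc 1 H, w h * G h‖ / H ≤
      ∑ t ∈ range T, M * (‖∑ h ∈ Icc 1 H, w h * g t h‖ / H) + e := by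
  have hH0 : (0 : ℝ) < H := by exact_mod_cast hH
  have h1 : ∑ h ∈ Icc 1 H, w h * G h = ∑ t ∈ range T, (M : ℂ) * ∑ h ∈ Icc 1 H, w h * g t h +
      ∑ h ∈ Icc 1 H, w h * (G h - ∑ t ∈ range T, (M : ℂ) * g t h) := by
    simp only [mul_sub, sum_sub_distrib]
    have : ∑ t ∈ range T, (M : ℂ) * ∑ h ∈ Icc 1 H, w h * g t h =
        ∑ h ∈ Icc 1 H, w h * ∑ t ∈ range T, (M : ℂ) * g t h := by
      simp only [mul_sum]
      rw [sum_comm]
      exact sum_congr rfl fun _ _ => sum_congr rfl fun _ _ => by ring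
    rw [this]
    ring
  have h2 : ‖∑ h ∈ Icc 1 H, w h * G h‖ ≤ ∑ t ∈ range T, M * ‖∑ h ∈ Icc 1 H, w h * g t h‖ +
      H * e := by
    rw [h1]
    refine (norm_add_le _ _).trans (add_le_add ?_ ?_)
    · refine (norm_sum_le _ _).trans (sum_le_sum fun t _ => ?_)
      rw [norm_mul, Complex.norm_real, Real.norm_of_nonneg hM]
    · refine (norm_sum_le _ _).trans ?_
      have h3 : ∀ i ∈ Icc 1 H, ‖w i * (G i - ∑ t ∈ range T, (M : ℂ) * g t i)‖ ≤ e := by
        intro i _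
        rw [norm_mul]
        calc ‖w i‖ * ‖G i - ∑ t ∈ range T, (M : ℂ) * g t i‖ ≤
            1 * ‖G i - ∑ t ∈ range T, (M : ℂ) * g t i‖ :=
              mul_le_mul_of_nonneg_right (hw i) (norm_nonneg _)
          _ ≤ e := by rw [one_mul]; exact h i
      refine (sum_le_sum h3).trans ?_
      simp
  rw [div_le_iff₀ hH0]
  refine h2.trans (le_of_eq ?_)
  rw [add_mul, sum_mul]
  congr 1
  · exact sum_congr rfl fun t _ => by field_simp
  · ring

end NFINx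

open NFINx

/-- Row NFIN. -/
theorem nfin : NFIN_stmt := by
  classical
  intro hV hP hN d r B F hc hper A ε hA hε
  obtain ⟨T, M, k, f, hM, hq, hF⟩ := hV d r B F hc hper (ε / 4) (by positivity)
  set ε₂ : ℝ := ε / (2 * (T * M + 1)) with hε₂
  have hTM : 0 ≤ (T : ℝ) * M := by positivity
  have hε₂0 : 0 < ε₂ := by positivity
  have h1 : ∀ t, ∃ (B : ℝ) (H₀ : ℕ), 0 ≤ B ∧
      ∀ H : ℕ, H₀ ≤ H → ∀ xa xb : ℝ, (H : ℝ) ^ B ≤ xa → xa * H ≤ xb → ∀ Q : ℕ → Dat d,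
      (∀ n, (Q n).Dg) → SlowA Q ((H : ℝ) ^ A) →
      ∑ n ∈ Ioc ⌊xa⌋₊ ⌊xb⌋₊, (1 / (n : ℝ)) * Wg H n ((Q n).fn (f t)) ≤
        ε₂ * (Real.log xb - Real.log xa) := fun t => hN d _ _ (hq t) A ε₂ hA hε₂0
  choose Bt Ht hBt h using h1
  have hP' := hP d r B
  choose C hC1 hC2 using hP'
  have hsB : ∀ t ∈ range T, Bt t ≤ ∑ t ∈ range T, Bt t := fun t ht =>
    single_le_sum (fun i _ => hBt i) ht
  have hsH : ∀ t ∈ range T, Ht t ≤ ∑ t ∈ range T, Ht t := fun t ht =>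
    single_le_sum (f := Ht) (fun i _ => Nat.zero_le _) ht
  refine ⟨1 + ∑ t ∈ range T, Bt t, 3 + ∑ t ∈ range T, Ht t,
    by have := sum_nonneg fun t (_ : t ∈ range T) => hBt t; linarith,
    fun H hH xa xb hxa hxb g x hs => ?_⟩
  have hH3 : 3 ≤ H := by omega
  have hH3' : (3 : ℝ) ≤ H := by exact_mod_cast hH3
  have hH1 : (1 : ℝ) ≤ H := by linarith
  have hsum0 : 0 ≤ ∑ t ∈ range T, Bt t := sum_nonneg fun t _ => hBt t
  have hxa3 : 3 ≤ xa := by
    refine le_trans ?_ hxa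
    calc (3 : ℝ) ≤ (H : ℝ) ^ (1 : ℝ) := by rw [Real.rpow_one]; exact hH3'
      _ ≤ (H : ℝ) ^ (1 + ∑ t ∈ range T, Bt t) :=
        Real.rpow_le_rpow_of_exponent_le hH1 (by linarith)
  set Λ : ℝ := Real.log xb - Real.log xa with hΛ
  have hxab : xa ≤ xb := by
    refine le_trans ?_ hxb
    nlinarith
  have hΛ1 : 1 ≤ Λ := by
    have h2 : Real.log (xa * H) ≤ Real.log xb := Real.log_le_log (by positivity) hxb
    rw [Real.log_mul (by linarith) (by linarith)] at h2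
    have h3 : 1 ≤ Real.log H := by
      have h4 : Real.exp 1 ≤ H := by
        have := Real.exp_one_lt_d9
        linarith
      have := Real.log_le_log (Real.exp_pos 1) h4
      rwa [Real.log_exp] at this
    rw [hΛ]
    linarith
  -- the data
  set Q : ℕ → ℕ → Dat d := fun t n => ⟨(g n).x, (x n).x, C (k t) (g n) (x n)⟩ with hQ
  have hfn : ∀ t n m, ((Q t n).fn (f t)) m =
      ee (dp (k t) ((g n) ^ m * x n).z) * f t ((g n) ^ m * x n).x := by
    intro t n m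
    obtain ⟨h2, h3⟩ := hC2 (k t) (g n) (x n) m
    rw [h2, h3]
    rfl
  have hslow : ∀ t, SlowA (Q t) ((H : ℝ) ^ A) := fun t =>
    slowA_map (fun v : TS2.Two B × TS2.Two B => (⟨v.1.x, v.2.x, C (k t) v.1 v.2⟩ : Dat d)) hs
  have hw : ∀ n, ‖∑ h ∈ Icc 1 H, muC (n + h) * F ((g n) ^ (n + h) * x n)‖ / H ≤
      ∑ t ∈ range T, M * Wg H n ((Q t n).fn (f t)) + ε / 4 := by
    intro n
    refine window (by omega) hM (fun h => muC (n + h)) (fun h => F ((g n) ^ (n + h) * x n))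
      (fun t h => (Q t n).fn (f t) (n + h)) (fun h => norm_muC _) (fun h => ?_)
    simp only [hfn]
    exact hF _
  have ht : ∀ t ∈ range T, ∑ n ∈ Ioc ⌊xa⌋₊ ⌊xb⌋₊, (1 / (n : ℝ)) * Wg H n ((Q t n).fn (f t)) ≤
      ε₂ * Λ := by
    intro t ht
    have h2 := hsB t ht
    have h3 := hsH t ht
    refine h t H (by omega) xa xb (le_trans ?_ hxa) hxb (Q t) (fun n => hC1 _ _ _) (hslow t)
    exact Real.rpow_le_rpow_of_exponent_le hH1 (by linarith)
  calc ∑ n ∈ Ioc ⌊xa⌋₊ ⌊xb⌋₊, (1 / (n : ℝ)) *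
        (‖∑ h ∈ Icc 1 H, muC (n + h) * F ((g n) ^ (n + h) * x n)‖ / H)
      ≤ ∑ n ∈ Ioc ⌊xa⌋₊ ⌊xb⌋₊, (1 / (n : ℝ)) *
        (∑ t ∈ range T, M * Wg H n ((Q t n).fn (f t)) + ε / 4) :=
        sum_le_sum fun n _ => mul_le_mul_of_nonneg_left (hw n) (by positivity)
    _ = ∑ t ∈ range T, M * ∑ n ∈ Ioc ⌊xa⌋₊ ⌊xb⌋₊, (1 / (n : ℝ)) * Wg H n ((Q t n).fn (f t)) +
        ε / 4 * ∑ n ∈ Ioc ⌊xa⌋₊ ⌊xb⌋₊, (1 / (n : ℝ)) := by
        simp only [mul_add, sum_add_distrib, mul_sum]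
        rw [sum_comm]
        congr 1
        · exact sum_congr rfl fun _ _ => sum_congr rfl fun _ _ => by ring
        · exact sum_congr rfl fun _ _ => by ring
    _ ≤ ∑ t ∈ range T, M * (ε₂ * Λ) + ε / 4 * (Λ + 1) := by
        refine add_le_add (sum_le_sum fun t h2 => mul_le_mul_of_nonneg_left (ht t h2) hM) ?_
        exact mul_le_mul_of_nonneg_left (sum_inv_le xa xb (by linarith) hxab) (by positivity)
    _ = (T * M) * ε₂ * Λ + ε / 4 * (Λ + 1) := by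
        rw [sum_const, card_range, nsmul_eq_mul]
        ring
    _ ≤ ε * Λ := by
        have h2 : (T * M) * ε₂ ≤ ε / 2 := by
          rw [hε₂, ← mul_div_assoc, div_le_div_iff₀ (by positivity) (by norm_num)]
          nlinarith
        have h3 : (T * M) * ε₂ * Λ ≤ ε / 2 * Λ := mul_le_mul_of_nonneg_right h2 (by linarith)
        have h4 : ε / 4 * (Λ + 1) ≤ ε / 4 * (2 * Λ) :=
          mul_le_mul_of_nonneg_left (by linarith) (by positivity)
        linarith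

end Pool.Agent.NV
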