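import Mathlib
import Pool.Agent.Lib.NV.Defs

/-!
# Theorem NV (MP_663568_nt) with free phases without linear term.  Definitions and rows.  (helper19)

`NSW t D`: as `NS D`, with the nilsequence multiplied by `e(P_n)`, where `P_n` is any real polynomial
of degree at most `t` with `P_n'(n) = 0` (no condition on the dependence on `n`).
-/

set_option autoImplicit false
open Finset MeasureTheory Polynomial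

namespace Pool.Agent.NV

open Pool.Agent.Lib.MP_663568_nt Pool.Agent.Lib.MP_663568_nt.Katai
  Pool.Agent.Lib.MP_663568_nt.Nul Pool.Agent.SV Pool.Agent.VQ

noncomputable section

/-- The function `m ↦ e(P(m)) Φ(m)`. -/
def tw (P : ℝ[X]) (Φ : ℕ → ℂ) (m : ℕ) : ℂ := ee (P.eval (m : ℝ)) * Φ m

/-- **The statement for the dimension `D`**, with free phases without linear term. -/
def NSW (t D : ℕ) : Prop := ∀ (b : Fin D → Fin D → ℤ) (f : (Fin D → ℝ) → ℂ), QP b f →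
  ∀ A ε : ℝ, 0 ≤ A → 0 < ε → ∃ (B : ℝ) (H₀ : ℕ), 0 ≤ B ∧
  ∀ H : ℕ, H₀ ≤ H → ∀ xa xb : ℝ, (H : ℝ) ^ B ≤ xa → xa * H ≤ xb → ∀ Q : ℕ → Dat D,
  (∀ n, (Q n).Dg) → SlowA Q ((H : ℝ) ^ A) → ∀ P : ℕ → ℝ[X], (∀ n, (P n).natDegree ≤ t) →
  (∀ n : ℕ, (P n).derivative.eval (n : ℝ) = 0) →
  ∑ n ∈ Ioc ⌊xa⌋₊ ⌊xb⌋₊, (1 / (n : ℝ)) * Wg H n (tw (P n) ((Q n).fn f)) ≤
    ε * (Real.log xb - Real.log xa)

open Classical in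
/-- Row CLUF: in a region one polynomial is, up to a frequency `k · a`, related to a positive
proportion of the others (`VQ.CLU'` with the nilsequence as a weight). -/
def CLUF' : Prop := ∀ (D : ℕ) (b : Fin D → Fin D → ℤ) (f : (Fin D → ℝ) → ℂ), QP b f →
  ∀ (t : ℕ) (ε : ℝ), 1 ≤ t → 0 < ε → ε ≤ 1 →
  ∃ (c₁ E : ℝ) (qs H₀ : ℕ) (KK : Finset (Fin D → ℤ)), 0 < c₁ ∧ c₁ ≤ 1 ∧ 0 < E ∧ 1 ≤ qs ∧
  ∀ H L m₀ : ℕ, H₀ ≤ H → L = ⌊ε / 16 * (H : ℝ)⌋₊ → ∀ (X : Dat D) (J : Finset ℕ)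
  (Q : ℕ → ℝ[X]), (∀ j ∈ J, j < L) → ε / 8 * (L : ℝ) ≤ (#J : ℝ) →
  (∀ j ∈ J, (Q j).natDegree ≤ t) → (∀ j ∈ J, ε / 2 ≤ Wg H (m₀ + j) (tw (Q j) (X.fn f))) →
  ∃ (P : ℝ[X]) (k : Fin D → ℤ), k ∈ KK ∧ P.natDegree ≤ t ∧
    ε / 4 ≤ Wg (H - L) (m₀ + L) (tw P (X.fn f)) ∧
    c₁ * (L : ℝ) ≤ (#(J.filter fun j : ℕ => nd ((qs : ℝ) *
      (P.derivative.eval ((m₀ : ℝ) + j) - (Q j).derivative.eval ((m₀ : ℝ) + j) + dp k X.a)) ≤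
        E / H) : ℝ)
def CLUF_stmt : Prop := PAIRA_stmt → TRIG_stmt → CLUF'

/-- Row SUBQF: from the phase `P` to the phases `Q + b X / Q₃` on shorter windows
(`VQ.SUBQ_stmt` with a bounded weight). -/
def SUBQF_stmt : Prop := ∀ (t Q₃ : ℕ) (ε E' : ℝ), 1 ≤ t → 1 ≤ Q₃ → 0 < ε → ε ≤ 1 → 0 < E' →
  ∃ (η : ℝ) (H₀ : ℕ), 0 < η ∧ η ≤ 1 ∧ ∀ H L m₀ l : ℕ, H₀ ≤ H → L = ⌊ε / 16 * (H : ℝ)⌋₊ →
  l = ⌊η * (H : ℝ)⌋₊ → ∀ Φ : ℕ → ℂ, (∀ m, ‖Φ m‖ ≤ 1) → ∀ P Q : ℝ[X], (P - Q).natDegree ≤ t →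
  (∀ i, 1 ≤ i → i ≤ t → nd ((Q₃ : ℝ) * (taylor (m₀ : ℝ) (P - Q)).coeff i) ≤ E' / (L : ℝ) ^ i) →
  ε / 4 ≤ Wg (H - L) (m₀ + L) (tw P Φ) →
  ε / 16 * (H : ℝ) ≤ ∑ x ∈ Ioc m₀ (m₀ + H), ∑ b ∈ range Q₃,
    Wg l x (tw (Q + C ((b : ℝ) / Q₃) * X) Φ)

/-- Row WNFIN: assembly (`VQ.WFIN_stmt`). -/
def WNFIN_stmt : Prop := CLUF' → STR' → SUBQF_stmt → REG_stmt → ∀ t D : ℕ, 1 ≤ t → NS D → NSW t D

/-- **Theorem NVW**: one window, all groups of step two, free phases without linear term. -/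
def NVWT : Prop := ∀ (t d r : ℕ) (B : Fin r → Fin d → Fin d → ℤ) (F : TS2.Two B → ℂ), 1 ≤ t →
  Continuous F → (∀ g : TS2.Two B, ∀ γ ∈ TS2.Gam B, F (g * γ) = F g) → ∀ A ε : ℝ, 0 ≤ A →
  0 < ε → ∃ (B₀ : ℝ) (H₀ : ℕ), 0 ≤ B₀ ∧ ∀ H : ℕ, H₀ ≤ H → ∀ xa xb : ℝ, (H : ℝ) ^ B₀ ≤ xa →
  xa * H ≤ xb → ∀ g x : ℕ → TS2.Two B, SlowA (fun n => (g n, x n)) ((H : ℝ) ^ A) →
  ∀ P : ℕ → ℝ[X], (∀ n, (P n).natDegree ≤ t) → (∀ n : ℕ, (P n).derivative.eval (n : ℝ) = 0) →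
  ∑ n ∈ Ioc ⌊xa⌋₊ ⌊xb⌋₊, (1 / (n : ℝ)) *
    (‖∑ h ∈ Icc 1 H, muC (n + h) * (ee ((P n).eval (((n + h : ℕ) : ℝ))) *
      F ((g n) ^ (n + h) * x n))‖ / H) ≤ ε * (Real.log xb - Real.log xa)

/-- Row WNGRP: the theorem for the groups (`NFIN_stmt` with the free phases). -/
def WNGRP_stmt : Prop := VRTA_stmt → POW_stmt → (∀ t D, 1 ≤ t → NSW t D) → NVWT

end

end Pool.Agent.NV
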