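import Mathlib
import Pool.Agent.Lib.NV.WDefs

/-!
# Theorem NVW (MP_663568_nt): the supremum over the free phases inside (helper95)
-/

set_option autoImplicit false
open Finset MeasureTheory Polynomial

namespace Pool.Agent.NV

open Pool.Agent.Lib.MP_663568_nt Pool.Agent.Lib.MP_663568_nt.Katai
  Pool.Agent.Lib.MP_663568_nt.Nul Pool.Agent.SV Pool.Agent.VQ

noncomputable section

namespace SUPx

theorem sum_inv_le (xa xb : ℝ) (hxa : 2 ≤ xa) (hab : xa ≤ xb) :
    ∑ n ∈ Ioc ⌊xa⌋₊ ⌊xb⌋₊, (1 / (n : ℝ)) ≤ Real.log xb - Real.log xa + 1 := by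
  have h1 : ∀ a b : ℕ, 1 ≤ a → a ≤ b → ∑ n ∈ Ioc a b, (1 / (n : ℝ)) ≤
      Real.log b - Real.log a := by
    intro a b ha hab
    induction b, hab using Nat.le_induction with
    | base => simp
    | succ b hab ih =>
      rw [← Finset.insert_Ioc_right_eq_Ioc_add_one (by omega), sum_insert (by simp)]
      have hb0 : (0 : ℝ) < b := by
        have : 0 < b := by omega
        exact_mod_cast this
      have h2 : 1 / ((b + 1 : ℕ) : ℝ) ≤ Real.log ((b + 1 : ℕ) : ℝ) - Real.log b := by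
        have h3 := Real.log_le_sub_one_of_pos (show 0 < (b : ℝ) / (b + 1) by positivity)
        rw [Real.log_div hb0.ne' (by positivity)] at h3
        have h4 : (b : ℝ) / (b + 1) - 1 = -(1 / (b + 1)) := by field_simp; ring
        rw [h4] at h3
        push_cast
        linarith
      linarith
  have h0 : 2 ≤ ⌊xa⌋₊ := Nat.le_floor (by exact_mod_cast hxa)
  refine (h1 _ _ (by omega) (Nat.floor_mono hab)).trans ?_
  have h2 : Real.log (⌊xb⌋₊ : ℝ) ≤ Real.log xb := by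
    apply Real.log_le_log
    · have : 0 < ⌊xb⌋₊ := lt_of_lt_of_le (by omega) (Nat.floor_mono hab)
      exact_mod_cast this
    · exact Nat.floor_le (by linarith)
  have h3 : Real.log xa - 1 ≤ Real.log (⌊xa⌋₊ : ℝ) := by
    have h4 : xa / Real.exp 1 ≤ (⌊xa⌋₊ : ℝ) := by
      have h5 := Nat.lt_floor_add_one xa
      have h6 : (2 : ℝ) ≤ Real.exp 1 := by
        have := Real.add_one_le_exp (1 : ℝ)
        linarith
      rw [div_le_iff₀ (Real.exp_pos 1)]
      have h7 : (2 : ℝ) ≤ ⌊xa⌋₊ := by exact_mod_cast h0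
      nlinarith
    have h5 := Real.log_le_log (by positivity) h4
    rwa [Real.log_div (by linarith) (Real.exp_ne_zero 1), Real.log_exp] at h5
  linarith

/-- The set is contained in the dyadic block. -/
lemma slowA_of_ncard {α : Type} {Q : ℕ → α} {K : ℝ}
    (h : ∀ j : ℕ, (({n : ℕ | 2 ^ j ≤ n ∧ n < 2 ^ (j + 1) ∧ Q (n + 1) ≠ Q n}.ncard : ℕ) : ℝ) ≤ K) :
    SlowA Q K := by
  classical
  intro j
  have h1 := h j
  have h2 : {n : ℕ | 2 ^ j ≤ n ∧ n < 2 ^ (j + 1) ∧ Q (n + 1) ≠ Q n} =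
      (((Ico (2 ^ j) (2 ^ (j + 1))).filter fun n => Q (n + 1) ≠ Q n : Finset ℕ) : Set ℕ) := by
    ext n
    simp [and_assoc]
  rw [h2, Set.ncard_coe_finset] at h1
  convert h1

end SUPx

open SUPx

/-- The free phases: degree at most `t`, no linear term. -/
def Fre (t : ℕ) : Type := {P : ℝ[X] // P.natDegree ≤ t ∧ P.coeff 1 = 0}

/-- The sum over the window. -/
def Sg {d r : ℕ} {B : Fin r → Fin d → Fin d → ℤ} (f : TS2.Two B ⧸ TS2.Gam B → ℂ)
    (g x : TS2.Two B) (H n : ℕ) (P : ℝ[X]) : ℝ :=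
  ‖∑ h ∈ Icc 1 H, f (QuotientGroup.mk (g ^ (n + h) * x)) *
    Complex.exp (2 * Real.pi * Complex.I * ((P.eval (h : ℝ) : ℝ) : ℂ)) *
      ((ArithmeticFunction.moebius (n + h) : ℤ) : ℂ)‖

namespace SUPx

variable {d r : ℕ} {B : Fin r → Fin d → Fin d → ℤ}

lemma Sg_eq (f : TS2.Two B ⧸ TS2.Gam B → ℂ) (g x : TS2.Two B) {H : ℕ} (hH : 1 ≤ H) (n : ℕ)
    (P : ℝ[X]) : Sg f g x H n P = H * (‖∑ h ∈ Icc 1 H, muC (n + h) *
      (ee ((P.comp (X - C (n : ℝ))).eval (((n + h : ℕ) : ℝ))) *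
      (fun u : TS2.Two B => f (QuotientGroup.mk u)) (g ^ (n + h) * x))‖ / H) := by
  have hH0 : (H : ℝ) ≠ 0 := by
    have : 0 < H := hH
    positivity
  rw [mul_div_cancel₀ _ hH0]
  unfold Sg
  congr 1
  refine sum_congr rfl fun h _ => ?_
  have h1 : (P.comp (X - C (n : ℝ))).eval (((n + h : ℕ) : ℝ)) = P.eval (h : ℝ) := by
    rw [eval_comp]
    simp only [eval_sub, eval_X, eval_C]
    push_cast
    rw [add_sub_cancel_left]
  rw [h1]
  unfold muC ee
  ring

lemma Sg_le {f : TS2.Two B ⧸ TS2.Gam B → ℂ} {M : ℝ} (hM : ∀ u, ‖f u‖ ≤ M) (g x : TS2.Two B)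
    (H n : ℕ) (P : ℝ[X]) : Sg f g x H n P ≤ H * M := by
  unfold Sg
  refine (norm_sum_le _ _).trans ?_
  have hM0 : 0 ≤ M := (norm_nonneg _).trans (hM (QuotientGroup.mk 1))
  have h1 : ∀ h ∈ Icc 1 H, ‖f (QuotientGroup.mk (g ^ (n + h) * x)) *
    Complex.exp (2 * Real.pi * Complex.I * ((P.eval (h : ℝ) : ℝ) : ℂ)) *
      ((ArithmeticFunction.moebius (n + h) : ℤ) : ℂ)‖ ≤ M := by
    intro h _
    rw [norm_mul, norm_mul]
    have h2 : ‖Complex.exp (2 * Real.pi * Complex.I * ((P.eval (h : ℝ) : ℝ) : ℂ))‖ = 1 := by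
      have : (2 * Real.pi * Complex.I * ((P.eval (h : ℝ) : ℝ) : ℂ)) =
          ((2 * Real.pi * P.eval (h : ℝ) : ℝ) : ℂ) * Complex.I := by
        push_cast
        ring
      rw [this, Complex.norm_exp_ofReal_mul_I]
    rw [h2, mul_one]
    calc _ ≤ M * 1 := mul_le_mul (hM _) (norm_muC _) (norm_nonneg _) hM0
      _ = M := mul_one _
  refine (sum_le_sum h1).trans ?_
  simp

end SUPx

/-- **Theorem NVW** with the supremum over the free phases inside. -/
theorem nvw_sup (hV : NVWT) {d r : ℕ} (B : Fin r → Fin d → Fin d → ℤ)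
    (f : TS2.Two B ⧸ TS2.Gam B → ℂ) (hf : Continuous f) {M : ℝ} (hM : ∀ u, ‖f u‖ ≤ M) (t : ℕ)
    (A ε : ℝ) (hε : 0 < ε) :
    ∃ (C : ℝ) (H₀ : ℕ), ∀ H : ℕ, H₀ ≤ H → ∀ x y : ℝ, (H : ℝ) ^ C ≤ x → x * H ≤ y →
    ∀ g b : ℕ → TS2.Two B, (∀ j : ℕ, (({n : ℕ | 2 ^ j ≤ n ∧ n < 2 ^ (j + 1) ∧
      (g (n + 1), b (n + 1)) ≠ (g n, b n)}.ncard : ℕ) : ℝ) ≤ (H : ℝ) ^ A) →
    ∑ n ∈ Ioc ⌊x⌋₊ ⌊y⌋₊, (1 / (n : ℝ)) * ⨆ P : Fre t, Sg f (g n) (b n) H n P.1 ≤
      ε * H * Real.log (y / x) := by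
  have hF : Continuous fun u : TS2.Two B => f (QuotientGroup.mk u) :=
    hf.comp continuous_quotient_mk'
  have hper : ∀ g : TS2.Two B, ∀ γ ∈ TS2.Gam B,
      (fun u : TS2.Two B => f (QuotientGroup.mk u)) (g * γ) =
        (fun u : TS2.Two B => f (QuotientGroup.mk u)) g := by
    intro g γ hγ
    show f (QuotientGroup.mk (g * γ)) = f (QuotientGroup.mk g)
    rw [QuotientGroup.mk_mul_of_mem g hγ]
  obtain ⟨B₀, H₀, hB, hV⟩ := hV (max t 1) d r B (fun u => f (QuotientGroup.mk u))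
    (le_max_right _ _) hF hper (max A 0) (ε / 2) (le_max_right _ _) (by positivity)
  refine ⟨B₀ + 1, max H₀ 3, ?_⟩
  intro H hH x y hx hxy g b hs
  have hHa : H₀ ≤ H := (le_max_left _ _).trans hH
  have hH3N : 3 ≤ H := (le_max_right _ _).trans hH
  have hH3 : (3 : ℝ) ≤ H := by exact_mod_cast hH3N
  have hH0 : (0 : ℝ) < H := by linarith
  have hH1 : (1 : ℝ) ≤ H := by linarith
  have hxaH : (H : ℝ) ≤ x := by
    refine le_trans ?_ hx
    calc (H : ℝ) = (H : ℝ) ^ (1 : ℝ) := (Real.rpow_one _).symm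
      _ ≤ _ := Real.rpow_le_rpow_of_exponent_le hH1 (by linarith)
  have hx0 : 0 < x := by linarith
  have hxab : x ≤ y := by
    refine le_trans ?_ hxy
    nlinarith
  have hy0 : 0 < y := by linarith
  have hΛ : 1 ≤ Real.log y - Real.log x := by
    have h1 := Real.log_le_log (by positivity) hxy
    rw [Real.log_mul hx0.ne' hH0.ne'] at h1
    have h2 : 1 ≤ Real.log H := by
      rw [Real.le_log_iff_exp_le hH0]
      have := Real.exp_one_lt_d9
      linarith
    linarith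
  have hsum := sum_inv_le x y (by linarith) hxab
  -- the choice
  have hne : Nonempty (Fre t) := ⟨⟨0, by simp, by simp⟩⟩
  have hbdd : ∀ n, BddAbove (Set.range fun P : Fre t => Sg f (g n) (b n) H n P.1) := fun n =>
    ⟨H * M, by
      rintro _ ⟨P, rfl⟩
      exact Sg_le hM _ _ H n P.1⟩
  have hex : ∀ n : ℕ, ∃ P : Fre t,
      (⨆ P : Fre t, Sg f (g n) (b n) H n P.1) - ε / 4 < Sg f (g n) (b n) H n P.1 := by
    intro n
    exact exists_lt_of_lt_ciSup (by linarith)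
  choose P hP using hex
  have hmain := hV H hHa x y ((Real.rpow_le_rpow_of_exponent_le hH1 (by linarith)).trans hx) hxy g
    b (slowA_of_ncard fun j => (hs j).trans
      (Real.rpow_le_rpow_of_exponent_le hH1 (le_max_left _ _)))
    (fun n => (P n).1.comp (X - C (n : ℝ))) (fun n => by
      rw [natDegree_comp, natDegree_X_sub_C, mul_one]
      exact (P n).2.1.trans (le_max_left _ _)) (fun n => by
      rw [derivative_comp, eval_mul, eval_comp]
      simp only [derivative_sub, derivative_X, derivative_C, sub_zero, eval_one, eval_sub,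
        eval_X, eval_C, sub_self]
      rw [← coeff_zero_eq_eval_zero, coeff_derivative, zero_add, (P n).2.2]
      simp)
  rw [Real.log_div hy0.ne' hx0.ne']
  set W : ℕ → ℝ := fun n => ‖∑ h ∈ Icc 1 H, muC (n + h) *
      (ee (((P n).1.comp (X - C (n : ℝ))).eval (((n + h : ℕ) : ℝ))) *
      (fun u : TS2.Two B => f (QuotientGroup.mk u)) (g n ^ (n + h) * b n))‖ / H with hW
  calc ∑ n ∈ Ioc ⌊x⌋₊ ⌊y⌋₊, (1 / (n : ℝ)) * ⨆ P : Fre t, Sg f (g n) (b n) H n P.1
      ≤ ∑ n ∈ Ioc ⌊x⌋₊ ⌊y⌋₊, (1 / (n : ℝ)) * (H * W n + ε / 4) := by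
        refine sum_le_sum fun n _ => ?_
        have h1 := hP n
        rw [Sg_eq f (g n) (b n) (by omega) n] at h1
        have h2 : (⨆ P : Fre t, Sg f (g n) (b n) H n P.1) ≤ H * W n + ε / 4 := by
          have : (⨆ P : Fre t, Sg f (g n) (b n) H n P.1) - ε / 4 < H * W n := h1
          linarith
        exact mul_le_mul_of_nonneg_left h2 (by positivity)
    _ = H * ∑ n ∈ Ioc ⌊x⌋₊ ⌊y⌋₊, (1 / (n : ℝ)) * W n +
        (∑ n ∈ Ioc ⌊x⌋₊ ⌊y⌋₊, (1 / (n : ℝ))) * (ε / 4) := by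
        rw [mul_sum, sum_mul, ← sum_add_distrib]
        refine sum_congr rfl fun n _ => ?_
        ring
    _ ≤ H * (ε / 2 * (Real.log y - Real.log x)) +
        (2 * (Real.log y - Real.log x)) * (ε / 4) := by
        refine add_le_add (mul_le_mul_of_nonneg_left hmain hH0.le) ?_
        exact mul_le_mul_of_nonneg_right (by linarith) (by positivity)
    _ = (H / 2 + 1 / 2) * (ε * (Real.log y - Real.log x)) := by ring
    _ ≤ H * (ε * (Real.log y - Real.log x)) := by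
        refine mul_le_mul_of_nonneg_right (by linarith) ?_
        exact mul_nonneg hε.le (by linarith)
    _ = ε * H * (Real.log y - Real.log x) := by ring

end

end Pool.Agent.NV
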