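import Mathlib
import Pool.Agent.Lib.NV.WDefs
import Pool.Agent.Lib.NV.Sup
import Pool.Agent.Lib.NV.NFIN

/-!
# Theorem NVO (MP_663568_nt): all polynomial orbits in groups of step two (helper95)

The horizontal part of the orbit is `(n + h) a_n + y_n`, the central part `P(h)` is any polynomial
of degree at most `t` with the linear coefficients `q_n'(n)`, `q_n` of degree at most two; the
triple `(a_n, y_n, q_n)` has few changes.
-/

set_option autoImplicit false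
open Finset MeasureTheory Polynomial

namespace Pool.Agent.NV

open Pool.Agent.Lib.MP_663568_nt Pool.Agent.Lib.MP_663568_nt.Katai
  Pool.Agent.Lib.MP_663568_nt.Nul Pool.Agent.SV Pool.Agent.VQ

noncomputable section

/-- The admissible central parts. -/
def Cen {r : ℕ} (t : ℕ) (q : Fin r → ℝ[X]) (n : ℕ) : Type :=
  {P : Fin r → ℝ[X] // (∀ c, (P c).natDegree ≤ t) ∧
    ∀ c, (P c).coeff 1 = (q c).derivative.eval (n : ℝ)}

/-- The sum over the window. -/
def So {d r : ℕ} {B : Fin r → Fin d → Fin d → ℤ} (f : TS2.Two B ⧸ TS2.Gam B → ℂ)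
    (a y : Fin d → ℝ) (H n : ℕ) (P : Fin r → ℝ[X]) : ℝ :=
  ‖∑ h ∈ Icc 1 H, f (QuotientGroup.mk (⟨((n : ℝ) + h) • a + y, fun c => (P c).eval (h : ℝ)⟩ :
    TS2.Two B)) * ((ArithmeticFunction.moebius (n + h) : ℤ) : ℂ)‖

namespace ORBx

variable {d r : ℕ} {B : Fin r → Fin d → Fin d → ℤ}

/-- `k · P` -/
def kp (k : Fin r → ℤ) (P : Fin r → ℝ[X]) : ℝ[X] := ∑ c, C (k c : ℝ) * P c

lemma kp_eval (k : Fin r → ℤ) (P : Fin r → ℝ[X]) (x : ℝ) :
    (kp k P).eval x = dp k (fun c => (P c).eval x) := by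
  simp only [kp, dp, eval_finsetSum, eval_mul, eval_C]

lemma kp_natDegree (k : Fin r → ℤ) (P : Fin r → ℝ[X]) {t : ℕ} (h : ∀ c, (P c).natDegree ≤ t) :
    (kp k P).natDegree ≤ t :=
  natDegree_sum_le_of_forall_le _ _ fun c _ => (natDegree_C_mul_le _ _).trans (h c)

lemma kp_derivative (k : Fin r → ℤ) (P : Fin r → ℝ[X]) :
    (kp k P).derivative = kp k (fun c => (P c).derivative) := by
  simp only [kp, derivative_sum, derivative_C_mul]

lemma So_le {f : TS2.Two B ⧸ TS2.Gam B → ℂ} {M : ℝ} (hM : ∀ u, ‖f u‖ ≤ M) (a y : Fin d → ℝ)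
    (H n : ℕ) (P : Fin r → ℝ[X]) : So f a y H n P ≤ H * M := by
  unfold So
  refine (norm_sum_le _ _).trans ?_
  have hM0 : 0 ≤ M := (norm_nonneg _).trans (hM (QuotientGroup.mk 1))
  have h1 : ∀ h ∈ Icc 1 H, ‖f (QuotientGroup.mk (⟨((n : ℝ) + h) • a + y,
      fun c => (P c).eval (h : ℝ)⟩ : TS2.Two B)) *
      ((ArithmeticFunction.moebius (n + h) : ℤ) : ℂ)‖ ≤ M := by
    intro h _
    rw [norm_mul]
    calc _ ≤ M * 1 := mul_le_mul (hM _) (norm_muC _) (norm_nonneg _) hM0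
      _ = M := mul_one _
  refine (sum_le_sum h1).trans ?_
  simp

end ORBx

open ORBx SUPx

/-- **Theorem NVO**: polynomial orbits in groups of step two, the supremum over the central parts
inside. -/
theorem nvw_orb (hV : VRTA_stmt) (hN : ∀ t D : ℕ, 1 ≤ t → NSW t D) {d r : ℕ}
    (B : Fin r → Fin d → Fin d → ℤ) (f : TS2.Two B ⧸ TS2.Gam B → ℂ) (hf : Continuous f)
    (t : ℕ) (ht : 1 ≤ t) (A ε : ℝ) (hε : 0 < ε) :
    ∃ (C₀ : ℝ) (H₀ : ℕ), ∀ H : ℕ, H₀ ≤ H → ∀ x y : ℝ, (H : ℝ) ^ C₀ ≤ x → x * H ≤ y →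
    ∀ (a b : ℕ → Fin d → ℝ) (q : ℕ → Fin r → ℝ[X]), (∀ n c, (q n c).natDegree ≤ 2) →
    (∀ j : ℕ, (({n : ℕ | 2 ^ j ≤ n ∧ n < 2 ^ (j + 1) ∧
      (a (n + 1), b (n + 1), q (n + 1)) ≠ (a n, b n, q n)}.ncard : ℕ) : ℝ) ≤ (H : ℝ) ^ A) →
    ∑ n ∈ Ioc ⌊x⌋₊ ⌊y⌋₊, (1 / (n : ℝ)) * ⨆ P : Cen t (q n) n, So f (a n) (b n) H n P.1 ≤
      ε * H * Real.log (y / x) := by
  have hF : Continuous fun u : TS2.Two B => f (QuotientGroup.mk u) :=
    hf.comp continuous_quotient_mk'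
  have hper : ∀ g : TS2.Two B, ∀ γ ∈ TS2.Gam B,
      (fun u : TS2.Two B => f (QuotientGroup.mk u)) (g * γ) =
        (fun u : TS2.Two B => f (QuotientGroup.mk u)) g := by
    intro g γ hγ
    show f (QuotientGroup.mk (g * γ)) = f (QuotientGroup.mk g)
    rw [QuotientGroup.mk_mul_of_mem g hγ]
  obtain ⟨T, M, k, fs, hM, hq, hFs⟩ := hV d r B _ hF hper (ε / 8) (by positivity)
  set A' : ℝ := max A 0 with hA'
  set ε₂ : ℝ := ε / (4 * (T * M + 1)) with hε₂
  have hTM : 0 ≤ (T : ℝ) * M := by positivity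
  have hε₂0 : 0 < ε₂ := by positivity
  have h1 : ∀ i, ∃ (B₀ : ℝ) (H₀ : ℕ), 0 ≤ B₀ ∧
      ∀ H : ℕ, H₀ ≤ H → ∀ xa xb : ℝ, (H : ℝ) ^ B₀ ≤ xa → xa * H ≤ xb → ∀ Q : ℕ → Dat d,
      (∀ n, (Q n).Dg) → SlowA Q ((H : ℝ) ^ A') → ∀ P : ℕ → ℝ[X],
      (∀ n, (P n).natDegree ≤ max t 2) → (∀ n : ℕ, (P n).derivative.eval (n : ℝ) = 0) →
      ∑ n ∈ Ioc ⌊xa⌋₊ ⌊xb⌋₊, (1 / (n : ℝ)) * Wg H n (tw (P n) ((Q n).fn (fs i))) ≤
        ε₂ * (Real.log xb - Real.log xa) := fun i =>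
    hN (max t 2) d (le_max_of_le_left ht) _ _ (hq i) A' ε₂ (le_max_right _ _) hε₂0
  choose Bt Ht hBt hmain using h1
  have hsB : ∀ i ∈ range T, Bt i ≤ ∑ i ∈ range T, Bt i := fun i hi =>
    single_le_sum (fun i _ => hBt i) hi
  have hsH : ∀ i ∈ range T, Ht i ≤ ∑ i ∈ range T, Ht i := fun i hi =>
    single_le_sum (f := Ht) (fun i _ => Nat.zero_le _) hi
  refine ⟨1 + ∑ i ∈ range T, Bt i, 3 + ∑ i ∈ range T, Ht i, ?_⟩
  intro H hH x y hx hxy a b q hqd hs
  have hH3N : 3 ≤ H := by omega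
  have hH3 : (3 : ℝ) ≤ H := by exact_mod_cast hH3N
  have hH0 : (0 : ℝ) < H := by linarith
  have hH1 : (1 : ℝ) ≤ H := by linarith
  have hsum0 : 0 ≤ ∑ i ∈ range T, Bt i := sum_nonneg fun i _ => hBt i
  have hxaH : (H : ℝ) ≤ x := by
    refine le_trans ?_ hx
    calc (H : ℝ) = (H : ℝ) ^ (1 : ℝ) := (Real.rpow_one _).symm
      _ ≤ _ := Real.rpow_le_rpow_of_exponent_le hH1 (by linarith)
  have hx0 : 0 < x := by linarith
  have hxab : x ≤ y := by
    refine le_trans ?_ hxy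
    nlinarith
  have hy0 : 0 < y := by linarith
  have hΛ : 1 ≤ Real.log y - Real.log x := by
    have h1 := Real.log_le_log (by positivity) hxy
    rw [Real.log_mul hx0.ne' hH0.ne'] at h1
    have h2 : 1 ≤ Real.log H := by
      rw [Real.le_log_iff_exp_le hH0]
      have := Real.exp_one_lt_d9
      linarith
    linarith
  set Λ : ℝ := Real.log y - Real.log x with hΛd
  have hsum := SUPx.sum_inv_le x y (by linarith) hxab
  -- the choice
  have hne : ∀ n, Nonempty (Cen t (q n) n) := fun n =>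
    ⟨⟨fun c => C ((q n c).derivative.eval (n : ℝ)) * X, fun c =>
      (natDegree_C_mul_le _ _).trans (natDegree_X_le.trans ht), fun c => by simp⟩⟩
  have hex : ∀ n : ℕ, ∃ P : Cen t (q n) n,
      (⨆ P : Cen t (q n) n, So f (a n) (b n) H n P.1) - ε / 4 < So f (a n) (b n) H n P.1 := by
    intro n
    have := hne n
    exact exists_lt_of_lt_ciSup (by linarith)
  choose P hP using hex
  -- the data
  set Q : ℕ → ℕ → Dat d := fun i n => ⟨a n, b n, kp (k i) (q n)⟩ with hQ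
  set R : ℕ → ℕ → ℝ[X] := fun i n =>
    (kp (k i) (P n).1).comp (X - C (n : ℝ)) - kp (k i) (q n) with hR
  have hRd : ∀ i n, (R i n).natDegree ≤ max t 2 := by
    intro i n
    refine (natDegree_sub_le _ _).trans (max_le_max ?_ (kp_natDegree _ _ (hqd n)))
    rw [natDegree_comp, natDegree_X_sub_C, mul_one]
    exact kp_natDegree _ _ (P n).2.1
  have hR0 : ∀ i (n : ℕ), (R i n).derivative.eval (n : ℝ) = 0 := by
    intro i n
    simp only [hR]
    rw [derivative_sub, derivative_comp, eval_sub, eval_mul, eval_comp]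
    simp only [derivative_sub, derivative_X, derivative_C, sub_zero, eval_one, eval_sub,
      eval_X, eval_C, sub_self, one_mul]
    rw [kp_derivative, kp_derivative, kp_eval, kp_eval, sub_eq_zero]
    congr 1
    funext c
    rw [← (P n).2.2 c, ← coeff_zero_eq_eval_zero, coeff_derivative]
    simp
  have hslow : ∀ i, SlowA (Q i) ((H : ℝ) ^ A') := fun i =>
    NFINx.slowA_map (fun v : (Fin d → ℝ) × (Fin d → ℝ) × (Fin r → ℝ[X]) =>
      (⟨v.1, v.2.1, kp (k i) v.2.2⟩ : Dat d)) (slowA_of_ncard (Q := fun n => (a n, b n, q n))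
        fun j => (hs j).trans (Real.rpow_le_rpow_of_exponent_le hH1 (le_max_left _ _)))
  have hfn : ∀ i n h : ℕ, tw (R i n) ((Q i n).fn (fs i)) (n + h) =
      ee (dp (k i) (fun c => ((P n).1 c).eval (h : ℝ))) * fs i (((n : ℝ) + h) • a n + b n) := by
    intro i n h
    simp only [tw, Dat.fn, hQ, hR]
    rw [eval_sub, eval_comp, ← mul_assoc, ← ee_add, sub_add_cancel, kp_eval]
    have h1 : (X - C (n : ℝ)).eval (((n + h : ℕ) : ℝ)) = (h : ℝ) := by
      simp only [eval_sub, eval_X, eval_C]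
      push_cast
      rw [add_sub_cancel_left]
    rw [h1]
    push_cast
    rfl
  have hw : ∀ n, So f (a n) (b n) H n (P n).1 ≤
      H * (∑ i ∈ range T, M * Wg H n (tw (R i n) ((Q i n).fn (fs i))) + ε / 8) := by
    intro n
    have h2 := NFINx.window (T := T) (H := H) (by omega) (M := M) (e := ε / 8) hM
      (fun h => muC (n + h))
      (fun h => f (QuotientGroup.mk (⟨((n : ℝ) + h) • a n + b n,
        fun c => ((P n).1 c).eval (h : ℝ)⟩ : TS2.Two B)))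
      (fun i h => tw (R i n) ((Q i n).fn (fs i)) (n + h)) (fun h => norm_muC _) (fun h => by
        simp only [hfn]
        exact hFs ⟨((n : ℝ) + h) • a n + b n, fun c => ((P n).1 c).eval (h : ℝ)⟩)
    rw [div_le_iff₀ hH0] at h2
    have h3 : So f (a n) (b n) H n (P n).1 = ‖∑ h ∈ Icc 1 H, muC (n + h) *
        f (QuotientGroup.mk (⟨((n : ℝ) + h) • a n + b n,
        fun c => ((P n).1 c).eval (h : ℝ)⟩ : TS2.Two B))‖ := by
      unfold So
      congr 1
      exact sum_congr rfl fun h _ => by unfold muC; ring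
    rw [h3, mul_comm (H : ℝ)]
    exact h2
  have hti : ∀ i ∈ range T, ∑ n ∈ Ioc ⌊x⌋₊ ⌊y⌋₊, (1 / (n : ℝ)) *
      Wg H n (tw (R i n) ((Q i n).fn (fs i))) ≤ ε₂ * Λ := by
    intro i hi
    have h2 := hsB i hi
    have h3 := hsH i hi
    refine hmain i H (by omega) x y (le_trans ?_ hx) hxy (Q i)
      (fun n => kp_natDegree _ _ (hqd n)) (hslow i) (R i) (hRd i) (hR0 i)
    exact Real.rpow_le_rpow_of_exponent_le hH1 (by linarith)
  rw [Real.log_div hy0.ne' hx0.ne']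
  calc ∑ n ∈ Ioc ⌊x⌋₊ ⌊y⌋₊, (1 / (n : ℝ)) * ⨆ P : Cen t (q n) n, So f (a n) (b n) H n P.1
      ≤ ∑ n ∈ Ioc ⌊x⌋₊ ⌊y⌋₊, (1 / (n : ℝ)) *
        (H * (∑ i ∈ range T, M * Wg H n (tw (R i n) ((Q i n).fn (fs i))) + ε / 8) + ε / 4) := by
        refine sum_le_sum fun n _ => mul_le_mul_of_nonneg_left ?_ (by positivity)
        have h1 := hP n
        have h2 := hw n
        linarith
    _ = H * ∑ i ∈ range T, M * ∑ n ∈ Ioc ⌊x⌋₊ ⌊y⌋₊, (1 / (n : ℝ)) *
          Wg H n (tw (R i n) ((Q i n).fn (fs i))) +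
        (H * (ε / 8) + ε / 4) * ∑ n ∈ Ioc ⌊x⌋₊ ⌊y⌋₊, (1 / (n : ℝ)) := by
        have h1 : ∑ i ∈ range T, M * ∑ n ∈ Ioc ⌊x⌋₊ ⌊y⌋₊, (1 / (n : ℝ)) *
            Wg H n (tw (R i n) ((Q i n).fn (fs i))) = ∑ n ∈ Ioc ⌊x⌋₊ ⌊y⌋₊, (1 / (n : ℝ)) *
            ∑ i ∈ range T, M * Wg H n (tw (R i n) ((Q i n).fn (fs i))) := by
          simp only [mul_sum]
          rw [sum_comm]
          exact sum_congr rfl fun _ _ => sum_congr rfl fun _ _ => by ring
        rw [h1, mul_sum, mul_sum, ← sum_add_distrib]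
        exact sum_congr rfl fun _ _ => by ring
    _ ≤ H * ∑ i ∈ range T, M * (ε₂ * Λ) + (H * (ε / 8) + ε / 4) * (Λ + 1) := by
        refine add_le_add (mul_le_mul_of_nonneg_left
          (sum_le_sum fun i hi => mul_le_mul_of_nonneg_left (hti i hi) hM) hH0.le) ?_
        exact mul_le_mul_of_nonneg_left hsum (by positivity)
    _ = H * ((T * M) * ε₂ * Λ) + (H * (ε / 8) + ε / 4) * (Λ + 1) := by
        rw [sum_const, card_range, nsmul_eq_mul]
        ring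
    _ ≤ ε * H * Λ := by
        have h2 : (T * M) * ε₂ ≤ ε / 4 := by
          rw [hε₂, ← mul_div_assoc, div_le_div_iff₀ (by positivity) (by norm_num)]
          nlinarith
        have h3 : H * ((T * M) * ε₂ * Λ) ≤ H * (ε / 4 * Λ) :=
          mul_le_mul_of_nonneg_left (mul_le_mul_of_nonneg_right h2 (by linarith)) hH0.le
        have h4 : H * (ε / 8) + ε / 4 ≤ H * (ε / 8) + H * (ε / 8) := by nlinarith
        have h5 : (H * (ε / 8) + ε / 4) * (Λ + 1) ≤ (H * (ε / 8) + H * (ε / 8)) * (2 * Λ) :=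
          mul_le_mul h4 (by linarith) (by linarith) (by positivity)
        nlinarith

end

end Pool.Agent.NV
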