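import Mathlib
import Pool.Agent.Lib.NV.Orb
import Pool.Agent.Lib.VQ.WMET
import Pool.Agent.Lib.TS2.CO

/-!
# Theorem NVO (MP_663568_nt) for families of bounded variation (helper28)
-/

set_option autoImplicit false
open Finset MeasureTheory Polynomial

namespace Pool.Agent.NV

open Pool.Agent.Lib.MP_663568_nt Pool.Agent.Lib.MP_663568_nt.Katai
  Pool.Agent.Lib.MP_663568_nt.Nul Pool.Agent.SV Pool.Agent.VQ

noncomputable section

namespace BVx

/-- A family of bounded variation is close to a family with few changes: the checkpoints. -/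
theorem check (A ε' : ℝ) (hA : 0 ≤ A) (hε'0 : 0 < ε') (hε'1 : ε' ≤ 1) :
    ∃ H₁ : ℕ, ∀ H : ℕ, H₁ ≤ H → 3 ≤ H ∧ ∀ D : ℕ → ℝ, (∀ n, 0 ≤ D n) →
    (∀ j : ℕ, ∑ n ∈ Ico (2 ^ j) (2 ^ (j + 1)), D n ≤ (H : ℝ) ^ A) →
    ∃ σ : ℕ → ℕ, (∀ j : ℕ, (({n : ℕ | 2 ^ j ≤ n ∧ n < 2 ^ (j + 1) ∧
        σ (n + 1) ≠ σ n}.ncard : ℕ) : ℝ) ≤ (H : ℝ) ^ (A + 2)) ∧
      ∀ n : ℕ, 3 ≤ n → n < 2 * σ n ∧ σ n ≤ n ∧ ∑ m ∈ Ico (σ n) n, D m ≤ ε' / H := by
  classical
  obtain ⟨H₁, hH₁⟩ : ∃ H₁ : ℕ, ∀ H : ℕ, H₁ ≤ H → 3 ≤ (H : ℝ) ∧ 2 / ε' ≤ H := by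
    obtain ⟨H₁, hH₁⟩ := exists_nat_ge (max 3 (2 / ε'))
    refine ⟨H₁, fun H hH => ?_⟩
    have : (H₁ : ℝ) ≤ H := by exact_mod_cast hH
    exact ⟨(le_max_left _ _).trans (hH₁.trans this), (le_max_right _ _).trans (hH₁.trans this)⟩
  refine ⟨H₁, ?_⟩
  intro H hH
  obtain ⟨hH3, hHε⟩ := hH₁ H hH
  refine ⟨by exact_mod_cast hH3, ?_⟩
  intro D hD0 hvar
  have hH0 : (0 : ℝ) < H := by linarith
  have hH1 : (1 : ℝ) ≤ H := by linarith
  obtain ⟨R, hR⟩ : ∃ R : ℕ → ℕ → ℕ, R = fun j n => ⌊(∑ m ∈ Ico (2 ^ j) n, D m) * (H / ε')⌋₊ :=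
    ⟨_, rfl⟩
  have hHε0 : 0 < (H : ℝ) / ε' := by positivity
  have hRm : ∀ j n, 2 ^ j ≤ n → R j n ≤ R j (n + 1) := by
    intro j n hn
    rw [hR]
    refine Nat.floor_mono (mul_le_mul_of_nonneg_right ?_ hHε0.le)
    rw [sum_Ico_succ_top hn]
    linarith [hD0 n]
  obtain ⟨key, hkey⟩ : ∃ key : ℕ → ℕ × ℕ, key = fun n => (Nat.log 2 n, R (Nat.log 2 n) n) :=
    ⟨_, rfl⟩
  obtain ⟨τ, hτ⟩ : ∃ τ : ℕ × ℕ → ℕ, τ = fun k => sInf {m | key m = k} := ⟨_, rfl⟩
  have hτn : ∀ n, key (τ (key n)) = key n ∧ τ (key n) ≤ n := by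
    intro n
    have hne : {m | key m = key n}.Nonempty := ⟨n, rfl⟩
    rw [hτ]
    exact ⟨Nat.sInf_mem hne, Nat.sInf_le rfl⟩
  refine ⟨fun n => τ (key n), ?_, ?_⟩
  · intro j
    have h0 : {n : ℕ | 2 ^ j ≤ n ∧ n < 2 ^ (j + 1) ∧ τ (key (n + 1)) ≠ τ (key n)} =
        ((Ico (2 ^ j) (2 ^ (j + 1))).filter fun n => τ (key (n + 1)) ≠ τ (key n) : Finset ℕ) := by
      ext n
      simp [and_assoc]
    rw [h0, Set.ncard_coe_finset]
    have h1 : (Ico (2 ^ j) (2 ^ (j + 1))).filter (fun n => τ (key (n + 1)) ≠ τ (key n)) ⊆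
        ((Ico (2 ^ j) (2 ^ (j + 1))).filter fun n => R j (n + 1) ≠ R j n) ∪
          {2 ^ (j + 1) - 1} := by
      intro n hn
      rw [mem_filter, mem_Ico] at hn
      rw [mem_union, mem_filter, mem_Ico, mem_singleton]
      by_cases hlast : n = 2 ^ (j + 1) - 1
      · exact Or.inr hlast
      refine Or.inl ⟨hn.1, fun hRR => hn.2 ?_⟩
      have l1 : Nat.log 2 n = j := (Nat.log_eq_iff (Or.inr ⟨by norm_num, by
        have := Nat.two_pow_pos j
        omega⟩)).2 hn.1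
      have l2 : Nat.log 2 (n + 1) = j := (Nat.log_eq_iff (Or.inr ⟨by norm_num, by omega⟩)).2
        ⟨by omega, by omega⟩
      congr 1
      rw [hkey]
      simp only [l1, l2, hRR]
    have h2 := card_le_card h1
    have h3 := card_union_le ((Ico (2 ^ j) (2 ^ (j + 1))).filter fun n => R j (n + 1) ≠ R j n)
      {2 ^ (j + 1) - 1}
    have h4 := count_changes (R j) (2 ^ j) (2 ^ (j + 1))
      (Nat.pow_le_pow_right (by norm_num) (by omega)) (hRm j)
    rw [card_singleton] at h3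
    have h5 : (R j (2 ^ (j + 1)) : ℝ) ≤ (H : ℝ) ^ A * (H / ε') := by
      rw [hR]
      refine (Nat.floor_le (mul_nonneg (sum_nonneg fun _ _ => hD0 _) hHε0.le)).trans ?_
      exact mul_le_mul_of_nonneg_right (hvar j) hHε0.le
    have h6 : (((Ico (2 ^ j) (2 ^ (j + 1))).filter
        fun n => τ (key (n + 1)) ≠ τ (key n)).card : ℝ) ≤ (R j (2 ^ (j + 1)) : ℝ) + 1 := by
      have : ((Ico (2 ^ j) (2 ^ (j + 1))).filter
          fun n => τ (key (n + 1)) ≠ τ (key n)).card ≤ R j (2 ^ (j + 1)) + 1 := by omega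
      exact_mod_cast this
    have h7 : (H : ℝ) ^ A * (H / ε') + 1 ≤ (H : ℝ) ^ (A + 2) := by
      have e1 : (H : ℝ) ^ (A + 2) = (H : ℝ) ^ A * H * H := by
        rw [show A + 2 = A + 1 + 1 by ring, Real.rpow_add hH0, Real.rpow_add hH0, Real.rpow_one]
      have e2 : 1 ≤ (H : ℝ) ^ A := Real.one_le_rpow hH1 hA
      have e3 : 1 ≤ (H : ℝ) ^ A * H := one_le_mul_of_one_le_of_one_le e2 hH1
      have e4 : 2 * (1 / ε') ≤ H := by rw [mul_one_div]; exact hHε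
      have e5 : (H : ℝ) ^ A * (H / ε') = (H : ℝ) ^ A * H * (1 / ε') := by ring
      have e6 : 1 ≤ 1 / ε' := by rw [le_div_iff₀ hε'0]; linarith
      rw [e1, e5]
      nlinarith
    linarith
  intro n hn3
  obtain ⟨j, hj⟩ : ∃ j, j = Nat.log 2 n := ⟨_, rfl⟩
  have hj2 : n < 2 ^ (j + 1) := by rw [hj]; exact Nat.lt_pow_succ_log_self (by norm_num) n
  obtain ⟨s, hs⟩ : ∃ s, s = τ (key n) := ⟨_, rfl⟩
  obtain ⟨hk1, hk2⟩ := hτn n
  rw [← hs] at hk1 hk2
  rw [hkey] at hk1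
  simp only [Prod.mk.injEq] at hk1
  rw [← hj] at hk1
  have hjpos : 1 ≤ j := by
    rw [hj]
    exact Nat.log_pos (by norm_num) (by omega)
  have hs0 : s ≠ 0 := by
    intro h0
    rw [h0, Nat.log_zero_right] at hk1
    omega
  have hs1 : 2 ^ j ≤ s := by
    have := Nat.pow_log_le_self 2 hs0
    rwa [hk1.1] at this
  have hRs : R j s = R j n := by
    have := hk1.2
    rwa [hk1.1] at this
  simp only
  rw [← hs]
  refine ⟨by rw [pow_succ] at hj2; omega, hk2, ?_⟩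
  have e1 : ∑ m ∈ Ico (2 ^ j) n, D m = ∑ m ∈ Ico (2 ^ j) s, D m + ∑ m ∈ Ico s n, D m :=
    (sum_Ico_consecutive D hs1 hk2).symm
  rw [hR] at hRs
  simp only at hRs
  have e2 := Nat.floor_le (mul_nonneg (sum_nonneg fun m (_ : m ∈ Ico (2 ^ j) s) => hD0 m)
    hHε0.le)
  have e3 := Nat.lt_floor_add_one ((∑ m ∈ Ico (2 ^ j) n, D m) * (H / ε'))
  rw [← hRs, e1, add_mul] at e3
  have e4 : (∑ m ∈ Ico s n, D m) * (H / ε') ≤ 1 := by linarith
  rw [le_div_iff₀ hH0]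
  calc (∑ m ∈ Ico s n, D m) * H = (∑ m ∈ Ico s n, D m) * (H / ε') * ε' := by
        field_simp
    _ ≤ 1 * ε' := by gcongr
    _ = ε' := one_mul _

open TS2 in
/-- Uniform continuity under left translations. -/
theorem left_unif {d r : ℕ} {B : Fin r → Fin d → Fin d → ℤ} {f : Two B ⧸ Gam B → ℂ}
    (hf : Continuous f) {ε : ℝ} (hε : 0 < ε) : ∃ δ : ℝ, 0 < δ ∧ ∀ e : Two B,
      (∀ i, |e.x i| ≤ δ) → (∀ c, |e.z c| ≤ δ) → ∀ g : Two B,
      ‖f (QuotientGroup.mk (e * g)) - f (QuotientGroup.mk g)‖ ≤ ε := by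
  obtain ⟨K, hK, hcov⟩ : ∃ K : Set (Two B), IsCompact K ∧ ∀ g : Two B, ∃ γ ∈ Gam B,
      g * γ ∈ K := by
    refine ⟨_, COx.isCompact_box, fun g => ?_⟩
    obtain ⟨γ, hγ, h1, h2⟩ := COx.exists_red g
    exact ⟨γ, hγ, h1, h2⟩
  have hcont : Continuous fun p : Two B × Two B =>
      ‖f (QuotientGroup.mk (p.1 * p.2)) - f (QuotientGroup.mk p.2)‖ := by
    refine Continuous.norm (Continuous.sub ?_ ?_)
    · exact hf.comp (continuous_quotient_mk'.comp (continuous_fst.mul continuous_snd))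
    · exact hf.comp (continuous_quotient_mk'.comp continuous_snd)
  have hopen : IsOpen {p : Two B × Two B |
      ‖f (QuotientGroup.mk (p.1 * p.2)) - f (QuotientGroup.mk p.2)‖ < ε} :=
    isOpen_lt hcont continuous_const
  obtain ⟨u, v, hu, hv, h1u, hKv, huv⟩ := generalized_tube_lemma
    (isCompact_singleton (x := (1 : Two B))) hK hopen (by
      rintro ⟨e, g⟩ ⟨he, hg⟩
      rw [Set.mem_singleton_iff] at he
      show ‖f (QuotientGroup.mk (e * g)) - f (QuotientGroup.mk g)‖ < ε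
      have he' : e = 1 := he
      rw [he', one_mul, sub_self, norm_zero]
      exact hε)
  have hφ : Continuous fun p : (Fin d → ℝ) × (Fin r → ℝ) => (⟨p.1, p.2⟩ : Two B) :=
    Two.continuous_mk continuous_fst continuous_snd
  have hφu : IsOpen ((fun p : (Fin d → ℝ) × (Fin r → ℝ) => (⟨p.1, p.2⟩ : Two B)) ⁻¹' u) :=
    hu.preimage hφ
  obtain ⟨δ, hδ, hball⟩ := Metric.isOpen_iff.1 hφu 0 (by
    show (⟨0, 0⟩ : Two B) ∈ u
    exact h1u (Set.mem_singleton _))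
  refine ⟨δ / 2, by positivity, fun e hex hez g => ?_⟩
  have heu : e ∈ u := by
    have h1 : (e.x, e.z) ∈ Metric.ball (0 : (Fin d → ℝ) × (Fin r → ℝ)) δ := by
      rw [mem_ball_zero_iff]
      refine lt_of_le_of_lt (?_ : ‖(e.x, e.z)‖ ≤ δ / 2) (by linarith)
      rw [Prod.norm_def]
      refine max_le ?_ ?_
      · refine (pi_norm_le_iff_of_nonneg (by positivity)).2 fun i => ?_
        rw [Real.norm_eq_abs]
        exact hex i
      · refine (pi_norm_le_iff_of_nonneg (by positivity)).2 fun c => ?_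
        rw [Real.norm_eq_abs]
        exact hez c
    exact hball h1
  obtain ⟨γ, hγ, hgK⟩ := hcov g
  have h1 : (e, g * γ) ∈ u ×ˢ v := ⟨heu, hKv hgK⟩
  have h2 : ‖f (QuotientGroup.mk (e * (g * γ))) - f (QuotientGroup.mk (g * γ))‖ < ε := huv h1
  rw [← mul_assoc, QuotientGroup.mk_mul_of_mem _ hγ, QuotientGroup.mk_mul_of_mem _ hγ] at h2
  exact h2.le

/-- The size of the structure constants. -/
def Sb {d r : ℕ} (B : Fin r → Fin d → Fin d → ℤ) : ℝ := ∑ c, ∑ i, ∑ j, |(B c i j : ℝ)|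

theorem Sb_nonneg {d r : ℕ} (B : Fin r → Fin d → Fin d → ℤ) : 0 ≤ Sb B :=
  sum_nonneg fun _ _ => sum_nonneg fun _ _ => sum_nonneg fun _ _ => abs_nonneg _

theorem le_Sb {d r : ℕ} (B : Fin r → Fin d → Fin d → ℤ) (c : Fin r) (i j : Fin d) :
    |(B c i j : ℝ)| ≤ Sb B := by
  unfold Sb
  refine le_trans ?_ (single_le_sum (f := fun c => ∑ i, ∑ j, |(B c i j : ℝ)|)
    (fun _ _ => sum_nonneg fun _ _ => sum_nonneg fun _ _ => abs_nonneg _) (mem_univ c))
  refine le_trans ?_ (single_le_sum (f := fun i => ∑ j, |(B c i j : ℝ)|)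
    (fun _ _ => sum_nonneg fun _ _ => abs_nonneg _) (mem_univ i))
  exact single_le_sum (f := fun j => |(B c i j : ℝ)|) (fun _ _ => abs_nonneg _) (mem_univ j)

theorem bil_le {d r : ℕ} (B : Fin r → Fin d → Fin d → ℤ) (x y : Fin d → ℝ) (c : Fin r) :
    |TS2.bil B x y c| ≤ Sb B * ((∑ i, |x i|) * ∑ j, |y j|) := by
  unfold TS2.bil
  rw [sum_mul_sum, mul_sum]
  refine (abs_sum_le_sum_abs _ _).trans (sum_le_sum fun i _ => ?_)
  rw [mul_sum]
  refine (abs_sum_le_sum_abs _ _).trans (sum_le_sum fun j _ => ?_)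
  rw [abs_mul, abs_mul]
  exact mul_le_mul_of_nonneg_right (le_Sb B c i j) (by positivity)

/-- The distance of the data at the height `n`. -/
def dg {d r : ℕ} (n : ℕ) (a b : Fin d → ℝ) (q : Fin r → ℝ[X]) (a' b' : Fin d → ℝ)
    (q' : Fin r → ℝ[X]) : ℝ :=
  min 1 ((1 + ∑ i, (|a i| + |b i|)) * ∑ i, (n * |a' i - a i| + |b' i - b i|) +
    ∑ c, ∑ i ∈ Icc 1 2, |(q' c).coeff i - (q c).coeff i| * (n : ℝ) ^ (i - 1))

theorem dg_nonneg {d r : ℕ} (n : ℕ) (a b : Fin d → ℝ) (q : Fin r → ℝ[X]) (a' b' : Fin d → ℝ)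
    (q' : Fin r → ℝ[X]) : 0 ≤ dg n a b q a' b' q' := by
  unfold dg
  positivity

/-- The data at the checkpoint are close. -/
theorem close {d r : ℕ} (a b : ℕ → Fin d → ℝ) (q : ℕ → Fin r → ℝ[X]) (s n : ℕ) (ρ : ℝ)
    (hρ : ρ ≤ 1 / 3) (hsn : s ≤ n) (hn2 : n < 2 * s)
    (hD : ∑ m ∈ Ico s n, dg m (a m) (b m) (q m) (a (m + 1)) (b (m + 1)) (q (m + 1)) ≤ ρ) :
    (1 + ∑ i, (|a n i| + |b n i|)) * ∑ i, (n * |a s i - a n i| + |b s i - b n i|) ≤ 4 * ρ ∧
    ∀ c, ∑ i ∈ Icc 1 2, |(q s c).coeff i - (q n c).coeff i| * (s : ℝ) ^ (i - 1) ≤ ρ := by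
  have hs1 : 1 ≤ s := by omega
  have hs0 : (1 : ℝ) ≤ s := by exact_mod_cast hs1
  -- no truncation
  have hDm : ∀ m ∈ Ico s n, (1 + ∑ i, (|a m i| + |b m i|)) *
      ∑ i, (m * |a (m + 1) i - a m i| + |b (m + 1) i - b m i|) +
      ∑ c, ∑ i ∈ Icc 1 2, |(q (m + 1) c).coeff i - (q m c).coeff i| * (m : ℝ) ^ (i - 1) =
        dg m (a m) (b m) (q m) (a (m + 1)) (b (m + 1)) (q (m + 1)) := by
    intro m hm
    have h1 := single_le_sum
      (f := fun m => dg m (a m) (b m) (q m) (a (m + 1)) (b (m + 1)) (q (m + 1)))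
      (fun m _ => dg_nonneg _ _ _ _ _ _ _) hm
    have h2 : dg m (a m) (b m) (q m) (a (m + 1)) (b (m + 1)) (q (m + 1)) < 1 := by
      have h3 := h1.trans hD
      linarith
    unfold dg at h2 ⊢
    rcases min_lt_iff.1 h2 with h | h
    · exact absurd h (lt_irrefl _)
    · exact (min_eq_right h.le).symm
  have hAB : ∑ m ∈ Ico s n, (1 + ∑ i, (|a m i| + |b m i|)) *
      ∑ i, (m * |a (m + 1) i - a m i| + |b (m + 1) i - b m i|) ≤ ρ := by
    refine le_trans (sum_le_sum fun m hm => ?_) hD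
    rw [← hDm m hm]
    have : 0 ≤ ∑ c, ∑ i ∈ Icc 1 2, |(q (m + 1) c).coeff i - (q m c).coeff i| *
      (m : ℝ) ^ (i - 1) := by positivity
    linarith
  have hL1 : ∀ m, 1 ≤ 1 + ∑ i, (|a m i| + |b m i|) := fun m => by
    have : 0 ≤ ∑ i, (|a m i| + |b m i|) := by positivity
    linarith
  -- the size at `n` is comparable with the size at `m`
  have htel : ∀ (g : ℕ → ℝ) (m : ℕ), m ≤ n → |g m - g n| ≤ ∑ k ∈ Ico m n, |g (k + 1) - g k| := by
    intro g m hm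
    rw [abs_sub_comm, ← sum_Ico_sub g hm]
    exact abs_sum_le_sum_abs _ _
  have hvar : ∀ m, s ≤ m → m ≤ n → ∑ i, (|a m i - a n i| + |b m i - b n i|) ≤ ρ := by
    intro m hm hmn
    calc ∑ i, (|a m i - a n i| + |b m i - b n i|)
        ≤ ∑ i, ∑ k ∈ Ico m n, (k * |a (k + 1) i - a k i| + |b (k + 1) i - b k i|) := by
          refine sum_le_sum fun i _ => ?_
          rw [sum_add_distrib]
          refine add_le_add ?_ (htel (fun k => b k i) m hmn)
          refine (htel (fun k => a k i) m hmn).trans (sum_le_sum fun k hk => ?_)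
          rw [mem_Ico] at hk
          have : (1 : ℝ) ≤ k := by
            have : 1 ≤ k := by omega
            exact_mod_cast this
          exact le_mul_of_one_le_left (abs_nonneg _) this
      _ = ∑ k ∈ Ico m n, ∑ i, (k * |a (k + 1) i - a k i| + |b (k + 1) i - b k i|) := sum_comm
      _ ≤ ∑ k ∈ Ico s n, ∑ i, (k * |a (k + 1) i - a k i| + |b (k + 1) i - b k i|) :=
          sum_le_sum_of_subset_of_nonneg (Ico_subset_Ico_left hm) fun _ _ _ => by positivity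
      _ ≤ ∑ k ∈ Ico s n, (1 + ∑ i, (|a k i| + |b k i|)) *
          ∑ i, (k * |a (k + 1) i - a k i| + |b (k + 1) i - b k i|) :=
          sum_le_sum fun k _ => le_mul_of_one_le_left (by positivity) (hL1 k)
      _ ≤ ρ := hAB
  have hL : ∀ m, s ≤ m → m ≤ n → 1 + ∑ i, (|a n i| + |b n i|) ≤
      2 * (1 + ∑ i, (|a m i| + |b m i|)) := by
    intro m hm hmn
    have h1 : ∑ i, (|a n i| + |b n i|) ≤
        ∑ i, (|a m i| + |b m i|) + ∑ i, (|a m i - a n i| + |b m i - b n i|) := by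
      rw [← sum_add_distrib]
      refine sum_le_sum fun i _ => ?_
      have h2 := abs_sub_abs_le_abs_sub (a n i) (a m i)
      have h3 := abs_sub_abs_le_abs_sub (b n i) (b m i)
      rw [abs_sub_comm (a n i)] at h2
      rw [abs_sub_comm (b n i)] at h3
      linarith
    have h2 := hvar m hm hmn
    have h3 := hL1 m
    linarith
  refine ⟨?_, fun c => ?_⟩
  · have h1 : ∑ i, (n * |a s i - a n i| + |b s i - b n i|) ≤
        2 * ∑ m ∈ Ico s n, ∑ i, (m * |a (m + 1) i - a m i| + |b (m + 1) i - b m i|) := by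
      rw [sum_comm, mul_sum]
      refine sum_le_sum fun i _ => ?_
      rw [sum_add_distrib]
      have h2 := htel (fun k => a k i) s hsn
      have h3 := htel (fun k => b k i) s hsn
      have h4 : (s : ℝ) * |a s i - a n i| ≤ ∑ m ∈ Ico s n, (m : ℝ) * |a (m + 1) i - a m i| := by
        refine (mul_le_mul_of_nonneg_left h2 (by positivity)).trans ?_
        rw [mul_sum]
        refine sum_le_sum fun m hm => ?_
        rw [mem_Ico] at hm
        have : (s : ℝ) ≤ m := by exact_mod_cast hm.1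
        gcongr
      have h5 : (n : ℝ) ≤ 2 * s := by exact_mod_cast hn2.le
      have h6 : (n : ℝ) * |a s i - a n i| ≤ 2 * (s * |a s i - a n i|) := by
        rw [← mul_assoc]
        exact mul_le_mul_of_nonneg_right h5 (abs_nonneg _)
      have h7 : 0 ≤ ∑ m ∈ Ico s n, |b (m + 1) i - b m i| := by positivity
      linarith
    have h0 : 0 ≤ 1 + ∑ i, (|a n i| + |b n i|) := by positivity
    refine (mul_le_mul_of_nonneg_left h1 h0).trans ?_
    have h2 : (1 + ∑ i, (|a n i| + |b n i|)) *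
        ∑ m ∈ Ico s n, ∑ i, (m * |a (m + 1) i - a m i| + |b (m + 1) i - b m i|) ≤
        2 * ∑ m ∈ Ico s n, (1 + ∑ i, (|a m i| + |b m i|)) *
          ∑ i, (m * |a (m + 1) i - a m i| + |b (m + 1) i - b m i|) := by
      rw [mul_sum, mul_sum]
      refine sum_le_sum fun m hm => ?_
      rw [mem_Ico] at hm
      rw [← mul_assoc]
      exact mul_le_mul_of_nonneg_right (hL m hm.1 hm.2.le) (by positivity)
    linarith
  · calc ∑ i ∈ Icc 1 2, |(q s c).coeff i - (q n c).coeff i| * (s : ℝ) ^ (i - 1)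
        ≤ ∑ i ∈ Icc 1 2, ∑ m ∈ Ico s n, |(q (m + 1) c).coeff i - (q m c).coeff i| *
          (m : ℝ) ^ (i - 1) := by
          refine sum_le_sum fun i _ => ?_
          refine (mul_le_mul_of_nonneg_right (htel (fun k => (q k c).coeff i) s hsn)
            (by positivity)).trans ?_
          rw [sum_mul]
          refine sum_le_sum fun m hm => ?_
          rw [mem_Ico] at hm
          have : (s : ℝ) ≤ m := by exact_mod_cast hm.1
          gcongr
      _ = ∑ m ∈ Ico s n, ∑ i ∈ Icc 1 2, |(q (m + 1) c).coeff i - (q m c).coeff i| *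
          (m : ℝ) ^ (i - 1) := sum_comm
      _ ≤ ∑ m ∈ Ico s n, dg m (a m) (b m) (q m) (a (m + 1)) (b (m + 1)) (q (m + 1)) := by
          refine sum_le_sum fun m hm => ?_
          rw [← hDm m hm]
          have h1 := single_le_sum (f := fun c => ∑ i ∈ Icc 1 2,
            |(q (m + 1) c).coeff i - (q m c).coeff i| * (m : ℝ) ^ (i - 1))
            (fun c _ => by positivity) (mem_univ c)
          have h2 : 0 ≤ (1 + ∑ i, (|a m i| + |b m i|)) *
            ∑ i, (m * |a (m + 1) i - a m i| + |b (m + 1) i - b m i|) := by positivity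
          linarith
      _ ≤ ρ := hD

/-- The change of the central part. -/
def Wc {d r : ℕ} (B : Fin r → Fin d → Fin d → ℤ) (n : ℕ) (a b a' b' : Fin d → ℝ) (lam : Fin r → ℝ)
    (P : Fin r → ℝ[X]) (c : Fin r) : ℝ[X] :=
  P c + C (TS2.bil B ((n : ℝ) • (a' - a) + (b' - b)) ((n : ℝ) • a + b) c) +
    C (TS2.bil B ((n : ℝ) • (a' - a) + (b' - b)) a c +
      TS2.bil B (a' - a) ((n : ℝ) • a + b) c + lam c) * X + C (TS2.bil B (a' - a) a c) * X ^ 2

theorem bil_exp {d r : ℕ} (B : Fin r → Fin d → Fin d → ℤ) (D0 D u0 a : Fin d → ℝ) (h : ℝ) :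
    TS2.bil B (D0 + h • D) (u0 + h • a) = TS2.bil B D0 u0 + h • TS2.bil B D0 a +
      h • TS2.bil B D u0 + h • (h • TS2.bil B D a) := by
  rw [TS2.bil_add_left, TS2.bil_add_right, TS2.bil_add_right, TS2.bil_smul_left,
    TS2.bil_smul_left, TS2.bil_smul_right, TS2.bil_smul_right]
  abel

theorem Wc_eq {d r : ℕ} (B : Fin r → Fin d → Fin d → ℤ) (n : ℕ) (a b a' b' : Fin d → ℝ)
    (lam : Fin r → ℝ) (P : Fin r → ℝ[X]) (h : ℝ) :
    (⟨((n : ℝ) + h) • a' + b', fun c => (Wc B n a b a' b' lam P c).eval h⟩ : TS2.Two B) =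
      ⟨((n : ℝ) • (a' - a) + (b' - b)) + h • (a' - a), fun c => lam c * h⟩ *
        ⟨((n : ℝ) + h) • a + b, fun c => (P c).eval h⟩ := by
  apply TS2.Two.ext
  · simp only [TS2.Two.mul_x]
    funext i
    simp only [Pi.add_apply, Pi.smul_apply, Pi.sub_apply, smul_eq_mul]
    ring
  · simp only [TS2.Two.mul_z]
    have h1 : ((n : ℝ) + h) • a + b = ((n : ℝ) • a + b) + h • a := by
      rw [add_smul]
      abel
    rw [h1, bil_exp]
    funext c
    simp only [Wc, eval_add, eval_mul, eval_C, eval_X, eval_pow, Pi.add_apply, Pi.smul_apply,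
      smul_eq_mul]
    ring

theorem Wc_deg {d r : ℕ} (B : Fin r → Fin d → Fin d → ℤ) (n : ℕ) (a b a' b' : Fin d → ℝ)
    (lam : Fin r → ℝ) (P : Fin r → ℝ[X]) (c : Fin r) {t : ℕ} (hP : (P c).natDegree ≤ t) :
    (Wc B n a b a' b' lam P c).natDegree ≤ max t 2 := by
  unfold Wc
  refine (natDegree_add_le _ _).trans (max_le ((natDegree_add_le _ _).trans (max_le
    ((natDegree_add_le _ _).trans (max_le (hP.trans (le_max_left _ _)) ?_)) ?_)) ?_)
  · rw [natDegree_C]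
    exact Nat.zero_le _
  · exact (natDegree_C_mul_le _ _).trans (natDegree_X_le.trans (by omega))
  · exact (natDegree_C_mul_le _ _).trans ((natDegree_X_pow_le _).trans (le_max_right _ _))

theorem Wc_coeff {d r : ℕ} (B : Fin r → Fin d → Fin d → ℤ) (n : ℕ) (a b a' b' : Fin d → ℝ)
    (lam : Fin r → ℝ) (P : Fin r → ℝ[X]) (c : Fin r) :
    (Wc B n a b a' b' lam P c).coeff 1 = (P c).coeff 1 +
      (TS2.bil B ((n : ℝ) • (a' - a) + (b' - b)) a c +
        TS2.bil B (a' - a) ((n : ℝ) • a + b) c + lam c) := by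
  unfold Wc
  simp only [coeff_add, coeff_C_mul, coeff_X_one, coeff_X_pow, mul_one]
  rw [coeff_C_of_ne_zero (by norm_num)]
  norm_num

open TS2 in
/-- One window. -/
theorem window {d r : ℕ} {B : Fin r → Fin d → Fin d → ℤ} {f : Two B ⧸ Gam B → ℂ}
    {δ ε₁ : ℝ} (hf : ∀ e : Two B, (∀ i, |e.x i| ≤ δ) → (∀ c, |e.z c| ≤ δ) → ∀ g : Two B,
      ‖f (QuotientGroup.mk (e * g)) - f (QuotientGroup.mk g)‖ ≤ ε₁)
    (n H t : ℕ) (hn : 1 ≤ n) (hH : 1 ≤ H) (hHn : H ≤ n) (a b a' b' : Fin d → ℝ)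
    (q q' : Fin r → ℝ[X]) (ρ : ℝ) (hρ : 0 ≤ ρ)
    (hab : (1 + ∑ i, (|a i| + |b i|)) * ∑ i, (n * |a' i - a i| + |b' i - b i|) ≤ 4 * ρ)
    (hq : ∀ c, |(q' c).derivative.eval (n : ℝ) - (q c).derivative.eval (n : ℝ)| ≤ 8 * ρ)
    (hδ : 8 * (1 + Sb B) * (ρ * H) ≤ δ) (P : Cen t q n) :
    ∃ P' : Cen (max t 2) q' n, So f a b H n P.1 ≤ So f a' b' H n P'.1 + H * ε₁ := by
  have hn0 : (1 : ℝ) ≤ n := by exact_mod_cast hn
  have hH0 : (1 : ℝ) ≤ H := by exact_mod_cast hH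
  have hS := Sb_nonneg B
  obtain ⟨V, hV⟩ : ∃ V : ℝ, V = ∑ i, (n * |a' i - a i| + |b' i - b i|) := ⟨_, rfl⟩
  obtain ⟨L, hL⟩ : ∃ L : ℝ, L = ∑ i, (|a i| + |b i|) := ⟨_, rfl⟩
  have hV0 : 0 ≤ V := by rw [hV]; positivity
  have hL0 : 0 ≤ L := by rw [hL]; positivity
  rw [← hV, ← hL] at hab
  have hV4 : V ≤ 4 * ρ := by nlinarith
  have hLV : V * L ≤ 4 * ρ := by nlinarith
  have hx0 : ∑ i, |((n : ℝ) • (a' - a) + (b' - b)) i| ≤ V := by
    rw [hV]
    refine sum_le_sum fun i _ => ?_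
    simp only [Pi.add_apply, Pi.smul_apply, Pi.sub_apply, smul_eq_mul]
    refine (abs_add_le _ _).trans ?_
    rw [abs_mul, Nat.abs_cast]
  have hx1 : (n : ℝ) * ∑ i, |(a' - a) i| ≤ V := by
    rw [hV, mul_sum]
    refine sum_le_sum fun i _ => ?_
    simp only [Pi.sub_apply]
    linarith [abs_nonneg (b' i - b i)]
  have hu0 : ∑ i, |((n : ℝ) • a + b) i| ≤ n * L := by
    rw [hL, mul_sum]
    refine sum_le_sum fun i _ => ?_
    simp only [Pi.add_apply, Pi.smul_apply, smul_eq_mul]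
    refine (abs_add_le _ _).trans ?_
    rw [abs_mul, Nat.abs_cast, mul_add]
    have := le_mul_of_one_le_left (abs_nonneg (b i)) hn0
    linarith
  have ha0 : ∑ i, |a i| ≤ L := by
    rw [hL]
    refine sum_le_sum fun i _ => ?_
    linarith [abs_nonneg (b i)]
  have hl1 : ∀ c, |bil B ((n : ℝ) • (a' - a) + (b' - b)) a c| ≤ Sb B * (4 * ρ) := by
    intro c
    refine (bil_le B _ _ c).trans (mul_le_mul_of_nonneg_left (le_trans ?_ hLV) hS)
    exact mul_le_mul hx0 ha0 (sum_nonneg fun _ _ => abs_nonneg _) hV0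
  have hl2 : ∀ c, |bil B (a' - a) ((n : ℝ) • a + b) c| ≤ Sb B * (4 * ρ) := by
    intro c
    refine (bil_le B _ _ c).trans (mul_le_mul_of_nonneg_left (le_trans ?_ hLV) hS)
    calc (∑ i, |(a' - a) i|) * ∑ j, |((n : ℝ) • a + b) j|
        ≤ (∑ i, |(a' - a) i|) * (n * L) :=
          mul_le_mul_of_nonneg_left hu0 (sum_nonneg fun _ _ => abs_nonneg _)
      _ = (n * ∑ i, |(a' - a) i|) * L := by ring
      _ ≤ V * L := mul_le_mul_of_nonneg_right hx1 hL0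
  obtain ⟨lam, hlam⟩ : ∃ lam : Fin r → ℝ, lam = fun c => (q' c).derivative.eval (n : ℝ) -
      (q c).derivative.eval (n : ℝ) - (bil B ((n : ℝ) • (a' - a) + (b' - b)) a c +
        bil B (a' - a) ((n : ℝ) • a + b) c) := ⟨_, rfl⟩
  have hlam1 : ∀ c, |lam c| ≤ 8 * (1 + Sb B) * ρ := by
    intro c
    rw [hlam]
    simp only
    refine (abs_sub _ _).trans ?_
    have h1 := abs_add_le (bil B ((n : ℝ) • (a' - a) + (b' - b)) a c)
      (bil B (a' - a) ((n : ℝ) • a + b) c)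
    have h2 := hl1 c
    have h3 := hl2 c
    have h4 := hq c
    linarith
  refine ⟨⟨Wc B n a b a' b' lam P.1, fun c => Wc_deg B n a b a' b' lam P.1 c (P.2.1 c),
    fun c => ?_⟩, ?_⟩
  · rw [Wc_coeff, P.2.2 c, hlam]
    ring
  have hmove : ∀ h ∈ Icc 1 H, ‖f (QuotientGroup.mk (⟨((n : ℝ) + (h : ℕ)) • a + b,
      fun c => (P.1 c).eval ((h : ℕ) : ℝ)⟩ : Two B)) -
      f (QuotientGroup.mk (⟨((n : ℝ) + (h : ℕ)) • a' + b',
        fun c => (Wc B n a b a' b' lam P.1 c).eval ((h : ℕ) : ℝ)⟩ : Two B))‖ ≤ ε₁ := by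
    intro h hh
    rw [mem_Icc] at hh
    have hhH : (h : ℝ) ≤ H := by exact_mod_cast hh.2
    have hhn : (h : ℝ) ≤ n := by exact_mod_cast hh.2.trans hHn
    rw [Wc_eq B n a b a' b' lam P.1 (h : ℝ), norm_sub_rev]
    refine hf _ (fun i => ?_) (fun c => ?_) _
    · simp only [Pi.add_apply, Pi.smul_apply, Pi.sub_apply, smul_eq_mul]
      have h1 : (n : ℝ) * |a' i - a i| + |b' i - b i| ≤ V := by
        rw [hV]
        exact single_le_sum (f := fun i => (n : ℝ) * |a' i - a i| + |b' i - b i|)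
          (fun _ _ => by positivity) (mem_univ i)
      have h2 : |(n : ℝ) * (a' i - a i) + (b' i - b i) + h * (a' i - a i)| ≤
          n * |a' i - a i| + |b' i - b i| + h * |a' i - a i| := by
        refine (abs_add_le _ _).trans (add_le_add ((abs_add_le _ _).trans ?_) ?_)
        · rw [abs_mul, Nat.abs_cast]
        · rw [abs_mul, Nat.abs_cast]
      have h3 : (h : ℝ) * |a' i - a i| ≤ n * |a' i - a i| :=
        mul_le_mul_of_nonneg_right hhn (abs_nonneg _)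
      have h4 : 0 ≤ |b' i - b i| := abs_nonneg _
      have h5 : 8 * ρ ≤ 8 * (1 + Sb B) * (ρ * H) := by
        have h6 : ρ ≤ ρ * H := le_mul_of_one_le_right hρ hH0
        have h7 : 0 ≤ Sb B * (ρ * H) := by positivity
        nlinarith
      linarith
    · simp only
      rw [abs_mul, Nat.abs_cast]
      calc |lam c| * (h : ℝ) ≤ (8 * (1 + Sb B) * ρ) * H :=
            mul_le_mul (hlam1 c) hhH (Nat.cast_nonneg _) (by positivity)
        _ = 8 * (1 + Sb B) * (ρ * H) := by ring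
        _ ≤ δ := hδ
  unfold So
  rw [← sub_le_iff_le_add']
  refine (norm_sub_norm_le _ _).trans ?_
  rw [← sum_sub_distrib]
  refine (norm_sum_le _ _).trans ?_
  have h1 : ∀ h ∈ Icc 1 H, ‖f (QuotientGroup.mk (⟨((n : ℝ) + (h : ℕ)) • a + b,
      fun c => (P.1 c).eval ((h : ℕ) : ℝ)⟩ : Two B)) *
        ((ArithmeticFunction.moebius (n + h) : ℤ) : ℂ) -
      f (QuotientGroup.mk (⟨((n : ℝ) + (h : ℕ)) • a' + b',
        fun c => (Wc B n a b a' b' lam P.1 c).eval ((h : ℕ) : ℝ)⟩ : Two B)) *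
        ((ArithmeticFunction.moebius (n + h) : ℤ) : ℂ)‖ ≤ ε₁ := by
    intro h hh
    rw [← sub_mul, norm_mul]
    have h2 := hmove h hh
    calc _ ≤ ε₁ * 1 := mul_le_mul h2 (norm_muC _) (norm_nonneg _) ((norm_nonneg _).trans h2)
      _ = ε₁ := mul_one _
  refine (sum_le_sum h1).trans ?_
  simp

end BVx

open BVx ORBx SUPx

/-- **Theorem NVO for families of bounded variation.** -/
theorem nvw_bv (hV : VRTA_stmt) (hN : ∀ t D : ℕ, 1 ≤ t → NSW t D) {d r : ℕ}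
    (B : Fin r → Fin d → Fin d → ℤ) (f : TS2.Two B ⧸ TS2.Gam B → ℂ) (hf : Continuous f)
    (t : ℕ) (ht : 1 ≤ t) (A ε : ℝ) (hε : 0 < ε) :
    ∃ (C₀ : ℝ) (H₀ : ℕ), ∀ H : ℕ, H₀ ≤ H → ∀ x y : ℝ, (H : ℝ) ^ C₀ ≤ x → x * H ≤ y →
    ∀ (a b : ℕ → Fin d → ℝ) (q : ℕ → Fin r → ℝ[X]), (∀ n c, (q n c).natDegree ≤ 2) →
    (∀ j : ℕ, ∑ n ∈ Ico (2 ^ j) (2 ^ (j + 1)),
      dg n (a n) (b n) (q n) (a (n + 1)) (b (n + 1)) (q (n + 1)) ≤ (H : ℝ) ^ A) →
    ∑ n ∈ Ioc ⌊x⌋₊ ⌊y⌋₊, (1 / (n : ℝ)) * ⨆ P : Cen t (q n) n, So f (a n) (b n) H n P.1 ≤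
      ε * H * Real.log (y / x) := by
  obtain ⟨δ, hδ0, hδ⟩ := left_unif hf (show 0 < ε / 4 by positivity)
  have hS := Sb_nonneg B
  obtain ⟨ε', hε'⟩ : ∃ ε' : ℝ, ε' = min 1 (δ / (8 * (1 + Sb B))) := ⟨_, rfl⟩
  have hε'0 : 0 < ε' := by rw [hε']; positivity
  have hε'1 : ε' ≤ 1 := by rw [hε']; exact min_le_left _ _
  have hε'2 : 8 * (1 + Sb B) * ε' ≤ δ := by
    have h1 : ε' ≤ δ / (8 * (1 + Sb B)) := by rw [hε']; exact min_le_right _ _
    rw [le_div_iff₀ (by positivity)] at h1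
    linarith
  obtain ⟨H₁, hH₁⟩ := check (max A 0) ε' (le_max_right _ _) hε'0 hε'1
  obtain ⟨C₀, H₀, hmain⟩ := nvw_orb hV hN B f hf (max t 2) (ht.trans (le_max_left _ _))
    (max A 0 + 2) (ε / 2) (by positivity)
  obtain ⟨M, hM⟩ : ∃ M : ℝ, ∀ u, ‖f u‖ ≤ M := by
    obtain ⟨K, hK, hcov⟩ : ∃ K : Set (TS2.Two B), IsCompact K ∧ ∀ g : TS2.Two B,
        ∃ γ ∈ TS2.Gam B, g * γ ∈ K := by
      refine ⟨_, TS2.COx.isCompact_box, fun g => ?_⟩
      obtain ⟨γ, hγ, h1, h2⟩ := TS2.COx.exists_red g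
      exact ⟨γ, hγ, h1, h2⟩
    obtain ⟨M, hM⟩ := hK.exists_bound_of_continuousOn
      (f := fun g : TS2.Two B => f (QuotientGroup.mk g))
      (hf.comp continuous_quotient_mk').continuousOn
    refine ⟨M, fun u => ?_⟩
    obtain ⟨g, rfl⟩ := QuotientGroup.mk_surjective u
    obtain ⟨γ, hγ, hgK⟩ := hcov g
    have h1 := hM _ hgK
    rwa [QuotientGroup.mk_mul_of_mem _ hγ] at h1
  refine ⟨max C₀ 1, max H₀ H₁, ?_⟩
  intro H hH x y hx hxy a b q hqd hvar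
  obtain ⟨hH3N, hchk⟩ := hH₁ H ((le_max_right _ _).trans hH)
  have hH3 : (3 : ℝ) ≤ H := by exact_mod_cast hH3N
  have hH0 : (0 : ℝ) < H := by linarith
  have hH1 : (1 : ℝ) ≤ H := by linarith
  obtain ⟨σ, hσ1, hσ2⟩ := hchk
    (fun n => dg n (a n) (b n) (q n) (a (n + 1)) (b (n + 1)) (q (n + 1)))
    (fun n => dg_nonneg _ _ _ _ _ _ _)
    (fun j => (hvar j).trans (Real.rpow_le_rpow_of_exponent_le hH1 (le_max_left _ _)))
  have hxH : (H : ℝ) ≤ x := by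
    refine le_trans ?_ hx
    calc (H : ℝ) = (H : ℝ) ^ (1 : ℝ) := (Real.rpow_one _).symm
      _ ≤ _ := Real.rpow_le_rpow_of_exponent_le hH1 (le_max_right _ _)
  have hx0 : 0 < x := by linarith
  have hxab : x ≤ y := by
    refine le_trans ?_ hxy
    nlinarith
  have hy0 : 0 < y := by linarith
  have hΛ : 1 ≤ Real.log y - Real.log x := by
    have h1 := Real.log_le_log (by positivity) hxy
    rw [Real.log_mul hx0.ne' hH0.ne'] at h1
    have h2 : 1 ≤ Real.log H := by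
      rw [Real.le_log_iff_exp_le hH0]
      have := Real.exp_one_lt_d9
      linarith
    linarith
  have hsum := SUPx.sum_inv_le x y (by linarith) hxab
  have h2 := hmain H ((le_max_left _ _).trans hH) x y
    ((Real.rpow_le_rpow_of_exponent_le hH1 (le_max_left _ _)).trans hx) hxy
    (fun n => a (σ n)) (fun n => b (σ n)) (fun n => q (σ n)) (fun n c => hqd _ c) (fun j => by
      refine le_trans ?_ (hσ1 j)
      have hfin : {n : ℕ | 2 ^ j ≤ n ∧ n < 2 ^ (j + 1) ∧ σ (n + 1) ≠ σ n}.Finite :=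
        (Set.finite_Iio (2 ^ (j + 1))).subset fun n hn => hn.2.1
      have hsub : {n : ℕ | 2 ^ j ≤ n ∧ n < 2 ^ (j + 1) ∧
          (a (σ (n + 1)), b (σ (n + 1)), q (σ (n + 1))) ≠ (a (σ n), b (σ n), q (σ n))} ⊆
          {n : ℕ | 2 ^ j ≤ n ∧ n < 2 ^ (j + 1) ∧ σ (n + 1) ≠ σ n} := by
        rintro n ⟨h1, h2, h3⟩
        exact ⟨h1, h2, fun h4 => h3 (by rw [h4])⟩
      exact_mod_cast Set.ncard_le_ncard hsub hfin)
  have hwin : ∀ n ∈ Ioc ⌊x⌋₊ ⌊y⌋₊, (⨆ P : Cen t (q n) n, So f (a n) (b n) H n P.1) ≤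
      (⨆ P : Cen (max t 2) (q (σ n)) n, So f (a (σ n)) (b (σ n)) H n P.1) + H * (ε / 4) := by
    intro n hn
    rw [mem_Ioc] at hn
    have hnx : x < n := (Nat.floor_lt hx0.le).1 hn.1
    have hHn : H ≤ n := by
      have : (H : ℝ) ≤ n := by linarith
      exact_mod_cast this
    have hn3 : 3 ≤ n := hH3N.trans hHn
    obtain ⟨h3, h4, h5⟩ := hσ2 n hn3
    have hρ : ε' / H ≤ 1 / 3 := by
      rw [div_le_div_iff₀ hH0 (by norm_num)]
      linarith
    obtain ⟨h6, h7⟩ := close a b q (σ n) n (ε' / H) hρ h4 h3 h5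
    have hs1 : 1 ≤ σ n := by omega
    have h8 : ∀ c, |(q (σ n) c).derivative.eval (n : ℝ) - (q n c).derivative.eval (n : ℝ)| ≤
        8 * (ε' / H) := by
      intro c
      have h9 := deriv_diff 2 (q (σ n) c) (q n c) (hqd _ c) (hqd _ c) n (σ n : ℝ) (ε' / H)
        (by exact_mod_cast h3.le) (by exact_mod_cast hs1) (h7 c)
      norm_num at h9 ⊢
      exact h9
    have hne : Nonempty (Cen t (q n) n) :=
      ⟨⟨fun c => C ((q n c).derivative.eval (n : ℝ)) * X, fun c =>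
        (natDegree_C_mul_le _ _).trans (natDegree_X_le.trans ht), fun c => by simp⟩⟩
    refine ciSup_le fun P => ?_
    obtain ⟨P', hP'⟩ := window hδ n H t (by omega) (by omega) hHn (a n) (b n) (a (σ n))
      (b (σ n)) (q n) (q (σ n)) (ε' / H) (by positivity) h6 h8 (by
        rw [div_mul_cancel₀ _ hH0.ne']
        exact hε'2) P
    have hbdd : BddAbove (Set.range fun P : Cen (max t 2) (q (σ n)) n =>
        So f (a (σ n)) (b (σ n)) H n P.1) := by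
      refine ⟨H * M, ?_⟩
      rintro _ ⟨P, rfl⟩
      exact So_le hM _ _ H n P.1
    have h10 := le_ciSup hbdd P'
    linarith
  rw [Real.log_div hy0.ne' hx0.ne'] at h2 ⊢
  calc ∑ n ∈ Ioc ⌊x⌋₊ ⌊y⌋₊, (1 / (n : ℝ)) * ⨆ P : Cen t (q n) n, So f (a n) (b n) H n P.1
      ≤ ∑ n ∈ Ioc ⌊x⌋₊ ⌊y⌋₊, (1 / (n : ℝ)) * ((⨆ P : Cen (max t 2) (q (σ n)) n,
        So f (a (σ n)) (b (σ n)) H n P.1) + H * (ε / 4)) :=
        sum_le_sum fun n hn => mul_le_mul_of_nonneg_left (hwin n hn) (by positivity)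
    _ = ∑ n ∈ Ioc ⌊x⌋₊ ⌊y⌋₊, (1 / (n : ℝ)) * (⨆ P : Cen (max t 2) (q (σ n)) n,
        So f (a (σ n)) (b (σ n)) H n P.1) +
        (∑ n ∈ Ioc ⌊x⌋₊ ⌊y⌋₊, (1 / (n : ℝ))) * (H * (ε / 4)) := by
        rw [sum_mul, ← sum_add_distrib]
        exact sum_congr rfl fun _ _ => by ring
    _ ≤ ε / 2 * H * (Real.log y - Real.log x) +
        (Real.log y - Real.log x + 1) * (H * (ε / 4)) :=
        add_le_add h2 (mul_le_mul_of_nonneg_right hsum (by positivity))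
    _ ≤ ε * H * (Real.log y - Real.log x) := by
        have h3 : 0 ≤ H * (ε / 4) := by positivity
        nlinarith

end

end Pool.Agent.NV
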