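import Mathlib
import Pool.Agent.Lib.NV.Defs

/-!
# Row PBRK (MP_663568_nt, project NV): two nilsequences which correlate on many windows.  (helper26)
-/

set_option autoImplicit false
open Finset MeasureTheory Polynomial

namespace Pool.Agent.NV

open Pool.Agent.Lib.MP_663568_nt Pool.Agent.Lib.MP_663568_nt.Katai
  Pool.Agent.Lib.MP_663568_nt.Nul Pool.Agent.SV Pool.Agent.VQ

namespace PBRKx

/-- The distance of a sum. -/
theorem nd_sum {ι : Type} (s : Finset ι) (f : ι → ℝ) : nd (∑ i ∈ s, f i) ≤ ∑ i ∈ s, nd (f i) := by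
  classical
  induction s using Finset.induction_on with
  | empty => simp [show nd 0 = 0 by simpa using nd_int 0]
  | insert a s ha ih =>
    rw [sum_insert ha, sum_insert ha]
    exact (nd_add_le _ _).trans (by linarith)

/-- The form with a unit vector on the left. -/
theorem bf_ev {D : ℕ} (b : Fin D → Fin D → ℤ) (i : Fin D) (a : Fin D → ℝ) :
    bf b (ev1 i) a = ∑ j, (b i j : ℝ) * a j := by
  unfold bf ev1
  rw [Finset.sum_eq_single i]
  · refine sum_congr rfl fun j _ => ?_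
    simp
  · intro k _ hk
    refine sum_eq_zero fun j _ => ?_
    rw [Pi.single_eq_of_ne hk]; ring
  · intro h; exact absurd (mem_univ i) h

/-- The form with a unit vector on the right. -/
theorem bf_ev' {D : ℕ} (b : Fin D → Fin D → ℤ) (i : Fin D) (a : Fin D → ℝ) :
    bf b a (ev1 i) = ∑ j, (b j i : ℝ) * a j := by
  unfold bf ev1
  refine sum_congr rfl fun j _ => ?_
  rw [Finset.sum_eq_single i]
  · simp
  · intro k _ hk
    rw [Pi.single_eq_of_ne hk]; ring
  · intro h; exact absurd (mem_univ i) h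

/-- The commutator form in coordinates. -/
theorem om_ev {D : ℕ} (b : Fin D → Fin D → ℤ) (i : Fin D) (a : Fin D → ℝ) :
    om b (ev1 i) a = ∑ j, ((b i j - b j i : ℤ) : ℝ) * a j := by
  unfold om
  rw [bf_ev, bf_ev', ← sum_sub_distrib]
  refine sum_congr rfl fun j _ => ?_
  push_cast; ring

/-- The commutator form is alternating. -/
theorem om_swap {D : ℕ} (b : Fin D → Fin D → ℤ) (u v : Fin D → ℝ) : om b u v = -om b v u := by
  unfold om; ring

/-- Linearity in the second argument. -/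
theorem bf_lin {D : ℕ} (b : Fin D → Fin D → ℤ) (a u : Fin D → ℝ) :
    bf b a u = ∑ i, bf b a (ev1 i) * u i := by
  simp only [bf_ev', sum_mul]
  unfold bf
  rw [sum_comm]
  refine sum_congr rfl fun i _ => sum_congr rfl fun j _ => ?_
  ring

/-- Linearity in the first argument. -/
theorem bf_lin' {D : ℕ} (b : Fin D → Fin D → ℤ) (a u : Fin D → ℝ) :
    bf b u a = ∑ i, bf b (ev1 i) a * u i := by
  simp only [bf_ev, sum_mul]
  unfold bf
  refine sum_congr rfl fun i _ => sum_congr rfl fun j _ => ?_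
  ring

/-- The commutator form is linear in the second argument. -/
theorem om_lin {D : ℕ} (b : Fin D → Fin D → ℤ) (a u : Fin D → ℝ) :
    om b a u = ∑ i, om b a (ev1 i) * u i := by
  unfold om
  rw [bf_lin b a u, bf_lin' b a u, ← sum_sub_distrib]
  refine sum_congr rfl fun i _ => ?_
  ring

/-- A combination of almost integers. -/
theorem nd_comb {ι : Type} (s : Finset ι) (n : ι → ℤ) (x : ι → ℝ) (S N : ℕ) (δ : ℝ)
    (hn : ∀ k ∈ s, |n k| ≤ S) (hx : ∀ k ∈ s, nd (x k) ≤ δ) (hδ : 0 ≤ δ) (hs : #s ≤ N) :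
    nd (∑ k ∈ s, (n k : ℝ) * x k) ≤ N * (S * δ) := by
  calc nd (∑ k ∈ s, (n k : ℝ) * x k) ≤ ∑ k ∈ s, nd ((n k : ℝ) * x k) := nd_sum _ _
    _ ≤ ∑ k ∈ s, (S * δ : ℝ) := by
        refine sum_le_sum fun k hk => ?_
        have h1 := nd_int_mul_le (n k) (x k)
        have h2 : |(n k : ℝ)| ≤ S := by
          have := hn k hk
          have h3 : ((|n k| : ℤ) : ℝ) ≤ ((S : ℤ) : ℝ) := by exact_mod_cast this
          rw [Int.cast_abs] at h3
          simpa using h3
        calc nd ((n k : ℝ) * x k) ≤ |(n k : ℝ)| * nd (x k) := h1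
          _ ≤ S * δ := mul_le_mul h2 (hx k hk) (nd_nonneg _) (Nat.cast_nonneg _)
    _ = #s * (S * δ) := by rw [sum_const, nsmul_eq_mul]
    _ ≤ N * (S * δ) := by
        have : (#s : ℝ) ≤ N := by exact_mod_cast hs
        have h4 : 0 ≤ (S : ℝ) * δ := by positivity
        exact mul_le_mul_of_nonneg_right this h4

/-- The number of vectors in a box. -/
theorem box_card {d : ℕ} (KK : Finset (Fin d → ℤ)) (C : ℕ) (h : ∀ κ ∈ KK, ∀ i, |κ i| ≤ C) :
    #KK ≤ (2 * C + 1) ^ d := by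
  classical
  have h1 : KK ⊆ Fintype.piFinset fun _ : Fin d => Icc (-(C : ℤ)) C := by
    intro κ hκ
    rw [Fintype.mem_piFinset]
    intro i
    rw [mem_Icc]
    exact abs_le.1 (h κ hκ i)
  calc #KK ≤ #(Fintype.piFinset fun _ : Fin d => Icc (-(C : ℤ)) C) := card_le_card h1
    _ = (2 * C + 1) ^ d := by
        rw [Fintype.card_piFinset]
        simp only [Int.card_Icc, prod_const, card_univ, Fintype.card_fin]
        congr 1
        omega

/-- The slope of the image of `w`. -/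
def kv {D : ℕ} (b : Fin D → Fin D → ℤ) (q : ℕ) (w : Fin D → ℤ) : Fin D → ℤ :=
  fun i => -(q : ℤ) * ∑ j, (b i j - b j i) * w j

/-- The image of `w`. -/
theorem dp_kv {D : ℕ} (b : Fin D → Fin D → ℤ) (q : ℕ) (w : Fin D → ℤ) (a : Fin D → ℝ) :
    dp (kv b q w) a = (q : ℝ) * ∑ j, (w j : ℝ) * (-om b a (ev1 j)) := by
  have h1 : ∀ j, -om b a (ev1 j) = ∑ i, ((b j i - b i j : ℤ) : ℝ) * a i := by
    intro j
    rw [om_swap b a (ev1 j), neg_neg, om_ev]
  simp only [h1]
  unfold dp kv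
  rw [mul_sum]
  simp only [mul_sum]
  rw [sum_comm]
  refine sum_congr rfl fun i _ => ?_
  push_cast
  rw [sum_mul]
  refine sum_congr rfl fun j _ => ?_
  ring

/-- The finite set of the relations. -/
noncomputable def KS (D : ℕ) (b : Fin D → Fin D → ℤ) (C S : ℕ) :
    Finset ((Fin D → ℤ) × (Fin D → ℤ)) := by
  classical
  exact ((Icc 1 C ×ˢ (Fintype.piFinset fun _ : Fin (D + D) => Icc (-(S : ℤ)) S)).image
    fun x => (kv b x.1 fun j => x.2 (Fin.castAdd D j), kv b x.1 fun j => x.2 (Fin.natAdd D j))).filter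
      fun k => k ≠ 0

theorem mem_KS {D : ℕ} {b : Fin D → Fin D → ℤ} {C S q : ℕ} {w : Fin (D + D) → ℤ} (hq : 1 ≤ q)
    (hq' : q ≤ C) (hw : ∀ i, |w i| ≤ S)
    (h : ∃ i : Fin D, (∑ j, (b i j - b j i) * w (Fin.castAdd D j) ≠ 0 ∨
      ∑ j, (b i j - b j i) * w (Fin.natAdd D j) ≠ 0)) :
    (kv b q fun j => w (Fin.castAdd D j), kv b q fun j => w (Fin.natAdd D j)) ∈ KS D b C S := by
  classical
  unfold KS
  rw [mem_filter]
  constructor
  · rw [mem_image]
    refine ⟨(q, w), ?_, rfl⟩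
    rw [mem_product, mem_Icc, Fintype.mem_piFinset]
    refine ⟨⟨hq, hq'⟩, fun i => ?_⟩
    rw [mem_Icc]
    exact abs_le.1 (hw i)
  · intro h0
    rw [Prod.mk_eq_zero] at h0
    obtain ⟨h1, h2⟩ := h0
    obtain ⟨i, hi⟩ := h
    have hq0 : (-(q : ℤ)) ≠ 0 := by
      have : (0 : ℤ) < q := by exact_mod_cast hq
      omega
    rcases hi with hi | hi
    · have := congrFun h1 i
      unfold kv at this
      exact mul_ne_zero hq0 hi this
    · have := congrFun h2 i
      unfold kv at this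
      exact mul_ne_zero hq0 hi this

end PBRKx

open Classical in
theorem pbrk : PBRK_stmt := by
  intro hDER hBRK hLIN D b f hf c hc hc1
  obtain ⟨c', E₁, n₁, hc', hc1', hE₁, hder⟩ := hDER D b f hf c hc hc1
  obtain ⟨C, hC1, hbrk⟩ := hBRK (D + D) c' hc' hc1'
  obtain ⟨M, S, hM, hlin⟩ := hLIN D C b
  have hE2 : 0 ≤ ((2 * C + 1) ^ (D + D) * (S * C) : ℝ) := by positivity
  have hE3 : 0 ≤ ((C : ℝ) * ((D + D : ℕ) * S) * E₁) := by positivity
  refine ⟨M, max n₁ C, ((2 * C + 1) ^ (D + D) * (S * C) : ℝ) + C * ((D + D : ℕ) * S) * E₁,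
    PBRKx.KS D b C S, hM, by positivity, ?_, ?_⟩
  · intro k hk
    unfold PBRKx.KS at hk
    exact (mem_filter.1 hk).2
  intro l L n hl hL X X' hX hX' hmany
  have hl1 : n₁ ≤ l := (le_max_left _ _).trans hl
  have hl2 : C ≤ l := (le_max_right _ _).trans hl
  have hl0 : (0 : ℝ) < l := by
    have : 0 < l := by omega
    exact_mod_cast this
  have hL0 : (0 : ℝ) < L := by
    have : 0 < l * l := by
      have : 0 < l := by omega
      positivity
    have : 0 < L := by omega
    exact_mod_cast this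
  obtain ⟨ξ, θ, hcard⟩ := hder l L n hl1 hL X X' hX hX' hmany
  set γ : Fin (D + D) → ℝ := Fin.append X.a X'.a with hγ
  set β : Fin (D + D) → ℝ := Fin.append (fun i => -om b X.a (ev1 i)) (fun i => om b X'.a (ev1 i))
    with hβ
  have hτ : 0 ≤ E₁ / L := by positivity
  have hrew : ∀ r : ℕ, ∑ i, β i * (⌊(r : ℝ) * γ i⌋ : ℝ) =
      -om b X.a (fl r X.a) + om b X'.a (fl r X'.a) := by
    intro r
    rw [Fin.sum_univ_add]
    simp only [hβ, hγ, Fin.append_left, Fin.append_right]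
    rw [PBRKx.om_lin b X.a (fl r X.a), PBRKx.om_lin b X'.a (fl r X'.a), ← sum_neg_distrib]
    unfold fl
    congr 1
    refine sum_congr rfl fun i _ => ?_
    ring
  have hcard2 : c' * l ≤ (#((Icc 1 l).filter fun r : ℕ =>
      nd (ξ * r + ∑ i, β i * (⌊(r : ℝ) * γ i⌋ : ℝ) + θ) ≤ E₁ / L) : ℝ) := by
    refine hcard.trans (le_of_eq ?_)
    congr 2
    refine filter_congr fun r _ => ?_
    rw [hrew r, show ξ * (r : ℝ) - om b X.a (fl r X.a) + om b X'.a (fl r X'.a) + θ =
      ξ * r + (-om b X.a (fl r X.a) + om b X'.a (fl r X'.a)) + θ by ring]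
  obtain ⟨q, KK, hq1, hqC, hKK, hw⟩ := hbrk l γ β ξ θ (E₁ / L) hl2 hτ hcard2
  rcases hlin KK (fun κ hκ i => (hKK κ hκ).1 i) with h | ⟨w, hwS, hworth, hwne⟩
  · left
    have key : ∀ (n : (Fin (D + D) → ℤ) → ℤ) (a : Fin D → ℝ) (i : Fin D), (∀ κ, |n κ| ≤ S) →
        (M : ℝ) * om b (ev1 i) a = ∑ κ ∈ KK, (n κ : ℝ) * dp κ γ →
        nd ((M : ℝ) * om b (ev1 i) a) ≤
          (((2 * C + 1) ^ (D + D) * (S * C) : ℝ) + C * ((D + D : ℕ) * S) * E₁) / l := by
      intro n a i hn heq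
      rw [heq]
      have h1 := PBRKx.nd_comb KK n (fun κ => dp κ γ) S ((2 * C + 1) ^ (D + D)) (C / l)
        (fun κ _ => hn κ) (fun κ hκ => (hKK κ hκ).2) (by positivity)
        (PBRKx.box_card KK C fun κ hκ => (hKK κ hκ).1)
      refine h1.trans ?_
      rw [le_div_iff₀ hl0]
      push_cast
      have h2 : ((2 * (C : ℝ) + 1) ^ (D + D) * (S * (C / l))) * l =
          (2 * (C : ℝ) + 1) ^ (D + D) * (S * C) := by
        field_simp
      rw [h2]
      push_cast at hE3
      linarith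
    refine ⟨fun i => ?_, fun i => ?_⟩
    · obtain ⟨n, n', hn, hn', h1, h2, h3, h4⟩ := h i
      refine key n X.a i hn ?_
      rw [PBRKx.om_ev, mul_sum]
      have h5 : ∀ κ : Fin (D + D) → ℤ, dp κ γ =
          ∑ j : Fin D, (κ (Fin.castAdd D j) : ℝ) * X.a j +
          ∑ j : Fin D, (κ (Fin.natAdd D j) : ℝ) * X'.a j := by
        intro κ
        unfold dp
        rw [Fin.sum_univ_add]
        simp only [hγ, Fin.append_left, Fin.append_right]
      simp only [h5, mul_add, sum_add_distrib, mul_sum]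
      rw [sum_comm, sum_comm (s := KK) (t := univ) (f := fun κ j => (n κ : ℝ) *
        ((κ (Fin.natAdd D j) : ℝ) * X'.a j)), ← sum_add_distrib]
      refine sum_congr rfl fun j _ => ?_
      have h6 : (M : ℝ) * ((b i j - b j i : ℤ) : ℝ) =
          ∑ κ ∈ KK, (n κ : ℝ) * (κ (Fin.castAdd D j) : ℝ) := by
        have := congrArg (Int.cast : ℤ → ℝ) (h1 j)
        push_cast at this ⊢
        exact this
      have h7 : (0 : ℝ) = ∑ κ ∈ KK, (n κ : ℝ) * (κ (Fin.natAdd D j) : ℝ) := by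
        have := congrArg (Int.cast : ℤ → ℝ) (h2 j)
        push_cast at this ⊢
        exact this
      have h8 : ∑ κ ∈ KK, (n κ : ℝ) * ((κ (Fin.castAdd D j) : ℝ) * X.a j) =
          (∑ κ ∈ KK, (n κ : ℝ) * (κ (Fin.castAdd D j) : ℝ)) * X.a j := by
        rw [sum_mul]
        refine sum_congr rfl fun κ _ => ?_
        ring
      have h9 : ∑ κ ∈ KK, (n κ : ℝ) * ((κ (Fin.natAdd D j) : ℝ) * X'.a j) =
          (∑ κ ∈ KK, (n κ : ℝ) * (κ (Fin.natAdd D j) : ℝ)) * X'.a j := by
        rw [sum_mul]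
        refine sum_congr rfl fun κ _ => ?_
        ring
      rw [h8, h9, ← h6, ← h7]
      ring
    · obtain ⟨n, n', hn, hn', h1, h2, h3, h4⟩ := h i
      refine key n' X'.a i hn' ?_
      rw [PBRKx.om_ev, mul_sum]
      have h5 : ∀ κ : Fin (D + D) → ℤ, dp κ γ =
          ∑ j : Fin D, (κ (Fin.castAdd D j) : ℝ) * X.a j +
          ∑ j : Fin D, (κ (Fin.natAdd D j) : ℝ) * X'.a j := by
        intro κ
        unfold dp
        rw [Fin.sum_univ_add]
        simp only [hγ, Fin.append_left, Fin.append_right]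
      simp only [h5, mul_add, sum_add_distrib, mul_sum]
      rw [sum_comm, sum_comm (s := KK) (t := univ) (f := fun κ j => (n' κ : ℝ) *
        ((κ (Fin.natAdd D j) : ℝ) * X'.a j)), ← sum_add_distrib]
      refine sum_congr rfl fun j _ => ?_
      have h6 : (M : ℝ) * ((b i j - b j i : ℤ) : ℝ) =
          ∑ κ ∈ KK, (n' κ : ℝ) * (κ (Fin.natAdd D j) : ℝ) := by
        have := congrArg (Int.cast : ℤ → ℝ) (h4 j)
        push_cast at this ⊢
        exact this
      have h7 : (0 : ℝ) = ∑ κ ∈ KK, (n' κ : ℝ) * (κ (Fin.castAdd D j) : ℝ) := by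
        have := congrArg (Int.cast : ℤ → ℝ) (h3 j)
        push_cast at this ⊢
        exact this
      have h8 : ∑ κ ∈ KK, (n' κ : ℝ) * ((κ (Fin.castAdd D j) : ℝ) * X.a j) =
          (∑ κ ∈ KK, (n' κ : ℝ) * (κ (Fin.castAdd D j) : ℝ)) * X.a j := by
        rw [sum_mul]
        refine sum_congr rfl fun κ _ => ?_
        ring
      have h9 : ∑ κ ∈ KK, (n' κ : ℝ) * ((κ (Fin.natAdd D j) : ℝ) * X'.a j) =
          (∑ κ ∈ KK, (n' κ : ℝ) * (κ (Fin.natAdd D j) : ℝ)) * X'.a j := by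
        rw [sum_mul]
        refine sum_congr rfl fun κ _ => ?_
        ring
      rw [h8, h9, ← h6, ← h7]
      ring
  · right
    refine ⟨_, PBRKx.mem_KS hq1 hqC hwS hwne, ?_⟩
    have h1 := hw w hworth
    have h2 : (q : ℝ) * dp w β = dp (PBRKx.kv b q fun j => w (Fin.castAdd D j)) X.a -
        dp (PBRKx.kv b q fun j => w (Fin.natAdd D j)) X'.a := by
      rw [PBRKx.dp_kv, PBRKx.dp_kv, ← mul_sub]
      congr 1
      unfold dp
      rw [Fin.sum_univ_add]
      simp only [hβ, Fin.append_left, Fin.append_right]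
      rw [sub_eq_add_neg, ← sum_neg_distrib]
      congr 1
      refine sum_congr rfl fun j _ => ?_
      ring
    rw [← h2]
    refine h1.trans ?_
    have h3 : ∑ i, |(w i : ℝ)| ≤ (D + D : ℕ) * S := by
      calc ∑ i, |(w i : ℝ)| ≤ ∑ i : Fin (D + D), (S : ℝ) := by
            refine sum_le_sum fun i _ => ?_
            have := hwS i
            have h3 : ((|w i| : ℤ) : ℝ) ≤ ((S : ℤ) : ℝ) := by exact_mod_cast this
            rw [Int.cast_abs] at h3
            simpa using h3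
        _ = _ := by rw [sum_const, nsmul_eq_mul, card_univ, Fintype.card_fin]
    calc (C : ℝ) * (∑ i, |(w i : ℝ)|) * (E₁ / L) ≤ C * ((D + D : ℕ) * S) * (E₁ / L) := by
          gcongr
      _ = (C * ((D + D : ℕ) * S) * E₁) / L := by ring
      _ ≤ _ := by
          apply div_le_div_of_nonneg_right _ hL0.le
          linarith

end Pool.Agent.NV
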