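import Mathlib
import Pool.Agent.Lib.MP_663568_h6.Fejer

/-!
# A quantitative Kronecker theorem (MP_663568_nt, project NV2).  (helper19)
-/

set_option autoImplicit false
open Finset

namespace Pool.Agent.NV

open Pool.Agent.Lib.MP_663568_nt Pool.Agent.Lib.MP_663568_nt.Katai
  Pool.Agent.Lib.MP_663568_nt.Nul Pool.Agent.Lib.MP_663568_nt.H6

namespace KRONx

variable {ι : Type} [Fintype ι] [DecidableEq ι]

/-- The twisted sum of products of Fejer kernels. -/
noncomputable def G (K n : ℕ) (γ y : ι → ℝ) (T : Finset ι) (θ : ℝ) : ℂ :=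
  ∑ h ∈ Icc 1 n, ee ((h : ℝ) * θ) * ((∏ i ∈ T, FK K ((h : ℝ) * γ i - y i) : ℝ) : ℂ)

theorem geom_Icc (n : ℕ) (θ : ℝ) : ‖∑ h ∈ Icc 1 n, ee ((h : ℝ) * θ)‖ * (4 * nd θ) ≤ 2 := by
  have h1 : ∑ h ∈ Icc 1 n, ee ((h : ℝ) * θ) = ee θ * ∑ j ∈ range n, ee ((j : ℝ) * θ) := by
    induction n with
    | zero => simp
    | succ n ih =>
      rw [Finset.sum_Icc_succ_top (by omega), ih, Finset.sum_range_succ, mul_add, ← ee_add]
      congr 2
      push_cast
      ring
  rw [h1, norm_mul, norm_ee, one_mul]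
  exact norm_geom_le n θ

omit [Fintype ι] in
theorem G_insert (K n : ℕ) (hK : 1 ≤ K) (γ y : ι → ℝ) (T : Finset ι) (i : ι) (hi : i ∉ T) (θ : ℝ) :
    G K n γ y (insert i T) θ = (1 / (K : ℂ)) * ∑ j ∈ range K, ∑ l ∈ range K,
      ee (-(((j : ℝ) - l) * y i)) * G K n γ y T (θ + ((j : ℝ) - l) * γ i) := by
  have hKc : (K : ℂ) ≠ 0 := by exact_mod_cast (by omega : K ≠ 0)
  have hF : ∀ x : ℝ, ((FK K x : ℝ) : ℂ) =
      (1 / (K : ℂ)) * ∑ j ∈ range K, ∑ l ∈ range K, ee (((j : ℝ) - l) * x) := by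
    intro x
    rw [← sq_expand]
    unfold FK
    push_cast
    rw [one_div, div_eq_inv_mul]
  have h1 : ∀ h ∈ Icc 1 n, ee ((h : ℝ) * θ) *
      ((∏ i' ∈ insert i T, FK K ((h : ℝ) * γ i' - y i') : ℝ) : ℂ) =
      (1 / (K : ℂ)) * ∑ j ∈ range K, ∑ l ∈ range K, ee (-(((j : ℝ) - l) * y i)) *
        (ee ((h : ℝ) * (θ + ((j : ℝ) - l) * γ i)) *
          ((∏ i' ∈ T, FK K ((h : ℝ) * γ i' - y i') : ℝ) : ℂ)) := by
    intro h _
    rw [Finset.prod_insert hi]
    push_cast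
    rw [hF]
    have h2 : ∀ j l : ℕ, ee (-(((j : ℝ) - l) * y i)) * (ee ((h : ℝ) * (θ + ((j : ℝ) - l) * γ i)) *
        ∏ i' ∈ T, ((FK K ((h : ℝ) * γ i' - y i') : ℝ) : ℂ)) =
        ee (((j : ℝ) - l) * ((h : ℝ) * γ i - y i)) * (ee ((h : ℝ) * θ) *
        ∏ i' ∈ T, ((FK K ((h : ℝ) * γ i' - y i') : ℝ) : ℂ)) := by
      intro j l
      rw [← mul_assoc, ← mul_assoc, ← ee_add, ← ee_add]
      congr 2
      ring
    simp_rw [h2, ← Finset.sum_mul]
    ring
  unfold G
  rw [sum_congr rfl h1, ← Finset.mul_sum, Finset.sum_comm]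
  congr 1
  refine sum_congr rfl fun j _ => ?_
  rw [Finset.sum_comm]
  refine sum_congr rfl fun l _ => ?_
  rw [Finset.mul_sum]

theorem G_bound (K n : ℕ) (hK : 1 ≤ K) (γ y : ι → ℝ) (ρ : ℝ) (hρ : 0 < ρ) (T : Finset ι) :
    ∀ θ : ℝ, (∀ κ : ι → ℤ, (∀ i, |κ i| ≤ K) → (∀ i ∉ T, κ i = 0) →
      ρ ≤ nd (θ + ∑ i, (κ i : ℝ) * γ i)) →
    ‖G K n γ y T θ‖ ≤ (K : ℝ) ^ #T * (1 / (2 * ρ)) := by
  have hKr : (1 : ℝ) ≤ K := by exact_mod_cast hK
  induction T using Finset.induction_on with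
  | empty =>
    intro θ hθ
    have h1 : ρ ≤ nd θ := by
      have := hθ 0 (fun i => by simp) (fun i _ => rfl)
      simpa using this
    have h2 := geom_Icc n θ
    have h3 : G K n γ y ∅ θ = ∑ h ∈ Icc 1 n, ee ((h : ℝ) * θ) := by
      unfold G
      simp
    rw [h3, card_empty, pow_zero, one_mul, le_div_iff₀ (by positivity)]
    have h4 : ‖∑ h ∈ Icc 1 n, ee ((h : ℝ) * θ)‖ * (4 * ρ) ≤ 2 :=
      (mul_le_mul_of_nonneg_left (by linarith) (norm_nonneg _)).trans h2
    linarith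
  | insert i T hi ih =>
    intro θ hθ
    rw [G_insert K n hK γ y T i hi, card_insert_of_notMem hi]
    have h1 : ∀ j ∈ range K, ∀ l ∈ range K,
        ‖ee (-(((j : ℝ) - l) * y i)) * G K n γ y T (θ + ((j : ℝ) - l) * γ i)‖ ≤
          (K : ℝ) ^ #T * (1 / (2 * ρ)) := by
      intro j hj l hl
      rw [mem_range] at hj hl
      rw [norm_mul, norm_ee, one_mul]
      refine ih _ fun κ hκ hκT => ?_
      have h2 := hθ (Function.update κ i ((j : ℤ) - l)) (fun i' => by
        by_cases h : i' = i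
        · subst h
          rw [Function.update_self, abs_le]
          constructor <;> omega
        · rw [Function.update_of_ne h]
          exact hκ i') (fun i' hi' => by
        rw [mem_insert, not_or] at hi'
        rw [Function.update_of_ne hi'.1]
        exact hκT i' hi'.2)
      refine h2.trans (le_of_eq ?_)
      congr 1
      have h3 : ∑ i', ((Function.update κ i ((j : ℤ) - l) i' : ℤ) : ℝ) * γ i' =
          ∑ i', (κ i' : ℝ) * γ i' + ((j : ℝ) - l) * γ i := by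
        rw [← Finset.add_sum_erase _ _ (mem_univ i), ← Finset.add_sum_erase (f := fun i' =>
          (κ i' : ℝ) * γ i') _ (mem_univ i), Function.update_self, hκT i hi]
        have h4 : ∑ x ∈ univ.erase i, ((Function.update κ i ((j : ℤ) - l) x : ℤ) : ℝ) * γ x =
            ∑ x ∈ univ.erase i, (κ x : ℝ) * γ x := by
          refine sum_congr rfl fun x hx => ?_
          rw [Function.update_of_ne (ne_of_mem_erase hx)]
        rw [h4]
        push_cast
        ring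
      rw [h3]
      ring
    have hKc : ‖(1 / (K : ℂ))‖ = 1 / (K : ℝ) := by
      rw [norm_div, norm_one, Complex.norm_natCast]
    rw [norm_mul, hKc]
    calc 1 / (K : ℝ) * ‖∑ j ∈ range K, ∑ l ∈ range K,
          ee (-(((j : ℝ) - l) * y i)) * G K n γ y T (θ + ((j : ℝ) - l) * γ i)‖
        ≤ 1 / (K : ℝ) * ∑ j ∈ range K, ∑ l ∈ range K, (K : ℝ) ^ #T * (1 / (2 * ρ)) := by
          refine mul_le_mul_of_nonneg_left ?_ (by positivity)
          refine (norm_sum_le _ _).trans (sum_le_sum fun j hj => ?_)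
          exact (norm_sum_le _ _).trans (sum_le_sum fun l hl => h1 j hj l hl)
      _ = (K : ℝ) ^ (#T + 1) * (1 / (2 * ρ)) := by
          rw [sum_const, sum_const, card_range, nsmul_eq_mul, nsmul_eq_mul, pow_succ]
          field_simp

theorem G_main (K n : ℕ) (hK : 1 ≤ K) (γ y : ι → ℝ) (ρ : ℝ) (hρ : 0 < ρ) (T : Finset ι) :
    (∀ κ : ι → ℤ, κ ≠ 0 → (∀ i, |κ i| ≤ K) → (∀ i ∉ T, κ i = 0) →
      ρ ≤ nd (∑ i, (κ i : ℝ) * γ i)) →
    ‖G K n γ y T 0 - n‖ ≤ #T * ((K : ℝ) ^ #T * (1 / (2 * ρ))) := by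
  have hKr : (1 : ℝ) ≤ K := by exact_mod_cast hK
  have hKc0 : (K : ℂ) ≠ 0 := by exact_mod_cast (by omega : K ≠ 0)
  induction T using Finset.induction_on with
  | empty =>
    intro _
    have h3 : G K n γ y ∅ 0 = n := by
      unfold G
      simp [ee_zero']
    rw [h3]
    simp
  | insert i T hi ih =>
    intro hκ
    have ih' := ih fun κ h0 h1 h2 => hκ κ h0 h1 fun i' hi' => h2 i' fun h => hi' (mem_insert_of_mem h)
    have h1 : ∀ j ∈ range K, ∀ l ∈ range K, j ≠ l →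
        ‖ee (-(((j : ℝ) - l) * y i)) * G K n γ y T (0 + ((j : ℝ) - l) * γ i)‖ ≤
          (K : ℝ) ^ #T * (1 / (2 * ρ)) := by
      intro j hj l hl hjl
      rw [mem_range] at hj hl
      rw [norm_mul, norm_ee, one_mul]
      refine G_bound K n hK γ y ρ hρ T _ fun κ hκ1 hκT => ?_
      have h2 := hκ (Function.update κ i ((j : ℤ) - l)) (fun h => by
        have := congrFun h i
        rw [Function.update_self, Pi.zero_apply] at this
        omega) (fun i' => by
        by_cases h : i' = i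
        · subst h
          rw [Function.update_self, abs_le]
          constructor <;> omega
        · rw [Function.update_of_ne h]
          exact hκ1 i') (fun i' hi' => by
        rw [mem_insert, not_or] at hi'
        rw [Function.update_of_ne hi'.1]
        exact hκT i' hi'.2)
      refine h2.trans (le_of_eq ?_)
      congr 1
      rw [← Finset.add_sum_erase _ _ (mem_univ i), ← Finset.add_sum_erase (f := fun i' =>
        (κ i' : ℝ) * γ i') _ (mem_univ i), Function.update_self, hκT i hi]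
      have h4 : ∑ x ∈ univ.erase i, ((Function.update κ i ((j : ℤ) - l) x : ℤ) : ℝ) * γ x =
          ∑ x ∈ univ.erase i, (κ x : ℝ) * γ x := by
        refine sum_congr rfl fun x hx => ?_
        rw [Function.update_of_ne (ne_of_mem_erase hx)]
      rw [h4]
      push_cast
      ring
    have h2 : G K n γ y (insert i T) 0 - n = (G K n γ y T 0 - n) + (1 / (K : ℂ)) *
        ∑ j ∈ range K, ∑ l ∈ range K, (if j = l then 0 else
          ee (-(((j : ℝ) - l) * y i)) * G K n γ y T (0 + ((j : ℝ) - l) * γ i)) := by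
      rw [G_insert K n hK γ y T i hi]
      have h3 : ∀ j ∈ range K, ∑ l ∈ range K,
          ee (-(((j : ℝ) - l) * y i)) * G K n γ y T (0 + ((j : ℝ) - l) * γ i) =
          G K n γ y T 0 + ∑ l ∈ range K, (if j = l then 0 else
          ee (-(((j : ℝ) - l) * y i)) * G K n γ y T (0 + ((j : ℝ) - l) * γ i)) := by
        intro j hj
        rw [← Finset.add_sum_erase _ _ hj, ← Finset.add_sum_erase (f := fun l : ℕ =>
          (if j = l then 0 else ee (-(((j : ℝ) - l) * y i)) *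
            G K n γ y T (0 + ((j : ℝ) - l) * γ i))) _ hj]
        have h5 : ∑ x ∈ (range K).erase j, (if j = x then 0 else ee (-(((j : ℝ) - x) * y i)) *
            G K n γ y T (0 + ((j : ℝ) - x) * γ i)) = ∑ x ∈ (range K).erase j,
            ee (-(((j : ℝ) - x) * y i)) * G K n γ y T (0 + ((j : ℝ) - x) * γ i) := by
          refine sum_congr rfl fun x hx => ?_
          rw [if_neg (ne_of_mem_erase hx).symm]
        rw [h5, if_pos rfl]
        simp [ee_zero']
      rw [sum_congr rfl h3, sum_add_distrib, sum_const, card_range, nsmul_eq_mul, mul_add,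
        ← mul_assoc, one_div_mul_cancel hKc0, one_mul]
      ring
    rw [h2, card_insert_of_notMem hi]
    have hKc : ‖(1 / (K : ℂ))‖ = 1 / (K : ℝ) := by
      rw [norm_div, norm_one, Complex.norm_natCast]
    have hb0 : 0 ≤ (K : ℝ) ^ #T * (1 / (2 * ρ)) := by positivity
    have h6 : ‖(1 / (K : ℂ)) * ∑ j ∈ range K, ∑ l ∈ range K, (if j = l then 0 else
          ee (-(((j : ℝ) - l) * y i)) * G K n γ y T (0 + ((j : ℝ) - l) * γ i))‖ ≤
        (K : ℝ) ^ (#T + 1) * (1 / (2 * ρ)) := by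
      rw [norm_mul, hKc]
      calc 1 / (K : ℝ) * ‖∑ j ∈ range K, ∑ l ∈ range K, (if j = l then 0 else
            ee (-(((j : ℝ) - l) * y i)) * G K n γ y T (0 + ((j : ℝ) - l) * γ i))‖
          ≤ 1 / (K : ℝ) * ∑ j ∈ range K, ∑ l ∈ range K, (K : ℝ) ^ #T * (1 / (2 * ρ)) := by
            refine mul_le_mul_of_nonneg_left ?_ (by positivity)
            refine (norm_sum_le _ _).trans (sum_le_sum fun j hj => ?_)
            refine (norm_sum_le _ _).trans (sum_le_sum fun l hl => ?_)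
            by_cases hjl : j = l
            · rw [if_pos hjl, norm_zero]
              exact hb0
            · rw [if_neg hjl]
              exact h1 j hj l hl hjl
        _ = (K : ℝ) ^ (#T + 1) * (1 / (2 * ρ)) := by
            rw [sum_const, sum_const, card_range, nsmul_eq_mul, nsmul_eq_mul, pow_succ]
            field_simp
    refine (norm_add_le _ _).trans ((add_le_add ih' h6).trans ?_)
    have h7 : (K : ℝ) ^ #T ≤ (K : ℝ) ^ (#T + 1) := pow_le_pow_right₀ hKr (by omega)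
    have h8 : 0 ≤ 1 / (2 * ρ) := by positivity
    have h9 : (#T : ℝ) * ((K : ℝ) ^ #T * (1 / (2 * ρ))) ≤
        (#T : ℝ) * ((K : ℝ) ^ (#T + 1) * (1 / (2 * ρ))) :=
      mul_le_mul_of_nonneg_left (mul_le_mul_of_nonneg_right h7 h8) (Nat.cast_nonneg _)
    push_cast
    linarith

theorem FK_small (K : ℕ) (hK : 1 ≤ K) (x η : ℝ) (hη : 0 < η) (h : η < nd x) :
    FK K x ≤ 1 / (4 * η ^ 2 * K) := by
  have hKr : (0 : ℝ) < K := by exact_mod_cast hK
  have h1 := norm_geom_le K x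
  have h2 : ‖∑ j ∈ range K, ee ((j : ℝ) * x)‖ * (2 * η) ≤ 1 := by
    have : ‖∑ j ∈ range K, ee ((j : ℝ) * x)‖ * (4 * η) ≤ 2 :=
      (mul_le_mul_of_nonneg_left (by linarith) (norm_nonneg _)).trans h1
    linarith
  have h3 : (‖∑ j ∈ range K, ee ((j : ℝ) * x)‖ * (2 * η)) ^ 2 ≤ 1 := by
    rw [sq_le_one_iff₀ (by positivity)]
    exact h2
  unfold FK
  rw [div_le_div_iff₀ hKr (by positivity)]
  nlinarith

/-- **Quantitative Kronecker theorem.** -/
theorem kron (d : ℕ) (η : ℝ) (hη : 0 < η) : ∃ C : ℕ, 1 ≤ C ∧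
    ∀ (ι : Type) [Fintype ι] [DecidableEq ι] (T : Finset ι), #T ≤ d → ∀ (n : ℕ) (γ y : ι → ℝ),
    1 ≤ n → (∃ h : ℕ, 1 ≤ h ∧ h ≤ n ∧ ∀ i ∈ T, nd ((h : ℝ) * γ i - y i) ≤ η) ∨
      ∃ κ : ι → ℤ, κ ≠ 0 ∧ (∀ i, |κ i| ≤ C) ∧ (∀ i ∉ T, κ i = 0) ∧
        nd (∑ i, (κ i : ℝ) * γ i) ≤ C / n := by
  obtain ⟨K, hK⟩ := exists_nat_ge (max 1 (2 * d / η ^ 2))
  have hK1 : 1 ≤ K := by
    have : (1 : ℝ) ≤ K := (le_max_left _ _).trans hK
    exact_mod_cast this
  have hK2 : 2 * d / η ^ 2 ≤ K := (le_max_right _ _).trans hK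
  have hKr : (1 : ℝ) ≤ K := by exact_mod_cast hK1
  obtain ⟨C, hC⟩ : ∃ C : ℕ, C = 2 * (d + 1) * K ^ d * K := ⟨_, rfl⟩
  have hK0 : 0 < K := hK1
  have hKd : 0 < K ^ d := pow_pos hK0 d
  have hC1 : 1 ≤ C := by
    rw [hC]
    exact Nat.mul_pos (Nat.mul_pos (by omega) hKd) hK0
  have hCK : (K : ℤ) ≤ C := by
    rw [hC]
    have h1 : 0 < 2 * (d + 1) * K ^ d := Nat.mul_pos (by omega) hKd
    exact_mod_cast Nat.le_mul_of_pos_left K (by omega)
  refine ⟨C, hC1, ?_⟩
  intro ι _ _ T hT n γ y hn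
  by_contra hcon
  rw [not_or] at hcon
  obtain ⟨hA, hB⟩ := hcon
  push Not at hA hB
  have hnr : (0 : ℝ) < n := by exact_mod_cast hn
  have hCr : (0 : ℝ) < C := by exact_mod_cast hC1
  have hρ : 0 < (C : ℝ) / n := by positivity
  have hrel : ∀ κ : ι → ℤ, κ ≠ 0 → (∀ i, |κ i| ≤ K) → (∀ i ∉ T, κ i = 0) →
      (C : ℝ) / n ≤ nd (∑ i, (κ i : ℝ) * γ i) := fun κ h0 h1 h2 =>
    (hB κ h0 (fun i => (h1 i).trans hCK) h2).le
  have hsub : ∀ T' ⊆ T, ‖G K n γ y T' 0 - n‖ ≤ n / 4 := by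
    intro T' hT'
    refine (G_main K n hK1 γ y _ hρ T' fun κ h0 h1 h2 =>
      hrel κ h0 h1 fun i hi => h2 i fun h => hi (hT' h)).trans ?_
    have h1 : #T' ≤ d := (card_le_card hT').trans hT
    have h2 : (#T' : ℝ) ≤ d + 1 := by exact_mod_cast (by omega : #T' ≤ d + 1)
    have h3 : (K : ℝ) ^ #T' ≤ (K : ℝ) ^ d := pow_le_pow_right₀ hKr h1
    have h4 : (1 / (2 * ((C : ℝ) / n))) = n / (2 * C) := by field_simp
    rw [h4]
    calc (#T' : ℝ) * ((K : ℝ) ^ #T' * (n / (2 * C))) ≤ (d + 1) * ((K : ℝ) ^ d * (n / (2 * C))) := by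
          gcongr
      _ ≤ n / 4 := by
          rw [hC]
          push_cast
          rw [show ((d : ℝ) + 1) * ((K : ℝ) ^ d * (n / (2 * (2 * ((d : ℝ) + 1) * K ^ d * K)))) =
            (n / 4) * (1 / K) by
              field_simp
              ring]
          have : (1 : ℝ) / K ≤ 1 := by
            rw [div_le_one (by linarith)]
            exact hKr
          nlinarith
  -- real values
  have hG : ∀ T' : Finset ι, G K n γ y T' 0 =
      ((∑ h ∈ Icc 1 n, ∏ i ∈ T', FK K ((h : ℝ) * γ i - y i) : ℝ) : ℂ) := by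
    intro T'
    unfold G
    simp [ee_zero']
  have hreal : ∀ T' ⊆ T, |(∑ h ∈ Icc 1 n, ∏ i ∈ T', FK K ((h : ℝ) * γ i - y i)) - n| ≤ n / 4 := by
    intro T' hT'
    have h1 := hsub T' hT'
    rw [hG, ← Complex.ofReal_natCast, ← Complex.ofReal_sub, Complex.norm_real, Real.norm_eq_abs]
      at h1
    exact h1
  have hlow := (abs_le.1 (hreal T (Subset.refl T))).1
  have hup : ∑ h ∈ Icc 1 n, ∏ i ∈ T, FK K ((h : ℝ) * γ i - y i) ≤
      ∑ i ∈ T, (1 / (4 * η ^ 2 * K)) *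
        ∑ h ∈ Icc 1 n, ∏ i' ∈ T.erase i, FK K ((h : ℝ) * γ i' - y i') := by
    rw [← Finset.sum_congr rfl (fun i _ => (Finset.mul_sum _ _ _).symm), Finset.sum_comm]
    refine sum_le_sum fun h hh => ?_
    rw [mem_Icc] at hh
    obtain ⟨i, hi, hi2⟩ := hA h hh.1 hh.2
    have h1 : ∏ i' ∈ T, FK K ((h : ℝ) * γ i' - y i') =
        FK K ((h : ℝ) * γ i - y i) * ∏ i' ∈ T.erase i, FK K ((h : ℝ) * γ i' - y i') :=
      (Finset.mul_prod_erase _ _ hi).symm
    rw [h1]
    refine le_trans (mul_le_mul_of_nonneg_right (FK_small K hK1 _ η hη hi2)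
      (prod_nonneg fun i' _ => FK_nonneg _ _)) ?_
    exact single_le_sum (f := fun i => (1 / (4 * η ^ 2 * K)) *
      ∏ i' ∈ T.erase i, FK K ((h : ℝ) * γ i' - y i')) (fun i' _ => mul_nonneg (by positivity)
        (prod_nonneg fun i' _ => FK_nonneg _ _)) hi
  have hup2 : ∑ i ∈ T, (1 / (4 * η ^ 2 * K)) *
        ∑ h ∈ Icc 1 n, ∏ i' ∈ T.erase i, FK K ((h : ℝ) * γ i' - y i') ≤
      d * ((1 / (4 * η ^ 2 * K)) * (2 * n)) := by
    calc _ ≤ ∑ i ∈ T, (1 / (4 * η ^ 2 * K)) * (2 * n) := by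
          refine sum_le_sum fun i _ => mul_le_mul_of_nonneg_left ?_ (by positivity)
          have := (abs_le.1 (hreal (T.erase i) (erase_subset _ _))).2
          linarith
      _ = #T * ((1 / (4 * η ^ 2 * K)) * (2 * n)) := by rw [sum_const, nsmul_eq_mul]
      _ ≤ _ := by
          refine mul_le_mul_of_nonneg_right (by exact_mod_cast hT) (by positivity)
  have hup3 : (d : ℝ) * ((1 / (4 * η ^ 2 * K)) * (2 * n)) ≤ n / 4 := by
    have h1 : 2 * (d : ℝ) ≤ K * η ^ 2 := by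
      rw [div_le_iff₀ (by positivity)] at hK2
      exact hK2
    have h2 : (d : ℝ) * ((1 / (4 * η ^ 2 * K)) * (2 * n)) = (2 * d) * n / (4 * (K * η ^ 2)) := by
      field_simp
    rw [h2, div_le_div_iff₀ (by positivity) (by norm_num)]
    nlinarith
  linarith

end KRONx

end Pool.Agent.NV
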