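import Mathlib
import Pool.Agent.Lib.NV.KRON

/-!
# Linear functionals which are nearly integral on a Bohr set (MP_663568_nt, project NV2).
(helper19)
-/

set_option autoImplicit false
open Finset

namespace Pool.Agent.NV

open Pool.Agent.Lib.MP_663568_nt Pool.Agent.Lib.MP_663568_nt.Katai
  Pool.Agent.Lib.MP_663568_nt.Nul

namespace ELIMx

/-- The elimination of the relations, one by one. -/
theorem elim (d : ℕ) : ∀ k ≤ d, ∀ δ : ℝ, 0 < δ → δ ≤ 1 → ∃ C : ℕ, 1 ≤ C ∧
    ∀ (ι : Type) [Fintype ι] [DecidableEq ι] (T : Finset ι), #T = k → ∀ (l : ℕ) (γ β : ι → ℝ)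
    (ξ τ : ℝ), C ≤ l → 0 ≤ τ →
    (∀ (h : ℕ) (N : ι → ℤ), 1 ≤ h → (h : ℝ) ≤ δ * l → (∀ i ∈ T, |(h : ℝ) * γ i - N i| ≤ δ) →
      nd (ξ * h + ∑ i ∈ T, β i * N i) ≤ τ) →
    ∃ (q : ℕ) (KK : Finset (ι → ℤ)), 1 ≤ q ∧ q ≤ C ∧
      (∀ κ ∈ KK, κ ≠ 0 ∧ (∀ i, |κ i| ≤ C) ∧ (∀ i ∉ T, κ i = 0) ∧
        nd (∑ i, (κ i : ℝ) * γ i) ≤ C / l) ∧
      ∀ w : ι → ℤ, (∀ κ ∈ KK, ∑ i, w i * κ i = 0) →
        nd (q * ∑ i ∈ T, (w i : ℝ) * β i) ≤ C * (∑ i ∈ T, |(w i : ℝ)|) * τ := by
  intro k
  induction k with
  | zero =>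
    intro _ δ _ _
    refine ⟨1, le_refl 1, ?_⟩
    intro ι _ _ T hT l γ β ξ τ _ hτ _
    rw [card_eq_zero] at hT
    subst hT
    refine ⟨1, ∅, le_refl 1, le_refl 1, by simp, fun w _ => ?_⟩
    simp only [sum_empty, mul_zero, zero_mul]
    have := nd_int 0
    rw [Int.cast_zero] at this
    rw [this]
  | succ k ih =>
    intro hk δ hδ hδ1
    -- the number `M`
    obtain ⟨M, hM⟩ := exists_nat_ge (2 / δ)
    have hMδ : 2 ≤ M * δ := by
      rw [div_le_iff₀ hδ] at hM
      exact hM
    have hM0 : (0 : ℝ) < M := by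
      by_contra h
      have : (M : ℝ) * δ ≤ 0 := mul_nonpos_of_nonpos_of_nonneg (not_lt.1 h) hδ.le
      linarith
    have hM1 : 1 ≤ M := by exact_mod_cast hM0
    have hM1r : (1 : ℝ) ≤ M := by exact_mod_cast hM1
    obtain ⟨C₁, hC₁, hkron⟩ := KRONx.kron (k + 1) (δ / (2 * M)) (by positivity)
    -- the constant of the relation
    obtain ⟨C₂, hC₂⟩ := exists_nat_ge (2 * C₁ * M / δ)
    have hC₁r : (1 : ℝ) ≤ C₁ := by exact_mod_cast hC₁
    have hC₂1 : C₁ ≤ C₂ := by
      have h1 : (C₁ : ℝ) ≤ 2 * C₁ * M / δ := by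
        rw [le_div_iff₀ hδ]
        nlinarith
      exact_mod_cast h1.trans hC₂
    have hC₂r : (1 : ℝ) ≤ C₂ := hC₁r.trans (by exact_mod_cast hC₂1)
    obtain ⟨δ', hδ'⟩ : ∃ δ' : ℝ, δ' = δ / ((d + 2) * C₂) := ⟨_, rfl⟩
    have hδ'0 : 0 < δ' := by rw [hδ']; positivity
    have hδ'δ : (d + 2) * C₂ * δ' = δ := by
      rw [hδ']
      field_simp
    have hδ'le : δ' ≤ δ := by
      have : δ' * 1 ≤ δ' * ((d + 2) * C₂) := by
        refine mul_le_mul_of_nonneg_left ?_ hδ'0.le
        have : (0 : ℝ) ≤ d := Nat.cast_nonneg _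
        nlinarith
      linarith
    obtain ⟨C₃, hC₃, hih⟩ := ih (by omega) δ' hδ'0 (hδ'le.trans hδ1)
    obtain ⟨C₄, hC₄⟩ := exists_nat_ge (2 * M / δ)
    refine ⟨C₂ * C₃ + C₄ + M + 1, by omega, ?_⟩
    intro ι _ _ T hT l γ β ξ τ hl hτ hyp
    have hC₃r : (1 : ℝ) ≤ C₃ := by exact_mod_cast hC₃
    have hlr : (0 : ℝ) < l := by
      have : 1 ≤ l := by omega
      exact_mod_cast this
    have hl4 : 2 * M / δ ≤ l := hC₄.trans (by exact_mod_cast (by omega : C₄ ≤ l))
    obtain ⟨n, hn⟩ : ∃ n : ℕ, n = ⌊δ * l / M⌋₊ := ⟨_, rfl⟩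
    have hdl : 2 ≤ δ * l / M := by
      rw [div_le_iff₀ hδ] at hl4
      rw [le_div_iff₀ hM0]
      linarith
    have hn1 : 1 ≤ n := by
      rw [hn]
      exact Nat.le_floor (by push_cast; linarith)
    have hnle : (n : ℝ) ≤ δ * l / M := by
      rw [hn]
      exact Nat.floor_le (by positivity)
    have hnge : δ * l / (2 * M) ≤ n := by
      have h1 := Nat.lt_floor_add_one (δ * l / M)
      rw [← hn] at h1
      have h2 : δ * l / (2 * M) = (δ * l / M) / 2 := by field_simp
      rw [h2]
      linarith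
    have hnr : (0 : ℝ) < n := by exact_mod_cast hn1
    -- the alternative
    by_cases halt : ∀ i ∈ T, ∃ h : ℕ, 1 ≤ h ∧ h ≤ n ∧ ∀ j ∈ T,
        nd ((h : ℝ) * γ j - (if j = i then 1 / (M : ℝ) else 0)) ≤ δ / (2 * M)
    · -- no relation
      refine ⟨1, ∅, le_refl 1, by omega, by simp, fun w _ => ?_⟩
      have hβ : ∀ i ∈ T, nd (β i) ≤ (M + 1) * τ := by
        intro i hi
        obtain ⟨h, hh1, hh2, hh3⟩ := halt i hi
        have hhr : (h : ℝ) ≤ n := by exact_mod_cast hh2
        obtain ⟨N, hN⟩ : ∃ N : ι → ℤ, N = fun j =>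
          round ((h : ℝ) * γ j - (if j = i then 1 / (M : ℝ) else 0)) := ⟨_, rfl⟩
        have hNj : ∀ j ∈ T, |(h : ℝ) * γ j - (if j = i then 1 / (M : ℝ) else 0) - N j| ≤
            δ / (2 * M) := by
          intro j hj
          rw [hN]
          exact hh3 j hj
        have hMi : 1 / (M : ℝ) ≤ δ / 2 := by
          rw [div_le_div_iff₀ hM0 (by norm_num)]
          linarith
        have hδM : δ / (2 * M) ≤ δ / 2 := by
          rw [div_le_div_iff₀ (by positivity) (by norm_num)]
          nlinarith
        have h1 := hyp h N hh1 (by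
          refine (hhr.trans hnle).trans ?_
          rw [div_le_iff₀ hM0]
          nlinarith [mul_pos hδ hlr]) (fun j hj => by
          have h2 := hNj j hj
          have h3 : |(if j = i then 1 / (M : ℝ) else 0)| ≤ δ / 2 := by
            by_cases hji : j = i
            · rw [if_pos hji, abs_of_pos (by positivity)]
              exact hMi
            · rw [if_neg hji, abs_zero]
              positivity
          calc |(h : ℝ) * γ j - N j| = |((h : ℝ) * γ j - (if j = i then 1 / (M : ℝ) else 0) - N j) +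
                (if j = i then 1 / (M : ℝ) else 0)| := by congr 1; ring
            _ ≤ _ := abs_add_le _ _
            _ ≤ δ := by linarith)
        have h4 := hyp (M * h) (fun j => M * N j + if j = i then 1 else 0)
          (Nat.mul_pos hM1 hh1) (by
          push_cast
          calc (M : ℝ) * h ≤ M * (δ * l / M) :=
                mul_le_mul_of_nonneg_left (hhr.trans hnle) hM0.le
            _ = δ * l := by field_simp) (fun j hj => by
          have h2 := hNj j hj
          have h5 : ((M * h : ℕ) : ℝ) * γ j - (((M * N j + if j = i then 1 else 0) : ℤ) : ℝ) =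
              M * ((h : ℝ) * γ j - (if j = i then 1 / (M : ℝ) else 0) - N j) := by
            by_cases hji : j = i
            · rw [if_pos hji, if_pos hji]
              push_cast
              field_simp
              ring
            · rw [if_neg hji, if_neg hji]
              push_cast
              ring
          rw [h5, abs_mul, abs_of_pos hM0]
          calc (M : ℝ) * |(h : ℝ) * γ j - (if j = i then 1 / (M : ℝ) else 0) - N j| ≤
                M * (δ / (2 * M)) := mul_le_mul_of_nonneg_left h2 hM0.le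
            _ = δ / 2 := by field_simp
            _ ≤ δ := by linarith)
        have h6 : β i = (ξ * ((M * h : ℕ) : ℝ) + ∑ j ∈ T, β j *
            (((M * N j + if j = i then 1 else 0) : ℤ) : ℝ)) -
            ((M : ℤ) : ℝ) * (ξ * h + ∑ j ∈ T, β j * N j) := by
          have h7 : ∑ j ∈ T, β j * (((M * N j + if j = i then 1 else 0) : ℤ) : ℝ) =
              M * ∑ j ∈ T, β j * N j + β i := by
            have h8 : ∀ j ∈ T, β j * (((M * N j + if j = i then 1 else 0) : ℤ) : ℝ) =
                M * (β j * N j) + if j = i then β i else 0 := by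
              intro j _
              by_cases hji : j = i
              · subst hji
                simp
                ring
              · simp [hji]
                ring
            rw [sum_congr rfl h8, sum_add_distrib, ← mul_sum, sum_ite_eq' T i, if_pos hi]
          rw [h7]
          push_cast
          ring
        rw [h6]
        refine (nd_sub_le _ _).trans ?_
        have h9 := nd_int_mul_le (M : ℤ) (ξ * h + ∑ j ∈ T, β j * N j)
        have h10 : |((M : ℤ) : ℝ)| = M := by
          push_cast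
          exact abs_of_pos hM0
        rw [h10] at h9
        have h11 : (M : ℝ) * nd (ξ * h + ∑ j ∈ T, β j * N j) ≤ M * τ :=
          mul_le_mul_of_nonneg_left h1 hM0.le
        linarith
      -- the sum
      have h12 : ∀ (S : Finset ι), S ⊆ T → nd (∑ i ∈ S, (w i : ℝ) * β i) ≤
          (∑ i ∈ S, |(w i : ℝ)|) * ((M + 1) * τ) := by
        intro S
        induction S using Finset.induction_on with
        | empty =>
          intro _
          rw [sum_empty, sum_empty, zero_mul]
          have := nd_int 0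
          rw [Int.cast_zero] at this
          rw [this]
        | insert a S ha ihS =>
          intro hS
          rw [sum_insert ha, sum_insert ha, add_mul]
          refine (nd_add_le _ _).trans (add_le_add ?_ (ihS ((subset_insert _ _).trans hS)))
          refine (nd_int_mul_le _ _).trans ?_
          exact mul_le_mul_of_nonneg_left (hβ a (hS (mem_insert_self _ _))) (abs_nonneg _)
      rw [Nat.cast_one, one_mul]
      refine (h12 T (Subset.refl T)).trans ?_
      have hw0 : 0 ≤ ∑ i ∈ T, |(w i : ℝ)| := sum_nonneg fun _ _ => abs_nonneg _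
      have h13 : (M : ℝ) + 1 ≤ ((C₂ * C₃ + C₄ + M + 1 : ℕ) : ℝ) := by
        push_cast
        have : (0 : ℝ) ≤ C₂ * C₃ := by positivity
        have : (0 : ℝ) ≤ C₄ := Nat.cast_nonneg _
        linarith
      calc (∑ i ∈ T, |(w i : ℝ)|) * ((M + 1) * τ) = (M + 1) * (∑ i ∈ T, |(w i : ℝ)|) * τ := by ring
        _ ≤ _ := mul_le_mul_of_nonneg_right (mul_le_mul_of_nonneg_right h13 hw0) hτ
    · -- a relation
      push Not at halt
      obtain ⟨i₁, hi₁, hno⟩ := halt
      have hrel := hkron ι T hT.le n γ (fun j => if j = i₁ then 1 / (M : ℝ) else 0) hn1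
      rcases hrel with ⟨h, h1, h2, h3⟩ | ⟨κ₀, hκ0, hκ1, hκ2, hκ3⟩
      · exfalso
        obtain ⟨j, hj, hj2⟩ := hno h h1 h2
        have := h3 j hj
        linarith
      -- choose the sign
      obtain ⟨i₀, κ, hi₀, hκpos, hκb, hκT, hκn⟩ : ∃ (i₀ : ι) (κ : ι → ℤ), i₀ ∈ T ∧ 0 < κ i₀ ∧
          (∀ i, |κ i| ≤ C₁) ∧ (∀ i ∉ T, κ i = 0) ∧ nd (∑ i, (κ i : ℝ) * γ i) ≤ C₁ / n := by
        obtain ⟨i₀, hi₀⟩ := Function.ne_iff.1 hκ0
        rw [Pi.zero_apply] at hi₀
        have hT₀ : i₀ ∈ T := by
          by_contra h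
          exact hi₀ (hκ2 i₀ h)
        rcases lt_or_gt_of_ne hi₀ with h | h
        · refine ⟨i₀, fun i => -κ₀ i, hT₀, by simpa using h, fun i => by
            rw [abs_neg]; exact hκ1 i, fun i hi => by simp [hκ2 i hi], ?_⟩
          have : ∑ i, (((-κ₀ i : ℤ)) : ℝ) * γ i = -∑ i, (κ₀ i : ℝ) * γ i := by
            rw [← sum_neg_distrib]
            refine sum_congr rfl fun i _ => ?_
            push_cast
            ring
          rw [this, nd_neg]
          exact hκ3
        · exact ⟨i₀, κ₀, hT₀, h, hκ1, hκ2, hκ3⟩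
      have hκl : nd (∑ i, (κ i : ℝ) * γ i) ≤ C₂ / l := by
        refine hκn.trans ?_
        rw [div_le_div_iff₀ hnr hlr]
        have h1 : (C₁ : ℝ) * l * (2 * M) ≤ C₂ * (δ * l) := by
          rw [div_le_iff₀ hδ] at hC₂
          nlinarith
        have h2 : C₂ * (δ * l / (2 * M)) ≤ C₂ * n := mul_le_mul_of_nonneg_left hnge (by positivity)
        have h3 : C₂ * (δ * l / (2 * M)) = C₂ * (δ * l) / (2 * M) := by ring
        rw [h3] at h2
        refine le_trans ?_ h2
        rw [le_div_iff₀ (by positivity)]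
        exact h1
      obtain ⟨m₁, hm₁⟩ := nd_exists (∑ i, (κ i : ℝ) * γ i)
      obtain ⟨ρ, hρ⟩ : ∃ ρ : ℝ, ρ = ∑ i, (κ i : ℝ) * γ i - m₁ := ⟨_, rfl⟩
      have hρabs : |ρ| ≤ C₂ / l := by rw [hρ, ← hm₁]; exact hκl
      obtain ⟨c, hc⟩ : ∃ c : ℕ, (c : ℤ) = κ i₀ := ⟨(κ i₀).toNat, Int.toNat_of_nonneg hκpos.le⟩
      have hc0 : 0 < c := by
        have : (0 : ℤ) < c := by rw [hc]; exact hκpos
        exact_mod_cast this
      have hcr : (0 : ℝ) < c := by exact_mod_cast hc0
      have hcκ : ((κ i₀ : ℤ) : ℝ) = c := by rw [← hc]; push_cast; rfl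
      have hcC : c ≤ C₂ := by
        have := hκb i₀
        rw [← hc, Nat.abs_cast] at this
        have h2 : c ≤ C₁ := by exact_mod_cast this
        exact h2.trans hC₂1
      have hcCr : (c : ℝ) ≤ C₂ := by exact_mod_cast hcC
      have hTe : #(T.erase i₀) = k := by
        rw [card_erase_of_mem hi₀, hT]
        rfl
      -- sums over all indices
      have hsumκ : ∑ i, (κ i : ℝ) * γ i = c * γ i₀ + ∑ i ∈ T.erase i₀, (κ i : ℝ) * γ i := by
        have h1 : ∑ i, (κ i : ℝ) * γ i = ∑ i ∈ T, (κ i : ℝ) * γ i := by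
          refine (Finset.sum_subset (subset_univ T) fun i _ hi => ?_).symm
          rw [hκT i hi]
          simp
        rw [h1, ← Finset.add_sum_erase _ _ hi₀, hcκ]
      have hκbr : ∀ i, |(κ i : ℝ)| ≤ C₂ := by
        intro i
        have h1 : ((|κ i| : ℤ) : ℝ) ≤ ((C₁ : ℤ) : ℝ) := by exact_mod_cast hκb i
        rw [Int.cast_abs] at h1
        refine h1.trans ?_
        push_cast
        exact_mod_cast hC₂1
      have hh := hih ι (T.erase i₀) hTe l γ (fun i => c * β i - β i₀ * κ i)
        (c * ξ + β i₀ * m₁) τ (by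
          have : C₃ ≤ C₂ * C₃ := Nat.le_mul_of_pos_left C₃ (by
            have : (0 : ℝ) < C₂ := by linarith
            exact_mod_cast this)
          omega) hτ (fun h N hh1 hh2 hh3 => by
        obtain ⟨N', hN'⟩ : ∃ N' : ι → ℤ, N' = fun i => if i = i₀ then
          m₁ * h - ∑ j ∈ T.erase i₀, κ j * N j else c * N i := ⟨_, rfl⟩
        have hN'0 : N' i₀ = m₁ * h - ∑ j ∈ T.erase i₀, κ j * N j := by rw [hN']; simp
        have hN'1 : ∀ i ∈ T.erase i₀, N' i = c * N i := by
          intro i hi
          rw [hN']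
          simp [ne_of_mem_erase hi]
        have hhr0 : (0 : ℝ) ≤ h := Nat.cast_nonneg _
        have hcd : (c : ℝ) * δ' ≤ δ := by
          calc (c : ℝ) * δ' ≤ C₂ * δ' := mul_le_mul_of_nonneg_right hcCr hδ'0.le
            _ ≤ (d + 2) * C₂ * δ' := by
              refine mul_le_mul_of_nonneg_right ?_ hδ'0.le
              have : (0 : ℝ) ≤ d := Nat.cast_nonneg _
              nlinarith
            _ = δ := hδ'δ
        have h1 := hyp (c * h) N' (Nat.mul_pos hc0 hh1) (by
          push_cast
          calc (c : ℝ) * h ≤ c * (δ' * l) := mul_le_mul_of_nonneg_left hh2 hcr.le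
            _ = (c * δ') * l := by ring
            _ ≤ δ * l := mul_le_mul_of_nonneg_right hcd hlr.le) (fun i hi => by
          by_cases hii : i = i₀
          · subst hii
            rw [hN'0]
            have e1 : ((c * h : ℕ) : ℝ) * γ i - ((m₁ * h - ∑ j ∈ T.erase i, κ j * N j : ℤ) : ℝ) =
                ρ * h - ∑ j ∈ T.erase i, (κ j : ℝ) * ((h : ℝ) * γ j - N j) := by
              have e2 : ∑ j ∈ T.erase i, (κ j : ℝ) * ((h : ℝ) * γ j - N j) =
                  h * ∑ j ∈ T.erase i, (κ j : ℝ) * γ j - ∑ j ∈ T.erase i, (κ j : ℝ) * N j := by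
                rw [mul_sum, ← sum_sub_distrib]
                refine sum_congr rfl fun j _ => by ring
              rw [e2, hρ, hsumκ]
              push_cast
              ring
            rw [e1]
            calc |ρ * h - ∑ j ∈ T.erase i, (κ j : ℝ) * ((h : ℝ) * γ j - N j)|
                ≤ |ρ * h| + |∑ j ∈ T.erase i, (κ j : ℝ) * ((h : ℝ) * γ j - N j)| := abs_sub _ _
              _ ≤ C₂ * δ' + d * (C₂ * δ') := by
                  refine add_le_add ?_ ?_
                  · rw [abs_mul, abs_of_nonneg hhr0]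
                    calc |ρ| * h ≤ C₂ / l * (δ' * l) :=
                          mul_le_mul hρabs hh2 hhr0 (by positivity)
                      _ = C₂ * δ' := by field_simp
                  · refine (abs_sum_le_sum_abs _ _).trans ?_
                    calc ∑ j ∈ T.erase i, |(κ j : ℝ) * ((h : ℝ) * γ j - N j)|
                        ≤ ∑ j ∈ T.erase i, C₂ * δ' := by
                          refine sum_le_sum fun j hj => ?_
                          rw [abs_mul]
                          exact mul_le_mul (hκbr j) (hh3 j hj) (abs_nonneg _) (by positivity)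
                      _ = k * (C₂ * δ') := by rw [sum_const, hTe, nsmul_eq_mul]
                      _ ≤ d * (C₂ * δ') := by
                          refine mul_le_mul_of_nonneg_right ?_ (by positivity)
                          exact_mod_cast (by omega : k ≤ d)
              _ ≤ (d + 2) * C₂ * δ' := by
                  have : 0 ≤ C₂ * δ' := by positivity
                  linarith
              _ = δ := hδ'δ
          · have hie : i ∈ T.erase i₀ := mem_erase.2 ⟨hii, hi⟩
            rw [hN'1 i hie]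
            have e3 : ((c * h : ℕ) : ℝ) * γ i - ((c * N i : ℤ) : ℝ) =
                c * ((h : ℝ) * γ i - N i) := by
              push_cast
              ring
            rw [e3, abs_mul, abs_of_pos hcr]
            exact (mul_le_mul_of_nonneg_left (hh3 i hie) hcr.le).trans hcd)
        have h2 : ξ * ((c * h : ℕ) : ℝ) + ∑ i ∈ T, β i * N' i =
            (c * ξ + β i₀ * m₁) * h + ∑ i ∈ T.erase i₀, (c * β i - β i₀ * κ i) * N i := by
          rw [← Finset.add_sum_erase _ _ hi₀, hN'0]
          have e4 : ∑ x ∈ T.erase i₀, β x * (N' x : ℝ) =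
              ∑ x ∈ T.erase i₀, β x * ((c : ℝ) * N x) := by
            refine sum_congr rfl fun i hi => ?_
            rw [hN'1 i hi]
            push_cast
            ring
          have e5 : ∑ i ∈ T.erase i₀, (c * β i - β i₀ * κ i) * N i =
              ∑ x ∈ T.erase i₀, β x * ((c : ℝ) * N x) -
                β i₀ * ∑ j ∈ T.erase i₀, (κ j : ℝ) * N j := by
            rw [mul_sum, ← sum_sub_distrib]
            refine sum_congr rfl fun i _ => by ring
          rw [e4, e5]
          push_cast
          ring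
        rw [← h2]
        exact h1)
      obtain ⟨q, KK, hq1, hq2, hKK, hw⟩ := hh
      refine ⟨q * c, insert κ KK, Nat.mul_pos hq1 hc0, ?_, ?_, ?_⟩
      · have : q * c ≤ C₃ * C₂ := Nat.mul_le_mul hq2 hcC
        rw [mul_comm C₃ C₂] at this
        omega
      · intro κ' hκ'
        rw [mem_insert] at hκ'
        rcases hκ' with rfl | hκ'
        · refine ⟨fun h => ?_, fun i => ?_, hκT, ?_⟩
          · rw [h] at hκpos
            simp at hκpos
          · refine (hκb i).trans ?_
            have : C₁ ≤ C₂ * C₃ := hC₂1.trans (Nat.le_mul_of_pos_right C₂ hC₃)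
            exact_mod_cast (by omega : C₁ ≤ C₂ * C₃ + C₄ + M + 1)
          · refine hκl.trans ?_
            refine div_le_div_of_nonneg_right ?_ hlr.le
            have : C₂ ≤ C₂ * C₃ := Nat.le_mul_of_pos_right C₂ hC₃
            exact_mod_cast (by omega : C₂ ≤ C₂ * C₃ + C₄ + M + 1)
        · obtain ⟨g1, g2, g3, g4⟩ := hKK κ' hκ'
          have hC3le : C₃ ≤ C₂ * C₃ + C₄ + M + 1 := by
            have : C₃ ≤ C₂ * C₃ := Nat.le_mul_of_pos_left C₃ (by
              have : (0 : ℝ) < C₂ := by linarith
              exact_mod_cast this)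
            omega
          refine ⟨g1, fun i => (g2 i).trans (by exact_mod_cast hC3le), fun i hi =>
            g3 i fun h => hi (mem_of_mem_erase h), g4.trans ?_⟩
          refine div_le_div_of_nonneg_right ?_ hlr.le
          exact_mod_cast hC3le
      · intro w hwκ
        have h1 := hwκ κ (mem_insert_self _ _)
        have h2 := hw w fun κ' hκ' => hwκ κ' (mem_insert_of_mem hκ')
        have h3 : (w i₀ : ℝ) * c + ∑ i ∈ T.erase i₀, (w i : ℝ) * κ i = 0 := by
          have e1 : ∑ i, w i * κ i = ∑ i ∈ T, w i * κ i := by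
            refine (Finset.sum_subset (subset_univ T) fun i _ hi => ?_).symm
            rw [hκT i hi, mul_zero]
          rw [e1, ← Finset.add_sum_erase _ _ hi₀] at h1
          have e2 : (((w i₀ * κ i₀ + ∑ x ∈ T.erase i₀, w x * κ x : ℤ)) : ℝ) = 0 := by
            rw [h1]
            simp
          push_cast at e2
          rw [hcκ] at e2
          exact e2
        have h4 : ((q * c : ℕ) : ℝ) * ∑ i ∈ T, (w i : ℝ) * β i =
            q * ∑ i ∈ T.erase i₀, (w i : ℝ) * (c * β i - β i₀ * κ i) := by
          rw [← Finset.add_sum_erase _ _ hi₀]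
          have e3 : ∑ i ∈ T.erase i₀, (w i : ℝ) * (c * β i - β i₀ * κ i) =
              c * ∑ i ∈ T.erase i₀, (w i : ℝ) * β i -
                β i₀ * ∑ i ∈ T.erase i₀, (w i : ℝ) * κ i := by
            rw [mul_sum, mul_sum, ← sum_sub_distrib]
            refine sum_congr rfl fun i _ => by ring
          rw [e3]
          have e4 : ∑ i ∈ T.erase i₀, (w i : ℝ) * κ i = -((w i₀ : ℝ) * c) := by linarith
          rw [e4]
          push_cast
          ring
        rw [h4]
        refine h2.trans ?_
        have h5 : ∑ i ∈ T.erase i₀, |(w i : ℝ)| ≤ ∑ i ∈ T, |(w i : ℝ)| :=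
          sum_le_sum_of_subset_of_nonneg (erase_subset _ _) fun _ _ _ => abs_nonneg _
        have h6 : (C₃ : ℝ) ≤ ((C₂ * C₃ + C₄ + M + 1 : ℕ) : ℝ) := by
          have : C₃ ≤ C₂ * C₃ := Nat.le_mul_of_pos_left C₃ (by
            have : (0 : ℝ) < C₂ := by linarith
            exact_mod_cast this)
          exact_mod_cast (by omega : C₃ ≤ C₂ * C₃ + C₄ + M + 1)
        refine mul_le_mul_of_nonneg_right ?_ hτ
        exact mul_le_mul h6 h5 (sum_nonneg fun _ _ => abs_nonneg _) (Nat.cast_nonneg _)

end ELIMx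

end Pool.Agent.NV
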