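import Mathlib
import Pool.Agent.Lib.NV.ELIM
import Pool.Agent.Lib.NV.Defs

/-!
# The bracket lemma (MP_663568_nt, project NV2).  (helper19)
-/

set_option autoImplicit false
open Finset

namespace Pool.Agent.NV

open Pool.Agent.Lib.MP_663568_nt Pool.Agent.Lib.MP_663568_nt.Katai
  Pool.Agent.Lib.MP_663568_nt.Nul

namespace BRKx

/-- The floor function does not change if one does not cross an integer. -/
theorem floor_add {x e : ℝ} (h : |e| < nd x) : ⌊x + e⌋ = ⌊x⌋ := by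
  have h1 := nd_le x ⌊x⌋
  have h2 := nd_le x (⌊x⌋ + 1)
  have h3 := Int.floor_le x
  have h4 := Int.lt_floor_add_one x
  rw [abs_of_nonneg (by linarith)] at h1
  push_cast at h2
  rw [abs_of_nonpos (by linarith)] at h2
  rw [abs_lt] at h
  rw [Int.floor_eq_iff]
  constructor <;> linarith

/-- The choice of an offset, one coordinate. -/
theorem off (M : ℕ) (hM : 1 ≤ M) (w : ℝ) (hw : 2 * w < 1 / M) (γ : ℝ) (l : ℕ) :
    ∃ z : ℝ, 0 ≤ z ∧ z < 1 ∧ (#((Icc 1 l).filter fun r : ℕ => nd ((r : ℝ) * γ + z) ≤ w) : ℝ) ≤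
      (l : ℝ) / M := by
  have hM0 : (0 : ℝ) < M := by exact_mod_cast hM
  by_contra hcon
  push Not at hcon
  have h1 : ∀ k ∈ range M, (l : ℝ) / M <
      (#((Icc 1 l).filter fun r : ℕ => nd ((r : ℝ) * γ + (k : ℝ) / M) ≤ w) : ℝ) := by
    intro k hk
    rw [mem_range] at hk
    refine hcon _ (by positivity) ?_
    rw [div_lt_one hM0]
    exact_mod_cast hk
  have h2 : ∑ k ∈ range M, (l : ℝ) / M < ∑ k ∈ range M,
      (#((Icc 1 l).filter fun r : ℕ => nd ((r : ℝ) * γ + (k : ℝ) / M) ≤ w) : ℝ) :=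
    sum_lt_sum_of_nonempty ⟨0, mem_range.2 (by omega)⟩ h1
  rw [sum_const, card_range, nsmul_eq_mul, mul_div_cancel₀ _ hM0.ne'] at h2
  have h3 : ∑ k ∈ range M,
      #((Icc 1 l).filter fun r : ℕ => nd ((r : ℝ) * γ + (k : ℝ) / M) ≤ w) =
      ∑ r ∈ Icc 1 l, #((range M).filter fun k : ℕ => nd ((r : ℝ) * γ + (k : ℝ) / M) ≤ w) := by
    simp only [card_filter]
    exact sum_comm
  have h4 : ∑ r ∈ Icc 1 l, #((range M).filter fun k : ℕ => nd ((r : ℝ) * γ + (k : ℝ) / M) ≤ w) ≤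
      l := by
    calc _ ≤ ∑ r ∈ Icc 1 l, 1 := by
          refine sum_le_sum fun r _ => ?_
          rw [card_le_one]
          intro a ha b hb
          rw [mem_filter, mem_range] at ha hb
          by_contra hab
          have h5 : nd ((((a : ℤ) - b : ℤ) : ℝ) / (M : ℝ)) ≤ 2 * w := by
            have h6 := nd_sub_le ((r : ℝ) * γ + (a : ℝ) / M) ((r : ℝ) * γ + (b : ℝ) / M)
            have h7 : (r : ℝ) * γ + (a : ℝ) / M - ((r : ℝ) * γ + (b : ℝ) / M) =
                (((a : ℤ) - b : ℤ) : ℝ) / (M : ℝ) := by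
              push_cast
              ring
            rw [h7] at h6
            linarith [ha.2, hb.2]
          have h8 := le_nd_div M hM ((a : ℤ) - b) (by
            intro h
            have h9 : |((a : ℤ) - b)| < M := by
              rw [abs_lt]
              constructor <;> omega
            have h10 := Int.eq_zero_of_abs_lt_dvd h h9
            omega)
          linarith
      _ = l := by simp
  have h5 : ((∑ k ∈ range M,
      #((Icc 1 l).filter fun r : ℕ => nd ((r : ℝ) * γ + (k : ℝ) / M) ≤ w) : ℕ) : ℝ) ≤ l := by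
    rw [h3]
    exact_mod_cast h4
  push_cast at h5
  linarith

/-- Many points of `S` in an arithmetic progression. -/
theorem prog (l K h : ℕ) (S : Finset ℕ) (hS : S ⊆ Icc 1 l) (bad : Finset ℕ)
    (hcount : (l : ℝ) + (K + 1) * bad.card < (K + 1) * (#S - K * h)) :
    ∃ r ∈ Icc 1 l, r ∉ bad ∧ ∃ j₁ j₂ : ℕ, j₁ < j₂ ∧ j₂ ≤ K ∧ r + j₁ * h ∈ S ∧ r + j₂ * h ∈ S := by
  classical
  by_contra hcon
  push Not at hcon
  have h1 : ∀ r ∈ Icc 1 l, (#((range (K + 1)).filter fun j => r + j * h ∈ S)) ≤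
      1 + (if r ∈ bad then K + 1 else 0) := by
    intro r hr
    by_cases hb : r ∈ bad
    · rw [if_pos hb]
      refine (card_filter_le _ _).trans ?_
      rw [card_range]
      omega
    · rw [if_neg hb, add_zero, card_le_one]
      intro a ha b hb'
      rw [mem_filter, mem_range] at ha hb'
      by_contra hab
      rcases lt_or_gt_of_ne hab with h2 | h2
      · exact hcon r hr hb a b h2 (by omega) ha.2 hb'.2
      · exact hcon r hr hb b a h2 (by omega) hb'.2 ha.2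
  have h2 : ∑ r ∈ Icc 1 l, (#((range (K + 1)).filter fun j => r + j * h ∈ S)) ≤
      l + (K + 1) * bad.card := by
    calc _ ≤ ∑ r ∈ Icc 1 l, (1 + (if r ∈ bad then K + 1 else 0)) := sum_le_sum h1
      _ = l + ∑ r ∈ Icc 1 l, (if r ∈ bad then K + 1 else 0) := by
          rw [sum_add_distrib]
          simp
      _ ≤ l + (K + 1) * bad.card := by
          rw [← sum_filter, sum_const, smul_eq_mul, mul_comm]
          have : #((Icc 1 l).filter fun r => r ∈ bad) ≤ bad.card :=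
            card_le_card fun r hr => (mem_filter.1 hr).2
          have := Nat.mul_le_mul_left (K + 1) this
          omega
  have h3 : ∀ j ∈ range (K + 1), #S ≤ #((Icc 1 l).filter fun r => r + j * h ∈ S) + K * h := by
    intro j hj
    rw [mem_range] at hj
    have h4 : S ⊆ ((Icc 1 l).filter fun r => r + j * h ∈ S).image (fun r => r + j * h) ∪
        Icc 1 (j * h) := by
      intro s hs
      have hs' := mem_Icc.1 (hS hs)
      rw [mem_union]
      by_cases hsj : s ≤ j * h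
      · right
        exact mem_Icc.2 ⟨hs'.1, hsj⟩
      · left
        rw [mem_image]
        have h5 : s - j * h + j * h = s := by omega
        refine ⟨s - j * h, mem_filter.2 ⟨mem_Icc.2 ⟨by omega, by omega⟩, ?_⟩, h5⟩
        rw [h5]
        exact hs
    have h5 := (card_le_card h4).trans (card_union_le _ _)
    have h6 : #(((Icc 1 l).filter fun r => r + j * h ∈ S).image (fun r => r + j * h)) ≤
        #((Icc 1 l).filter fun r => r + j * h ∈ S) := card_image_le
    rw [Nat.card_Icc] at h5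
    have h7 : j * h ≤ K * h := Nat.mul_le_mul_right h (by omega)
    omega
  have h4 : ∑ r ∈ Icc 1 l, (#((range (K + 1)).filter fun j => r + j * h ∈ S)) =
      ∑ j ∈ range (K + 1), #((Icc 1 l).filter fun r => r + j * h ∈ S) := by
    simp only [card_filter]
    exact sum_comm
  have h5 : (K + 1) * #S ≤ ∑ j ∈ range (K + 1), #((Icc 1 l).filter fun r => r + j * h ∈ S) +
      (K + 1) * (K * h) := by
    have := sum_le_sum h3
    rw [sum_const, card_range, smul_eq_mul, sum_add_distrib, sum_const, card_range, smul_eq_mul]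
      at this
    exact this
  rw [← h4] at h5
  have h6 : (K + 1) * #S ≤ (l + (K + 1) * bad.card) + (K + 1) * (K * h) := h5.trans (by omega)
  have h7 : (((K + 1) * #S : ℕ) : ℝ) ≤ (((l + (K + 1) * bad.card) + (K + 1) * (K * h) : ℕ) : ℝ) := by
    exact_mod_cast h6
  push_cast at h7
  linarith

/-- **The bracket lemma.** -/
theorem brk (d : ℕ) (c : ℝ) (hc : 0 < c) (_hc1 : c ≤ 1) : ∃ C : ℕ, 1 ≤ C ∧
    ∀ (ι : Type) [Fintype ι] [DecidableEq ι], Fintype.card ι = d → ∀ (l : ℕ) (γ β : ι → ℝ)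
    (ξ θ τ : ℝ) (S : Finset ℕ), C ≤ l → 0 ≤ τ → S ⊆ Icc 1 l → c * l ≤ #S →
    (∀ r ∈ S, nd (ξ * r + ∑ i, β i * ⌊(r : ℝ) * γ i⌋ + θ) ≤ τ) →
    ∃ (q : ℕ) (KK : Finset (ι → ℤ)), 1 ≤ q ∧ q ≤ C ∧
      (∀ κ ∈ KK, κ ≠ 0 ∧ (∀ i, |κ i| ≤ C) ∧ nd (∑ i, (κ i : ℝ) * γ i) ≤ C / l) ∧
      ∀ w : ι → ℤ, (∀ κ ∈ KK, ∑ i, w i * κ i = 0) →
        nd (q * ∑ i, (w i : ℝ) * β i) ≤ C * (∑ i, |(w i : ℝ)|) * τ := by
  classical
  -- the constants
  obtain ⟨c', hc'⟩ : ∃ c' : ℝ, c' = c / 2 ^ d := ⟨_, rfl⟩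
  have hc'0 : 0 < c' := by rw [hc']; positivity
  obtain ⟨M, hM⟩ := exists_nat_ge (max 1 (4 * d / c'))
  have hM1r : (1 : ℝ) ≤ M := (le_max_left _ _).trans hM
  have hM1 : 1 ≤ M := by exact_mod_cast hM1r
  have hM0 : (0 : ℝ) < M := by linarith
  have hMd : 4 * d ≤ M * c' := by
    have := (le_max_right _ _).trans hM
    rwa [div_le_iff₀ hc'0] at this
  obtain ⟨K, hK⟩ := exists_nat_ge (max 1 (2 / c'))
  have hK1r : (1 : ℝ) ≤ K := (le_max_left _ _).trans hK
  have hK0 : (0 : ℝ) < K := by linarith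
  have hKc : 2 ≤ K * c' := by
    have := (le_max_right _ _).trans hK
    rwa [div_le_iff₀ hc'0] at this
  obtain ⟨w, hw⟩ : ∃ w : ℝ, w = 1 / (4 * M) := ⟨_, rfl⟩
  have hw0 : 0 < w := by rw [hw]; positivity
  have hwM : 2 * w < 1 / M := by
    rw [hw, lt_div_iff₀ hM0]
    have : 2 * (1 / (4 * (M : ℝ))) * M = 1 / 2 := by field_simp; norm_num
    rw [this]
    norm_num
  obtain ⟨δ, hδ⟩ : ∃ δ : ℝ, δ = min (min (w / (2 * K)) (c' / (4 * K))) 1 := ⟨_, rfl⟩
  have hδ0 : 0 < δ := by rw [hδ]; positivity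
  have hδ1 : δ ≤ 1 := by rw [hδ]; exact min_le_right _ _
  have hδw : K * δ < w := by
    have h1 : δ ≤ w / (2 * K) := by
      rw [hδ]
      exact (min_le_left _ _).trans (min_le_left _ _)
    have h2 : (K : ℝ) * (w / (2 * K)) = w / 2 := by field_simp
    have h3 := mul_le_mul_of_nonneg_left h1 hK0.le
    rw [h2] at h3
    linarith
  have hδc : K * δ ≤ c' / 4 := by
    have h1 : δ ≤ c' / (4 * K) := by
      rw [hδ]
      exact (min_le_left _ _).trans (min_le_right _ _)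
    have h2 : (K : ℝ) * (c' / (4 * K)) = c' / 4 := by field_simp
    have h3 := mul_le_mul_of_nonneg_left h1 hK0.le
    rwa [h2] at h3
  obtain ⟨C, hC1, helim⟩ := ELIMx.elim d d le_rfl δ hδ0 hδ1
  have hKf : 1 ≤ K.factorial := Nat.factorial_pos K
  have hKfr : (1 : ℝ) ≤ K.factorial := by exact_mod_cast hKf
  refine ⟨2 * C * K.factorial, Nat.mul_pos (by omega) hKf, ?_⟩
  intro ι _ _ hι l γ β ξ θ τ S hl hτ hS hSc hyp
  have hCle : C ≤ 2 * C * K.factorial := by
    have : C * 1 ≤ C * (2 * K.factorial) := Nat.mul_le_mul_left C (by omega)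
    calc C = C * 1 := (mul_one C).symm
      _ ≤ C * (2 * K.factorial) := this
      _ = _ := by ring
  have hCl : C ≤ l := hCle.trans hl
  have hlr : (0 : ℝ) < l := by
    have : 1 ≤ l := hC1.trans hCl
    exact_mod_cast this
  -- the offsets
  have hoff : ∀ i : ι, ∃ z : ℝ, 0 ≤ z ∧ z < 1 ∧
      (#((Icc 1 l).filter fun r : ℕ => nd ((r : ℝ) * γ i + z) ≤ w) : ℝ) ≤ (l : ℝ) / M :=
    fun i => off M hM1 w hwM (γ i) l
  choose z hz0 hz1 hzc using hoff
  obtain ⟨bad, hbad⟩ : ∃ bad : Finset ℕ, bad = (univ : Finset ι).biUnion fun i =>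
      (Icc 1 l).filter fun r : ℕ => nd ((r : ℝ) * γ i + z i) ≤ w := ⟨_, rfl⟩
  have hbadc : (bad.card : ℝ) ≤ c' * l / 4 := by
    have h1 : bad.card ≤ ∑ i : ι, #((Icc 1 l).filter fun r : ℕ => nd ((r : ℝ) * γ i + z i) ≤ w) := by
      rw [hbad]
      exact card_biUnion_le
    have h2 : (bad.card : ℝ) ≤ ∑ i : ι,
        (#((Icc 1 l).filter fun r : ℕ => nd ((r : ℝ) * γ i + z i) ≤ w) : ℝ) := by exact_mod_cast h1
    refine h2.trans ((sum_le_sum fun i _ => hzc i).trans ?_)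
    rw [sum_const, card_univ, hι, nsmul_eq_mul]
    rw [← mul_div_assoc, div_le_div_iff₀ hM0 (by norm_num)]
    nlinarith
  -- the pigeonhole
  obtain ⟨S', hS'S, hS'c, eps, heps⟩ : ∃ S' ⊆ S, c' * l ≤ #S' ∧ ∃ eps : ι → ℤ,
      ∀ r ∈ S', ∀ i, ⌊(r : ℝ) * γ i + z i⌋ - ⌊(r : ℝ) * γ i⌋ = eps i := by
    have hmap : ∀ r ∈ S, (fun i : ι => ⌊(r : ℝ) * γ i + z i⌋ - ⌊(r : ℝ) * γ i⌋) ∈
        Fintype.piFinset fun _ : ι => ({0, 1} : Finset ℤ) := by
      intro r _
      rw [Fintype.mem_piFinset]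
      intro i
      have h1 : ⌊(r : ℝ) * γ i⌋ ≤ ⌊(r : ℝ) * γ i + z i⌋ := Int.floor_mono (by linarith [hz0 i])
      have h2 : ⌊(r : ℝ) * γ i + z i⌋ < ⌊(r : ℝ) * γ i⌋ + 2 := by
        rw [Int.floor_lt]
        push_cast
        linarith [hz1 i, Int.lt_floor_add_one ((r : ℝ) * γ i)]
      rw [mem_insert, mem_singleton]
      omega
    have hcard : #(Fintype.piFinset fun _ : ι => ({0, 1} : Finset ℤ)) = 2 ^ d := by
      rw [Fintype.card_piFinset, prod_const, card_univ, hι]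
      rfl
    by_contra hcon
    push Not at hcon
    have h1 := card_eq_sum_card_fiberwise hmap
    have h2 : (#S : ℝ) < 2 ^ d * (c' * l) := by
      rw [h1]
      push_cast
      calc ∑ b ∈ Fintype.piFinset fun _ : ι => ({0, 1} : Finset ℤ),
            (#(S.filter fun r : ℕ => (fun i : ι => ⌊(r : ℝ) * γ i + z i⌋ - ⌊(r : ℝ) * γ i⌋) = b) : ℝ)
          < ∑ b ∈ Fintype.piFinset fun _ : ι => ({0, 1} : Finset ℤ), c' * l := by
            refine sum_lt_sum_of_nonempty ?_ fun b _ => ?_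
            · rw [← card_pos, hcard]
              positivity
            · by_contra hb
              obtain ⟨r, hr, i, hri⟩ := hcon _ (filter_subset (fun r : ℕ =>
                (fun i : ι => ⌊(r : ℝ) * γ i + z i⌋ - ⌊(r : ℝ) * γ i⌋) = b) S) (not_lt.1 hb) b
              rw [mem_filter] at hr
              exact hri (congrFun hr.2 i)
        _ = 2 ^ d * (c' * l) := by
            rw [sum_const, hcard, nsmul_eq_mul]
            push_cast
            ring
    have h3 : (2 : ℝ) ^ d * (c' * l) = c * l := by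
      rw [hc']
      field_simp
    rw [h3] at h2
    linarith
  -- nearly integral on the Bohr set
  have hbohr : ∀ (h : ℕ) (N : ι → ℤ), 1 ≤ h → (h : ℝ) ≤ δ * l →
      (∀ i ∈ (univ : Finset ι), |(h : ℝ) * γ i - N i| ≤ δ) →
      nd ((K.factorial * ξ) * h + ∑ i ∈ (univ : Finset ι), (K.factorial * β i) * N i) ≤
        2 * K.factorial * τ := by
    intro h N hh1 hh2 hh3
    have hKh : (K : ℝ) * h ≤ c' * l / 4 := by
      calc (K : ℝ) * h ≤ K * (δ * l) := mul_le_mul_of_nonneg_left hh2 hK0.le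
        _ = (K * δ) * l := by ring
        _ ≤ (c' / 4) * l := mul_le_mul_of_nonneg_right hδc hlr.le
        _ = _ := by ring
    obtain ⟨r, hr, hrb, j₁, j₂, hj, hjK, hm₁, hm₂⟩ := prog l K h S' (hS'S.trans hS) bad (by
      have h1 : c' * l / 2 ≤ #S' - K * h - bad.card := by linarith
      have h2 : (K + 1) * (c' * l / 2) ≤ (K + 1) * ((#S' : ℝ) - K * h - bad.card) :=
        mul_le_mul_of_nonneg_left h1 (by linarith)
      have h3 : (l : ℝ) < (K + 1) * (c' * l / 2) := by nlinarith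
      linarith)
    have hnb : ∀ i, w < nd ((r : ℝ) * γ i + z i) := by
      intro i
      by_contra hcon
      refine hrb ?_
      rw [hbad, mem_biUnion]
      exact ⟨i, mem_univ i, mem_filter.2 ⟨hr, not_lt.1 hcon⟩⟩
    have hfl : ∀ j : ℕ, j ≤ K → r + j * h ∈ S' → ∀ i,
        ⌊((r + j * h : ℕ) : ℝ) * γ i⌋ = ⌊(r : ℝ) * γ i + z i⌋ + j * N i - eps i := by
      intro j hjK hjS i
      have h1 := heps _ hjS i
      have h2 : ⌊((r + j * h : ℕ) : ℝ) * γ i + z i⌋ = ⌊(r : ℝ) * γ i + z i⌋ + j * N i := by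
        have h3 : ((r + j * h : ℕ) : ℝ) * γ i + z i =
            ((r : ℝ) * γ i + z i + j * ((h : ℝ) * γ i - N i)) + ((j * N i : ℤ) : ℝ) := by
          push_cast
          ring
        rw [h3, Int.floor_add_intCast, floor_add]
        rw [abs_mul, Nat.abs_cast]
        have h4 : (j : ℝ) ≤ K := by exact_mod_cast hjK
        calc (j : ℝ) * |(h : ℝ) * γ i - N i| ≤ K * δ :=
              mul_le_mul h4 (hh3 i (mem_univ i)) (abs_nonneg _) hK0.le
          _ < w := hδw
          _ < _ := hnb i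
      omega
    have e1 := hyp _ (hS'S hm₁)
    have e2 := hyp _ (hS'S hm₂)
    obtain ⟨X, hX⟩ : ∃ X : ℝ, X = ξ * h + ∑ i, β i * N i := ⟨_, rfl⟩
    have e3 : (ξ * ((r + j₂ * h : ℕ) : ℝ) + ∑ i, β i * ⌊((r + j₂ * h : ℕ) : ℝ) * γ i⌋ + θ) -
        (ξ * ((r + j₁ * h : ℕ) : ℝ) + ∑ i, β i * ⌊((r + j₁ * h : ℕ) : ℝ) * γ i⌋ + θ) =
        ((j₂ - j₁ : ℕ) : ℝ) * X := by
      have e4 : ∑ i, β i * ((⌊((r + j₂ * h : ℕ) : ℝ) * γ i⌋ : ℤ) : ℝ) -
          ∑ i, β i * ((⌊((r + j₁ * h : ℕ) : ℝ) * γ i⌋ : ℤ) : ℝ) =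
          ((j₂ : ℝ) - j₁) * ∑ i, β i * N i := by
        rw [← sum_sub_distrib, mul_sum]
        refine sum_congr rfl fun i _ => ?_
        rw [hfl j₂ hjK hm₂ i, hfl j₁ (by omega) hm₁ i]
        push_cast
        ring
      rw [hX, Nat.cast_sub hj.le]
      push_cast at e4 ⊢
      linear_combination e4
    have e5 : nd (((j₂ - j₁ : ℕ) : ℝ) * X) ≤ 2 * τ := by
      rw [← e3]
      exact (nd_sub_le _ _).trans (by linarith)
    obtain ⟨m, hm⟩ := Nat.dvd_factorial (show 0 < j₂ - j₁ by omega) (show j₂ - j₁ ≤ K by omega)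
    have e6 : (K.factorial * ξ) * h + ∑ i ∈ (univ : Finset ι), (K.factorial * β i) * N i =
        ((m : ℕ) : ℝ) * (((j₂ - j₁ : ℕ) : ℝ) * X) := by
      have e7 : ∑ i ∈ (univ : Finset ι), (K.factorial * β i) * N i =
          K.factorial * ∑ i, β i * N i := by
        rw [mul_sum]
        refine sum_congr rfl fun i _ => by ring
      rw [e7, hX]
      have e8 : (K.factorial : ℝ) = ((j₂ - j₁ : ℕ) : ℝ) * m := by exact_mod_cast hm
      rw [e8]
      ring
    rw [e6]
    refine (nd_nat_mul_le _ _).trans ?_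
    have hmK : (m : ℝ) ≤ K.factorial := by
      have : m ≤ K.factorial := Nat.le_of_dvd (Nat.factorial_pos K) ⟨j₂ - j₁, by
        rw [hm]
        ring⟩
      exact_mod_cast this
    calc (m : ℝ) * nd (((j₂ - j₁ : ℕ) : ℝ) * X) ≤ K.factorial * (2 * τ) :=
          mul_le_mul hmK e5 (nd_nonneg _) (by linarith)
      _ = _ := by ring
  obtain ⟨q, KK, hq1, hq2, hKK, hwq⟩ := helim ι univ (by rw [card_univ, hι]) l γ
    (fun i => K.factorial * β i) (K.factorial * ξ) (2 * K.factorial * τ) hCl (by positivity) hbohr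
  refine ⟨q * K.factorial, KK, Nat.mul_pos hq1 hKf, ?_, ?_, ?_⟩
  · calc q * K.factorial ≤ C * K.factorial := Nat.mul_le_mul_right _ hq2
      _ ≤ 2 * C * K.factorial := by
          refine Nat.mul_le_mul_right _ ?_
          omega
  · intro κ hκ
    obtain ⟨g1, g2, _, g4⟩ := hKK κ hκ
    refine ⟨g1, fun i => (g2 i).trans (by exact_mod_cast hCle), g4.trans ?_⟩
    exact div_le_div_of_nonneg_right (by exact_mod_cast hCle) hlr.le
  · intro v hv
    have h1 := hwq v hv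
    have h2 : ((q * K.factorial : ℕ) : ℝ) * ∑ i, (v i : ℝ) * β i =
        q * ∑ i ∈ (univ : Finset ι), (v i : ℝ) * (K.factorial * β i) := by
      have : ∑ i ∈ (univ : Finset ι), (v i : ℝ) * (K.factorial * β i) =
          K.factorial * ∑ i, (v i : ℝ) * β i := by
        rw [mul_sum]
        refine sum_congr rfl fun i _ => by ring
      rw [this]
      push_cast
      ring
    rw [h2]
    refine h1.trans (le_of_eq ?_)
    push_cast
    ring

end BRKx

/-- **Row BRK.** -/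
theorem brk : BRK_stmt := by
  classical
  intro d c hc hc1
  obtain ⟨C, hC, h⟩ := BRKx.brk d c hc hc1
  refine ⟨C, hC, fun l γ β ξ θ τ hl hτ hS => ?_⟩
  obtain ⟨q, KK, h1, h2, h3, h4⟩ := h (Fin d) (Fintype.card_fin d) l γ β ξ θ τ
    ((Icc 1 l).filter fun r : ℕ => nd (ξ * r + ∑ i, β i * (⌊(r : ℝ) * γ i⌋ : ℝ) + θ) ≤ τ) hl hτ
    (filter_subset _ _) (by convert hS) (fun r hr => (mem_filter.1 hr).2)
  refine ⟨q, KK, h1, h2, fun κ hκ => ⟨(h3 κ hκ).2.1, (h3 κ hκ).2.2⟩, fun w hw => ?_⟩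
  refine h4 w fun κ hκ => ?_
  rw [← hw κ hκ]
  exact sum_congr rfl fun i _ => mul_comm _ _

end Pool.Agent.NV
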