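import Mathlib
import Pool.Agent.Lib.NV.Defs
import Pool.Agent.Lib.VQ.WFIN
import Pool.Agent.Lib.VQ.REG
import Pool.Agent.Lib.VQ.RED

/-!
# Theorem NV (MP_663568_nt), row CASE1: the commutator form is almost rational.  (helper70)
-/

set_option autoImplicit false
open Finset MeasureTheory Polynomial

namespace Pool.Agent.NV

open Pool.Agent.Lib.MP_663568_nt Pool.Agent.Lib.MP_663568_nt.Katai
  Pool.Agent.Lib.MP_663568_nt.Nul Pool.Agent.SV Pool.Agent.VQ

noncomputable section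

namespace CASE1x

lemma fn_le {D : ℕ} {b : Fin D → Fin D → ℤ} {f : (Fin D → ℝ) → ℂ} (hf : QP b f) (Y : Dat D)
    (m : ℕ) : ‖Y.fn f m‖ ≤ 1 := by
  unfold Dat.fn
  rw [norm_mul, norm_ee, one_mul]
  exact hf.le _

lemma bf_right {D : ℕ} (b : Fin D → Fin D → ℤ) (u a y : Fin D → ℝ) (m : ℝ) :
    bf b u (m • a + y) = m * bf b u a + bf b u y := by
  unfold bf
  rw [mul_sum, ← sum_add_distrib]
  refine sum_congr rfl fun i _ => ?_
  rw [mul_sum, ← sum_add_distrib]
  refine sum_congr rfl fun j _ => ?_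
  simp only [Pi.add_apply, Pi.smul_apply, smul_eq_mul]
  ring

lemma bf_left {D : ℕ} (b : Fin D → Fin D → ℤ) (u a y : Fin D → ℝ) (m : ℝ) :
    bf b (m • a + y) u = m * bf b a u + bf b y u := by
  unfold bf
  rw [mul_sum, ← sum_add_distrib]
  refine sum_congr rfl fun i _ => ?_
  rw [mul_sum, ← sum_add_distrib]
  refine sum_congr rfl fun j _ => ?_
  simp only [Pi.add_apply, Pi.smul_apply, smul_eq_mul]
  ring

/-- A window on which the function is a sum of phases on residue classes. -/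
lemma point (l m N T : ℕ) (hN : 1 ≤ N) (Mc e : ℝ) (hMc : 0 ≤ Mc) (he : 0 ≤ e) (g : ℕ → ℂ)
    (c : ℕ → ℕ → ℂ) (hc : ∀ k r, ‖c k r‖ ≤ Mc) (φ : ℕ → ℕ → ℕ → ℝ)
    (hg : ∀ h ∈ Icc 1 l, ‖g (m + h) - ∑ k ∈ range T, c k (h % N) * ee (φ k (h % N) h)‖ ≤ e) :
    Wg l m g ≤ e + ∑ k ∈ range T, ∑ r ∈ range N, ∑ q ∈ range N,
      Mc * (‖∑ h ∈ Icc 1 l, muC (m + h) * ee (φ k r h + (q : ℝ) / N * h)‖ / l) := by
  rcases Nat.eq_zero_or_pos l with hl | hl
  · subst hl
    have h0 : Wg 0 m g = 0 := by unfold Wg; simp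
    rw [h0]
    refine add_nonneg he (sum_nonneg fun k _ => sum_nonneg fun r _ => sum_nonneg fun q _ => ?_)
    positivity
  have hl0 : (0 : ℝ) < l := by exact_mod_cast hl
  have hfou : ∀ r : ℕ, ∃ c' : ℕ → ℂ, (∀ q, ‖c' q‖ ≤ 1) ∧
      ∀ x : ℕ, (if x % N = r then (1 : ℂ) else 0) = ∑ q ∈ range N, c' q * ee ((q : ℝ) * x / N) := by
    intro r
    refine REDx.fourier N hN (fun x => if x % N = r then (1 : ℂ) else 0) (fun x => ?_)
      (fun x => ?_)
    · simp only [Nat.mod_mod]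
    · split_ifs <;> simp
  choose c' hc' hc2 using hfou
  have hdec : ∀ h : ℕ, ∑ k ∈ range T, c k (h % N) * ee (φ k (h % N) h) =
      ∑ k ∈ range T, ∑ r ∈ range N, ∑ q ∈ range N,
        (c k r * c' r q) * ee (φ k r h + (q : ℝ) / N * h) := by
    intro h
    refine sum_congr rfl fun k _ => ?_
    have h1 : ∀ r ∈ range N, ∑ q ∈ range N, (c k r * c' r q) * ee (φ k r h + (q : ℝ) / N * h) =
        if h % N = r then c k r * ee (φ k r h) else 0 := by
      intro r _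
      have h2 : ∑ q ∈ range N, (c k r * c' r q) * ee (φ k r h + (q : ℝ) / N * h) =
          c k r * ee (φ k r h) * ∑ q ∈ range N, c' r q * ee ((q : ℝ) * h / N) := by
        rw [mul_sum]
        refine sum_congr rfl fun q _ => ?_
        rw [ee_add, show (q : ℝ) / N * h = (q : ℝ) * h / N by ring]
        ring
      rw [h2, ← hc2 r h]
      split_ifs <;> simp
    rw [sum_congr rfl h1, sum_ite_eq, if_pos (mem_range.2 (Nat.mod_lt _ hN))]
  have hmain : ‖∑ h ∈ Icc 1 l, muC (m + h) * g (m + h)‖ ≤ l * e +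
      ∑ k ∈ range T, ∑ r ∈ range N, ∑ q ∈ range N,
        Mc * ‖∑ h ∈ Icc 1 l, muC (m + h) * ee (φ k r h + (q : ℝ) / N * h)‖ := by
    have h1 : ∑ h ∈ Icc 1 l, muC (m + h) * g (m + h) =
        ∑ h ∈ Icc 1 l, muC (m + h) *
          (g (m + h) - ∑ k ∈ range T, c k (h % N) * ee (φ k (h % N) h)) +
        ∑ k ∈ range T, ∑ r ∈ range N, ∑ q ∈ range N, (c k r * c' r q) *
          ∑ h ∈ Icc 1 l, muC (m + h) * ee (φ k r h + (q : ℝ) / N * h) := by
      have h2 : ∑ k ∈ range T, ∑ r ∈ range N, ∑ q ∈ range N, (c k r * c' r q) *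
          ∑ h ∈ Icc 1 l, muC (m + h) * ee (φ k r h + (q : ℝ) / N * h) =
          ∑ h ∈ Icc 1 l, muC (m + h) * ∑ k ∈ range T, c k (h % N) * ee (φ k (h % N) h) := by
        have h3 : ∀ h ∈ Icc 1 l, muC (m + h) * ∑ k ∈ range T, c k (h % N) *
            ee (φ k (h % N) h) = ∑ k ∈ range T, ∑ r ∈ range N, ∑ q ∈ range N, (c k r * c' r q) *
              (muC (m + h) * ee (φ k r h + (q : ℝ) / N * h)) := by
          intro h _
          rw [hdec h, mul_sum]
          refine sum_congr rfl fun k _ => ?_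
          rw [mul_sum]
          refine sum_congr rfl fun r _ => ?_
          rw [mul_sum]
          refine sum_congr rfl fun q _ => ?_
          ring
        rw [sum_congr rfl h3]
        symm
        rw [sum_comm]
        refine sum_congr rfl fun k _ => ?_
        rw [sum_comm]
        refine sum_congr rfl fun r _ => ?_
        rw [sum_comm]
        refine sum_congr rfl fun q _ => ?_
        rw [mul_sum]
      rw [h2, ← sum_add_distrib]
      refine sum_congr rfl fun h _ => ?_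
      ring
    rw [h1]
    refine (norm_add_le _ _).trans (add_le_add ?_ ?_)
    · refine (norm_sum_le _ _).trans ?_
      refine (sum_le_sum (g := fun _ => e) fun h hh => ?_).trans ?_
      · rw [norm_mul]
        calc ‖muC (m + h)‖ * ‖g (m + h) - ∑ k ∈ range T, c k (h % N) * ee (φ k (h % N) h)‖
            ≤ 1 * e := mul_le_mul (norm_muC _) (hg h hh) (norm_nonneg _) (by norm_num)
          _ = e := one_mul _
      · rw [sum_const, Nat.card_Icc, nsmul_eq_mul, Nat.add_sub_cancel]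
    · refine (norm_sum_le _ _).trans (sum_le_sum fun k _ => ?_)
      refine (norm_sum_le _ _).trans (sum_le_sum fun r _ => ?_)
      refine (norm_sum_le _ _).trans (sum_le_sum fun q _ => ?_)
      rw [norm_mul, norm_mul]
      refine mul_le_mul_of_nonneg_right ?_ (norm_nonneg _)
      calc ‖c k r‖ * ‖c' r q‖ ≤ Mc * 1 :=
            mul_le_mul (hc k r) (hc' r q) (norm_nonneg _) hMc
        _ = Mc := mul_one _
  unfold Wg
  rw [div_le_iff₀ hl0]
  refine hmain.trans (le_of_eq ?_)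
  rw [add_mul, sum_mul]
  congr 1
  · ring
  · refine sum_congr rfl fun k _ => ?_
    rw [sum_mul]
    refine sum_congr rfl fun r _ => ?_
    rw [sum_mul]
    refine sum_congr rfl fun q _ => ?_
    rw [mul_assoc, div_mul_cancel₀ _ hl0.ne']

/-- The local phase. -/
def PP {D : ℕ} (b : Fin D → Fin D → ℤ) (Y : Dat D) (e u : Fin D → ℝ) (al s t : ℝ) (m : ℕ) :
    ℝ[X] :=
  Y.C + C al * (X - C (m : ℝ)) ^ 2 +
    C (s + t - bf b e ((m : ℝ) • Y.a + Y.y) - bf b ((m : ℝ) • Y.a + Y.y) u) * (X - C (m : ℝ))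

/-- The prescribed phase. -/
def QQ {D : ℕ} (b : Fin D → Fin D → ℤ) (Y : Dat D) (e u : Fin D → ℝ) (s t : ℝ) : ℝ[X] :=
  Y.C + C (s + t - bf b e Y.y - bf b Y.y u) * X -
    C ((bf b e Y.a + bf b Y.a u) / 2) * X ^ 2

lemma deg_PP {D : ℕ} (b : Fin D → Fin D → ℤ) (Y : Dat D) (hY : Y.Dg) (e u : Fin D → ℝ)
    (al s t : ℝ) (m : ℕ) : (PP b Y e u al s t m).natDegree ≤ 2 := by
  unfold PP
  have h0 : Y.C.natDegree ≤ 2 := hY
  have h1 : (X - C (m : ℝ) : ℝ[X]).natDegree ≤ 1 := (natDegree_X_sub_C_le _)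
  refine (natDegree_add_le _ _).trans (max_le ((natDegree_add_le _ _).trans (max_le h0 ?_)) ?_)
  · refine (natDegree_C_mul_le _ _).trans ((natDegree_pow_le).trans ?_)
    omega
  · exact (natDegree_C_mul_le _ _).trans (h1.trans (by norm_num))

lemma deg_QQ {D : ℕ} (b : Fin D → Fin D → ℤ) (Y : Dat D) (hY : Y.Dg) (e u : Fin D → ℝ)
    (s t : ℝ) : (QQ b Y e u s t).natDegree ≤ 2 := by
  unfold QQ
  have h0 : Y.C.natDegree ≤ 2 := hY
  refine (natDegree_sub_le _ _).trans (max_le ((natDegree_add_le _ _).trans (max_le h0 ?_)) ?_)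
  · exact (natDegree_C_mul_le _ _).trans (natDegree_X_le.trans (by norm_num))
  · exact (natDegree_C_mul_le _ _).trans (natDegree_X_pow_le 2)

lemma eval_PP {D : ℕ} (b : Fin D → Fin D → ℤ) (Y : Dat D) (e u : Fin D → ℝ) (al s t : ℝ)
    (m h : ℕ) : (PP b Y e u al s t m).eval ((m : ℝ) + h) =
      Y.C.eval ((m : ℝ) + h) + (al * (h : ℝ) ^ 2 +
        (s - bf b e ((m : ℝ) • Y.a + Y.y) - bf b ((m : ℝ) • Y.a + Y.y) u) * h) + t * h := by
  unfold PP
  simp only [eval_add, eval_mul, eval_sub, eval_pow, eval_C, eval_X, add_sub_cancel_left]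
  ring

lemma der_eq {D : ℕ} (b : Fin D → Fin D → ℤ) (Y : Dat D) (e u : Fin D → ℝ) (al s t : ℝ)
    (m : ℕ) : (PP b Y e u al s t m).derivative.eval (m : ℝ) =
      (QQ b Y e u s t).derivative.eval (m : ℝ) := by
  unfold PP QQ
  rw [bf_right, bf_left]
  simp only [derivative_add, derivative_sub, derivative_mul, derivative_C, derivative_X,
    derivative_pow, eval_add, eval_sub, eval_mul, eval_pow, eval_C, eval_X, sub_self]
  simp
  ring

lemma harm2 (xa xb : ℝ) (l : ℕ) (hl : 3 ≤ l) (hxa : 1 ≤ xa) (hxb : xa * l ≤ xb) :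
    ∑ n ∈ Ioc ⌊xa⌋₊ ⌊xb⌋₊, (1 / (n : ℝ)) ≤ 2 * (Real.log xb - Real.log xa) := by
  have hl3 : (3 : ℝ) ≤ l := by exact_mod_cast hl
  have hxab : xa ≤ xb := by nlinarith
  have h1 : 1 ≤ ⌊xa⌋₊ := by
    rw [Nat.one_le_floor_iff]; exact hxa
  have h2 := REGx.harm h1 (Nat.floor_le_floor hxab)
  have h3 : Real.log ⌊xb⌋₊ ≤ Real.log xb := by
    apply Real.log_le_log
    · have : 1 ≤ ⌊xb⌋₊ := h1.trans (Nat.floor_le_floor hxab)
      exact_mod_cast this
    · exact Nat.floor_le (by linarith)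
  have h4 : Real.log xa ≤ Real.log 2 + Real.log ⌊xa⌋₊ := by
    have h5 : (1 : ℝ) ≤ ⌊xa⌋₊ := by exact_mod_cast h1
    rw [← Real.log_mul (by norm_num) (by positivity)]
    apply Real.log_le_log (by linarith)
    have := Nat.lt_floor_add_one xa
    linarith
  have h6 : 1 ≤ Real.log xb - Real.log xa := by
    have h7 : Real.log (xa * l) ≤ Real.log xb := Real.log_le_log (by positivity) hxb
    rw [Real.log_mul (by positivity) (by positivity)] at h7
    have h8 : (1 : ℝ) ≤ Real.log l := by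
      rw [Real.le_log_iff_exp_le (by linarith)]
      have := Real.exp_one_lt_d9
      linarith
    linarith
  have h9 : Real.log 2 ≤ 1 := by
    have := Real.log_two_lt_d9
    linarith
  linarith

end CASE1x

open CASE1x in
theorem case1 : CASE1_stmt := by
  classical
  intro hDEC hLOC hSUB hWW D b f hf M E A ε hM hE hA hε
  obtain ⟨N, E', hN, hE', hdec⟩ := hDEC D b M E hM hE
  obtain ⟨T, Mc, δ, hMc, hδ, hloc⟩ := hLOC D b f hf N (ε / 8) hN (by positivity)
  obtain ⟨η, hη⟩ : ∃ η : ℝ, η = min (ε / 16) (min 1 (δ / (E' + 1))) := ⟨_, rfl⟩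
  have hE1 : 0 < E' + 1 := by linarith
  have hη0 : 0 < η := by
    rw [hη]
    exact lt_min (by positivity) (lt_min one_pos (by positivity))
  have hη1 : η ≤ 1 := by
    rw [hη]; exact (min_le_right _ _).trans (min_le_left _ _)
  have hηε : η ≤ ε / 2 / 8 := by
    rw [hη]; exact (min_le_left _ _).trans (by linarith)
  have hηδ : η * E' ≤ δ := by
    have h1 : η ≤ δ / (E' + 1) := by
      rw [hη]; exact (min_le_right _ _).trans (min_le_right _ _)
    rw [le_div_iff₀ hE1] at h1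
    nlinarith
  obtain ⟨B₁, H₁, hB₁, hsub⟩ := hSUB A (ε / 2) η hA (by positivity) hη0 hηε hη1
  obtain ⟨W, hW⟩ : ∃ W : ℝ, W = Mc * T * N * N + 1 := ⟨_, rfl⟩
  have hW0 : 0 < W := by rw [hW]; positivity
  have hε2 : 0 < ε / (4 * W) := by positivity
  obtain ⟨B₂, H₂, hB₂, hww⟩ := hWW (A + 1) (ε / (4 * W)) (by linarith) hε2
  obtain ⟨H₃, hH₃, hlarge⟩ := WFINx.large A η 0 1 (max H₂ 1) hA hη0
  refine ⟨max B₁ B₂, max (max H₁ H₃) 3, hB₁.trans (le_max_left _ _),
    fun l hl xa xb hxa hxb Q hQ hS hMaj => ?_⟩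
  have hl3 : 3 ≤ l := (le_max_right _ _).trans hl
  have hlH1 : H₁ ≤ l := ((le_max_left _ _).trans (le_max_left _ _)).trans hl
  have hlH3 : H₃ ≤ l := ((le_max_right _ _).trans (le_max_left _ _)).trans hl
  have hl1 : 1 ≤ l := by omega
  have hlR : (1 : ℝ) ≤ l := by exact_mod_cast hl1
  have hl0 : (0 : ℝ) < l := by linarith
  obtain ⟨hn, hlA, -, -⟩ := hlarge l hlH3
  obtain ⟨l', hl'⟩ : ∃ l' : ℕ, l' = ⌊η * (l : ℝ)⌋₊ := ⟨_, rfl⟩
  rw [← hl'] at hn hlA
  have hl'H2 : H₂ ≤ l' := (le_max_left _ _).trans hn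
  have hl'1 : 1 ≤ l' := (le_max_right _ _).trans hn
  have hl'R : (1 : ℝ) ≤ l' := by exact_mod_cast hl'1
  have hl'η : (l' : ℝ) ≤ η * l := by
    rw [hl']; exact Nat.floor_le (by positivity)
  have hl'l : (l' : ℝ) ≤ l := hl'η.trans (by nlinarith)
  have hxa1 : 1 ≤ xa := (Real.one_le_rpow hlR (hB₁.trans (le_max_left _ _))).trans hxa
  have hxaB1 : (l : ℝ) ^ B₁ ≤ xa :=
    (Real.rpow_le_rpow_of_exponent_le hlR (le_max_left _ _)).trans hxa
  have hxaB2 : (l' : ℝ) ^ B₂ ≤ xa :=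
    ((Real.rpow_le_rpow (by linarith) hl'l hB₂).trans
      (Real.rpow_le_rpow_of_exponent_le hlR (le_max_right _ _))).trans hxa
  have hxbl' : xa * l' ≤ xb := (mul_le_mul_of_nonneg_left hl'l (by linarith)).trans hxb
  obtain ⟨Λ, hΛ⟩ : ∃ Λ : ℝ, Λ = Real.log xb - Real.log xa := ⟨_, rfl⟩
  have hΛ0 : 0 ≤ Λ := by
    rw [hΛ, sub_nonneg]
    apply Real.log_le_log (by linarith)
    nlinarith
  have hharm := harm2 xa xb l hl3 hxa1 hxb
  have hS1 := hsub l hlH1 (Dat D) (fun Y m => Y.fn f m) (fun Y m => fn_le hf Y m) xa xb hxaB1 hxb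
    Q hS
  rw [← hl'] at hS1
  rw [← hΛ] at hharm hS1 ⊢
  -- the choice of the local data
  have key : ∀ Y : Dat D, ∃ (e u : Fin D → ℝ) (s : ℕ → ℕ → ℝ) (al : ℝ), Maj b M E l Y.a →
      ∀ z : Fin D → ℝ, ∃ c : ℕ → ℕ → ℂ, (∀ k r, ‖c k r‖ ≤ Mc) ∧ ∀ h : ℕ, (h : ℝ) ≤ η * l →
        ‖f (z + (h : ℝ) • Y.a) - ∑ k ∈ range T, c k (h % N) *
          ee (al * (h : ℝ) ^ 2 + (s k (h % N) - bf b e z - bf b z u) * h)‖ ≤ ε / 8 := by
    intro Y
    by_cases hY : Maj b M E l Y.a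
    · obtain ⟨n, v, e, ha, hv, he⟩ := hdec l Y.a hl1 hY
      obtain ⟨s, al, hs⟩ := hloc n v e (fun i => (n i : ℝ) / N) hv rfl
      refine ⟨e, (fun i => (n i : ℝ) / N) + v, s, al, fun _ z => ?_⟩
      obtain ⟨c, hc, hh⟩ := hs z
      refine ⟨c, hc, fun h hhl => ?_⟩
      have h1 := hh h fun i => by
        rw [abs_mul, abs_of_nonneg (Nat.cast_nonneg h)]
        calc (h : ℝ) * |e i| ≤ (η * l) * (E' / l) :=
              mul_le_mul hhl (he i) (abs_nonneg _) (by positivity)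
          _ = η * E' := by field_simp
          _ ≤ δ := hηδ
      rw [← ha] at h1
      exact h1
    · exact ⟨0, 0, 0, 0, fun h => absurd h hY⟩
  choose e u s al hkey using key
  -- the pointwise inequality
  have hpt : ∀ m : ℕ, Wg l' m ((Q m).fn f) ≤ ε / 8 + ∑ k ∈ range T, ∑ r ∈ range N,
      ∑ q ∈ range N, Mc * Wp l' m
        (PP b (Q m) (e (Q m)) (u (Q m)) (al (Q m)) (s (Q m) k r) ((q : ℝ) / N) m) := by
    intro m
    obtain ⟨c, hc, hcm⟩ := hkey (Q m) (hMaj m) ((m : ℝ) • (Q m).a + (Q m).y)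
    have h1 := point l' m N T hN Mc (ε / 8) hMc (by positivity) ((Q m).fn f) c hc
      (fun k r h => (Q m).C.eval ((m : ℝ) + h) + (al (Q m) * (h : ℝ) ^ 2 +
        (s (Q m) k r - bf b (e (Q m)) ((m : ℝ) • (Q m).a + (Q m).y) -
          bf b ((m : ℝ) • (Q m).a + (Q m).y) (u (Q m))) * h)) (fun h hh => by
        rw [mem_Icc] at hh
        have hh1 : (h : ℝ) ≤ η * l := by
          have : (h : ℝ) ≤ l' := by exact_mod_cast hh.2
          linarith
        have h2 := hcm h hh1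
        have h3 : (Q m).fn f (m + h) = ee ((Q m).C.eval ((m : ℝ) + h)) *
            f ((m : ℝ) • (Q m).a + (Q m).y + (h : ℝ) • (Q m).a) := by
          unfold Dat.fn
          push_cast
          congr 2
          rw [add_smul]
          abel
        have h4 : ∑ k ∈ range T, c k (h % N) * ee ((Q m).C.eval ((m : ℝ) + h) +
            (al (Q m) * (h : ℝ) ^ 2 + (s (Q m) k (h % N) -
              bf b (e (Q m)) ((m : ℝ) • (Q m).a + (Q m).y) -
              bf b ((m : ℝ) • (Q m).a + (Q m).y) (u (Q m))) * h)) =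
            ee ((Q m).C.eval ((m : ℝ) + h)) * ∑ k ∈ range T, c k (h % N) *
              ee (al (Q m) * (h : ℝ) ^ 2 + (s (Q m) k (h % N) -
                bf b (e (Q m)) ((m : ℝ) • (Q m).a + (Q m).y) -
                bf b ((m : ℝ) • (Q m).a + (Q m).y) (u (Q m))) * h) := by
          rw [mul_sum]
          refine sum_congr rfl fun k _ => ?_
          rw [ee_add]
          ring
        rw [h3, h4, ← mul_sub, norm_mul, norm_ee, one_mul]
        exact h2)
    refine h1.trans (le_of_eq ?_)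
    congr 1
    refine sum_congr rfl fun k _ => sum_congr rfl fun r _ => sum_congr rfl fun q _ => ?_
    unfold Wp
    congr 3
    refine sum_congr rfl fun h _ => ?_
    rw [eval_PP]
  -- the theorem for quadratic phases
  have hW2 : ∀ k r q : ℕ, ∑ m ∈ Ioc ⌊xa⌋₊ ⌊xb⌋₊, (1 / (m : ℝ)) * Wp l' m
      (PP b (Q m) (e (Q m)) (u (Q m)) (al (Q m)) (s (Q m) k r) ((q : ℝ) / N) m) ≤
        ε / (4 * W) * Λ := by
    intro k r q
    rw [hΛ]
    refine hww l' hl'H2 xa xb hxaB2 hxbl'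
      (fun m => QQ b (Q m) (e (Q m)) (u (Q m)) (s (Q m) k r) ((q : ℝ) / N))
      (fun m => deg_QQ b (Q m) (hQ m) _ _ _ _) ?_
      (fun m => PP b (Q m) (e (Q m)) (u (Q m)) (al (Q m)) (s (Q m) k r) ((q : ℝ) / N) m)
      (fun m => deg_PP b (Q m) (hQ m) _ _ _ _ _ _) (fun m => der_eq b (Q m) _ _ _ _ _ m)
    intro j
    refine le_trans ?_ ((hS j).trans hlA)
    refine Nat.cast_le.2 (card_le_card ?_)
    intro n hn
    simp only [mem_filter] at hn ⊢
    refine ⟨hn.1, fun h2 => hn.2 ?_⟩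
    rw [h2]
  -- the sum
  have hfin : ∑ m ∈ Ioc ⌊xa⌋₊ ⌊xb⌋₊, (1 / (m : ℝ)) * Wg l' m ((Q m).fn f) ≤
      ε / 4 * Λ + ε / 4 * Λ := by
    calc ∑ m ∈ Ioc ⌊xa⌋₊ ⌊xb⌋₊, (1 / (m : ℝ)) * Wg l' m ((Q m).fn f)
        ≤ ∑ m ∈ Ioc ⌊xa⌋₊ ⌊xb⌋₊, (1 / (m : ℝ)) * (ε / 8 + ∑ k ∈ range T, ∑ r ∈ range N,
            ∑ q ∈ range N, Mc * Wp l' m
              (PP b (Q m) (e (Q m)) (u (Q m)) (al (Q m)) (s (Q m) k r) ((q : ℝ) / N) m)) :=
          sum_le_sum fun m _ => mul_le_mul_of_nonneg_left (hpt m) (by positivity)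
      _ = ε / 8 * ∑ m ∈ Ioc ⌊xa⌋₊ ⌊xb⌋₊, (1 / (m : ℝ)) + ∑ k ∈ range T, ∑ r ∈ range N,
            ∑ q ∈ range N, Mc * ∑ m ∈ Ioc ⌊xa⌋₊ ⌊xb⌋₊, (1 / (m : ℝ)) * Wp l' m
              (PP b (Q m) (e (Q m)) (u (Q m)) (al (Q m)) (s (Q m) k r) ((q : ℝ) / N) m) := by
          have h1 : ∀ m ∈ Ioc ⌊xa⌋₊ ⌊xb⌋₊, (1 / (m : ℝ)) * (ε / 8 + ∑ k ∈ range T,
              ∑ r ∈ range N, ∑ q ∈ range N, Mc * Wp l' m
              (PP b (Q m) (e (Q m)) (u (Q m)) (al (Q m)) (s (Q m) k r) ((q : ℝ) / N) m)) =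
              ε / 8 * (1 / (m : ℝ)) + ∑ k ∈ range T, ∑ r ∈ range N, ∑ q ∈ range N,
                Mc * ((1 / (m : ℝ)) * Wp l' m (PP b (Q m) (e (Q m)) (u (Q m)) (al (Q m))
                  (s (Q m) k r) ((q : ℝ) / N) m)) := by
            intro m _
            rw [mul_add, mul_comm (1 / (m : ℝ)) (ε / 8), mul_sum]
            congr 1
            refine sum_congr rfl fun k _ => ?_
            rw [mul_sum]
            refine sum_congr rfl fun r _ => ?_
            rw [mul_sum]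
            refine sum_congr rfl fun q _ => ?_
            ring
          rw [sum_congr rfl h1, sum_add_distrib, ← mul_sum, sum_comm]
          congr 1
          refine sum_congr rfl fun k _ => ?_
          rw [sum_comm]
          refine sum_congr rfl fun r _ => ?_
          rw [sum_comm]
          refine sum_congr rfl fun q _ => ?_
          rw [mul_sum]
      _ ≤ ε / 8 * (2 * Λ) + ∑ k ∈ range T, ∑ r ∈ range N, ∑ q ∈ range N,
            Mc * (ε / (4 * W) * Λ) := by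
          refine add_le_add (mul_le_mul_of_nonneg_left hharm (by positivity)) ?_
          exact sum_le_sum fun k _ => sum_le_sum fun r _ => sum_le_sum fun q _ =>
            mul_le_mul_of_nonneg_left (hW2 k r q) hMc
      _ ≤ ε / 4 * Λ + ε / 4 * Λ := by
          have h1 : ∑ k ∈ range T, ∑ r ∈ range N, ∑ q ∈ range N, Mc * (ε / (4 * W) * Λ) =
              (W - 1) * (ε / (4 * W) * Λ) := by
            simp only [sum_const, card_range, nsmul_eq_mul]
            rw [hW]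
            ring
          have h2 : W * (ε / (4 * W) * Λ) = ε / 4 * Λ := by
            field_simp
          have h3 : 0 ≤ ε / (4 * W) * Λ := by positivity
          rw [h1]
          nlinarith
  have e1 : ε * Λ = ε / 4 * Λ + ε / 4 * Λ + ε / 2 * Λ := by ring
  rw [e1]
  exact hS1.trans (by linarith)

end

end Pool.Agent.NV
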