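import Pool.Agent.Lib.NV.Defs

/-!
# Row CASE2: a relation for the slope (helper79)
-/

set_option autoImplicit false
open Finset MeasureTheory Polynomial

namespace Pool.Agent.NV

open Pool.Agent.Lib.MP_663568_nt Pool.Agent.Lib.MP_663568_nt.Katai
  Pool.Agent.Lib.MP_663568_nt.Nul Pool.Agent.SV Pool.Agent.VQ

noncomputable section

namespace CASE2x

lemma ee_nat_mul (b : ℕ) (x : ℝ) : ee (b * x) = ee x ^ b := by
  induction b with
  | zero => simpa using ee_int 0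
  | succ b ih =>
    rw [pow_succ, ← ih, ← ee_add]
    congr 1
    push_cast
    ring

lemma ind (M n r : ℕ) (hM : 1 ≤ M) (hr : r < M) :
    (∑ b ∈ range M, ee (b * ((n : ℝ) / M)) * ee (-(b * ((r : ℝ) / M)))) =
      if n % M = r then (M : ℂ) else 0 := by
  have hM0 : (M : ℝ) ≠ 0 := by
    have : 0 < M := hM
    exact_mod_cast this.ne'
  have h1 : ∀ b : ℕ, ee (b * ((n : ℝ) / M)) * ee (-(b * ((r : ℝ) / M))) =
      ee (((n : ℝ) - r) / M) ^ b := by
    intro b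
    rw [← ee_nat_mul, ← ee_add]
    congr 1
    ring
  simp only [h1]
  split_ifs with h
  · have h2 : ee (((n : ℝ) - r) / M) = 1 := by
      have h3 : ((n : ℝ) - r) / M = ((n / M : ℕ) : ℤ) := by
        have h4 := Nat.div_add_mod n M
        rw [h] at h4
        have h5 : (n : ℝ) = M * ((n / M : ℕ) : ℝ) + r := by exact_mod_cast h4.symm
        rw [h5, add_sub_cancel_right, mul_div_cancel_left₀ _ hM0, Int.cast_natCast]
      rw [h3]
      exact ee_int _
    rw [h2]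
    simp
  · have h2 : ee (((n : ℝ) - r) / M) ≠ 1 := by
      intro h3
      rw [ee_eq_one_iff] at h3
      obtain ⟨k, hk⟩ := h3
      apply h
      rw [div_eq_iff hM0] at hk
      have h4 : (n : ℤ) = r + k * M := by
        have : (n : ℝ) = r + k * M := by linarith
        exact_mod_cast this
      have h5 : ((n % M : ℕ) : ℤ) = (r : ℤ) := by
        push_cast
        rw [h4, Int.add_mul_emod_self_right]
        exact Int.emod_eq_of_lt (by positivity) (by exact_mod_cast hr)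
      exact_mod_cast h5
    have h3 : ee (((n : ℝ) - r) / M) ^ M = 1 := by
      rw [← ee_nat_mul]
      have h4 : (M : ℝ) * (((n : ℝ) - r) / M) = (((n : ℤ) - r : ℤ) : ℝ) := by
        push_cast
        field_simp
      rw [h4]
      exact ee_int _
    have h4 := mul_neg_geom_sum (ee (((n : ℝ) - r) / M)) M
    rw [h3, sub_self] at h4
    rcases mul_eq_zero.1 h4 with h5 | h5
    · exact absurd (sub_eq_zero.1 h5).symm h2
    · exact h5

lemma Wg_nonneg (l m : ℕ) (g : ℕ → ℂ) : 0 ≤ Wg l m g := by unfold Wg; positivity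

lemma Wg_le_add (l m : ℕ) (hl : 1 ≤ l) (F G : ℕ → ℂ) (δ : ℝ)
    (h : ∀ k ∈ Icc 1 l, ‖F (m + k) - G (m + k)‖ ≤ δ) : Wg l m F ≤ δ + Wg l m G := by
  have hl0 : (0 : ℝ) < l := by exact_mod_cast hl
  unfold Wg
  rw [← sub_le_iff_le_add, ← sub_div, div_le_iff₀ hl0]
  refine (norm_sub_norm_le _ _).trans ?_
  rw [← sum_sub_distrib]
  refine (norm_sum_le _ _).trans ?_
  calc ∑ k ∈ Icc 1 l, ‖muC (m + k) * F (m + k) - muC (m + k) * G (m + k)‖
      ≤ ∑ k ∈ Icc 1 l, δ := by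
        refine sum_le_sum fun k hk => ?_
        rw [← mul_sub, norm_mul]
        exact (mul_le_of_le_one_left (norm_nonneg _) (norm_muC _)).trans (h k hk)
    _ = δ * l := by
        rw [sum_const, Nat.card_Icc, nsmul_eq_mul]
        push_cast
        ring

lemma win (l m M : ℕ) (hl : 1 ≤ l) (hM : 1 ≤ M) (F : ℕ → ℂ) (G : ℕ → ℕ → ℂ) (δ : ℝ)
    (h : ∀ r < M, ∀ n, n % M = r → ‖F n - G r n‖ ≤ δ) :
    Wg l m F ≤ δ + ∑ r ∈ range M, ∑ b ∈ range M, (1 / (M : ℝ)) *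
      Wg l m (fun n => ee (b * ((n : ℝ) / M)) * G r n) := by
  have hM0 : 0 < M := hM
  have hMC : (M : ℂ) ≠ 0 := by exact_mod_cast hM0.ne'
  have hl0 : (0 : ℝ) < l := by exact_mod_cast hl
  refine (Wg_le_add l m hl F (fun n => G (n % M) n) δ fun k _ =>
    h _ (Nat.mod_lt _ hM0) _ rfl).trans (add_le_add le_rfl ?_)
  have h1 : ∀ n : ℕ, G (n % M) n = ∑ r ∈ range M, ∑ b ∈ range M, (1 / (M : ℂ)) *
      ee (-(b * ((r : ℝ) / M))) * (ee (b * ((n : ℝ) / M)) * G r n) := by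
    intro n
    have h2 : ∀ r ∈ range M, ∑ b ∈ range M, (1 / (M : ℂ)) *
        ee (-(b * ((r : ℝ) / M))) * (ee (b * ((n : ℝ) / M)) * G r n) =
        if n % M = r then G r n else 0 := by
      intro r hr
      have h3 : ∑ b ∈ range M, (1 / (M : ℂ)) *
          ee (-(b * ((r : ℝ) / M))) * (ee (b * ((n : ℝ) / M)) * G r n) =
          (1 / (M : ℂ)) * G r n *
            ∑ b ∈ range M, ee (b * ((n : ℝ) / M)) * ee (-(b * ((r : ℝ) / M))) := by
        rw [mul_sum]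
        exact sum_congr rfl fun b _ => by ring
      rw [h3, ind M n r hM (mem_range.1 hr)]
      split_ifs
      · field_simp
      · ring
    rw [sum_congr rfl h2, sum_ite_eq (range M) (n % M) fun r => G r n,
      if_pos (mem_range.2 (Nat.mod_lt _ hM0))]
  unfold Wg
  rw [div_le_iff₀ hl0, sum_mul]
  have h2 : ∑ k ∈ Icc 1 l, muC (m + k) * G ((m + k) % M) (m + k) =
      ∑ r ∈ range M, ∑ b ∈ range M, (1 / (M : ℂ)) * ee (-(b * ((r : ℝ) / M))) *
        ∑ k ∈ Icc 1 l, muC (m + k) * (ee (b * (((m + k : ℕ) : ℝ) / M)) * G r (m + k)) := by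
    simp_rw [h1, mul_sum]
    rw [sum_comm]
    refine sum_congr rfl fun r _ => ?_
    rw [sum_comm]
    exact sum_congr rfl fun b _ => sum_congr rfl fun k _ => by ring
  rw [h2]
  refine (norm_sum_le _ _).trans (sum_le_sum fun r _ => ?_)
  rw [sum_mul]
  refine (norm_sum_le _ _).trans (sum_le_sum fun b _ => ?_)
  rw [norm_mul, norm_mul, norm_ee, mul_one, norm_div, norm_one, Complex.norm_natCast]
  apply le_of_eq
  field_simp

/-- The data with the phase twisted by `b X / M`. -/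
def tw {D : ℕ} (M b : ℕ) (Y : Dat D) : Dat D :=
  ⟨Y.a, Y.y, Y.C + Polynomial.C ((b : ℝ) / M) * Polynomial.X⟩

lemma tw_dg {D : ℕ} (M b : ℕ) (Y : Dat D) (h : Y.Dg) : (tw M b Y).Dg := by
  unfold Dat.Dg tw at *
  exact (natDegree_add_le _ _).trans (max_le h ((natDegree_C_mul_le _ _).trans (natDegree_X_le.trans (by norm_num))))

lemma tw_fn {D : ℕ} (M b : ℕ) (Y : Dat D) (g : (Fin D → ℝ) → ℂ) (n : ℕ) :
    (tw M b Y).fn g n = ee (b * ((n : ℝ) / M)) * Y.fn g n := by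
  unfold Dat.fn tw
  simp only [eval_add, eval_mul, eval_C, eval_X]
  rw [ee_add, show (b : ℝ) / M * n = b * ((n : ℝ) / M) by ring]
  ring

lemma slow_comp {α β : Type} (Q : ℕ → α) (F : α → β) (K : ℝ) (h : SlowA Q K) :
    SlowA (fun n => F (Q n)) K := by
  classical
  intro j
  have h1 := h j
  refine le_trans ?_ h1
  have h2 : ((Ico (2 ^ j) (2 ^ (j + 1))).filter fun n => F (Q (n + 1)) ≠ F (Q n)) ⊆
      ((Ico (2 ^ j) (2 ^ (j + 1))).filter fun n => Q (n + 1) ≠ Q n) := by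
    intro n hn
    rw [mem_filter] at hn ⊢
    exact ⟨hn.1, fun h => hn.2 (by rw [h])⟩
  have h3 := card_le_card h2
  have h4 : (#((Ico (2 ^ j) (2 ^ (j + 1))).filter fun n => F (Q (n + 1)) ≠ F (Q n)) : ℝ) ≤
      (#((Ico (2 ^ j) (2 ^ (j + 1))).filter fun n => Q (n + 1) ≠ Q n) : ℝ) := by exact_mod_cast h3
  convert h4

lemma harm (a b : ℝ) (ha : 1 ≤ a) (hab : a ≤ b) :
    ∑ m ∈ Ioc ⌊a⌋₊ ⌊b⌋₊, (1 / (m : ℝ)) ≤ Real.log b - Real.log a + 1 := by
  have key : ∀ n m : ℕ, 1 ≤ n → n ≤ m → ∑ i ∈ Ioc n m, (1 / (i : ℝ)) ≤ Real.log m - Real.log n := by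
    intro n m hn hnm
    induction m, hnm using Nat.le_induction with
    | base => simp
    | succ m hm ih =>
      have hm' : (0 : ℝ) < m := by exact_mod_cast (by omega : 0 < m)
      rw [sum_Ioc_succ_top hm]
      have h1 := Real.one_sub_inv_le_log_of_pos (show (0 : ℝ) < ((m + 1 : ℕ) : ℝ) / m by positivity)
      rw [Real.log_div (by positivity) hm'.ne'] at h1
      have h2 : 1 - (((m + 1 : ℕ) : ℝ) / m)⁻¹ = 1 / ((m + 1 : ℕ) : ℝ) := by
        push_cast; field_simp; ring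
      rw [h2] at h1
      linarith
  have h1 : 1 ≤ ⌊a⌋₊ := Nat.one_le_iff_ne_zero.2 (Nat.floor_pos.2 ha).ne'
  have h2 : ⌊a⌋₊ ≤ ⌊b⌋₊ := Nat.floor_mono hab
  have h3 := key _ _ h1 h2
  have h4 : Real.log ⌊b⌋₊ ≤ Real.log b :=
    Real.log_le_log (by exact_mod_cast (by omega : 0 < ⌊b⌋₊)) (Nat.floor_le (by linarith))
  have h5 : Real.log a ≤ Real.log ⌊a⌋₊ + 1 := by
    have h6 : a ≤ 2 * (⌊a⌋₊ : ℝ) := by
      have := Nat.lt_floor_add_one a
      have h7 : (1 : ℝ) ≤ ⌊a⌋₊ := by exact_mod_cast h1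
      linarith
    have h7 : (0 : ℝ) < ⌊a⌋₊ := by exact_mod_cast h1
    have h8 := Real.log_le_log (by linarith) h6
    rw [Real.log_mul (by norm_num) h7.ne'] at h8
    linarith [Real.log_two_lt_d9]
  linarith

end CASE2x

open CASE2x in
/-- Row CASE2. -/
theorem case2 : CASE2_stmt := by
  classical
  intro hRES hFRZ D hNS b f hf κ Q₀ A B₀ ε hκ hQ₀ hA hB₀ hε
  obtain ⟨A', B', l₀, hA', hB', hF⟩ := hFRZ (D + 1) b f hf κ Q₀ A B₀ (ε / 4) hκ hQ₀ hA hB₀
    (by positivity)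
  obtain ⟨M, T, b', g, hM, hg, hR⟩ := hRES D b f hf κ Q₀ (ε / 4) hκ hQ₀ (by positivity)
  have hM0 : (0 : ℝ) < M := by exact_mod_cast hM
  have hε' : 0 < ε / (8 * M * (T + 1)) := by positivity
  choose Bt Ht hBt hN using fun t => hNS b' (g t) (hg t) A' (ε / (8 * M * (T + 1))) hA' hε'
  refine ⟨max B' (∑ t ∈ range T, Bt t), max l₀ (8 + ∑ t ∈ range T, Ht t),
    le_max_of_le_left hB', ?_⟩
  intro l hl xa xb hxa hxb Q hQ hslow hrel
  have hl1 : l₀ ≤ l := (le_max_left _ _).trans hl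
  have hl2 : 8 + ∑ t ∈ range T, Ht t ≤ l := (le_max_right _ _).trans hl
  have hl8 : 8 ≤ l := by omega
  have hlR : (1 : ℝ) ≤ l := by exact_mod_cast (by omega : 1 ≤ l)
  have hpow : ∀ B'' : ℝ, B'' ≤ max B' (∑ t ∈ range T, Bt t) → (l : ℝ) ^ B'' ≤ xa :=
    fun B'' h => (Real.rpow_le_rpow_of_exponent_le hlR h).trans hxa
  have hxa1 : 1 ≤ xa := by
    have := hpow 0 (le_max_of_le_left hB')
    rwa [Real.rpow_zero] at this
  have hxab : xa ≤ xb := by nlinarith
  have hΛ : 2 ≤ Real.log xb - Real.log xa := by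
    have h1 : Real.log (xa * l) ≤ Real.log xb := Real.log_le_log (by positivity) hxb
    rw [Real.log_mul (by positivity) (by positivity)] at h1
    have h2 : Real.log 8 ≤ Real.log l := Real.log_le_log (by norm_num) (by exact_mod_cast hl8)
    have h3 : Real.log 8 = 3 * Real.log 2 := by
      rw [show (8 : ℝ) = 2 ^ 3 by norm_num, Real.log_pow]
      norm_num
    have h4 := Real.log_two_gt_d9
    linarith
  obtain ⟨Q', hQ', hslow', hrel', hap⟩ := hF l hl1 xa xb (hpow B' (le_max_left _ _)) Q hQ hslow hrel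
  -- the choice of the data of dimension `D`
  have hch : ∀ (X : Dat (D + 1)) (r : ℕ), ∃ (t : ℕ) (Y : Dat D),
      X.Dg → (∃ j : ℤ, dp κ X.a = j / Q₀) → r < M → t < T ∧ Y.Dg ∧
        ∀ m : ℕ, m % M = r → ‖X.fn f m - Y.fn (g t) m‖ ≤ ε / 4 := by
    intro X r
    by_cases h : X.Dg ∧ (∃ j : ℤ, dp κ X.a = j / Q₀) ∧ r < M
    · obtain ⟨t, ht, Y, hY, hY'⟩ := hR X h.1 h.2.1 r h.2.2
      exact ⟨t, Y, fun _ _ _ => ⟨ht, hY, hY'⟩⟩
    · exact ⟨0, ⟨0, 0, 0⟩, fun h1 h2 h3 => absurd ⟨h1, h2, h3⟩ h⟩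
  choose tr Yr htY using hch
  set Z : ℕ → ℕ → ℕ → Dat (D + 1) → Dat D := fun r b t X =>
    if tr X r = t ∧ (Yr X r).Dg then tw M b (Yr X r) else ⟨0, 0, 0⟩ with hZ
  have hZd : ∀ r b t X, (Z r b t X).Dg := by
    intro r b t X
    simp only [hZ]
    split_ifs with h
    · exact tw_dg M b _ h.2
    · unfold Dat.Dg
      simp
  have hZN : ∀ r b, ∀ t ∈ range T,
      ∑ m ∈ Ioc ⌊xa⌋₊ ⌊xb⌋₊, (1 / (m : ℝ)) * Wg l m ((Z r b t (Q' m)).fn (g t)) ≤
        ε / (8 * M * (T + 1)) * (Real.log xb - Real.log xa) := by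
    intro r b t ht
    have h1 : Ht t ≤ ∑ t ∈ range T, Ht t := single_le_sum (fun _ _ => Nat.zero_le _) ht
    have h2 : Bt t ≤ ∑ t ∈ range T, Bt t := single_le_sum (fun t _ => hBt t) ht
    exact hN t l (by omega) xa xb (hpow _ (h2.trans (le_max_right _ _))) hxb
      (fun m => Z r b t (Q' m)) (fun m => hZd r b t _) (slow_comp Q' (Z r b t) _ hslow')
  have hpt : ∀ m ∈ Ioc ⌊xa⌋₊ ⌊xb⌋₊, Wg l m ((Q m).fn f) ≤ ε / 2 +
      ∑ r ∈ range M, ∑ b ∈ range M, ∑ t ∈ range T, (1 / (M : ℝ)) *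
        Wg l m ((Z r b t (Q' m)).fn (g t)) := by
    intro m hm
    rw [mem_Ioc] at hm
    have hm1 : xa < m := (Nat.floor_lt (by linarith)).1 hm.1
    have hm2 : (m : ℝ) ≤ xb := (Nat.le_floor_iff (by linarith)).1 hm.2
    have h1 := Wg_le_add l m (by omega) ((Q m).fn f) ((Q' m).fn f) (ε / 4)
      fun k hk => hap m hm1 hm2 k hk
    have h2 := win l m M (by omega) hM ((Q' m).fn f) (fun r => (Yr (Q' m) r).fn (g (tr (Q' m) r)))
      (ε / 4) fun r hr n hn => (htY (Q' m) r (hQ' m) (hrel' m) hr).2.2 n hn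
    have h3 : ∀ r ∈ range M, ∀ b ∈ range M, (1 / (M : ℝ)) *
        Wg l m (fun n => ee (b * ((n : ℝ) / M)) * (Yr (Q' m) r).fn (g (tr (Q' m) r)) n) ≤
        ∑ t ∈ range T, (1 / (M : ℝ)) * Wg l m ((Z r b t (Q' m)).fn (g t)) := by
      intro r hr b hb
      obtain ⟨ht, hYd, -⟩ := htY (Q' m) r (hQ' m) (hrel' m) (mem_range.1 hr)
      refine le_trans (le_of_eq ?_) (single_le_sum (f := fun t => (1 / (M : ℝ)) *
        Wg l m ((Z r b t (Q' m)).fn (g t))) (fun t _ => mul_nonneg (by positivity)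
          (Wg_nonneg _ _ _)) (mem_range.2 ht))
      congr 2
      funext n
      have h5 : Z r b (tr (Q' m) r) (Q' m) = tw M b (Yr (Q' m) r) := if_pos ⟨rfl, hYd⟩
      rw [h5, tw_fn]
    have h4 := sum_le_sum fun r hr => sum_le_sum fun b hb => h3 r hr b hb
    linarith
  calc ∑ m ∈ Ioc ⌊xa⌋₊ ⌊xb⌋₊, (1 / (m : ℝ)) * Wg l m ((Q m).fn f)
      ≤ ∑ m ∈ Ioc ⌊xa⌋₊ ⌊xb⌋₊, (1 / (m : ℝ)) * (ε / 2 +
        ∑ r ∈ range M, ∑ b ∈ range M, ∑ t ∈ range T, (1 / (M : ℝ)) *
          Wg l m ((Z r b t (Q' m)).fn (g t))) :=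
        sum_le_sum fun m hm => mul_le_mul_of_nonneg_left (hpt m hm) (by positivity)
    _ = (ε / 2) * ∑ m ∈ Ioc ⌊xa⌋₊ ⌊xb⌋₊, (1 / (m : ℝ)) +
        ∑ r ∈ range M, ∑ b ∈ range M, ∑ t ∈ range T, (1 / (M : ℝ)) *
          ∑ m ∈ Ioc ⌊xa⌋₊ ⌊xb⌋₊, (1 / (m : ℝ)) * Wg l m ((Z r b t (Q' m)).fn (g t)) := by
        simp_rw [mul_add, sum_add_distrib, mul_sum]
        congr 1
        · exact sum_congr rfl fun m _ => by ring
        · rw [sum_comm]
          refine sum_congr rfl fun r _ => ?_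
          rw [sum_comm]
          refine sum_congr rfl fun b _ => ?_
          rw [sum_comm]
          exact sum_congr rfl fun t _ => sum_congr rfl fun m _ => by ring
    _ ≤ (ε / 2) * (Real.log xb - Real.log xa + 1) +
        ∑ r ∈ range M, ∑ b ∈ range M, ∑ t ∈ range T, (1 / (M : ℝ)) *
          (ε / (8 * M * (T + 1)) * (Real.log xb - Real.log xa)) := by
        refine add_le_add (mul_le_mul_of_nonneg_left (harm xa xb hxa1 hxab) (by positivity)) ?_
        exact sum_le_sum fun r _ => sum_le_sum fun b _ => sum_le_sum fun t ht =>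
          mul_le_mul_of_nonneg_left (hZN r b t ht) (by positivity)
    _ ≤ ε * (Real.log xb - Real.log xa) := by
        rw [sum_const, sum_const, sum_const, card_range, card_range, nsmul_eq_mul, nsmul_eq_mul,
          nsmul_eq_mul]
        have hT : (T : ℝ) / (T + 1) ≤ 1 := by
          rw [div_le_one (by positivity)]
          linarith
        have h1 : (M : ℝ) * (M * (T * (1 / (M : ℝ) *
            (ε / (8 * M * (T + 1)) * (Real.log xb - Real.log xa))))) =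
            (T / (T + 1)) * (ε / 8 * (Real.log xb - Real.log xa)) := by
          field_simp
        rw [h1]
        have h2 : (T : ℝ) / (T + 1) * (ε / 8 * (Real.log xb - Real.log xa)) ≤
            1 * (ε / 8 * (Real.log xb - Real.log xa)) :=
          mul_le_mul_of_nonneg_right hT (by positivity)
        nlinarith

end

end Pool.Agent.NV
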