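import Mathlib
import Pool.Agent.Lib.NV.WDefs
import Pool.Agent.Lib.VQ.CLU

/-!
# Theorem NV (MP_663568_nt): row CLUF (helper68)
-/

set_option autoImplicit false
open Finset MeasureTheory Polynomial

namespace Pool.Agent.NV

open Pool.Agent.Lib.MP_663568_nt Pool.Agent.Lib.MP_663568_nt.Katai
  Pool.Agent.Lib.MP_663568_nt.Nul Pool.Agent.SV Pool.Agent.VQ

noncomputable section

namespace CLUFx

theorem norm_tm {g : ℕ → ℂ} (hg : ∀ m, ‖g m‖ ≤ 1) (m : ℕ) : ‖muC m * g m‖ ≤ 1 := by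
  rw [norm_mul]
  exact mul_le_one₀ (CLUx.norm_muC_le m) (norm_nonneg _) (hg m)

/-- The window mean as a sum over an interval. -/
theorem Wg_eq (l m : ℕ) (g : ℕ → ℂ) : Wg l m g = ‖∑ n ∈ Ioc m (m + l), muC n * g n‖ / l := by
  unfold Wg
  congr 2
  rw [show Ioc m (m + l) = (Icc 1 l).map (addLeftEmbedding m) by
      ext n
      simp only [mem_Ioc, Finset.mem_map, mem_Icc, addLeftEmbedding_apply]
      constructor
      · intro h; exact ⟨n - m, by omega, by omega⟩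
      · rintro ⟨a, ha, rfl⟩; omega]
  rw [sum_map]
  refine sum_congr rfl fun h _ => ?_
  rw [addLeftEmbedding_apply]

theorem norm_sum_Ioc {g : ℕ → ℂ} (hg : ∀ m, ‖g m‖ ≤ 1) (a b : ℕ) (hab : a ≤ b) :
    ‖∑ n ∈ Ioc a b, muC n * g n‖ ≤ (b : ℝ) - a := by
  refine (norm_sum_le _ _).trans ((sum_le_sum fun n _ => norm_tm hg n).trans ?_)
  rw [sum_const, Nat.card_Ioc, nsmul_eq_mul, mul_one, Nat.cast_sub hab]

/-- The common part of the windows. -/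
theorem common {g : ℕ → ℂ} (hg : ∀ m, ‖g m‖ ≤ 1) {H L m j : ℕ} (hj : j < L) (hL : L ≤ H) :
    (H : ℝ) * Wg H (m + j) g - L ≤ ((H - L : ℕ) : ℝ) * Wg (H - L) (m + L) g := by
  have h0 : ∀ l n : ℕ, (l : ℝ) * Wg l n g = ‖∑ k ∈ Ioc n (n + l), muC k * g k‖ := by
    intro l n
    rw [Wg_eq]
    rcases Nat.eq_zero_or_pos l with hl | hl
    · subst hl; simp
    · have : (l : ℝ) ≠ 0 := by positivity
      field_simp
  rw [h0, h0, show m + L + (H - L) = m + H by omega]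
  have h1 : ∑ k ∈ Ioc (m + j) (m + j + H), muC k * g k =
      (∑ k ∈ Ioc (m + j) (m + L), muC k * g k + ∑ k ∈ Ioc (m + L) (m + H), muC k * g k) +
      ∑ k ∈ Ioc (m + H) (m + j + H), muC k * g k := by
    rw [sum_Ioc_consecutive _ (by omega) (by omega), sum_Ioc_consecutive _ (by omega) (by omega)]
  rw [h1]
  have h2 := norm_sum_Ioc hg (m + j) (m + L) (by omega)
  have h3 := norm_sum_Ioc hg (m + H) (m + j + H) (by omega)
  have h4 := norm_add_le (∑ k ∈ Ioc (m + j) (m + L), muC k * g k +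
      ∑ k ∈ Ioc (m + L) (m + H), muC k * g k) (∑ k ∈ Ioc (m + H) (m + j + H), muC k * g k)
  have h5 := norm_add_le (∑ k ∈ Ioc (m + j) (m + L), muC k * g k)
    (∑ k ∈ Ioc (m + L) (m + H), muC k * g k)
  push_cast at h2 h3
  linarith

theorem norm_fn {D : ℕ} {b : Fin D → Fin D → ℤ} {f : (Fin D → ℝ) → ℂ} (hf : QP b f) (X : Dat D)
    (m : ℕ) : ‖X.fn f m‖ ≤ 1 := by
  unfold Dat.fn
  rw [norm_mul, norm_ee, one_mul]
  exact hf.le _

theorem norm_tw {P : ℝ[X]} {Φ : ℕ → ℂ} (hΦ : ∀ m, ‖Φ m‖ ≤ 1) (m : ℕ) : ‖tw P Φ m‖ ≤ 1 := by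
  unfold tw
  rw [norm_mul, norm_ee, one_mul]
  exact hΦ m

theorem prod_eq {D : ℕ} (f : (Fin D → ℝ) → ℂ) (X : Dat D) (P Q : ℝ[X]) (n : ℕ) :
    tw P (X.fn f) n * (starRingEnd ℂ) (tw Q (X.fn f) n) =
      ee ((P - Q).eval (n : ℝ)) * ((‖f ((n : ℝ) • X.a + X.y)‖ ^ 2 : ℝ) : ℂ) := by
  have h1 : ee (X.C.eval (n : ℝ)) * (starRingEnd ℂ) (ee (X.C.eval (n : ℝ))) = 1 := by
    rw [← ee_sub, sub_self]
    simpa using ee_int 0
  have h2 : f ((n : ℝ) • X.a + X.y) * (starRingEnd ℂ) (f ((n : ℝ) • X.a + X.y)) =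
      ((‖f ((n : ℝ) • X.a + X.y)‖ ^ 2 : ℝ) : ℂ) := by
    rw [Complex.mul_conj']
    push_cast
    rfl
  unfold tw Dat.fn
  rw [eval_sub, ee_sub, ← h2, map_mul, map_mul]
  linear_combination (ee (P.eval (n : ℝ)) * (starRingEnd ℂ) (ee (Q.eval (n : ℝ))) *
    (f ((n : ℝ) • X.a + X.y) * (starRingEnd ℂ) (f ((n : ℝ) • X.a + X.y)))) * h1

theorem dp_smul {D : ℕ} (k : Fin D → ℤ) (c : ℝ) (u v : Fin D → ℝ) :
    dp k (c • u + v) = c * dp k u + dp k v := by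
  unfold dp
  rw [mul_sum, ← sum_add_distrib]
  refine sum_congr rfl fun i _ => ?_
  simp only [Pi.add_apply, Pi.smul_apply, smul_eq_mul]
  ring

/-- Expansion of the square of the modulus. -/
theorem expand {D : ℕ} {f : (Fin D → ℝ) → ℂ} {c M : ℝ}
    {K : Finset (Fin D → ℤ)} {cc : (Fin D → ℤ) → ℂ} (hcc : ∀ k, ‖cc k‖ ≤ M)
    (happ : ∀ u, ‖((‖f u‖ ^ 2 : ℝ) : ℂ) - ∑ k ∈ K, cc k * ee (dp k u)‖ ≤ c / 2) (X : Dat D)
    (P Q : ℝ[X]) {l m : ℕ} (hl : 1 ≤ l) (h : c ≤ Kg l m (tw P (X.fn f)) (tw Q (X.fn f))) :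
    c / 2 * l ≤ M * ∑ k ∈ K, ‖∑ h ∈ Icc 1 l,
      ee ((P - Q + C (dp k X.a) * Polynomial.X).eval ((m + h : ℕ) : ℝ))‖ := by
  have hl0 : (0 : ℝ) < l := by exact_mod_cast hl
  unfold Kg at h
  rw [le_div_iff₀ hl0] at h
  have h1 : ∑ h ∈ Icc 1 l, tw P (X.fn f) (m + h) * (starRingEnd ℂ) (tw Q (X.fn f) (m + h)) =
      ∑ h ∈ Icc 1 l, ee ((P - Q).eval ((m + h : ℕ) : ℝ)) *
        (((‖f (((m + h : ℕ) : ℝ) • X.a + X.y)‖ ^ 2 : ℝ) : ℂ) -
          ∑ k ∈ K, cc k * ee (dp k (((m + h : ℕ) : ℝ) • X.a + X.y))) +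
      ∑ k ∈ K, (cc k * ee (dp k X.y)) * ∑ h ∈ Icc 1 l,
        ee ((P - Q + C (dp k X.a) * Polynomial.X).eval ((m + h : ℕ) : ℝ)) := by
    have h2 : ∑ k ∈ K, (cc k * ee (dp k X.y)) * ∑ h ∈ Icc 1 l,
        ee ((P - Q + C (dp k X.a) * Polynomial.X).eval ((m + h : ℕ) : ℝ)) =
        ∑ h ∈ Icc 1 l, ee ((P - Q).eval ((m + h : ℕ) : ℝ)) *
          ∑ k ∈ K, cc k * ee (dp k (((m + h : ℕ) : ℝ) • X.a + X.y)) := by
      simp only [mul_sum]
      rw [sum_comm]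
      refine sum_congr rfl fun h _ => sum_congr rfl fun k _ => ?_
      rw [dp_smul, eval_add, eval_mul, eval_C, eval_X, ee_add, ee_add,
        mul_comm (dp k X.a) ((m + h : ℕ) : ℝ)]
      ring
    rw [h2, ← sum_add_distrib]
    refine sum_congr rfl fun h _ => ?_
    rw [prod_eq]
    ring
  rw [h1] at h
  have h3 := norm_add_le (∑ h ∈ Icc 1 l, ee ((P - Q).eval ((m + h : ℕ) : ℝ)) *
        (((‖f (((m + h : ℕ) : ℝ) • X.a + X.y)‖ ^ 2 : ℝ) : ℂ) -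
          ∑ k ∈ K, cc k * ee (dp k (((m + h : ℕ) : ℝ) • X.a + X.y))))
      (∑ k ∈ K, (cc k * ee (dp k X.y)) * ∑ h ∈ Icc 1 l,
        ee ((P - Q + C (dp k X.a) * Polynomial.X).eval ((m + h : ℕ) : ℝ)))
  have h4 : ‖∑ h ∈ Icc 1 l, ee ((P - Q).eval ((m + h : ℕ) : ℝ)) *
        (((‖f (((m + h : ℕ) : ℝ) • X.a + X.y)‖ ^ 2 : ℝ) : ℂ) -
          ∑ k ∈ K, cc k * ee (dp k (((m + h : ℕ) : ℝ) • X.a + X.y)))‖ ≤ c / 2 * l := by
    refine (norm_sum_le _ _).trans ?_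
    calc _ ≤ ∑ h ∈ Icc 1 l, c / 2 := by
          refine sum_le_sum fun h _ => ?_
          rw [norm_mul, norm_ee, one_mul]
          exact happ _
      _ = c / 2 * l := by
          rw [sum_const, Nat.card_Icc, nsmul_eq_mul]
          simp
          ring
  have h5 : ‖∑ k ∈ K, (cc k * ee (dp k X.y)) * ∑ h ∈ Icc 1 l,
        ee ((P - Q + C (dp k X.a) * Polynomial.X).eval ((m + h : ℕ) : ℝ))‖ ≤
      M * ∑ k ∈ K, ‖∑ h ∈ Icc 1 l,
        ee ((P - Q + C (dp k X.a) * Polynomial.X).eval ((m + h : ℕ) : ℝ))‖ := by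
    refine (norm_sum_le _ _).trans ?_
    rw [mul_sum]
    refine sum_le_sum fun k _ => ?_
    rw [norm_mul, norm_mul, norm_ee, mul_one]
    exact mul_le_mul_of_nonneg_right (hcc k) (norm_nonneg _)
  linarith

end CLUFx

open CLUFx in
/-- Row CLUF. -/
theorem cluf : CLUF_stmt := by
  classical
  intro hP hTR D₀ b f hf t ε ht hε hε1
  obtain ⟨C₀, hC1, hC⟩ := TU.weyl_all t ht
  obtain ⟨c, hc⟩ : ∃ c : ℝ, c = ε ^ 2 / 32 := ⟨_, rfl⟩
  have hε2 : ε ^ 2 ≤ 1 := pow_le_one₀ hε.le hε1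
  have hc0 : 0 < c := by rw [hc]; positivity
  have hc2 : c ≤ 1 / 2 := by rw [hc]; linarith
  -- the expansion of the square of the modulus
  obtain ⟨KK, M, hM, hTR⟩ := hTR 0 D₀ (fun _ u => ((‖f u‖ ^ 2 : ℝ) : ℂ))
    (by
      have h1 : Continuous fun p : (Fin 0 → ℝ) × (Fin D₀ → ℝ) => ((‖f p.2‖ ^ 2 : ℝ) : ℂ) :=
        Complex.continuous_ofReal.comp (((hf.cont.comp continuous_snd).norm).pow 2)
      exact h1)
    (fun _ u n => by
      rw [hf.add, norm_mul, norm_ee, one_mul]) (c / 2) (by positivity)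
  obtain ⟨cc, hcc, happ⟩ := hTR 0 (fun i => i.elim0)
  obtain ⟨c₂, hc₂⟩ : ∃ c₂ : ℝ, c₂ = c / (2 * ((M + 1) * ((#KK : ℝ) + 1))) := ⟨_, rfl⟩
  have hMK : 1 ≤ (M + 1) * ((#KK : ℝ) + 1) :=
    one_le_mul_of_one_le_of_one_le (by linarith) (by linarith [(Nat.cast_nonneg (#KK) : (0 : ℝ) ≤ #KK)])
  have hc₂0 : 0 < c₂ := by rw [hc₂]; positivity
  have hc₂2 : c₂ ≤ 1 / 2 := by
    rw [hc₂, div_le_iff₀ (by positivity)]
    linarith
  obtain ⟨K₀, hK₀⟩ : ∃ K₀ : ℝ, K₀ = (1 / c₂) ^ C₀ := ⟨_, rfl⟩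
  have hK₀0 : 0 < K₀ := by rw [hK₀]; positivity
  obtain ⟨qs, hqs⟩ : ∃ qs : ℕ, qs = (⌊K₀⌋₊).factorial := ⟨_, rfl⟩
  have hqs1 : 1 ≤ qs := by rw [hqs]; exact Nat.factorial_pos _
  have hqs0 : (0 : ℝ) < qs := by exact_mod_cast hqs1
  have hK1 : (1 : ℝ) ≤ (#KK : ℝ) + 1 := by linarith [(Nat.cast_nonneg (#KK) : (0 : ℝ) ≤ #KK)]
  refine ⟨ε / 8 * c / ((#KK : ℝ) + 1), t * (t * 2 ^ t * (qs * K₀)), qs,
    ⌈2 * K₀⌉₊ + ⌈32 / ε⌉₊ + 2, KK, by positivity, ?_, by positivity, hqs1, ?_⟩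
  · rw [div_le_one (by linarith)]
    have : ε / 8 * c ≤ 1 * (1 / 2) := mul_le_mul (by linarith) hc2 hc0.le (by norm_num)
    linarith
  intro H L m₀ hH hL X J Q hJ hJc hQd hQ
  have hH1 : 1 ≤ H := by omega
  have hH0 : (0 : ℝ) < H := by exact_mod_cast hH1
  have hHK : 2 * K₀ ≤ H := (Nat.le_ceil _).trans (by exact_mod_cast (by omega : ⌈2 * K₀⌉₊ ≤ H))
  have hHε : 32 / ε ≤ H := (Nat.le_ceil _).trans (by exact_mod_cast (by omega : ⌈32 / ε⌉₊ ≤ H))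
  have hLu : (L : ℝ) ≤ ε / 16 * H := by rw [hL]; exact Nat.floor_le (by positivity)
  have hLl : ε / 16 * H - 1 < L := by rw [hL]; exact Nat.sub_one_lt_floor _
  have hL1 : 1 ≤ L := by
    rw [div_le_iff₀ hε] at hHε
    have : (0 : ℝ) < L := by linarith
    exact_mod_cast this
  have hL0 : (0 : ℝ) < L := by exact_mod_cast hL1
  have hLH2 : 2 * L ≤ H := by
    have : (2 : ℝ) * L ≤ H := by
      have : ε / 16 * H ≤ 1 / 16 * H := by gcongr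
      linarith
    exact_mod_cast this
  have hw1 : 1 ≤ H - L := by omega
  have hwc : ((H - L : ℕ) : ℝ) = (H : ℝ) - L := by rw [Nat.cast_sub (by omega)]
  have hw0 : (0 : ℝ) < ((H - L : ℕ) : ℝ) := by exact_mod_cast hw1
  have hg1 : ∀ j m, ‖tw (Q j) (X.fn f) m‖ ≤ 1 := fun j m => norm_tw (norm_fn hf X) m
  have hcom : ∀ j ∈ J, ε / 4 ≤ Wg (H - L) (m₀ + L) (tw (Q j) (X.fn f)) := by
    intro j hj
    have h1 := common (hg1 j) (H := H) (m := m₀) (hJ j hj) (by omega)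
    have h2 := mul_le_mul_of_nonneg_left (hQ j hj) hH0.le
    have h3 : ((H - L : ℕ) : ℝ) * (ε / 4) ≤
        ((H - L : ℕ) : ℝ) * Wg (H - L) (m₀ + L) (tw (Q j) (X.fn f)) := by
      rw [hwc] at h1 ⊢
      have h4 : 0 ≤ ε * L := by positivity
      linarith
    exact le_of_mul_le_mul_left h3 hw0
  -- the pairs
  have h1 := hP (H - L) (m₀ + L) J (fun _ => 1) (fun j => tw (Q j) (X.fn f)) (ε / 4) hw1
    (fun _ _ => zero_le_one) (by linarith) hcom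
  simp only [one_mul] at h1
  rw [sum_const, nsmul_eq_mul, mul_one] at h1
  have hJ0 : (0 : ℝ) < #J := lt_of_lt_of_le (by positivity) hJc
  obtain ⟨j₀, hj₀, hj₀s⟩ : ∃ j₀ ∈ J, ε ^ 2 / 16 * (#J : ℝ) ≤
      ∑ j ∈ J, Kg (H - L) (m₀ + L) (tw (Q j₀) (X.fn f)) (tw (Q j) (X.fn f)) := by
    by_contra hcon
    push Not at hcon
    have hne : J.Nonempty := by
      rw [← card_pos]
      exact_mod_cast hJ0
    have h2 := sum_lt_sum_of_nonempty hne hcon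
    rw [sum_const, nsmul_eq_mul] at h2
    have h3 : (ε / 4) ^ 2 * (#J : ℝ) ^ 2 = (#J : ℝ) * (ε ^ 2 / 16 * (#J : ℝ)) := by ring
    linarith
  have hKp0 : ∀ j, Kg (H - L) (m₀ + L) (tw (Q j₀) (X.fn f)) (tw (Q j) (X.fn f)) ≤ 1 := by
    intro j
    unfold Kg
    rw [div_le_one hw0]
    refine (norm_sum_le _ _).trans ?_
    calc _ ≤ ∑ h ∈ Icc 1 (H - L), (1 : ℝ) := by
          refine sum_le_sum fun h _ => ?_
          rw [norm_mul, RCLike.norm_conj]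
          exact mul_le_one₀ (hg1 _ _) (norm_nonneg _) (hg1 _ _)
      _ = _ := by
          rw [sum_const, Nat.card_Icc, nsmul_eq_mul, mul_one]
          simp
  have hmany : c * (#J : ℝ) ≤ (#(J.filter fun j =>
      c ≤ Kg (H - L) (m₀ + L) (tw (Q j₀) (X.fn f)) (tw (Q j) (X.fn f))) : ℝ) := by
    have h2 : ∑ j ∈ J, Kg (H - L) (m₀ + L) (tw (Q j₀) (X.fn f)) (tw (Q j) (X.fn f)) ≤
        ∑ j ∈ J, ((if c ≤ Kg (H - L) (m₀ + L) (tw (Q j₀) (X.fn f)) (tw (Q j) (X.fn f))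
          then (1 : ℝ) else 0) + c) := by
      refine sum_le_sum fun j _ => ?_
      split_ifs with h3
      · linarith [hKp0 j]
      · linarith [lt_of_not_ge h3]
    rw [sum_add_distrib, sum_const, nsmul_eq_mul, ← sum_filter, sum_const, nsmul_eq_mul,
      mul_one] at h2
    have h3 : ε ^ 2 / 16 * (#J : ℝ) = 2 * c * (#J : ℝ) := by rw [hc]; ring
    linarith
  -- the frequency
  obtain ⟨S, hS⟩ : ∃ S : (Fin D₀ → ℤ) → ℕ → ℝ, S = fun k j => ‖∑ h ∈ Icc 1 (H - L),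
    ee ((Q j₀ - Q j + C (dp k X.a) * Polynomial.X).eval ((m₀ + L + h : ℕ) : ℝ))‖ := ⟨_, rfl⟩
  have hsub0 : (J.filter fun j =>
      c ≤ Kg (H - L) (m₀ + L) (tw (Q j₀) (X.fn f)) (tw (Q j) (X.fn f))) ⊆
      KK.biUnion fun k => J.filter fun j => c₂ * ((H - L : ℕ) : ℝ) ≤ S k j := by
    intro j hj
    rw [mem_filter] at hj
    have h2 := expand hcc happ X (Q j₀) (Q j) hw1 hj.2
    rw [mem_biUnion]
    by_contra hcon
    push Not at hcon
    have h3 : ∀ k ∈ KK, S k j ≤ c₂ * ((H - L : ℕ) : ℝ) := by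
      intro k hk
      by_contra h4
      exact hcon k hk (mem_filter.2 ⟨hj.1, (not_le.1 h4).le⟩)
    have h4 : ∑ k ∈ KK, S k j ≤ (#KK : ℝ) * (c₂ * ((H - L : ℕ) : ℝ)) := by
      refine (sum_le_sum h3).trans (le_of_eq ?_)
      rw [sum_const, nsmul_eq_mul]
    rw [hS] at h4
    have h5 := mul_le_mul_of_nonneg_left h4 hM
    have h6 : c₂ * ((M + 1) * ((#KK : ℝ) + 1)) = c / 2 := by
      rw [hc₂]
      field_simp
    have h7 : M * ((#KK : ℝ) * (c₂ * ((H - L : ℕ) : ℝ))) < c / 2 * ((H - L : ℕ) : ℝ) := by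
      rw [← h6]
      have h8 : 0 < c₂ * ((H - L : ℕ) : ℝ) := mul_pos hc₂0 hw0
      have h9 : (0 : ℝ) ≤ #KK := Nat.cast_nonneg _
      have h10 : M * (#KK : ℝ) < (M + 1) * ((#KK : ℝ) + 1) := by linarith
      calc M * ((#KK : ℝ) * (c₂ * ((H - L : ℕ) : ℝ))) = (M * (#KK : ℝ)) * (c₂ * ((H - L : ℕ) : ℝ)) := by
            ring
        _ < ((M + 1) * ((#KK : ℝ) + 1)) * (c₂ * ((H - L : ℕ) : ℝ)) :=
            mul_lt_mul_of_pos_right h10 h8
        _ = _ := by ring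
    linarith
  obtain ⟨k, hk, hkc⟩ : ∃ k ∈ KK, c * (#J : ℝ) / ((#KK : ℝ) + 1) ≤
      (#(J.filter fun j => c₂ * ((H - L : ℕ) : ℝ) ≤ S k j) : ℝ) := by
    by_contra hcon
    push Not at hcon
    have h2 : ((#(J.filter fun j =>
        c ≤ Kg (H - L) (m₀ + L) (tw (Q j₀) (X.fn f)) (tw (Q j) (X.fn f))) : ℕ) : ℝ) ≤
        ∑ k ∈ KK, (#(J.filter fun j => c₂ * ((H - L : ℕ) : ℝ) ≤ S k j) : ℝ) := by
      exact_mod_cast (card_le_card hsub0).trans card_biUnion_le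
    have h3 : ∑ k ∈ KK, (#(J.filter fun j => c₂ * ((H - L : ℕ) : ℝ) ≤ S k j) : ℝ) ≤
        (#KK : ℝ) * (c * (#J : ℝ) / ((#KK : ℝ) + 1)) := by
      refine (sum_le_sum fun k hk => (hcon k hk).le).trans (le_of_eq ?_)
      rw [sum_const, nsmul_eq_mul]
    have h4 : (#KK : ℝ) * (c * (#J : ℝ) / ((#KK : ℝ) + 1)) < c * (#J : ℝ) := by
      rw [mul_div_assoc', div_lt_iff₀ (by linarith)]
      have : 0 < c * (#J : ℝ) := mul_pos hc0 hJ0
      linarith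
    linarith
  refine ⟨Q j₀, k, hk, hQd j₀ hj₀, hcom j₀ hj₀, ?_⟩
  have hsub : (J.filter fun j => c₂ * ((H - L : ℕ) : ℝ) ≤ S k j) ⊆
      (J.filter fun j : ℕ => nd ((qs : ℝ) * ((Q j₀).derivative.eval ((m₀ : ℝ) + j) -
        (Q j).derivative.eval ((m₀ : ℝ) + j) + dp k X.a)) ≤ t * (t * 2 ^ t * (qs * K₀)) / H) := by
    intro j hj
    rw [mem_filter] at hj ⊢
    refine ⟨hj.1, ?_⟩
    obtain ⟨D, hD⟩ : ∃ D, D = Q j₀ - Q j + C (dp k X.a) * Polynomial.X := ⟨_, rfl⟩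
    have hDd : D.natDegree ≤ t := by
      rw [hD]
      refine (natDegree_add_le _ _).trans (max_le ?_ ?_)
      · exact (natDegree_sub_le _ _).trans (max_le (hQd j₀ hj₀) (hQd j hj.1))
      · exact (natDegree_C_mul_le _ _).trans (natDegree_X_le.trans ht)
    have h2 : c₂ * ((H - L : ℕ) : ℝ) ≤
        ‖∑ h ∈ Icc 1 (H - L), ee ((taylor ((m₀ + L : ℕ) : ℝ) D).eval (h : ℝ))‖ := by
      have h3 := hj.2
      rw [hS] at h3
      refine h3.trans (le_of_eq ?_)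
      beta_reduce
      rw [← hD]
      congr 1
      refine sum_congr rfl fun h _ => ?_
      rw [taylor_eval, add_comm (h : ℝ)]
      push_cast
      rfl
    have hwK : (1 / c₂) ^ C₀ ≤ ((H - L : ℕ) : ℝ) := by
      rw [← hK₀, hwc]
      have : (2 : ℝ) * L ≤ H := by exact_mod_cast hLH2
      linarith
    obtain ⟨q, hq1, hq2, hq3⟩ := hC c₂ (H - L) (taylor ((m₀ + L : ℕ) : ℝ) D) hc₂0 hc₂2 hwK
      (by rw [natDegree_taylor]; exact hDd) h2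
    rw [← hK₀] at hq2 hq3
    have hdvd : q ∣ qs := by rw [hqs]; exact PRECx.dvd_fact q hq1 _ hq2
    have h4 : ∀ i, 1 ≤ i → i ≤ t → nd ((qs : ℝ) * (taylor ((m₀ + L : ℕ) : ℝ) D).coeff i) ≤
        (qs * K₀) / ((H - L : ℕ) : ℝ) ^ i := by
      intro i hi1 hi2
      refine (PRECx.nd_dvd q qs hq1 hdvd _).trans ?_
      rw [mul_div_assoc]
      exact mul_le_mul_of_nonneg_left (hq3 i hi1 hi2) hqs0.le
    have hjL := hJ j hj.1
    have h5 := CLUx.base (q := qs) (H := H) ht hDd ((m₀ + L : ℕ) : ℝ) ((j : ℤ) - L) (K := qs * K₀)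
      (by positivity) hH1 hw1 (by omega) (by
        push_cast
        rw [abs_le]
        have h6 : (j : ℝ) ≤ L := by exact_mod_cast hjL.le
        have h7 : (2 : ℝ) * L ≤ H := by exact_mod_cast hLH2
        have h8 : (0 : ℝ) ≤ j := Nat.cast_nonneg _
        constructor <;> linarith) h4
    have h6 : D.derivative.eval (((m₀ + L : ℕ) : ℝ) + (((j : ℤ) - L : ℤ) : ℝ)) =
        (Q j₀).derivative.eval ((m₀ : ℝ) + j) - (Q j).derivative.eval ((m₀ : ℝ) + j)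
          + dp k X.a := by
      have h7 : ((m₀ + L : ℕ) : ℝ) + (((j : ℤ) - L : ℤ) : ℝ) = (m₀ : ℝ) + j := by
        push_cast
        ring
      rw [h7, hD, derivative_add, derivative_sub, derivative_C_mul, derivative_X, mul_one,
        eval_add, eval_sub, eval_C]
    rw [h6] at h5
    exact h5
  have h2 : (#(J.filter fun j => c₂ * ((H - L : ℕ) : ℝ) ≤ S k j) : ℝ) ≤
      (#(J.filter fun j : ℕ => nd ((qs : ℝ) * ((Q j₀).derivative.eval ((m₀ : ℝ) + j) -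
        (Q j).derivative.eval ((m₀ : ℝ) + j) + dp k X.a)) ≤ t * (t * 2 ^ t * (qs * K₀)) / H) : ℝ) := by
    exact_mod_cast card_le_card hsub
  have h3 := mul_le_mul_of_nonneg_left hJc hc0.le
  have h4 : ε / 8 * c / ((#KK : ℝ) + 1) * (L : ℝ) ≤ c * (#J : ℝ) / ((#KK : ℝ) + 1) := by
    rw [div_mul_eq_mul_div]
    refine div_le_div_of_nonneg_right ?_ (by linarith)
    linarith
  refine (h4.trans hkc).trans (h2.trans (le_of_eq ?_))
  congr!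

end

end Pool.Agent.NV
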