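import Pool.Agent.Lib.NV.Defs

/-!
# Theorem NV (MP_663568_nt), row DER: differences of a nilsequence
-/

set_option autoImplicit false
open Finset MeasureTheory Polynomial

namespace Pool.Agent.NV

open Pool.Agent.Lib.MP_663568_nt Pool.Agent.Lib.MP_663568_nt.Katai
  Pool.Agent.Lib.MP_663568_nt.Nul Pool.Agent.SV Pool.Agent.VQ

noncomputable section

namespace DERx

variable {D : ℕ}

lemma bf_add_left (b : Fin D → Fin D → ℤ) (u v w : Fin D → ℝ) :
    bf b (u + v) w = bf b u w + bf b v w := by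
  unfold bf
  rw [← sum_add_distrib]
  refine sum_congr rfl fun i _ => ?_
  rw [← sum_add_distrib]
  refine sum_congr rfl fun j _ => ?_
  rw [Pi.add_apply]
  ring

lemma bf_add_right (b : Fin D → Fin D → ℤ) (u v w : Fin D → ℝ) :
    bf b u (v + w) = bf b u v + bf b u w := by
  unfold bf
  rw [← sum_add_distrib]
  refine sum_congr rfl fun i _ => ?_
  rw [← sum_add_distrib]
  refine sum_congr rfl fun j _ => ?_
  rw [Pi.add_apply]
  ring

lemma bf_smul_left (b : Fin D → Fin D → ℤ) (c : ℝ) (u v : Fin D → ℝ) :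
    bf b (c • u) v = c * bf b u v := by
  unfold bf
  rw [mul_sum]
  refine sum_congr rfl fun i _ => ?_
  rw [mul_sum]
  refine sum_congr rfl fun j _ => ?_
  rw [Pi.smul_apply, smul_eq_mul]
  ring

lemma bf_smul_right (b : Fin D → Fin D → ℤ) (c : ℝ) (u v : Fin D → ℝ) :
    bf b u (c • v) = c * bf b u v := by
  unfold bf
  rw [mul_sum]
  refine sum_congr rfl fun i _ => ?_
  rw [mul_sum]
  refine sum_congr rfl fun j _ => ?_
  rw [Pi.smul_apply, smul_eq_mul]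
  ring

lemma dp_add (k : Fin D → ℤ) (u v : Fin D → ℝ) : dp k (u + v) = dp k u + dp k v := by
  unfold dp
  rw [← sum_add_distrib]
  refine sum_congr rfl fun i _ => ?_
  rw [Pi.add_apply]
  ring

lemma dp_smul (k : Fin D → ℤ) (c : ℝ) (u : Fin D → ℝ) : dp k (c • u) = c * dp k u := by
  unfold dp
  rw [mul_sum]
  refine sum_congr rfl fun i _ => ?_
  rw [Pi.smul_apply, smul_eq_mul]
  ring

/-- the periodic function of the shift `x` -/
def TT (b : Fin D → Fin D → ℤ) (f : (Fin D → ℝ) → ℂ) (x u : Fin D → ℝ) : ℂ :=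
  f (u + x) * (starRingEnd ℂ) (f u) * ee (bf b x u)

lemma TT_cont {b : Fin D → Fin D → ℤ} {f : (Fin D → ℝ) → ℂ} (hf : QP b f) :
    Continuous (Function.uncurry (TT b f)) := by
  have h1 : Continuous f := hf.cont
  have h2 : Continuous fun p : (Fin D → ℝ) × (Fin D → ℝ) => bf b p.1 p.2 := by
    unfold bf
    fun_prop
  have h3 : Continuous ee := continuous_ee
  have h4 : Continuous fun p : (Fin D → ℝ) × (Fin D → ℝ) =>
      f (p.2 + p.1) * (starRingEnd ℂ) (f p.2) * ee (bf b p.1 p.2) := by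
    refine ((h1.comp (by fun_prop)).mul (Complex.continuous_conj.comp (h1.comp (by fun_prop)))).mul
      (h3.comp h2)
  exact h4

lemma TT_per {b : Fin D → Fin D → ℤ} {f : (Fin D → ℝ) → ℂ} (hf : QP b f) (x u : Fin D → ℝ)
    (n : Fin D → ℤ) : TT b f x (u + ic n) = TT b f x u := by
  unfold TT
  have e1 : u + ic n + x = (u + x) + ic n := by
    rw [add_right_comm]
  rw [e1, hf.add, hf.add, map_mul, conj_ee, neg_neg, bf_add_left, bf_add_right]
  have h1 : ee (-(bf b u (ic n) + bf b x (ic n))) * ee (bf b u (ic n)) *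
      ee (bf b x u + bf b x (ic n)) = ee (bf b x u) := by
    rw [← ee_add, ← ee_add]
    congr 1
    ring
  calc _ = (ee (-(bf b u (ic n) + bf b x (ic n))) * ee (bf b u (ic n)) *
      ee (bf b x u + bf b x (ic n))) * (f (u + x) * (starRingEnd ℂ) (f u)) := by ring
    _ = _ := by
      rw [h1]
      ring

/-- quadratic polynomials -/
lemma quad_diff {C : ℝ[X]} (hC : C.natDegree ≤ 2) (m r : ℝ) :
    C.eval (m + r) - C.eval m = m * (2 * C.coeff 2 * r) + (C.coeff 1 * r + C.coeff 2 * r ^ 2) := by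
  rw [Polynomial.eval_eq_sum_range' (n := 3) (by omega), Polynomial.eval_eq_sum_range' (n := 3) (by omega)]
  simp only [sum_range_succ, sum_range_zero]
  ring

/-- the value of the coefficient of `m` -/
def ph (b : Fin D → Fin D → ℤ) (X : Dat D) (r : ℕ) (k : Fin D → ℤ) : ℝ :=
  ((2 * X.C.coeff 2 - bf b X.a X.a) * r - om b X.a (fl r X.a)) + dp k X.a

/-- the difference of a nilsequence -/
lemma diff_eq {b : Fin D → Fin D → ℤ} {f : (Fin D → ℝ) → ℂ} (hf : QP b f) (X : Dat D) (r m : ℕ) :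
    X.fn f (m + r) * (starRingEnd ℂ) (X.fn f m)
      = ee (X.C.eval ((m : ℝ) + r) - X.C.eval (m : ℝ)
          - bf b ((m : ℝ) • X.a + X.y + ((r : ℝ) • X.a - fl r X.a)) (fl r X.a)
          - bf b ((r : ℝ) • X.a - fl r X.a) ((m : ℝ) • X.a + X.y))
        * TT b f ((r : ℝ) • X.a - fl r X.a) ((m : ℝ) • X.a + X.y) := by
  obtain ⟨N, hN⟩ : ∃ N : Fin D → ℤ, ic N = fl r X.a := ⟨fun i => ⌊(r : ℝ) * X.a i⌋, rfl⟩
  set u := (m : ℝ) • X.a + X.y with hu
  set x := (r : ℝ) • X.a - fl r X.a with hx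
  have e1 : ((m + r : ℕ) : ℝ) • X.a + X.y = (u + x) + ic N := by
    rw [hN, hu, hx]
    push_cast
    rw [add_smul]
    abel
  unfold Dat.fn TT
  rw [e1, hf.add, hN]
  push_cast
  rw [← hu, map_mul, conj_ee]
  have h1 : ee (X.C.eval ((m : ℝ) + r) - X.C.eval (m : ℝ) - bf b (u + x) (fl r X.a) - bf b x u)
      * ee (bf b x u) = ee (X.C.eval ((m : ℝ) + r)) * ee (-bf b (u + x) (fl r X.a))
        * ee (-X.C.eval (m : ℝ)) := by
    rw [← ee_add, ← ee_add, ← ee_add]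
    congr 1
    ring
  calc _ = (ee (X.C.eval ((m : ℝ) + r)) * ee (-bf b (u + x) (fl r X.a))
        * ee (-X.C.eval (m : ℝ))) * (f (u + x) * (starRingEnd ℂ) (f u)) := by ring
    _ = _ := by
      rw [← h1]
      ring

/-- the difference of a nilsequence is close to a trigonometric polynomial -/
lemma diff_trig {b : Fin D → Fin D → ℤ} {f : (Fin D → ℝ) → ℂ} (hf : QP b f)
    {K : Finset (Fin D → ℤ)} {M ε : ℝ}
    (h : ∀ x : Fin D → ℝ, (∀ i, 0 ≤ x i ∧ x i ≤ 1) → ∃ c : (Fin D → ℤ) → ℂ, (∀ k, ‖c k‖ ≤ M) ∧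
      ∀ u, ‖TT b f x u - ∑ k ∈ K, c k * ee (dp k u)‖ ≤ ε)
    (X : Dat D) (hX : X.Dg) (r : ℕ) :
    ∃ c : (Fin D → ℤ) → ℂ, (∀ k, ‖c k‖ ≤ M) ∧ ∀ m : ℕ,
      ‖X.fn f (m + r) * (starRingEnd ℂ) (X.fn f m) - ∑ k ∈ K, c k * ee ((m : ℝ) * ph b X r k)‖ ≤ ε := by
  set N := fl r X.a with hN
  set x := (r : ℝ) • X.a - N with hx
  have hx01 : ∀ i, 0 ≤ x i ∧ x i ≤ 1 := by
    intro i
    have e : x i = (r : ℝ) * X.a i - ⌊(r : ℝ) * X.a i⌋ := by
      rw [hx, hN]
      simp [fl]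
    rw [e]
    exact ⟨sub_nonneg.mpr (Int.floor_le _), by linarith [Int.lt_floor_add_one ((r : ℝ) * X.a i)]⟩
  obtain ⟨c, hc, hu⟩ := h x hx01
  refine ⟨fun k => c k * ee (X.C.coeff 1 * r + X.C.coeff 2 * (r : ℝ) ^ 2 - bf b (X.y + x) N
    - bf b x X.y + dp k X.y), fun k => ?_, fun m => ?_⟩
  · rw [norm_mul, norm_ee, mul_one]
    exact hc k
  · rw [diff_eq hf X r m, ← hN, ← hx]
    set P := X.C.eval ((m : ℝ) + r) - X.C.eval (m : ℝ) - bf b ((m : ℝ) • X.a + X.y + x) N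
      - bf b x ((m : ℝ) • X.a + X.y) with hP
    have h1 : ∑ k ∈ K, c k * ee (X.C.coeff 1 * r + X.C.coeff 2 * (r : ℝ) ^ 2 - bf b (X.y + x) N
        - bf b x X.y + dp k X.y) * ee ((m : ℝ) * ph b X r k)
        = ee P * ∑ k ∈ K, c k * ee (dp k ((m : ℝ) • X.a + X.y)) := by
      rw [mul_sum]
      refine sum_congr rfl fun k _ => ?_
      have h2 : ee (X.C.coeff 1 * r + X.C.coeff 2 * (r : ℝ) ^ 2 - bf b (X.y + x) N
          - bf b x X.y + dp k X.y) * ee ((m : ℝ) * ph b X r k)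
          = ee P * ee (dp k ((m : ℝ) • X.a + X.y)) := by
        rw [← ee_add, ← ee_add]
        congr 1
        have e1 : bf b x X.a = r * bf b X.a X.a - bf b N X.a := by
          have : (r : ℝ) • X.a = x + N := by rw [hx]; abel
          have h3 : bf b ((r : ℝ) • X.a) X.a = bf b x X.a + bf b N X.a := by
            rw [this, bf_add_left]
          rw [bf_smul_left] at h3
          linarith
        have e2 : bf b ((m : ℝ) • X.a + X.y + x) N = m * bf b X.a N + bf b X.y N + bf b x N := by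
          rw [bf_add_left, bf_add_left, bf_smul_left]
        have e3 : bf b (X.y + x) N = bf b X.y N + bf b x N := bf_add_left _ _ _ _
        have e4 : bf b x ((m : ℝ) • X.a + X.y) = m * bf b x X.a + bf b x X.y := by
          rw [bf_add_right, bf_smul_right]
        have e5 : dp k ((m : ℝ) • X.a + X.y) = m * dp k X.a + dp k X.y := by
          rw [dp_add, dp_smul]
        rw [hP, quad_diff hX, e2, e3, e4, e5, e1]
        unfold ph om
        rw [← hN]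
        ring
      calc _ = c k * (ee (X.C.coeff 1 * r + X.C.coeff 2 * (r : ℝ) ^ 2 - bf b (X.y + x) N
          - bf b x X.y + dp k X.y) * ee ((m : ℝ) * ph b X r k)) := by ring
        _ = _ := by
          rw [h2]
          ring
    have h3 : ‖ee P * TT b f x ((m : ℝ) • X.a + X.y)
        - ee P * ∑ k ∈ K, c k * ee (dp k ((m : ℝ) • X.a + X.y))‖ ≤ ε := by
      rw [← mul_sub, norm_mul, norm_ee, one_mul]
      exact hu _
    rw [← h1] at h3
    exact h3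

/-- geometric sums -/
lemma geom (n L : ℕ) (φ : ℝ) : ‖1 - ee φ‖ * ‖∑ m ∈ Ico n (n + L), ee ((m : ℝ) * φ)‖ ≤ 2 := by
  rw [← norm_mul]
  have h : (1 - ee φ) * ∑ m ∈ Ico n (n + L), ee ((m : ℝ) * φ)
      = ee ((n : ℝ) * φ) - ee (((n + L : ℕ) : ℝ) * φ) := by
    induction L with
    | zero => simp
    | succ L ih =>
      rw [← add_assoc, sum_Ico_succ_top (by omega), mul_add, ih]
      have e1 : ee (((n + L + 1 : ℕ) : ℝ) * φ) = ee φ * ee (((n + L : ℕ) : ℝ) * φ) := by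
        rw [← ee_add]
        congr 1
        push_cast
        ring
      rw [e1]
      ring
  rw [h]
  calc _ ≤ ‖ee ((n : ℝ) * φ)‖ + ‖ee (((n + L : ℕ) : ℝ) * φ)‖ := norm_sub_le _ _
    _ = 2 := by rw [norm_ee, norm_ee]; norm_num

lemma fn_le {b : Fin D → Fin D → ℤ} {f : (Fin D → ℝ) → ℂ} (hf : QP b f) (X : Dat D) (m : ℕ) :
    ‖X.fn f m‖ ≤ 1 := by
  unfold Dat.fn
  rw [norm_mul, norm_ee, one_mul]
  exact hf.le _

/-- one shift: some geometric sum is large -/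
lemma one_shift {b : Fin D → Fin D → ℤ} {f : (Fin D → ℝ) → ℂ} (hf : QP b f)
    {K : Finset (Fin D → ℤ)} {M c₀ : ℝ} (hM : 0 ≤ M) (hc₀ : 0 < c₀) (hc₁ : c₀ ≤ 1)
    (h : ∀ x : Fin D → ℝ, (∀ i, 0 ≤ x i ∧ x i ≤ 1) → ∃ c : (Fin D → ℤ) → ℂ, (∀ k, ‖c k‖ ≤ M) ∧
      ∀ u, ‖TT b f x u - ∑ k ∈ K, c k * ee (dp k u)‖ ≤ c₀ / 6)
    {X X' : Dat D} (hX : X.Dg) (hX' : X'.Dg) {r n L : ℕ} (hL : 0 < L)
    (hs : c₀ * L ≤ ‖∑ m ∈ Ico n (n + L), (X.fn f (m + r) * (starRingEnd ℂ) (X'.fn f (m + r))) *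
      (starRingEnd ℂ) (X.fn f m * (starRingEnd ℂ) (X'.fn f m))‖) :
    ∃ k ∈ K ×ˢ K, nd (ph b X r k.1 - ph b X' r k.2) ≤ (2 * (#K : ℝ) ^ 2 * M ^ 2 / c₀ + 1) / L := by
  have hL0 : (0 : ℝ) < L := by exact_mod_cast hL
  obtain ⟨E, hE⟩ : ∃ E : ℝ, E = 2 * (#K : ℝ) ^ 2 * M ^ 2 / c₀ + 1 := ⟨_, rfl⟩
  have hE0 : 0 < E := by rw [hE]; positivity
  rw [← hE]
  by_contra hcon
  push Not at hcon
  obtain ⟨c, hc, hA⟩ := diff_trig hf h X hX r
  obtain ⟨c', hc', hA'⟩ := diff_trig hf h X' hX' r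
  set B : ℕ → ℂ := fun m => X.fn f (m + r) * (starRingEnd ℂ) (X.fn f m) with hB
  set B' : ℕ → ℂ := fun m => X'.fn f (m + r) * (starRingEnd ℂ) (X'.fn f m) with hB'
  set A : ℕ → ℂ := fun m => ∑ k ∈ K, c k * ee ((m : ℝ) * ph b X r k) with hAd
  set A' : ℕ → ℂ := fun m => ∑ k ∈ K, c' k * ee ((m : ℝ) * ph b X' r k) with hAd'
  have hBn : ∀ m, ‖B m‖ ≤ 1 := by
    intro m
    rw [hB, norm_mul, RCLike.norm_conj]
    exact mul_le_one₀ (fn_le hf _ _) (norm_nonneg _) (fn_le hf _ _)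
  have hBn' : ∀ m, ‖B' m‖ ≤ 1 := by
    intro m
    rw [hB', norm_mul, RCLike.norm_conj]
    exact mul_le_one₀ (fn_le hf _ _) (norm_nonneg _) (fn_le hf _ _)
  have h1 : ∀ m, ‖B m * (starRingEnd ℂ) (B' m) - A m * (starRingEnd ℂ) (A' m)‖ ≤ c₀ / 2 := by
    intro m
    have e1 : B m * (starRingEnd ℂ) (B' m) - A m * (starRingEnd ℂ) (A' m)
        = (B m - A m) * (starRingEnd ℂ) (B' m) + A m * (starRingEnd ℂ) (B' m - A' m) := by
      rw [map_sub]
      ring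
    have h2 : ‖A m‖ ≤ 2 := by
      have h3 : ‖A m‖ ≤ ‖B m‖ + ‖B m - A m‖ := by
        have := norm_sub_le (B m) (B m - A m)
        rwa [sub_sub_cancel] at this
      linarith [hBn m, hA m]
    rw [e1]
    calc _ ≤ ‖(B m - A m) * (starRingEnd ℂ) (B' m)‖ + ‖A m * (starRingEnd ℂ) (B' m - A' m)‖ :=
          norm_add_le _ _
      _ ≤ c₀ / 6 * 1 + 2 * (c₀ / 6) := by
        rw [norm_mul, norm_mul, RCLike.norm_conj, RCLike.norm_conj]
        refine add_le_add ?_ ?_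
        · exact mul_le_mul (hA m) (hBn' m) (norm_nonneg _) (by positivity)
        · exact mul_le_mul h2 (hA' m) (norm_nonneg _) (by norm_num)
      _ = c₀ / 2 := by ring
  have h2 : ∑ m ∈ Ico n (n + L), (X.fn f (m + r) * (starRingEnd ℂ) (X'.fn f (m + r))) *
      (starRingEnd ℂ) (X.fn f m * (starRingEnd ℂ) (X'.fn f m))
      = ∑ m ∈ Ico n (n + L), B m * (starRingEnd ℂ) (B' m) := by
    refine sum_congr rfl fun m _ => ?_
    rw [hB, hB']
    simp only [map_mul, Complex.conj_conj]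
    ring
  rw [h2] at hs
  have h3 : ‖∑ m ∈ Ico n (n + L), B m * (starRingEnd ℂ) (B' m)‖
      ≤ ‖∑ m ∈ Ico n (n + L), A m * (starRingEnd ℂ) (A' m)‖ + c₀ / 2 * L := by
    have h4 : ‖∑ m ∈ Ico n (n + L), (B m * (starRingEnd ℂ) (B' m) - A m * (starRingEnd ℂ) (A' m))‖
        ≤ c₀ / 2 * L := by
      refine (norm_sum_le _ _).trans ((sum_le_sum fun m _ => h1 m).trans (le_of_eq ?_))
      rw [sum_const, Nat.card_Ico, add_tsub_cancel_left, nsmul_eq_mul, mul_comm]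
    rw [sum_sub_distrib] at h4
    have h5 := norm_sub_norm_le (∑ m ∈ Ico n (n + L), B m * (starRingEnd ℂ) (B' m))
      (∑ m ∈ Ico n (n + L), A m * (starRingEnd ℂ) (A' m))
    linarith
  have h4 : c₀ / 2 * L ≤ ‖∑ m ∈ Ico n (n + L), A m * (starRingEnd ℂ) (A' m)‖ := by linarith
  have h5 : ∑ m ∈ Ico n (n + L), A m * (starRingEnd ℂ) (A' m)
      = ∑ k ∈ K ×ˢ K, c k.1 * (starRingEnd ℂ) (c' k.2) *
        ∑ m ∈ Ico n (n + L), ee ((m : ℝ) * (ph b X r k.1 - ph b X' r k.2)) := by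
    have h6 : ∀ m : ℕ, A m * (starRingEnd ℂ) (A' m) = ∑ k ∈ K ×ˢ K, c k.1 * (starRingEnd ℂ) (c' k.2) *
        ee ((m : ℝ) * (ph b X r k.1 - ph b X' r k.2)) := by
      intro m
      rw [hAd, hAd']
      simp only [map_sum, map_mul, conj_ee]
      rw [sum_mul_sum, sum_product]
      refine sum_congr rfl fun k _ => sum_congr rfl fun k' _ => ?_
      have : ee ((m : ℝ) * (ph b X r k - ph b X' r k'))
          = ee ((m : ℝ) * ph b X r k) * ee (-((m : ℝ) * ph b X' r k')) := by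
        rw [← ee_add]
        congr 1
        ring
      rw [this]
      ring
    rw [sum_congr rfl fun m _ => h6 m, sum_comm]
    refine sum_congr rfl fun k _ => ?_
    rw [mul_sum]
  have h6 : ∀ k ∈ K ×ˢ K, E * ‖∑ m ∈ Ico n (n + L),
      ee ((m : ℝ) * (ph b X r k.1 - ph b X' r k.2))‖ ≤ L / 2 := by
    intro k hk
    have h7 := geom n L (ph b X r k.1 - ph b X' r k.2)
    have h8 := nd_le_norm_one_sub_ee (ph b X r k.1 - ph b X' r k.2)
    have h9 := hcon k hk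
    set G := ‖∑ m ∈ Ico n (n + L), ee ((m : ℝ) * (ph b X r k.1 - ph b X' r k.2))‖ with hG
    have hG0 : 0 ≤ G := norm_nonneg _
    have h10 : 4 * (E / L) * G ≤ 2 := by
      refine le_trans ?_ h7
      refine mul_le_mul_of_nonneg_right ?_ hG0
      linarith
    have h11 : 4 * (E / L) * G = 4 * (E * G) / L := by ring
    rw [h11, div_le_iff₀ hL0] at h10
    linarith
  have h7 : E * ‖∑ m ∈ Ico n (n + L), A m * (starRingEnd ℂ) (A' m)‖ ≤ (#K : ℝ) ^ 2 * (M ^ 2 * (L / 2)) := by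
    rw [h5]
    calc _ ≤ E * ∑ k ∈ K ×ˢ K, ‖c k.1 * (starRingEnd ℂ) (c' k.2) *
          ∑ m ∈ Ico n (n + L), ee ((m : ℝ) * (ph b X r k.1 - ph b X' r k.2))‖ :=
          mul_le_mul_of_nonneg_left (norm_sum_le _ _) hE0.le
      _ = ∑ k ∈ K ×ˢ K, ‖c k.1‖ * ‖c' k.2‖ * (E *
          ‖∑ m ∈ Ico n (n + L), ee ((m : ℝ) * (ph b X r k.1 - ph b X' r k.2))‖) := by
          rw [mul_sum]
          refine sum_congr rfl fun k _ => ?_
          rw [norm_mul, norm_mul, RCLike.norm_conj]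
          ring
      _ ≤ ∑ k ∈ K ×ˢ K, M ^ 2 * ((L : ℝ) / 2) := by
          refine sum_le_sum fun k hk => ?_
          have g1 : ‖c k.1‖ * ‖c' k.2‖ ≤ M ^ 2 := by
            rw [sq]
            exact mul_le_mul (hc _) (hc' _) (norm_nonneg _) hM
          exact mul_le_mul g1 (h6 k hk) (by positivity) (by positivity)
      _ = _ := by
          rw [sum_const, card_product, nsmul_eq_mul]
          push_cast
          ring
  have h8 : (#K : ℝ) ^ 2 * M ^ 2 = c₀ * (E - 1) / 2 := by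
    rw [hE]
    field_simp
    ring
  have h9 : E * (c₀ / 2 * L) ≤ c₀ * (E - 1) / 2 * (L / 2) := by
    rw [← h8]
    calc E * (c₀ / 2 * L) ≤ E * ‖∑ m ∈ Ico n (n + L), A m * (starRingEnd ℂ) (A' m)‖ :=
          mul_le_mul_of_nonneg_left h4 hE0.le
      _ ≤ _ := h7.trans (le_of_eq (by ring))
  have h10 : 0 < c₀ * L := by positivity
  have h11 : c₀ * (E - 1) / 2 * (L / 2) = (E - 1) / 4 * (c₀ * L) := by ring
  have h12 : E * (c₀ / 2 * L) = E / 2 * (c₀ * L) := by ring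
  rw [h11, h12] at h9
  have h13 := le_of_mul_le_mul_right h9 h10
  linarith

end DERx

open Classical in
/-- **Row DER.** -/
theorem der : DER_stmt := by
  intro hS hT D b f hf c hc hc1
  obtain ⟨c₀, n₀, hc₀, hc₁, hS⟩ := hS c hc hc1
  obtain ⟨K, M, hM, hK⟩ := hT D D (DERx.TT b f) (DERx.TT_cont hf) (fun x u n => DERx.TT_per hf x u n)
    (c₀ / 6) (by positivity)
  obtain ⟨E, hE⟩ : ∃ E : ℝ, E = 2 * (#K : ℝ) ^ 2 * M ^ 2 / c₀ + 1 := ⟨_, rfl⟩
  have hE0 : 0 < E := by rw [hE]; positivity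
  obtain ⟨N, hN⟩ : ∃ N : ℝ, N = (#(K ×ˢ K) : ℝ) := ⟨_, rfl⟩
  have hN0 : 0 ≤ N := by rw [hN]; positivity
  refine ⟨c₀ / (N + 1), E, max n₀ 1, by positivity, ?_, hE0.le, fun l L n hl hlL X X' hX hX' hm => ?_⟩
  · rw [div_le_one (by linarith)]
    linarith
  have hl1 : 1 ≤ l := (le_max_right _ _).trans hl
  have hL : 0 < L := lt_of_lt_of_le (by positivity) hlL
  have hl0 : (0 : ℝ) < l := by exact_mod_cast hl1
  have h1 := hS l L n ((le_max_left _ _).trans hl) hlL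
    (fun m => X.fn f m * (starRingEnd ℂ) (X'.fn f m)) (fun m => by
      rw [norm_mul, RCLike.norm_conj]
      exact mul_le_one₀ (DERx.fn_le hf _ _) (norm_nonneg _) (DERx.fn_le hf _ _)) hm
  set R := (Icc 1 l).filter fun r : ℕ => c₀ * L ≤ ‖∑ m ∈ Ico n (n + L),
    (X.fn f (m + r) * (starRingEnd ℂ) (X'.fn f (m + r))) *
      (starRingEnd ℂ) (X.fn f m * (starRingEnd ℂ) (X'.fn f m))‖ with hR
  by_contra hcon
  push Not at hcon
  set Rk : (Fin D → ℤ) × (Fin D → ℤ) → Finset ℕ := fun k => (Icc 1 l).filter fun r : ℕ =>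
    nd (DERx.ph b X r k.1 - DERx.ph b X' r k.2) ≤ E / L with hRk
  have h2 : R ⊆ (K ×ˢ K).biUnion Rk := by
    intro r hr
    rw [hR, mem_filter] at hr
    obtain ⟨k, hk, hk2⟩ := DERx.one_shift hf hM hc₀ hc₁ hK hX hX' hL hr.2
    rw [← hE] at hk2
    rw [mem_biUnion]
    exact ⟨k, hk, mem_filter.mpr ⟨hr.1, hk2⟩⟩
  have h3 : ∀ k, (#(Rk k) : ℝ) ≤ c₀ / (N + 1) * l := by
    intro k
    have h4 := hcon ((2 * X.C.coeff 2 - bf b X.a X.a) - (2 * X'.C.coeff 2 - bf b X'.a X'.a))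
      (dp k.1 X.a - dp k.2 X'.a)
    refine le_of_lt (lt_of_eq_of_lt ?_ h4)
    congr 2
    rw [hRk]
    refine filter_congr fun r _ => ?_
    have e1 : DERx.ph b X r k.1 - DERx.ph b X' r k.2
        = ((2 * X.C.coeff 2 - bf b X.a X.a) - (2 * X'.C.coeff 2 - bf b X'.a X'.a)) * r
          - om b X.a (fl r X.a) + om b X'.a (fl r X'.a) + (dp k.1 X.a - dp k.2 X'.a) := by
      unfold DERx.ph
      ring
    rw [e1]
  have h4 : (#R : ℝ) ≤ N * (c₀ / (N + 1) * l) := by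
    calc (#R : ℝ) ≤ (#((K ×ˢ K).biUnion Rk) : ℝ) := by exact_mod_cast card_le_card h2
      _ ≤ ∑ k ∈ K ×ˢ K, (#(Rk k) : ℝ) := by exact_mod_cast card_biUnion_le
      _ ≤ ∑ k ∈ K ×ˢ K, c₀ / (N + 1) * (l : ℝ) := sum_le_sum fun k _ => h3 k
      _ = _ := by rw [sum_const, nsmul_eq_mul, ← hN]
  have h5 : c₀ * l ≤ N * (c₀ / (N + 1) * l) := h1.trans h4
  have h6 : N * (c₀ / (N + 1) * l) < c₀ * l := by
    have h7 : N * (c₀ / (N + 1) * l) = (N / (N + 1)) * (c₀ * l) := by ring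
    have h8 : N / (N + 1) < 1 := by
      rw [div_lt_one (by linarith)]
      linarith
    rw [h7]
    have h9 : 0 < c₀ * l := by positivity
    nlinarith
  linarith

end

end Pool.Agent.NV
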