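import Mathlib
import Pool.Agent.Lib.NV.Defs
import Pool.Agent.Lib.VQ.DIL

/-!
# Theorem NV, row DILA: passage to the lower level for bounded functions (helper58)

The proof is that of the row DIL of theorem VQ (file Lib/VQ/DIL.lean, helper82), with the phases
replaced by the functions of a family with values in a type; the lemmas on integrals are cited from
there.
-/

set_option autoImplicit false
open Finset MeasureTheory Polynomial

namespace Pool.Agent.NV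

open Pool.Agent.Lib.MP_663568_nt Pool.Agent.Lib.MP_663568_nt.Katai
  Pool.Agent.Lib.MP_663568_nt.Nul Pool.Agent.SV Pool.Agent.VQ

noncomputable section

namespace DILAx

open Pool.Agent.VQ.Dil (subst ii_div avg)

variable {α : Type}

theorem Wg_nonneg (l m : ℕ) (g : ℕ → ℂ) : 0 ≤ Wg l m g := by unfold Wg; positivity

theorem Wg_le_one (l m : ℕ) {g : ℕ → ℂ} (hg : ∀ m, ‖g m‖ ≤ 1) : Wg l m g ≤ 1 := by
  unfold Wg
  refine div_le_one_of_le₀ ?_ (Nat.cast_nonneg _)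
  refine (norm_sum_le _ _).trans ?_
  have h1 : ∀ h ∈ Icc 1 l, ‖muC (m + h) * g (m + h)‖ ≤ 1 := by
    intro h _
    rw [norm_mul]
    exact mul_le_one₀ (norm_muC _) (norm_nonneg _) (hg _)
  refine (sum_le_sum h1).trans ?_
  simp

/-- the function at the lower level, as a function of the upper variable -/
def FF (ev : α → ℕ → ℂ) (Q : ℕ → α) (l p : ℕ) (t : ℝ) : ℝ :=
  Wg l ⌊t / p⌋₊ (fun m => ev (Q ⌊t⌋₊) (p * m))

theorem FF_nonneg (ev : α → ℕ → ℂ) (Q : ℕ → α) (l p : ℕ) (t : ℝ) : 0 ≤ FF ev Q l p t :=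
  Wg_nonneg _ _ _

theorem FF_le_one {ev : α → ℕ → ℂ} (hev : ∀ x m, ‖ev x m‖ ≤ 1) (Q : ℕ → α) (l p : ℕ) (t : ℝ) :
    FF ev Q l p t ≤ 1 := Wg_le_one _ _ fun _ => hev _ _

theorem FF_meas (ev : α → ℕ → ℂ) (Q : ℕ → α) (l p : ℕ) : Measurable (FF ev Q l p) := by
  let F : ℕ × ℕ → ℝ := fun x => Wg l x.1 (fun m => ev (Q x.2) (p * m))
  have h : Measurable F := measurable_of_countable _
  have h2 : Measurable fun u : ℝ => (⌊u / (p : ℝ)⌋₊, ⌊u⌋₊) :=
    (Nat.measurable_floor.comp (measurable_id.div_const _)).prodMk Nat.measurable_floor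
  change Measurable (F ∘ fun u : ℝ => (⌊u / (p : ℝ)⌋₊, ⌊u⌋₊))
  exact h.comp h2

/-- the means as norms -/
theorem zg_norm (l y : ℕ) (g : ℕ → ℂ) : ‖zg l y g‖ = Wg l y g := by
  unfold zg Wg
  rw [norm_div, Complex.norm_natCast]
  congr 2
  rw [← icc_ioc (fun m => muC m * g m) y l]

/-- the indicator of a change -/
def ch (Q : ℕ → α) (m : ℕ) : ℝ := by
  classical
  exact if Q (m + 1) ≠ Q m then 1 else 0

theorem ch_nonneg (Q : ℕ → α) (m : ℕ) : 0 ≤ ch Q m := by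
  unfold ch
  split_ifs <;> norm_num

theorem block (Q : ℕ → α) {K : ℝ} (hQ : SlowA Q K) (J : ℕ) :
    ∑ m ∈ Ico (2 ^ J) (2 ^ (J + 1)), ch Q m / (m : ℝ) ≤ K / 2 ^ J := by
  classical
  have h1 := hQ J
  have h2 : ∑ m ∈ Ico (2 ^ J) (2 ^ (J + 1)), ch Q m / (m : ℝ) ≤
      ∑ m ∈ Ico (2 ^ J) (2 ^ (J + 1)), ch Q m / 2 ^ J := by
    refine sum_le_sum fun m hm => ?_
    rw [mem_Ico] at hm
    have h3 : ((2 : ℝ) ^ J) ≤ m := by exact_mod_cast hm.1
    exact div_le_div_of_nonneg_left (ch_nonneg Q m) (by positivity) h3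
  refine h2.trans ?_
  rw [← sum_div]
  have h3 : ∑ m ∈ Ico (2 ^ J) (2 ^ (J + 1)), ch Q m ≤ K := by
    refine le_trans (le_of_eq ?_) h1
    rw [card_eq_sum_ones, sum_filter]
    push_cast
    refine sum_congr rfl fun m _ => ?_
    unfold ch
    split_ifs <;> rfl
  exact div_le_div_of_nonneg_right h3 (by positivity)

theorem slow_nonneg {Q : ℕ → α} {K : ℝ} (hQ : SlowA Q K) : 0 ≤ K := by
  classical
  have := hQ 0
  exact (Nat.cast_nonneg _).trans this

theorem changes (Q : ℕ → α) {K : ℝ} (hQ : SlowA Q K) {a : ℕ} (M : ℕ) (ha : 1 ≤ a) :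
    ∑ m ∈ Ioc a M, ch Q m / (m : ℝ) ≤ 4 * K / a := by
  have hK := slow_nonneg hQ
  set j0 := Nat.log 2 a with hj0
  have h1 : 2 ^ j0 ≤ a := Nat.pow_log_le_self 2 (by omega)
  have h2 : a < 2 ^ (j0 + 1) := Nat.lt_pow_succ_log_self (by norm_num) a
  have hD : ∀ J : ℕ, j0 ≤ J → ∑ m ∈ Ico (2 ^ j0) (2 ^ J), ch Q m / (m : ℝ) ≤
      K * (2 / 2 ^ j0 - 2 / 2 ^ J) := by
    intro J hJ
    induction J, hJ using Nat.le_induction with
    | base => simp
    | succ J hJ ih =>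
      have e := Finset.sum_Ico_consecutive (fun m : ℕ => ch Q m / (m : ℝ))
        (Nat.pow_le_pow_right (by norm_num : 0 < 2) hJ)
        (Nat.pow_le_pow_right (by norm_num : 0 < 2) (Nat.le_succ J))
      have e2 := block Q hQ J
      rw [← e]
      have e3 : K * (2 / 2 ^ j0 - 2 / 2 ^ J) + K / 2 ^ J = K * (2 / 2 ^ j0 - 2 / 2 ^ (J + 1)) := by
        rw [pow_succ]
        field_simp
        ring
      rw [← e3]
      exact add_le_add ih e2
  set J := max j0 (Nat.log 2 M + 1) with hJ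
  have h3 : M < 2 ^ J := (Nat.lt_pow_succ_log_self (by norm_num) M).trans_le
    (Nat.pow_le_pow_right (by norm_num) (le_max_right _ _))
  have h4 : ∑ m ∈ Ioc a M, ch Q m / (m : ℝ) ≤ ∑ m ∈ Ico (2 ^ j0) (2 ^ J), ch Q m / (m : ℝ) := by
    refine sum_le_sum_of_subset_of_nonneg ?_ fun m _ _ =>
      div_nonneg (ch_nonneg Q m) (Nat.cast_nonneg _)
    intro m hm
    rw [mem_Ioc] at hm
    rw [mem_Ico]
    exact ⟨h1.trans hm.1.le, hm.2.trans_lt h3⟩
  refine h4.trans ((hD J (le_max_left _ _)).trans ?_)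
  have ha0 : (0 : ℝ) < a := by exact_mod_cast (by omega : 0 < a)
  have h5 : (a : ℝ) < 2 * 2 ^ j0 := by
    have : (a : ℝ) < 2 ^ (j0 + 1) := by exact_mod_cast h2
    rw [pow_succ] at this
    linarith
  have h6 : K * (2 / 2 ^ j0 - 2 / 2 ^ J) ≤ K * (2 / 2 ^ j0) := by
    refine mul_le_mul_of_nonneg_left ?_ hK
    have : (0 : ℝ) ≤ 2 / 2 ^ J := by positivity
    linarith
  refine h6.trans ?_
  rw [mul_div_assoc', div_le_div_iff₀ (by positivity) ha0]
  nlinarith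

/-- the weight of the windows with a change -/
theorem bad (Q : ℕ → α) {K : ℝ} (hQ : SlowA Q K) {a H : ℕ} (b : ℕ) (ha : 1 ≤ a) (hH : H ≤ a) :
    ∑ n ∈ Ioc a b, (1 / (n : ℝ)) * ∑ i ∈ range H, ch Q (n + i) ≤ 8 * H * K / a := by
  have h1 : ∀ n ∈ Ioc a b, (1 / (n : ℝ)) * ∑ i ∈ range H, ch Q (n + i) ≤
      ∑ i ∈ range H, 2 * (ch Q (n + i) / ((n + i : ℕ) : ℝ)) := by
    intro n hn
    rw [mem_Ioc] at hn
    rw [mul_sum]
    refine sum_le_sum fun i hi => ?_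
    rw [mem_range] at hi
    have hn0 : (0 : ℝ) < n := by exact_mod_cast (by omega : 0 < n)
    have h2 : ((n + i : ℕ) : ℝ) ≤ 2 * n := by
      have : n + i ≤ 2 * n := by omega
      exact_mod_cast this
    have h3 : (0 : ℝ) < ((n + i : ℕ) : ℝ) := by exact_mod_cast (by omega : 0 < n + i)
    have h4 := ch_nonneg Q (n + i)
    rw [mul_div_assoc', one_div, inv_mul_eq_div, div_le_div_iff₀ hn0 h3]
    nlinarith
  have h2 : ∀ i ∈ range H, ∑ n ∈ Ioc a b, 2 * (ch Q (n + i) / ((n + i : ℕ) : ℝ)) ≤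
      2 * (4 * K / a) := by
    intro i _
    rw [← mul_sum]
    refine mul_le_mul_of_nonneg_left ?_ (by norm_num)
    refine le_trans ?_ (changes Q hQ (b + i) ha)
    have e1 : ∑ n ∈ Ioc a b, ch Q (n + i) / ((n + i : ℕ) : ℝ) =
        ∑ m ∈ Ioc (a + i) (b + i), ch Q m / (m : ℝ) := by
      have e2 : ∀ c d : ℕ, Ioc c d = Ico (c + 1) (d + 1) := by
        intro c d
        ext m
        simp only [mem_Ioc, mem_Ico]
        omega
      rw [e2, e2, show a + i + 1 = a + 1 + i by ring, show b + i + 1 = b + 1 + i by ring,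
        ← sum_Ico_add' (fun m => ch Q m / (m : ℝ)) (a + 1) (b + 1) i]
    rw [e1]
    refine sum_le_sum_of_subset_of_nonneg ?_ fun m _ _ =>
      div_nonneg (ch_nonneg Q m) (Nat.cast_nonneg _)
    intro m hm
    rw [mem_Ioc] at hm ⊢
    omega
  refine (sum_le_sum h1).trans ?_
  rw [sum_comm]
  refine (sum_le_sum h2).trans (le_of_eq ?_)
  rw [sum_const, card_range, nsmul_eq_mul]
  ring

/-- a window without change -/
theorem const_win {Q : ℕ → α} {n H : ℕ} (h : ∀ i < H, Q (n + i + 1) = Q (n + i)) :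
    ∀ i ≤ H, Q (n + i) = Q n := by
  intro i
  induction i with
  | zero => intro _; rfl
  | succ i ih =>
    intro hi
    rw [← add_assoc, h i (by omega), ih (by omega)]

/-- the pointwise inequality -/
theorem point {ε : ℝ} (hε : 0 ≤ ε) (PP : Finset ℕ) (hwt : ∀ p ∈ PP, 0 ≤ wt PP p) {H l : ℕ}
    (hH : 1 ≤ H) {ev : α → ℕ → ℂ} (hev : ∀ x m, ‖ev x m‖ ≤ 1) (Q : ℕ → α) (n : ℕ)
    (htk : ∀ g : ℕ → ℂ, (∀ m, ‖g m‖ ≤ 1) → ‖zg H n g + ∑ p ∈ PP, (wt PP p : ℂ) *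
      (((1 / H : ℝ) : ℂ) * ∫ t in (n : ℝ)..(n + H), zg l ⌊t / p⌋₊ (fun m => g (p * m)))‖ ≤ ε) :
    Wg H n (ev (Q n)) ≤ ε + ∑ p ∈ PP, wt PP p * (1 / H * ∫ t in (n : ℝ)..(n + H), FF ev Q l p t) +
      ∑ i ∈ range H, ch Q (n + i) := by
  have hH0 : (0 : ℝ) < H := by exact_mod_cast hH
  have hI0 : ∀ p : ℕ, 0 ≤ ∫ t in (n : ℝ)..(n + H), FF ev Q l p t := fun p =>
    intervalIntegral.integral_nonneg (by linarith) fun t _ => FF_nonneg ev Q l p t
  have hS0 : 0 ≤ ∑ p ∈ PP, wt PP p * (1 / H * ∫ t in (n : ℝ)..(n + H), FF ev Q l p t) :=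
    sum_nonneg fun p hp => mul_nonneg (hwt p hp) (mul_nonneg (by positivity) (hI0 p))
  have hC0 : 0 ≤ ∑ i ∈ range H, ch Q (n + i) := sum_nonneg fun i _ => ch_nonneg Q _
  by_cases hg : ∀ i < H, Q (n + i + 1) = Q (n + i)
  · have hcst := const_win hg
    have h1 := htk (ev (Q n)) (hev (Q n))
    have h2 := norm_sub_le (zg H n (ev (Q n)) + ∑ p ∈ PP, (wt PP p : ℂ) *
      (((1 / H : ℝ) : ℂ) * ∫ t in (n : ℝ)..(n + H),
        zg l ⌊t / p⌋₊ (fun m => ev (Q n) (p * m))))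
      (∑ p ∈ PP, (wt PP p : ℂ) * (((1 / H : ℝ) : ℂ) * ∫ t in (n : ℝ)..(n + H),
        zg l ⌊t / p⌋₊ (fun m => ev (Q n) (p * m))))
    rw [add_sub_cancel_right, zg_norm] at h2
    have h3 : ‖∑ p ∈ PP, (wt PP p : ℂ) * (((1 / H : ℝ) : ℂ) * ∫ t in (n : ℝ)..(n + H),
        zg l ⌊t / p⌋₊ (fun m => ev (Q n) (p * m)))‖ ≤
        ∑ p ∈ PP, wt PP p * (1 / H * ∫ t in (n : ℝ)..(n + H), FF ev Q l p t) := by
      refine (norm_sum_le _ _).trans (sum_le_sum fun p hp => ?_)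
      rw [norm_mul, norm_mul, Complex.norm_real, Complex.norm_real, Real.norm_of_nonneg (hwt p hp),
        Real.norm_of_nonneg (by positivity)]
      refine mul_le_mul_of_nonneg_left (mul_le_mul_of_nonneg_left ?_ (by positivity)) (hwt p hp)
      refine (intervalIntegral.norm_integral_le_integral_norm (by linarith)).trans (le_of_eq ?_)
      refine intervalIntegral.integral_congr fun t ht => ?_
      rw [Set.uIcc_of_le (by linarith)] at ht
      have ht0 : 0 ≤ t := (Nat.cast_nonneg n).trans ht.1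
      have hfl1 : n ≤ ⌊t⌋₊ := Nat.le_floor ht.1
      have hfl2 : ⌊t⌋₊ ≤ n + H := by
        have h5 : (⌊t⌋₊ : ℝ) ≤ ((n + H : ℕ) : ℝ) := by
          push_cast
          exact (Nat.floor_le ht0).trans ht.2
        exact_mod_cast h5
      have hq : Q ⌊t⌋₊ = Q n := by
        have := hcst (⌊t⌋₊ - n) (by omega)
        rwa [Nat.add_sub_cancel' hfl1] at this
      simp only [FF]
      rw [hq, ← zg_norm]
    linarith
  · push Not at hg
    obtain ⟨i, hi, hne⟩ := hg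
    have h1 : 1 ≤ ∑ i ∈ range H, ch Q (n + i) := by
      have h2 : ch Q (n + i) = 1 := by
        unfold ch
        rw [if_pos hne]
      rw [← h2]
      exact single_le_sum (f := fun i => ch Q (n + i)) (fun j _ => ch_nonneg Q _) (mem_range.2 hi)
    have := Wg_le_one H n (hev (Q n))
    linarith

end DILAx

open DILAx
open Pool.Agent.VQ.Dil (subst ii_div avg)

/-- Row DILA. -/
theorem dila : DILA_stmt := by
  classical
  intro hTK A ε κ₂ hA hε hε1 hκ hκ4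
  obtain ⟨K, η, hK, hη0, hη1, htk⟩ := hTK (ε / 8) (by linarith)
  obtain ⟨κ₁, hκ₁, hle, X₁, hX₁⟩ := RB.mertens (max 1 K) κ₂ hκ hκ4 (le_max_left _ _)
  refine ⟨κ₁, η, A + 3, hκ₁, hle, hη0, hη1, by linarith, ?_⟩
  have hevt : ∀ᶠ H : ℕ in Filter.atTop, K ≤ (H : ℝ) ^ κ₁ ∧ K ≤ (H : ℝ) ^ (1 / 2 : ℝ) ∧
      1 / η ≤ (H : ℝ) ^ (3 / 4 : ℝ) ∧ 76 / ε ≤ (H : ℝ) ∧ (3 : ℝ) ≤ H := by
    have h1 := (tendsto_rpow_atTop hκ₁).comp (tendsto_natCast_atTop_atTop (R := ℝ))
    have h2 := (tendsto_rpow_atTop (show (0 : ℝ) < 3 / 4 by norm_num)).comp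
      (tendsto_natCast_atTop_atTop (R := ℝ))
    have h3 := (tendsto_rpow_atTop (show (0 : ℝ) < 1 / 2 by norm_num)).comp
      (tendsto_natCast_atTop_atTop (R := ℝ))
    have h4 := tendsto_natCast_atTop_atTop (R := ℝ)
    exact (h1.eventually_ge_atTop K).and ((h3.eventually_ge_atTop _).and
      ((h2.eventually_ge_atTop _).and ((h4.eventually_ge_atTop _).and (h4.eventually_ge_atTop 3))))
  obtain ⟨H₀, hH₀⟩ := Filter.eventually_atTop.1 (hevt.and (Filter.eventually_ge_atTop X₁))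
  refine ⟨H₀, fun H hH => ?_⟩
  obtain ⟨⟨hA1, hB1, hC1, hD1, hE1⟩, hHX⟩ := hH₀ H hH
  have hL := hX₁ H hHX
  set PP := PPs H κ₁ κ₂ with hPP
  have hL1 : 1 ≤ Ls PP := (le_max_left _ _).trans hL
  have hLK : K ≤ Ls PP := (le_max_right _ _).trans hL
  refine ⟨hL1, fun α ev hev xa xb hxa hxab Q hQ hmass => ?_⟩
  have hH0 : (0 : ℝ) < H := by linarith
  have hH1 : (1 : ℝ) ≤ H := by linarith
  have hHn : 1 ≤ H := by exact_mod_cast hH1
  set Z : ℝ := (H : ℝ) ^ κ₂ with hZ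
  set l : ℕ := ⌊η * (H : ℝ) ^ (1 - κ₂)⌋₊ with hl
  have hpr : ∀ p ∈ PP, p.Prime ∧ K ≤ p ∧ (p : ℝ) ≤ Z := by
    intro p hp
    rw [hPP, PPs, mem_filter, mem_Icc] at hp
    exact ⟨hp.2.1, hA1.trans hp.2.2, (Nat.cast_le.2 hp.1.2).trans (Nat.floor_le (by positivity))⟩
  have hKZ : K * Z ^ 2 ≤ H := by
    have h1 : Z ^ 2 ≤ (H : ℝ) ^ (1 / 2 : ℝ) := by
      rw [hZ, ← Real.rpow_natCast, ← Real.rpow_mul hH0.le]
      refine Real.rpow_le_rpow_of_exponent_le hH1 ?_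
      push_cast
      linarith
    calc K * Z ^ 2 ≤ (H : ℝ) ^ (1 / 2 : ℝ) * (H : ℝ) ^ (1 / 2 : ℝ) :=
          mul_le_mul hB1 h1 (by positivity) (by positivity)
      _ = H := by rw [← Real.rpow_add hH0]; norm_num
  have hHk : (H : ℝ) ^ (3 / 4 : ℝ) ≤ (H : ℝ) ^ (1 - κ₂) :=
    Real.rpow_le_rpow_of_exponent_le hH1 (by linarith)
  have hl1 : 1 ≤ l := by
    rw [hl, Nat.one_le_floor_iff]
    rw [div_le_iff₀ hη0] at hC1
    calc (1 : ℝ) ≤ (H : ℝ) ^ (3 / 4 : ℝ) * η := hC1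
      _ ≤ (H : ℝ) ^ (1 - κ₂) * η := mul_le_mul_of_nonneg_right hHk hη0.le
      _ = _ := mul_comm _ _
  have hlZ : l * Z ≤ η * H := by
    have h1 : (l : ℝ) ≤ η * (H : ℝ) ^ (1 - κ₂) := Nat.floor_le (by positivity)
    calc l * Z ≤ η * (H : ℝ) ^ (1 - κ₂) * Z := mul_le_mul_of_nonneg_right h1 (by positivity)
      _ = η * ((H : ℝ) ^ (1 - κ₂) * (H : ℝ) ^ κ₂) := by rw [hZ]; ring
      _ = η * H := by rw [← Real.rpow_add hH0]; norm_num
  have htk2 := fun n g hg => htk PP Z hpr hLK H l hKZ hl1 hlZ n g hg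
  have hwt : ∀ p ∈ PP, 0 ≤ wt PP p := fun p _ => wt_nonneg_b hL1 p
  have hwt1 : ∑ p ∈ PP, wt PP p = 1 := sum_wt_b hL1
  -- the window
  have hHA : (H : ℝ) ^ 3 ≤ (H : ℝ) ^ (A + 3) := by
    rw [← Real.rpow_natCast]
    exact Real.rpow_le_rpow_of_exponent_le hH1 (by push_cast; linarith)
  have hxa3 : (H : ℝ) ^ 3 ≤ xa := hHA.trans hxa
  have hH2 : (H : ℝ) ≤ H ^ 3 := by
    calc (H : ℝ) = H ^ 1 := (pow_one _).symm
      _ ≤ H ^ 3 := pow_le_pow_right₀ hH1 (by norm_num)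
  have hxaH : (H : ℝ) ≤ xa := hH2.trans hxa3
  have hxa1 : 1 ≤ xa := hH1.trans hxaH
  have hxa0 : 0 < xa := by linarith
  have hab : xa ≤ xb := by nlinarith
  have hxb0 : 0 < xb := by linarith
  set Λ := Real.log xb - Real.log xa with hΛ
  have hΛ1 : 1 ≤ Λ := by
    have h1 := Real.log_le_log (by positivity) hxab
    rw [Real.log_mul hxa0.ne' hH0.ne'] at h1
    have h2 : (1 : ℝ) ≤ Real.log H := by
      rw [Real.le_log_iff_exp_le hH0]
      have := Real.exp_one_lt_d9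
      linarith
    linarith
  set a := ⌊xa⌋₊ with ha
  set b := ⌊xb⌋₊ with hb
  have hHa : H ≤ a := Nat.le_floor hxaH
  have ha1 : 1 ≤ a := hHn.trans hHa
  have hab' : a ≤ b := Nat.floor_mono hab
  have ha0 : (0 : ℝ) < a := by exact_mod_cast (by omega : 0 < a)
  have ha2 : xa ≤ 2 * a := by
    have h1 : xa < a + 1 := Nat.lt_floor_add_one xa
    have h2 : (1 : ℝ) ≤ a := by exact_mod_cast ha1
    linarith
  have hb0 : (b : ℝ) ≤ xb := Nat.floor_le hxb0.le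
  -- the integrals
  set I : ℕ → ℝ := fun p => ∫ t in xa..xb, FF ev Q l p t / t with hI
  have hIeq : ∀ p ∈ PP, I p = ∫ v in (Real.log xa - Real.log p)..(Real.log xb - Real.log p),
      Wg l ⌊Real.exp v⌋₊ (lo ev Q p v) := by
    intro p hp
    have hp0 : (0 : ℝ) < p := by exact_mod_cast (hpr p hp).1.pos
    simp only [hI]
    rw [subst (FF ev Q l p) hp0 hxa0 hab]
    refine intervalIntegral.integral_congr fun v _ => ?_
    simp only [FF]
    rw [mul_div_cancel_left₀ _ hp0.ne']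
    rfl
  have hIle : ∀ p ∈ PP, I p ≤ Λ := by
    intro p hp
    simp only [hI]
    have h1 : ∫ t in xa..xb, FF ev Q l p t / t ≤ ∫ t in xa..xb, 1 / t := by
      refine intervalIntegral.integral_mono_on hab
        (ii_div (FF_meas ev Q l p) (FF_nonneg ev Q l p) (FF_le_one hev Q l p) hxa0 hab) ?_ fun t ht => ?_
      · exact ii_div measurable_const (fun _ => zero_le_one) (fun _ => le_rfl) hxa0 hab
      · exact div_le_div_of_nonneg_right (FF_le_one hev Q l p t) (hxa0.le.trans ht.1)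
    rw [integral_one_div_of_pos hxa0 hxb0, Real.log_div hxb0.ne' hxa0.ne'] at h1
    exact h1
  have hI0 : ∀ p ∈ PP, 0 ≤ I p := fun p _ =>
    intervalIntegral.integral_nonneg hab fun t ht => div_nonneg (FF_nonneg ev Q l p t) (hxa0.le.trans ht.1)
  set T := ∑ p ∈ PP, wt PP p * I p with hT
  have hTgoal : T = ∑ p ∈ PP, wt PP p *
      ∫ v in (Real.log xa - Real.log p)..(Real.log xb - Real.log p),
        Wg l ⌊Real.exp v⌋₊ (lo ev Q p v) := sum_congr rfl fun p hp => by rw [hIeq p hp]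
  have hTΛ : T ≤ Λ := by
    calc T ≤ ∑ p ∈ PP, wt PP p * Λ := sum_le_sum fun p hp =>
          mul_le_mul_of_nonneg_left (hIle p hp) (hwt p hp)
      _ = Λ := by rw [← sum_mul, hwt1, one_mul]
  have hT0 : 0 ≤ T := sum_nonneg fun p hp => mul_nonneg (hwt p hp) (hI0 p hp)
  rw [← hTgoal]
  -- the sum
  have hS : ∑ n ∈ Ioc a b, (1 / (n : ℝ)) * Wg H n (ev (Q n)) ≤
      ε / 8 * ∑ n ∈ Ioc a b, (1 / (n : ℝ)) + (1 + H / xa) * (T + H / xa) +
        8 * H * (H : ℝ) ^ A / a := by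
    have h1 : ∀ n ∈ Ioc a b, (1 / (n : ℝ)) * Wg H n (ev (Q n)) ≤ ε / 8 * (1 / (n : ℝ)) +
        ∑ p ∈ PP, wt PP p * ((1 / (n : ℝ)) * (1 / H * ∫ t in (n : ℝ)..(n + H), FF ev Q l p t)) +
        (1 / (n : ℝ)) * ∑ i ∈ range H, ch Q (n + i) := by
      intro n _
      have h2 := point (by linarith : 0 ≤ ε / 8) PP hwt hHn hev Q n (htk2 n)
      refine (mul_le_mul_of_nonneg_left h2 (by positivity)).trans (le_of_eq ?_)
      rw [mul_add, mul_add, mul_sum]
      congr 1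
      congr 1
      · ring
      · exact sum_congr rfl fun p _ => by ring
    refine (sum_le_sum h1).trans ?_
    rw [sum_add_distrib, sum_add_distrib, ← mul_sum]
    have h2 := bad Q hQ b ha1 hHa
    have h3 : ∑ n ∈ Ioc a b, ∑ p ∈ PP,
        wt PP p * ((1 / (n : ℝ)) * (1 / H * ∫ t in (n : ℝ)..(n + H), FF ev Q l p t)) ≤
        (1 + H / xa) * (T + H / xa) := by
      rw [sum_comm]
      have h4 : ∀ p ∈ PP, ∑ n ∈ Ioc a b,
          wt PP p * ((1 / (n : ℝ)) * (1 / H * ∫ t in (n : ℝ)..(n + H), FF ev Q l p t)) ≤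
          wt PP p * ((1 + H / xa) * (I p + H / xa)) := by
        intro p hp
        rw [← mul_sum]
        exact mul_le_mul_of_nonneg_left (avg (FF_meas ev Q l p) (FF_nonneg ev Q l p) (FF_le_one hev Q l p) hHn
          hxa1 hab) (hwt p hp)
      refine (sum_le_sum h4).trans (le_of_eq ?_)
      have h5 : ∀ p : ℕ, wt PP p * ((1 + H / xa) * (I p + H / xa)) =
          (1 + H / xa) * (wt PP p * I p) + (1 + H / xa) * (H / xa) * wt PP p := fun p => by ring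
      simp only [h5]
      rw [sum_add_distrib, ← mul_sum, ← mul_sum, hwt1]
      ring
    linarith
  have hharm : ∑ n ∈ Ioc a b, (1 / (n : ℝ)) ≤ 2 * Λ := by
    have h1 := RWr.sum_inv_le ha1 hab'
    have h2 : Real.log b ≤ Real.log xb := Real.log_le_log (ha0.trans_le (by exact_mod_cast hab')) hb0
    have h3 : Real.log xa ≤ Real.log a + Real.log 2 := by
      rw [← Real.log_mul ha0.ne' (by norm_num)]
      exact Real.log_le_log hxa0 (by linarith)
    have h4 := Real.log_two_lt_d9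
    linarith
  have hHxa : (H : ℝ) / xa ≤ 1 / H := by
    rw [div_le_div_iff₀ hxa0 hH0]
    have : (H : ℝ) * H ≤ H ^ 3 := by
      have h2 : (H : ℝ) ^ 3 = H * H * H := by ring
      rw [h2]
      exact le_mul_of_one_le_right (by positivity) hH1
    linarith
  have hHxa0 : 0 ≤ (H : ℝ) / xa := by positivity
  have hbad : 8 * H * (H : ℝ) ^ A / a ≤ 16 / H := by
    rw [div_le_div_iff₀ ha0 hH0]
    have h1 : (H : ℝ) ^ (A + 3) = (H : ℝ) ^ A * H ^ 3 := by
      rw [Real.rpow_add hH0]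
      norm_cast
    rw [h1] at hxa
    have h2 : 0 < (H : ℝ) ^ A := by positivity
    have h3 : (H : ℝ) * H ≤ H ^ 3 := by
      have h6 : (H : ℝ) ^ 3 = H * H * H := by ring
      rw [h6]
      exact le_mul_of_one_le_right (by positivity) hH1
    have h4 : (H : ℝ) ^ A * (H * H) ≤ xa := (mul_le_mul_of_nonneg_left h3 h2.le).trans hxa
    have h5 : 8 * H * (H : ℝ) ^ A * H = 8 * ((H : ℝ) ^ A * (H * H)) := by ring
    rw [h5]
    linarith
  have hinv : 1 / (H : ℝ) ≤ ε / 76 := by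
    rw [div_le_iff₀ hε] at hD1
    rw [div_le_div_iff₀ hH0 (by norm_num)]
    linarith
  have hinv0 : 0 < 1 / (H : ℝ) := by positivity
  have hinv1 : 1 / (H : ℝ) ≤ 1 := by
    rw [div_le_one hH0]
    exact hH1
  have hmid : (1 + H / xa) * (T + H / xa) ≤ T + 3 * (1 / H) * Λ := by
    have h1 : (1 + H / xa) * (T + H / xa) ≤ (1 + 1 / H) * (T + 1 / H) :=
      mul_le_mul (by linarith) (by linarith) (by positivity) (by positivity)
    refine h1.trans ?_
    have h2 : (1 + 1 / (H : ℝ)) * (T + 1 / H) = T + (1 / H) * T + (1 / H) + (1 / H) * (1 / H) := by ring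
    rw [h2]
    have h3 : (1 / (H : ℝ)) * T ≤ (1 / H) * Λ := mul_le_mul_of_nonneg_left hTΛ hinv0.le
    have h4 : (1 / (H : ℝ)) ≤ (1 / H) * Λ := le_mul_of_one_le_right hinv0.le hΛ1
    have h5 : (1 / (H : ℝ)) * (1 / H) ≤ 1 / H := mul_le_of_le_one_right hinv0.le hinv1
    linarith
  have h16 : 16 / (H : ℝ) ≤ 16 * (1 / H) * Λ := by
    have h4 : (1 / (H : ℝ)) ≤ (1 / H) * Λ := le_mul_of_one_le_right hinv0.le hΛ1
    have : 16 / (H : ℝ) = 16 * (1 / H) := by ring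
    rw [this]
    linarith
  have hfin : ε * Λ ≤ ε / 8 * (2 * Λ) + (T + 3 * (1 / H) * Λ) + 16 * (1 / H) * Λ := by
    have h1 : ε / 8 * ∑ n ∈ Ioc a b, (1 / (n : ℝ)) ≤ ε / 8 * (2 * Λ) :=
      mul_le_mul_of_nonneg_left hharm (by linarith)
    linarith
  have h19 : (1 / (H : ℝ)) * Λ ≤ ε / 76 * Λ := mul_le_mul_of_nonneg_right hinv (by linarith)
  linarith

end

end Pool.Agent.NV
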