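import Pool.Agent.Lib.NV.RES

/-!
# Theorem NV (MP_663568_nt): row FRZ (helper68)
-/

set_option autoImplicit false
open Finset MeasureTheory Polynomial

namespace Pool.Agent.NV

open Pool.Agent.Lib.MP_663568_nt Pool.Agent.Lib.MP_663568_nt.Katai
  Pool.Agent.Lib.MP_663568_nt.Nul Pool.Agent.SV Pool.Agent.VQ

noncomputable section

namespace FRZx

open RESx

lemma jumps {c : ℕ → ℕ} (hc : Monotone c) (a : ℕ) : ∀ k : ℕ,
    #((Ico a (a + k)).filter fun n => c (n + 1) ≠ c n) + c a ≤ c (a + k) := by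
  intro k
  induction k with
  | zero => simp
  | succ k ih =>
    have h1 : Ico a (a + (k + 1)) = insert (a + k) (Ico a (a + k)) := by
      ext n
      simp only [mem_Ico, mem_insert]
      omega
    rw [h1, Finset.filter_insert]
    have h2 : c (a + k) ≤ c (a + (k + 1)) := hc (by omega)
    split_ifs with h
    · have h3 := Finset.card_insert_le (a + k) ((Ico a (a + k)).filter fun n => c (n + 1) ≠ c n)
      have h4 : c (a + k) ≠ c (a + (k + 1)) := fun h' => h h'.symm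
      omega
    · omega

lemma slow_of {α β : Type} {Q : ℕ → α} {Q' : ℕ → β} {c : ℕ → ℕ} {K R : ℝ} (hQ : SlowA Q K)
    (h : ∀ n, Q (n + 1) = Q n → c (n + 1) = c n → Q' (n + 1) = Q' n)
    (hc : ∀ j : ℕ, (#((Ico (2 ^ j) (2 ^ (j + 1))).filter fun n => c (n + 1) ≠ c n) : ℝ) ≤ R) :
    SlowA Q' (K + R) := by
  intro j
  classical
  have h1 := hQ j
  refine le_trans ?_ (add_le_add h1 (hc j))
  norm_cast
  refine (Finset.card_le_card ?_).trans (Finset.card_union_le _ _)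
  intro n hn
  rw [mem_filter] at hn
  rw [mem_union, mem_filter, mem_filter]
  by_cases h2 : Q (n + 1) = Q n
  · refine Or.inr ⟨hn.1, fun h3 => hn.2 (h n h2 h3)⟩
  · exact Or.inl ⟨hn.1, h2⟩

/-- the cell of `m` -/
def ce (K m : ℕ) : ℕ := ⌊(K : ℝ) * Real.log m⌋₊

lemma ce_mono (K : ℕ) : Monotone (ce K) := by
  intro a b hab
  unfold ce
  rcases Nat.eq_zero_or_pos a with h | h
  · rw [h]
    simp
  · refine Nat.floor_le_floor ?_
    have h1 : (0 : ℝ) < a := by exact_mod_cast h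
    have h2 : (a : ℝ) ≤ b := by exact_mod_cast hab
    have h3 := Real.log_le_log h1 h2
    gcongr

lemma ce_jumps (K j : ℕ) :
    (#((Ico (2 ^ j) (2 ^ (j + 1))).filter fun n => ce K (n + 1) ≠ ce K n) : ℝ) ≤ K + 1 := by
  have h1 := jumps (ce_mono K) (2 ^ j) (2 ^ j)
  have h2 : 2 ^ j + 2 ^ j = 2 ^ (j + 1) := by rw [pow_succ]; ring
  rw [h2] at h1
  have h3 : ((#((Ico (2 ^ j) (2 ^ (j + 1))).filter fun n => ce K (n + 1) ≠ ce K n) : ℕ) : ℝ)
      + (ce K (2 ^ j) : ℕ) ≤ (ce K (2 ^ (j + 1)) : ℕ) := by exact_mod_cast h1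
  have hl : 0 ≤ Real.log 2 := Real.log_nonneg (by norm_num)
  have h4 : ((ce K (2 ^ (j + 1)) : ℕ) : ℝ) ≤ K * ((j + 1) * Real.log 2) := by
    have h5 : (K : ℝ) * Real.log ((2 ^ (j + 1) : ℕ) : ℝ) = K * ((j + 1) * Real.log 2) := by
      push_cast
      rw [Real.log_pow]
      push_cast
      ring
    unfold ce
    rw [h5]
    exact Nat.floor_le (by positivity)
  have h6 : (K : ℝ) * (j * Real.log 2) < (ce K (2 ^ j) : ℕ) + 1 := by
    have h5 : (K : ℝ) * Real.log ((2 ^ j : ℕ) : ℝ) = K * (j * Real.log 2) := by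
      push_cast
      rw [Real.log_pow]
    unfold ce
    rw [h5]
    exact Nat.lt_floor_add_one _
  have h7 : (K : ℝ) * Real.log 2 ≤ K * 1 := by
    have := Real.log_two_lt_d9
    gcongr
    linarith
  linarith only [h3, h4, h6, h7]

/-- the square of the norm -/
def nsq {D : ℕ} (κ : Fin D → ℤ) : ℝ := ∑ i, (κ i : ℝ) ^ 2

lemma le_sq {D : ℕ} (κ : Fin D → ℤ) (i : Fin D) : |(κ i : ℝ)| ≤ nsq κ := by
  have h1 : |(κ i : ℝ)| ≤ (κ i : ℝ) ^ 2 := by
    rcases eq_or_ne (κ i) 0 with h | h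
    · rw [h]; simp
    · have h2 : (1 : ℝ) ≤ |(κ i : ℝ)| := by
        have h3 : (1 : ℤ) ≤ |κ i| := Int.one_le_abs h
        exact_mod_cast h3
      calc |(κ i : ℝ)| = |(κ i : ℝ)| * 1 := (mul_one _).symm
        _ ≤ |(κ i : ℝ)| * |(κ i : ℝ)| := by gcongr
        _ = (κ i : ℝ) ^ 2 := by rw [← pow_two, sq_abs]
  refine h1.trans ?_
  exact Finset.single_le_sum (f := fun k => (κ k : ℝ) ^ 2) (fun k _ => sq_nonneg _)
    (Finset.mem_univ i)

lemma sq_pos' {D : ℕ} {κ : Fin D → ℤ} (hκ : κ ≠ 0) : 0 < nsq κ := by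
  obtain ⟨i, hi⟩ : ∃ i, κ i ≠ 0 := by
    by_contra h
    push Not at h
    exact hκ (funext h)
  refine lt_of_lt_of_le ?_ (le_sq κ i)
  exact abs_pos.2 (by exact_mod_cast hi)

/-- the distance to the relation, divided by the square of the norm -/
def sl {D : ℕ} (κ : Fin D → ℤ) (Q₀ : ℕ) (X : Dat D) : ℝ :=
  (dp κ X.a - round ((Q₀ : ℝ) * dp κ X.a) / Q₀) / nsq κ

/-- the new data -/
def fz {D : ℕ} (b : Fin D → Fin D → ℤ) (κ : Fin D → ℤ) (Q₀ : ℕ) (ms : ℝ) (X : Dat D) : Dat D :=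
  ⟨X.a - sl κ Q₀ X • ic κ, X.y + (sl κ Q₀ X * ms) • ic κ, X.C +
    (C (-(sl κ Q₀ X * bf b (ic κ) (X.a - sl κ Q₀ X • ic κ))) * Polynomial.X ^ 2
      + C (-(sl κ Q₀ X * bf b (ic κ) (X.y + (sl κ Q₀ X * ms) • ic κ))
        + sl κ Q₀ X * ms * bf b (ic κ) (X.a - sl κ Q₀ X • ic κ)) * Polynomial.X
      + C (sl κ Q₀ X * ms * bf b (ic κ) (X.y + (sl κ Q₀ X * ms) • ic κ)))⟩

lemma fz_dg {D : ℕ} (b : Fin D → Fin D → ℤ) (κ : Fin D → ℤ) (Q₀ : ℕ) (ms : ℝ) {X : Dat D}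
    (hX : X.Dg) : (fz b κ Q₀ ms X).Dg := by
  unfold Dat.Dg fz
  exact Polynomial.natDegree_add_le_of_degree_le hX natDegree_quadratic_le

lemma dp_ic {D : ℕ} (κ : Fin D → ℤ) : dp κ (ic κ) = nsq κ := by
  unfold dp ic nsq
  exact Finset.sum_congr rfl fun i _ => (pow_two _).symm

lemma fz_dp {D : ℕ} (b : Fin D → Fin D → ℤ) {κ : Fin D → ℤ} (hκ : κ ≠ 0) (Q₀ : ℕ) (ms : ℝ)
    (X : Dat D) : dp κ (fz b κ Q₀ ms X).a = round ((Q₀ : ℝ) * dp κ X.a) / Q₀ := by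
  have h0 := (sq_pos' hκ).ne'
  have h1 : dp κ (X.a - sl κ Q₀ X • ic κ) = dp κ X.a - sl κ Q₀ X * dp κ (ic κ) := by
    unfold dp
    rw [Finset.mul_sum, ← Finset.sum_sub_distrib]
    refine Finset.sum_congr rfl fun i _ => ?_
    simp only [Pi.sub_apply, Pi.smul_apply, smul_eq_mul]
    ring
  have h2 : (fz b κ Q₀ ms X).a = X.a - sl κ Q₀ X • ic κ := rfl
  rw [h2, h1, dp_ic]
  unfold sl
  field_simp
  ring

lemma fz_fn {D : ℕ} {b : Fin D → Fin D → ℤ} {f : (Fin D → ℝ) → ℂ} {ε δ : ℝ}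
    (hTW : ∀ x d : Fin D → ℝ, (∀ i, |d i| ≤ δ) → ‖f (x + d) - ee (-bf b d x) * f x‖ ≤ ε)
    (κ : Fin D → ℤ) (Q₀ : ℕ) (ms : ℝ) (X : Dat D) (m : ℕ)
    (hd : ∀ i, |sl κ Q₀ X * ((m : ℝ) - ms) * κ i| ≤ δ) :
    ‖X.fn f m - (fz b κ Q₀ ms X).fn f m‖ ≤ ε := by
  set s : ℝ := sl κ Q₀ X with hs
  set a' : Fin D → ℝ := X.a - s • ic κ with ha'
  set y' : Fin D → ℝ := X.y + (s * ms) • ic κ with hy'
  set d : Fin D → ℝ := (s * ((m : ℝ) - ms)) • ic κ with hdd
  have hmain := hTW ((m : ℝ) • a' + y') d (fun i => by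
    have : d i = s * ((m : ℝ) - ms) * κ i := by
      simp only [hdd, ic, Pi.smul_apply, smul_eq_mul]
    rw [this]
    exact hd i)
  have hpt : (m : ℝ) • X.a + X.y = (m : ℝ) • a' + y' + d := by
    rw [ha', hy', hdd, smul_sub, smul_smul]
    have h1 : (s * ((m : ℝ) - ms)) • ic κ = ((m : ℝ) * s) • ic κ - (s * ms) • ic κ := by
      rw [← sub_smul]
      congr 1
      ring
    rw [h1]
    abel
  have hC : (fz b κ Q₀ ms X).C.eval (m : ℝ) = X.C.eval (m : ℝ) + -bf b d ((m : ℝ) • a' + y') := by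
    have h1 : (fz b κ Q₀ ms X).C = X.C + (C (-(s * bf b (ic κ) a')) * Polynomial.X ^ 2
      + C (-(s * bf b (ic κ) y') + s * ms * bf b (ic κ) a') * Polynomial.X
      + C (s * ms * bf b (ic κ) y')) := rfl
    rw [h1, hdd, bf_smul_left, bf_add_right b (ic κ) ((m : ℝ) • a') y',
      bf_smul_right b (m : ℝ) (ic κ) a']
    simp only [eval_add, eval_mul, eval_C, eval_pow, eval_X]
    ring
  have h2 : (fz b κ Q₀ ms X).a = a' := rfl
  have h3 : (fz b κ Q₀ ms X).y = y' := rfl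
  unfold Dat.fn
  rw [hC, h2, h3, hpt, ee_add, mul_assoc, ← mul_sub, norm_mul, norm_ee, one_mul]
  exact hmain

end FRZx

open RESx FRZx in
theorem frz : FRZ_stmt := by
  intro hTW D b f hf κ Q₀ A B ε hκ hQ hA hB hε
  obtain ⟨δ, hδ, hTW⟩ := hTW D b f hf ε hε
  refine ⟨A + B + 2, B + 3, max 4 ⌈2 / δ⌉₊, by linarith, by linarith, ?_⟩
  intro l hl xa xb hxa Q hQd hQs hrel
  have hl4 : (4 : ℝ) ≤ l := by exact_mod_cast (le_max_left _ _).trans hl
  have hlδ : 2 / δ ≤ l := (Nat.le_ceil _).trans (by exact_mod_cast (le_max_right _ _).trans hl)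
  have hl0 : (0 : ℝ) < l := by linarith
  have hl1 : (1 : ℝ) ≤ l := by linarith
  set K : ℕ := ⌈(l : ℝ) ^ (B + 1)⌉₊ with hK
  have hK1 : (l : ℝ) ^ (B + 1) ≤ K := Nat.le_ceil _
  have hp1 : 1 ≤ (l : ℝ) ^ (B + 1) := Real.one_le_rpow hl1 (by linarith)
  have hK2 : (K : ℝ) ≤ (l : ℝ) ^ (B + 1) + 1 := (Nat.ceil_lt_add_one (by positivity)).le
  have hK0 : (0 : ℝ) < K := by linarith
  have hlK : (l : ℝ) * K ≤ (l : ℝ) ^ (B + 3) := by
    have h1 : (l : ℝ) ^ (B + 3) = l * (l * (l : ℝ) ^ (B + 1)) := by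
      rw [show B + 3 = (B + 1) + 1 + 1 by ring, Real.rpow_add_one hl0.ne', Real.rpow_add_one hl0.ne']
      ring
    rw [h1]
    gcongr
    calc (K : ℝ) ≤ (l : ℝ) ^ (B + 1) + 1 := hK2
      _ ≤ 4 * (l : ℝ) ^ (B + 1) := by linarith
      _ ≤ l * (l : ℝ) ^ (B + 1) := by gcongr
  refine ⟨fun m => fz b κ Q₀ (Real.exp ((ce K m : ℝ) / K)) (Q m), fun m => fz_dg b κ Q₀ _ (hQd m), ?_,
    fun m => ⟨round ((Q₀ : ℝ) * dp κ (Q m).a), fz_dp b hκ Q₀ _ (Q m)⟩, ?_⟩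
  · have h1 : SlowA (fun m => fz b κ Q₀ (Real.exp ((ce K m : ℝ) / K)) (Q m))
        ((l : ℝ) ^ A + (K + 1)) := by
      refine slow_of (c := ce K) hQs (fun n h2 h3 => ?_) (fun j => ce_jumps K j)
      rw [h2, h3]
    intro j
    refine (h1 j).trans ?_
    have e1 : (l : ℝ) ^ (A + B + 2) = l * (l : ℝ) ^ (A + B + 1) := by
      rw [show A + B + 2 = (A + B + 1) + 1 by ring, Real.rpow_add_one hl0.ne']
      ring
    have e2 : (l : ℝ) ^ A ≤ (l : ℝ) ^ (A + B + 1) :=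
      Real.rpow_le_rpow_of_exponent_le hl1 (by linarith)
    have e3 : (l : ℝ) ^ (B + 1) ≤ (l : ℝ) ^ (A + B + 1) :=
      Real.rpow_le_rpow_of_exponent_le hl1 (by linarith)
    have e4 : 1 ≤ (l : ℝ) ^ (A + B + 1) := Real.one_le_rpow hl1 (by linarith)
    rw [e1]
    calc (l : ℝ) ^ A + (K + 1) ≤ 4 * (l : ℝ) ^ (A + B + 1) := by linarith
      _ ≤ _ := by gcongr
  · intro m hm hmb h hh
    have hxm : (l : ℝ) * K ≤ m := (hlK.trans hxa).trans hm.le
    have hm1 : (1 : ℝ) ≤ m := by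
      have : 1 ≤ (l : ℝ) * K := one_le_mul_of_one_le_of_one_le hl1 (by linarith)
      linarith
    have hm0 : (0 : ℝ) < m := by linarith
    obtain ⟨j, hj⟩ := hrel m hm hmb
    refine fz_fn hTW κ Q₀ _ (Q m) (m + h) fun i => ?_
    set ms : ℝ := Real.exp ((ce K m : ℝ) / K) with hms
    -- the centre of the cell
    have hlog : 0 ≤ Real.log m := Real.log_nonneg hm1
    have hms1 : ms ≤ m := by
      have h1 : ((ce K m : ℕ) : ℝ) ≤ K * Real.log m := Nat.floor_le (by positivity)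
      have h2 : ((ce K m : ℕ) : ℝ) / K ≤ Real.log m := by
        rw [div_le_iff₀ hK0]
        linarith
      calc ms ≤ Real.exp (Real.log m) := Real.exp_le_exp.2 h2
        _ = m := Real.exp_log hm0
    have hms2 : (m : ℝ) - m / K ≤ ms := by
      have h1 : (K : ℝ) * Real.log m < (ce K m : ℕ) + 1 := Nat.lt_floor_add_one _
      have h2 : Real.log m + -(1 / (K : ℝ)) ≤ ((ce K m : ℕ) : ℝ) / K := by
        rw [le_div_iff₀ hK0]
        have : (Real.log m + -(1 / (K : ℝ))) * K = K * Real.log m - 1 := by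
          field_simp
          ring
        linarith
      have h3 : 1 - 1 / (K : ℝ) ≤ Real.exp (-(1 / (K : ℝ))) := by
        have := Real.add_one_le_exp (-(1 / (K : ℝ)))
        linarith
      calc (m : ℝ) - m / K = m * (1 - 1 / (K : ℝ)) := by ring
        _ ≤ m * Real.exp (-(1 / (K : ℝ))) := by gcongr
        _ = Real.exp (Real.log m + -(1 / (K : ℝ))) := by rw [Real.exp_add, Real.exp_log hm0]
        _ ≤ ms := Real.exp_le_exp.2 h2
    have hh2 : (h : ℝ) ≤ l := by exact_mod_cast (mem_Icc.1 hh).2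
    have hh0 : (0 : ℝ) ≤ h := Nat.cast_nonneg _
    have hlm : (l : ℝ) ≤ m / K := by
      rw [le_div_iff₀ hK0]
      exact hxm
    have hdist : |((m + h : ℕ) : ℝ) - ms| ≤ 2 * (m / K) := by
      push_cast
      rw [abs_le]
      have : 0 ≤ (m : ℝ) / K := by positivity
      constructor <;> linarith
    -- the distance to the relation
    have hQ0 : (0 : ℝ) < Q₀ := by exact_mod_cast hQ
    have hρ : |dp κ (Q m).a - round ((Q₀ : ℝ) * dp κ (Q m).a) / Q₀| ≤ (l : ℝ) ^ B / m := by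
      refine le_trans ?_ hj
      have h1 := round_le ((Q₀ : ℝ) * dp κ (Q m).a) j
      have h2 : ∀ z : ℤ, |dp κ (Q m).a - z / Q₀| = |(Q₀ : ℝ) * dp κ (Q m).a - z| / Q₀ := by
        intro z
        rw [show (Q₀ : ℝ) * dp κ (Q m).a - z = Q₀ * (dp κ (Q m).a - z / Q₀) by field_simp, abs_mul,
          abs_of_pos hQ0, mul_div_cancel_left₀ _ hQ0.ne']
      rw [h2, h2]
      gcongr
    have hsq := sq_pos' hκ
    have hκi := le_sq κ i
    have e1 : sl κ Q₀ (Q m) * (((m + h : ℕ) : ℝ) - ms) * κ i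
        = (dp κ (Q m).a - round ((Q₀ : ℝ) * dp κ (Q m).a) / Q₀) * (((m + h : ℕ) : ℝ) - ms)
          * (κ i / nsq κ) := by
      unfold sl
      ring
    have e2 : |(κ i : ℝ) / nsq κ| ≤ 1 := by
      rw [abs_div, abs_of_pos hsq, div_le_one hsq]
      exact hκi
    rw [e1, abs_mul, abs_mul]
    have hBp : (0 : ℝ) ≤ (l : ℝ) ^ B := by positivity
    calc _ ≤ (l : ℝ) ^ B / m * (2 * (m / K)) * 1 := by gcongr
      _ = 2 * (l : ℝ) ^ B / K := by field_simp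
      _ ≤ 2 * (l : ℝ) ^ B / (l : ℝ) ^ (B + 1) := by gcongr
      _ = 2 / l := by
        rw [Real.rpow_add_one hl0.ne']
        have : (0 : ℝ) < (l : ℝ) ^ B := by positivity
        field_simp
      _ ≤ δ := by
        rw [div_le_iff₀ hl0]
        rw [div_le_iff₀ hδ] at hlδ
        linarith

end

end Pool.Agent.NV
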