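import Mathlib
import Pool.Agent.Lib.NV.Defs

/-!
Row LOC of theorem NV (MP_663568_nt): on short windows the nilsequence is a sum of quadratic phases.
(helper44)
-/

set_option autoImplicit false
open Finset

namespace Pool.Agent.NV

open Pool.Agent.Lib.MP_663568_nt Pool.Agent.Lib.MP_663568_nt.Katai
  Pool.Agent.Lib.MP_663568_nt.Nul Pool.Agent.SV Pool.Agent.VQ

namespace LOCx

variable {D : ℕ}

lemma bf_add_left (b : Fin D → Fin D → ℤ) (u u' v : Fin D → ℝ) :
    bf b (u + u') v = bf b u v + bf b u' v := by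
  simp only [bf, Pi.add_apply, ← sum_add_distrib]
  exact sum_congr rfl fun i _ => sum_congr rfl fun j _ => by ring

lemma bf_add_right (b : Fin D → Fin D → ℤ) (u v v' : Fin D → ℝ) :
    bf b u (v + v') = bf b u v + bf b u v' := by
  simp only [bf, Pi.add_apply, ← sum_add_distrib]
  exact sum_congr rfl fun i _ => sum_congr rfl fun j _ => by ring

lemma bf_smul_left (b : Fin D → Fin D → ℤ) (t : ℝ) (u v : Fin D → ℝ) :
    bf b (t • u) v = t * bf b u v := by
  simp only [bf, Pi.smul_apply, smul_eq_mul, mul_sum]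
  exact sum_congr rfl fun i _ => sum_congr rfl fun j _ => by ring

lemma bf_smul_right (b : Fin D → Fin D → ℤ) (t : ℝ) (u v : Fin D → ℝ) :
    bf b u (t • v) = t * bf b u v := by
  simp only [bf, Pi.smul_apply, smul_eq_mul, mul_sum]
  exact sum_congr rfl fun i _ => sum_congr rfl fun j _ => by ring

lemma bf_int (b : Fin D → Fin D → ℤ) (m n : Fin D → ℤ) :
    bf b (ic m) (ic n) = ((∑ i, ∑ j, b i j * (m i * n j) : ℤ) : ℝ) := by
  simp only [bf, ic]
  push_cast
  rfl

lemma dp_smul (k : Fin D → ℤ) (t : ℝ) (v : Fin D → ℝ) : dp k (t • v) = t * dp k v := by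
  simp only [dp, Pi.smul_apply, smul_eq_mul, mul_sum]
  exact sum_congr rfl fun i _ => by ring

/-- the projection to the kernel of an integral matrix -/
lemma exists_proj (W : Fin D → Fin D → ℤ) : ∃ (N : ℕ) (U : Fin D → Fin D → ℤ), 1 ≤ N ∧
    (∀ i k, ∑ j, W i j * U j k = 0) ∧ ∀ v : Fin D → ℝ, (∀ i, ∑ j, (W i j : ℝ) * v j = 0) →
      ∀ i, ∑ j, (U i j : ℝ) * v j = N * v i := by
  classical
  set f : (Fin D → ℚ) →ₗ[ℚ] (Fin D → ℚ) :=
    Matrix.toLin' (Matrix.of fun i j => (W i j : ℚ)) with hf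
  obtain ⟨s, hs⟩ := LinearMap.exists_rightInverse_of_surjective f.rangeRestrict
    (LinearMap.range_eq_top.2 f.surjective_rangeRestrict)
  obtain ⟨g, hg⟩ := LinearMap.exists_extend s
  have hfgf : ∀ x, f (g (f x)) = f x := by
    intro x
    have h1 : g (f x) = s ⟨f x, LinearMap.mem_range_self f x⟩ := by
      rw [← hg]
      rfl
    have h2 := congrArg Subtype.val
      (LinearMap.congr_fun hs ⟨f x, LinearMap.mem_range_self f x⟩)
    rw [h1]
    exact h2
  set S : Matrix (Fin D) (Fin D) ℚ := LinearMap.toMatrix' g with hS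
  have hWSW : (Matrix.of fun i j => (W i j : ℚ)) * S * (Matrix.of fun i j => (W i j : ℚ)) =
      Matrix.of fun i j => (W i j : ℚ) := by
    apply Matrix.toLin'.injective
    apply LinearMap.ext
    intro x
    rw [Matrix.toLin'_mul, Matrix.toLin'_mul]
    simp only [LinearMap.comp_apply]
    rw [hS, Matrix.toLin'_toMatrix']
    exact hfgf x
  set N : ℕ := ∏ i, ∏ j, (S i j).den with hN
  have hN1 : 1 ≤ N := Nat.one_le_iff_ne_zero.2 (Finset.prod_ne_zero_iff.2 fun i _ =>
    Finset.prod_ne_zero_iff.2 fun j _ => (S i j).den_nz)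
  have hint : ∀ i j, ∃ z : ℤ, (N : ℚ) * S i j = z := by
    intro i j
    have hd : (S i j).den ∣ N :=
      (Finset.dvd_prod_of_mem (fun j => (S i j).den) (mem_univ j)).trans
        (Finset.dvd_prod_of_mem (fun i => ∏ j, (S i j).den) (mem_univ i))
    obtain ⟨c, hc⟩ := hd
    refine ⟨c * (S i j).num, ?_⟩
    rw [hc]
    push_cast
    rw [← Rat.mul_den_eq_num (S i j)]
    ring
  choose P hP using hint
  have hWPW : ∀ i l, ∑ j, ∑ k, W i j * (P j k * W k l) = N * W i l := by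
    intro i l
    have h1 := congrFun (congrFun hWSW i) l
    rw [Matrix.mul_assoc] at h1
    simp only [Matrix.mul_apply, Matrix.of_apply, mul_sum] at h1
    have h2 : ((∑ j, ∑ k, W i j * (P j k * W k l) : ℤ) : ℚ) = ((N * W i l : ℤ) : ℚ) := by
      push_cast
      rw [← h1, mul_sum]
      refine sum_congr rfl fun j _ => ?_
      rw [mul_sum]
      refine sum_congr rfl fun k _ => ?_
      rw [← hP]
      ring
    exact_mod_cast h2
  refine ⟨N, fun i l => (if i = l then (N : ℤ) else 0) - ∑ k, P i k * W k l, hN1, ?_, ?_⟩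
  · intro i l
    simp only [mul_sub, sum_sub_distrib, mul_sum]
    rw [hWPW]
    simp [mul_comm]
  · intro v hv i
    push_cast
    simp only [sub_mul, sum_sub_distrib]
    have h1 : ∑ j, (∑ k, (P i k : ℝ) * (W k j : ℝ)) * v j = 0 := by
      have h2 : ∑ j, (∑ k, (P i k : ℝ) * (W k j : ℝ)) * v j =
          ∑ k, (P i k : ℝ) * ∑ j, (W k j : ℝ) * v j := by
        simp only [sum_mul, mul_sum]
        rw [sum_comm]
        exact sum_congr rfl fun k _ => sum_congr rfl fun j _ => by ring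
      rw [h2]
      simp [hv]
    rw [h1, sub_zero]
    have h3 : ∀ j, ((if i = j then (N : ℝ) else 0) * v j) = if i = j then (N : ℝ) * v j else 0 := by
      intro j
      split_ifs <;> simp
    simp [h3]

/-- enumeration of a finite set -/
lemma exists_enum {α : Type*} [Inhabited α] (K : Finset α) : ∃ κ : ℕ → α, ∀ F : α → ℂ,
    ∑ t ∈ range #K, F (κ t) = ∑ k ∈ K, F k := by
  classical
  refine ⟨fun t => if h : t < #K then (K.equivFin.symm ⟨t, h⟩ : α) else default, fun F => ?_⟩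
  rw [Finset.sum_range]
  have h1 : ∀ i : Fin #K, F (if h : (i : ℕ) < #K then (K.equivFin.symm ⟨i, h⟩ : α) else default) =
      F (K.equivFin.symm i : α) := by
    intro i
    rw [dif_pos i.2]
  rw [sum_congr rfl fun i _ => h1 i]
  rw [K.equivFin.symm.sum_comp fun k : K => F (k : α)]
  exact Finset.sum_coe_sort K F

/-- the real linear map of an integral matrix -/
noncomputable def Uv (U : Fin D → Fin D → ℤ) (w : Fin D → ℝ) : Fin D → ℝ := fun i => ∑ j, (U i j : ℝ) * w j

lemma Uv_add (U : Fin D → Fin D → ℤ) (w w' : Fin D → ℝ) : Uv U (w + w') = Uv U w + Uv U w' := by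
  funext i
  simp only [Uv, Pi.add_apply, mul_add, sum_add_distrib]

lemma Uv_smul (U : Fin D → Fin D → ℤ) (t : ℝ) (w : Fin D → ℝ) : Uv U (t • w) = t • Uv U w := by
  funext i
  simp only [Uv, Pi.smul_apply, smul_eq_mul, mul_sum]
  exact sum_congr rfl fun j _ => by ring

lemma Uv_ic (U : Fin D → Fin D → ℤ) (n : Fin D → ℤ) :
    Uv U (ic n) = ic fun i => ∑ j, U i j * n j := by
  funext i
  simp only [Uv, ic]
  push_cast
  rfl

lemma Uv_cont (U : Fin D → Fin D → ℤ) : Continuous (Uv U) := by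
  unfold Uv
  refine continuous_pi fun i => ?_
  fun_prop

lemma bf_cont (b : Fin D → Fin D → ℤ) {α : Type*} [TopologicalSpace α] {f g : α → Fin D → ℝ}
    (hf : Continuous f) (hg : Continuous g) : Continuous fun x => bf b (f x) (g x) := by
  unfold bf
  refine continuous_finsetSum _ fun i _ => continuous_finsetSum _ fun j _ => ?_
  exact continuous_const.mul (((continuous_apply i).comp hf).mul ((continuous_apply j).comp hg))

lemma ee_cont : Continuous ee := by
  unfold ee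
  fun_prop

/-- the kernel of the commutator form -/
lemma om_eq (b : Fin D → Fin D → ℤ) (w v : Fin D → ℝ) :
    om b w v = ∑ i, w i * ∑ j, ((b i j - b j i : ℤ) : ℝ) * v j := by
  have h1 : bf b v w = ∑ i, ∑ j, (b j i : ℝ) * (v j * w i) := by
    unfold bf
    rw [sum_comm]
  rw [om, h1, bf, ← sum_sub_distrib]
  refine sum_congr rfl fun i _ => ?_
  rw [← sum_sub_distrib, mul_sum]
  refine sum_congr rfl fun j _ => ?_
  push_cast
  ring

end LOCx

open LOCx

theorem loc : LOC_stmt := by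
  intro hTW hTR D b f hf M' ε hM hε
  obtain ⟨N, U, hN, hWU, hUv⟩ := exists_proj fun i j => b i j - b j i
  have hN0 : (0 : ℝ) < N := by exact_mod_cast hN
  have hM0 : (0 : ℝ) < M' := by exact_mod_cast hM
  -- the image of `U` lies in the kernel
  have hker : ∀ w u : Fin D → ℝ, bf b w (Uv U u) = bf b (Uv U u) w := by
    intro w u
    have h1 : om b w (Uv U u) = 0 := by
      rw [om_eq]
      refine sum_eq_zero fun i _ => ?_
      have h2 : ∑ j, ((b i j - b j i : ℤ) : ℝ) * Uv U u j =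
          ∑ k, ((∑ j, (b i j - b j i) * U j k : ℤ) : ℝ) * u k := by
        simp only [Uv, mul_sum]
        rw [sum_comm]
        refine sum_congr rfl fun k _ => ?_
        push_cast
        rw [sum_mul]
        exact sum_congr rfl fun j _ => by ring
      rw [h2]
      simp [hWU]
    exact sub_eq_zero.1 h1
  set G : (Fin D → ℝ) → (Fin D → ℝ) → ℂ := fun z u => f (z + Uv U ((2 : ℝ) • u)) *
    ee (bf b (Uv U ((2 : ℝ) • u)) (Uv U ((2 : ℝ) • u)) / 2 + bf b z (Uv U ((2 : ℝ) • u))) with hG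
  have hGc : Continuous (Function.uncurry G) := by
    have h1 : Continuous fun p : (Fin D → ℝ) × (Fin D → ℝ) => Uv U ((2 : ℝ) • p.2) :=
      (Uv_cont U).comp (by fun_prop)
    have h2 : Continuous fun p : (Fin D → ℝ) × (Fin D → ℝ) => f (p.1 + Uv U ((2 : ℝ) • p.2)) :=
      hf.cont.comp (continuous_fst.add h1)
    exact h2.mul (ee_cont.comp (((bf_cont b h1 h1).div_const 2).add (bf_cont b continuous_fst h1)))
  have hGp : ∀ (z u : Fin D → ℝ) (e : Fin D → ℤ), G z (u + ic e) = G z u := by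
    intro z u e
    set n' : Fin D → ℤ := fun i => ∑ j, U i j * e j with hn'
    have h1 : Uv U ((2 : ℝ) • (u + ic e)) = Uv U ((2 : ℝ) • u) + ic (2 • n') := by
      rw [smul_add, Uv_add]
      congr 1
      rw [Uv_smul, Uv_ic]
      funext i
      simp only [ic, Pi.smul_apply, smul_eq_mul, hn']
      push_cast
      simp
    have h2 : ic (2 • n') = Uv U ((2 : ℝ) • ic e) := by
      rw [Uv_smul, Uv_ic]
      funext i
      simp only [ic, Pi.smul_apply, smul_eq_mul, hn']
      push_cast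
      simp
    obtain ⟨k, hk⟩ : ∃ k : ℤ, bf b (ic (2 • n')) (ic (2 • n')) / 2 = k := by
      refine ⟨2 * ∑ i, ∑ j, b i j * (n' i * n' j), ?_⟩
      have h3 : ic (2 • n') = (2 : ℝ) • ic n' := by
        funext i
        simp only [ic, Pi.smul_apply, smul_eq_mul]
        simp
      rw [h3, bf_smul_left, bf_smul_right, bf_int]
      push_cast
      ring
    simp only [hG]
    rw [h1, ← add_assoc, hf.add]
    have h4 : bf b (Uv U ((2 : ℝ) • u) + ic (2 • n')) (Uv U ((2 : ℝ) • u) + ic (2 • n')) / 2 +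
        bf b z (Uv U ((2 : ℝ) • u) + ic (2 • n')) =
        (bf b (Uv U ((2 : ℝ) • u)) (Uv U ((2 : ℝ) • u)) / 2 + bf b z (Uv U ((2 : ℝ) • u))) +
        bf b (z + Uv U ((2 : ℝ) • u)) (ic (2 • n')) + k := by
      have h5 : bf b (ic (2 • n')) (Uv U ((2 : ℝ) • u)) = bf b (Uv U ((2 : ℝ) • u)) (ic (2 • n')) :=
        hker _ _
      rw [← hk]
      simp only [bf_add_left, bf_add_right]
      rw [h5]
      ring
    rw [h4, ee_add, ee_add, ee_int, mul_one]
    have h6 : ee (-bf b (z + Uv U ((2 : ℝ) • u)) (ic (2 • n'))) *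
        ee (bf b (z + Uv U ((2 : ℝ) • u)) (ic (2 • n'))) = 1 := by
      rw [← ee_add, neg_add_cancel]
      have := ee_int 0
      simpa using this
    linear_combination (f (z + Uv U ((2 : ℝ) • u)) * ee (bf b (Uv U ((2 : ℝ) • u))
      (Uv U ((2 : ℝ) • u)) / 2 + bf b z (Uv U ((2 : ℝ) • u)))) * h6
  obtain ⟨δ, hδ, hTW'⟩ := hTW D b f hf (ε / 2) (by positivity)
  obtain ⟨K, M, hMn, hK⟩ := hTR D D G hGc hGp (ε / 2) (by positivity)
  obtain ⟨κ, hκ⟩ := exists_enum K
  refine ⟨#K, M, δ, hMn, hδ, ?_⟩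
  intro n v η ρ hv hρ
  have hsym : ∀ w, bf b w v = bf b v w := fun w => sub_eq_zero.1 (hv w)
  have hUv' : Uv U v = (N : ℝ) • v := by
    funext i
    have h1 : ∀ i, ∑ j, ((b i j - b j i : ℤ) : ℝ) * v j = 0 := by
      intro i
      have h2 := hv (Pi.single i 1)
      rw [om_eq] at h2
      rw [Finset.sum_eq_single i] at h2
      · simpa using h2
      · intro j _ hj
        rw [Pi.single_eq_of_ne hj, zero_mul]
      · intro h
        exact absurd (mem_univ i) h
    exact hUv v h1 i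
  refine ⟨fun k r => -(r : ℝ) * bf b ρ ρ + dp (κ k) v / (2 * N),
    -bf b η (ρ + v) - bf b v ρ - bf b v v / 2, ?_⟩
  intro z
  set z0 : ℕ → Fin D → ℝ := fun r i => Int.fract ((z + (r : ℝ) • ρ) i) with hz0
  set N0 : ℕ → Fin D → ℤ := fun r i => ⌊(z + (r : ℝ) • ρ) i⌋ with hN0'
  have hzN : ∀ r : ℕ, z + (r : ℝ) • ρ = z0 r + ic (N0 r) := by
    intro r
    funext i
    simp only [hz0, hN0', ic, Pi.add_apply]
    exact (Int.fract_add_floor _).symm
  have hc : ∀ r : ℕ, ∃ c : (Fin D → ℤ) → ℂ, (∀ k, ‖c k‖ ≤ M) ∧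
      ∀ u, ‖G (z0 r) u - ∑ k ∈ K, c k * ee (dp k u)‖ ≤ ε / 2 := fun r =>
    hK (z0 r) fun i => ⟨Int.fract_nonneg _, (Int.fract_lt_one _).le⟩
  choose c hcM hcu using hc
  refine ⟨fun k r => c r (κ k) * ee ((r : ℝ) * bf b z ρ + (r : ℝ) ^ 2 * bf b ρ ρ -
    bf b (z0 r) (ic (N0 r))), ?_, ?_⟩
  · intro k r
    rw [norm_mul, norm_ee, mul_one]
    exact hcM r _
  · intro h hη
    simp only
    generalize hr : h % M' = r
    obtain ⟨μ, hμ⟩ : ∃ μ : ℕ, (h : ℝ) = r + M' * μ := by
      refine ⟨h / M', ?_⟩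
      rw [← hr]
      exact_mod_cast (Nat.mod_add_div h M').symm
    have s1 : ‖f (z + (h : ℝ) • (ρ + v + η)) - ee (-bf b ((h : ℝ) • η) (z + (h : ℝ) • (ρ + v))) *
        f (z + (h : ℝ) • (ρ + v))‖ ≤ ε / 2 := by
      have h1 := hTW' (z + (h : ℝ) • (ρ + v)) ((h : ℝ) • η) (fun i => by
        simpa only [Pi.smul_apply, smul_eq_mul] using hη i)
      have h2 : z + (h : ℝ) • (ρ + v) + (h : ℝ) • η = z + (h : ℝ) • (ρ + v + η) := by
        rw [smul_add (h : ℝ) (ρ + v) η, add_assoc]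
      rw [h2] at h1
      exact h1
    have hIc : ic (μ • n) = ((h : ℝ) - r) • ρ := by
      funext i
      rw [hρ, hμ]
      simp only [ic, Pi.smul_apply, smul_eq_mul, nsmul_eq_mul]
      push_cast
      field_simp
      ring
    have s2 : f (z + (h : ℝ) • (ρ + v)) = ee (-bf b (z + (r : ℝ) • ρ + (h : ℝ) • v)
        (((h : ℝ) - r) • ρ)) * f (z + (r : ℝ) • ρ + (h : ℝ) • v) := by
      rw [← hIc, ← hf.add, hIc]
      congr 1
      funext i
      simp only [Pi.add_apply, Pi.smul_apply, smul_eq_mul]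
      ring
    have s3 : f (z + (r : ℝ) • ρ + (h : ℝ) • v) = ee (-bf b (z0 r + (h : ℝ) • v) (ic (N0 r))) *
        f (z0 r + (h : ℝ) • v) := by
      rw [← hf.add, hzN r]
      congr 1
      abel
    obtain ⟨u, hu⟩ : ∃ u : Fin D → ℝ, u = ((h : ℝ) / (2 * N)) • v := ⟨_, rfl⟩
    have hUu : Uv U ((2 : ℝ) • u) = (h : ℝ) • v := by
      rw [Uv_smul, hu, Uv_smul, hUv', smul_smul, smul_smul]
      congr 1
      field_simp
    have s4 : f (z0 r + (h : ℝ) • v) = ee (-((h : ℝ) ^ 2 * bf b v v / 2) -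
        (h : ℝ) * bf b (z0 r) v) * G (z0 r) u := by
      simp only [hG]
      rw [hUu, mul_left_comm, ← ee_add, bf_smul_left, bf_smul_right, bf_smul_right]
      have h7 : -((h : ℝ) ^ 2 * bf b v v / 2) - (h : ℝ) * bf b (z0 r) v +
          ((h : ℝ) * ((h : ℝ) * bf b v v) / 2 + (h : ℝ) * bf b (z0 r) v) = ((0 : ℤ) : ℝ) := by
        push_cast
        ring
      rw [h7, ee_int, mul_one]
    have s5 := hcu r u
    rw [hκ fun k => c r k * ee ((r : ℝ) * bf b z ρ + (r : ℝ) ^ 2 * bf b ρ ρ -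
      bf b (z0 r) (ic (N0 r))) * ee ((-bf b η (ρ + v) - bf b v ρ - bf b v v / 2) * (h : ℝ) ^ 2 +
      (-(r : ℝ) * bf b ρ ρ + dp k v / (2 * N) - bf b η z - bf b z (ρ + v)) * h)]
    have hNv : bf b v (ic (N0 r)) = bf b z v + r * bf b v ρ - bf b (z0 r) v := by
      have h8 : ic (N0 r) = z + (r : ℝ) • ρ + (-1 : ℝ) • z0 r := by
        rw [hzN r]
        funext i
        simp only [Pi.add_apply, Pi.smul_apply, smul_eq_mul]
        ring
      rw [h8]
      simp only [bf_add_right, bf_smul_right]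
      rw [← hsym z, ← hsym (z0 r)]
      ring
    have e1 : ∑ k ∈ K, c r k * ee ((r : ℝ) * bf b z ρ + (r : ℝ) ^ 2 * bf b ρ ρ -
        bf b (z0 r) (ic (N0 r))) * ee ((-bf b η (ρ + v) - bf b v ρ - bf b v v / 2) * (h : ℝ) ^ 2 +
        (-(r : ℝ) * bf b ρ ρ + dp k v / (2 * N) - bf b η z - bf b z (ρ + v)) * h) =
        (ee (-bf b ((h : ℝ) • η) (z + (h : ℝ) • (ρ + v))) *
          (ee (-bf b (z + (r : ℝ) • ρ + (h : ℝ) • v) (((h : ℝ) - r) • ρ)) *
          (ee (-bf b (z0 r + (h : ℝ) • v) (ic (N0 r))) *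
          ee (-((h : ℝ) ^ 2 * bf b v v / 2) - (h : ℝ) * bf b (z0 r) v)))) *
          ∑ k ∈ K, c r k * ee (dp k u) := by
      rw [mul_sum]
      refine sum_congr rfl fun k _ => ?_
      rw [mul_assoc, ← ee_add, mul_left_comm, ← ee_add, ← ee_add, ← ee_add, ← ee_add]
      congr 2
      rw [hu, dp_smul]
      simp only [bf_add_left, bf_add_right, bf_smul_left, bf_smul_right]
      rw [hNv]
      field_simp
      ring
    rw [e1]
    have e2 : f (z + (h : ℝ) • (ρ + v + η)) -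
        (ee (-bf b ((h : ℝ) • η) (z + (h : ℝ) • (ρ + v))) *
          (ee (-bf b (z + (r : ℝ) • ρ + (h : ℝ) • v) (((h : ℝ) - r) • ρ)) *
          (ee (-bf b (z0 r + (h : ℝ) • v) (ic (N0 r))) *
          ee (-((h : ℝ) ^ 2 * bf b v v / 2) - (h : ℝ) * bf b (z0 r) v)))) *
          ∑ k ∈ K, c r k * ee (dp k u) =
        (f (z + (h : ℝ) • (ρ + v + η)) - ee (-bf b ((h : ℝ) • η) (z + (h : ℝ) • (ρ + v))) *
        f (z + (h : ℝ) • (ρ + v))) +
        (ee (-bf b ((h : ℝ) • η) (z + (h : ℝ) • (ρ + v))) *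
          (ee (-bf b (z + (r : ℝ) • ρ + (h : ℝ) • v) (((h : ℝ) - r) • ρ)) *
          (ee (-bf b (z0 r + (h : ℝ) • v) (ic (N0 r))) *
          ee (-((h : ℝ) ^ 2 * bf b v v / 2) - (h : ℝ) * bf b (z0 r) v)))) *
          (G (z0 r) u - ∑ k ∈ K, c r k * ee (dp k u)) := by
      rw [s2, s3, s4]
      ring
    rw [e2]
    refine (norm_add_le _ _).trans ?_
    rw [norm_mul _ (G (z0 r) u - _), norm_mul, norm_mul, norm_mul, norm_ee, norm_ee, norm_ee,
      norm_ee, one_mul, one_mul, one_mul, one_mul]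
    linarith

end Pool.Agent.NV
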