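import Mathlib
import Pool.Agent.Lib.NV.Defs
import Pool.Agent.Lib.VQ.STEP

/-!
# Theorem NV (MP_663568_nt), row NSTEP: the induction step.  (helper28)
-/

set_option autoImplicit false
open Finset MeasureTheory Polynomial

namespace Pool.Agent.NV

open Pool.Agent.Lib.MP_663568_nt Pool.Agent.Lib.MP_663568_nt.Katai
  Pool.Agent.Lib.MP_663568_nt.Nul Pool.Agent.SV Pool.Agent.VQ

theorem SlowA.mono {α : Type} {Q : ℕ → α} {K₁ K₂ : ℝ} (h : SlowA Q K₁) (hK : K₁ ≤ K₂) :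
    SlowA Q K₂ := fun j => (h j).trans hK

namespace NSTEPx

/-- A family of functions of the data. -/
theorem slow_map {α β : Type} {Q : ℕ → α} {K : ℝ} (F : α → β) (h : SlowA Q K) :
    SlowA (fun n => F (Q n)) K := by
  classical
  intro j
  refine le_trans ?_ (h j)
  have h1 : ((Ico (2 ^ j) (2 ^ (j + 1))).filter fun n => F (Q (n + 1)) ≠ F (Q n)) ⊆
      ((Ico (2 ^ j) (2 ^ (j + 1))).filter fun n => Q (n + 1) ≠ Q n) := by
    intro n hn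
    rw [mem_filter] at hn ⊢
    exact ⟨hn.1, fun h => hn.2 (by rw [h])⟩
  have h2 := card_le_card h1
  simp only
  exact_mod_cast h2

/-- The two notions of slow families of polynomials agree. -/
theorem slowP_of {Q : ℕ → ℝ[X]} {K : ℝ} (h : SlowA Q K) : SlowP Q K := by
  intro j
  refine le_trans ?_ (h j)
  have h1 : ∀ (i₁ i₂ : DecidablePred fun n => Q (n + 1) ≠ Q n),
      (@Finset.filter ℕ (fun n => Q (n + 1) ≠ Q n) i₁ (Ico (2 ^ j) (2 ^ (j + 1)))).card =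
      (@Finset.filter ℕ (fun n => Q (n + 1) ≠ Q n) i₂ (Ico (2 ^ j) (2 ^ (j + 1)))).card := by
    intro i₁ i₂
    refine congrArg _ ?_
    ext n
    simp only [mem_filter]
  exact le_of_eq (congrArg _ (h1 _ _))

/-- Uniform constants for finitely many parameters. -/
theorem unif {ι : Type} (s : Finset ι) (P : ι → ℝ → ℕ → Prop)
    (mono : ∀ i B B' H H', 0 ≤ B → B ≤ B' → 1 ≤ H → H ≤ H' → P i B H → P i B' H')
    (h : ∀ i ∈ s, ∃ (B : ℝ) (H : ℕ), 0 ≤ B ∧ 1 ≤ H ∧ P i B H) :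
    ∃ (B : ℝ) (H : ℕ), 0 ≤ B ∧ 1 ≤ H ∧ ∀ i ∈ s, P i B H := by
  classical
  induction s using Finset.induction_on with
  | empty => exact ⟨0, 1, le_rfl, le_rfl, fun i hi => absurd hi (by simp)⟩
  | insert a s ha ih =>
    obtain ⟨B₁, H₁, hB₁, hH₁, h₁⟩ := ih fun i hi => h i (mem_insert_of_mem hi)
    obtain ⟨B₂, H₂, hB₂, hH₂, h₂⟩ := h a (mem_insert_self _ _)
    refine ⟨max B₁ B₂, max H₁ H₂, le_max_of_le_left hB₁, le_max_of_le_left hH₁, fun i hi => ?_⟩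
    rcases mem_insert.1 hi with rfl | hi
    · exact mono _ _ _ _ _ hB₂ (le_max_right _ _) hH₂ (le_max_right _ _) h₂
    · exact mono _ _ _ _ _ hB₁ (le_max_left _ _) hH₁ (le_max_left _ _) (h₁ i hi)

theorem fn_dil {D : ℕ} (f : (Fin D → ℝ) → ℂ) (p : ℕ) (X : Dat D) (m : ℕ) :
    (X.dil p).fn f m = X.fn f (p * m) := by
  unfold Dat.fn Dat.dil
  simp only [eval_comp, eval_mul, eval_C, eval_X]
  push_cast
  congr 2
  rw [smul_smul, mul_comm]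

theorem dil_Dg {D : ℕ} (p : ℕ) (X : Dat D) (h : X.Dg) : (X.dil p).Dg := by
  unfold Dat.Dg Dat.dil at *
  simp only
  refine natDegree_comp_le.trans ?_
  have h1 : (Polynomial.C (p : ℝ) * Polynomial.X).natDegree ≤ 1 :=
    (natDegree_C_mul_le _ _).trans natDegree_X_le
  calc X.C.natDegree * (Polynomial.C (p : ℝ) * Polynomial.X).natDegree ≤ 2 * 1 := by gcongr
    _ = 2 := rfl

theorem dp_smul {D : ℕ} (k : Fin D → ℤ) (c : ℝ) (u : Fin D → ℝ) : dp k (c • u) = c * dp k u := by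
  unfold dp
  rw [mul_sum]
  exact sum_congr rfl fun i _ => by rw [Pi.smul_apply, smul_eq_mul]; ring

theorem dp_zero_right {D : ℕ} (k : Fin D → ℤ) : dp k (0 : Fin D → ℝ) = 0 := by
  unfold dp
  simp

theorem dp_zero_left {D : ℕ} (u : Fin D → ℝ) : dp (0 : Fin D → ℤ) u = 0 := by
  unfold dp
  simp

theorem om_zero {D : ℕ} (b : Fin D → Fin D → ℤ) (u : Fin D → ℝ) : om b u 0 = 0 := by
  unfold om bf
  simp

theorem nd_zero : nd 0 = 0 := by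
  unfold nd
  simp

theorem exists_int_of_nd {x τ : ℝ} (h : nd x ≤ τ) : ∃ k : ℤ, |x - k| ≤ τ := ⟨round x, h⟩

theorem nd_nonneg' (x : ℝ) : 0 ≤ nd x := abs_nonneg _

/-- A set of the union which is large. -/
theorem union_large (PP : Finset ℕ) (G : ℕ → Set ℝ) (w : ℕ → ℝ) (x a b : ℝ)
    (hw : ∀ p ∈ PP, 0 ≤ w p) (hs : ∑ p ∈ PP, w p ≤ 1) (hx : 0 ≤ x)
    (hG : ∀ p ∈ PP, G p ⊆ Set.Icc a b) (hm : x ≤ ∑ p ∈ PP, w p * (volume (G p)).toReal) :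
    x ≤ (volume (⋃ p ∈ PP, G p)).toReal := by
  have hfin : volume (⋃ p ∈ PP, G p) ≠ ⊤ := by
    refine ne_top_of_le_ne_top (b := volume (Set.Icc a b)) (by simp) (measure_mono ?_)
    exact Set.iUnion₂_subset hG
  have h1 : ∀ p ∈ PP, (volume (G p)).toReal ≤ (volume (⋃ p ∈ PP, G p)).toReal := fun p hp =>
    ENNReal.toReal_mono hfin (measure_mono (Set.subset_biUnion_of_mem (u := G) hp))
  calc x ≤ ∑ p ∈ PP, w p * (volume (G p)).toReal := hm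
    _ ≤ ∑ p ∈ PP, w p * (volume (⋃ p ∈ PP, G p)).toReal :=
        sum_le_sum fun p hp => mul_le_mul_of_nonneg_left (h1 p hp) (hw p hp)
    _ = (∑ p ∈ PP, w p) * (volume (⋃ p ∈ PP, G p)).toReal := by rw [sum_mul]
    _ ≤ 1 * (volume (⋃ p ∈ PP, G p)).toReal := by
        gcongr
    _ = _ := one_mul _

/-- One of the sets is large. -/
theorem one_large (PP : Finset ℕ) (G : ℕ → Set ℝ) (w : ℕ → ℝ) (x : ℝ)
    (hw : ∀ p ∈ PP, 0 ≤ w p) (hs : ∑ p ∈ PP, w p ≤ 1) (hx : 0 < x)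
    (hm : x ≤ ∑ p ∈ PP, w p * (volume (G p)).toReal) :
    ∃ p ∈ PP, x ≤ (volume (G p)).toReal := by
  by_contra hcon
  push Not at hcon
  have hne : ∃ p ∈ PP, 0 < w p := by
    by_contra h
    push Not at h
    have : ∑ p ∈ PP, w p * (volume (G p)).toReal ≤ 0 :=
      sum_nonpos fun p hp => mul_nonpos_of_nonpos_of_nonneg (h p hp) ENNReal.toReal_nonneg
    linarith
  obtain ⟨p₀, hp₀, hwp⟩ := hne
  have h1 : ∑ p ∈ PP, w p * (volume (G p)).toReal < ∑ p ∈ PP, w p * x :=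
    sum_lt_sum (fun p hp => mul_le_mul_of_nonneg_left (hcon p hp).le (hw p hp))
      ⟨p₀, hp₀, mul_lt_mul_of_pos_left (hcon p₀ hp₀) hwp⟩
  rw [← sum_mul] at h1
  have h2 : (∑ p ∈ PP, w p) * x ≤ 1 * x := by gcongr
  linarith

theorem wt_sum (PP : Finset ℕ) (h : 1 ≤ Ls PP) :
    (∀ p ∈ PP, 0 ≤ wt PP p) ∧ ∑ p ∈ PP, wt PP p ≤ 1 := by
  have h0 : 0 < Ls PP := by linarith
  constructor
  · intro p _
    unfold wt
    positivity
  · have : ∑ p ∈ PP, wt PP p = (1 / Ls PP) * ∑ p ∈ PP, 1 / (p : ℝ) := by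
      rw [mul_sum]
      refine sum_congr rfl fun p _ => ?_
      unfold wt
      rw [one_div_mul_one_div, mul_comm (p : ℝ)]
    rw [this]
    have : ∑ p ∈ PP, 1 / (p : ℝ) = Ls PP := rfl
    rw [this, one_div, inv_mul_cancel₀ h0.ne']

/-- The types of the relations. -/
def RR {D : ℕ} (b : Fin D → Fin D → ℤ) (M : ℕ) (E : ℝ) (l : ℕ) (τ : ℝ)
    (KK : Finset ((Fin D → ℤ) × (Fin D → ℤ))) : Option KK → Dat D → Dat D → Prop
  | none, X, X' => Maj b M E l X.a ∧ Maj b M E l X'.a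
  | some k, X, X' => nd (dp k.1.1 X.a - dp k.1.2 X'.a) ≤ τ

/-- The last step: a large set of good points with a property of the data. -/
theorem last_step (hDESA : DESA_stmt) (D : ℕ) (f : (Fin (D + 1) → ℝ) → ℂ) (H : ℕ)
    (κ₁ ya yb za e δ₆ Λ ε' AR : ℝ) (l K : ℕ) (Q : ℕ → Dat (D + 1)) (hya0 : 0 < ya)
    (hyb0 : 0 < yb) (hza : za = ya / (2 * (H : ℝ) ^ (1 / 8 : ℝ))) (hza1 : 1 ≤ za)
    (hP8 : 0 < (H : ℝ) ^ (1 / 8 : ℝ))
    (hPq : ∀ q ∈ PPs H κ₁ (1 / 8), 1 ≤ q ∧ (q : ℝ) ≤ (H : ℝ) ^ (1 / 8 : ℝ)) (hl1N : 1 ≤ l)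
    (hK1 : 1 ≤ K) (hKb : (K : ℝ) + 2 ≤ (l : ℝ) ^ AR) (he0 : 0 < e)
    (hw : Real.log yb - Real.log za ≤ 3 * Λ) (hε' : ε' = e * δ₆ / 8) (hδ₆0 : 0 < δ₆)
    (hΛ0 : 0 < Λ) (P : Dat (D + 1) → Prop) (pr' : ℕ → ℕ) (S : Set ℝ) (hP0 : P ⟨0, 0, 0⟩)
    (hSm : MeasurableSet S) (hSv : δ₆ * Λ ≤ (volume S).toReal)
    (hSu : ∀ u ∈ S, pr' (cl K u) ∈ PPs H κ₁ (1 / 8) ∧
        GoodA (fun X : Dat (D + 1) => X.fn f) Q K l ya yb e (pr' (cl K u)) u ∧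
        P ((Q ⌊((pr' (cl K u) : ℕ) : ℝ) * Real.exp u⌋₊).dil (pr' (cl K u))))
    (hbd : ∀ Q' : ℕ → Dat (D + 1), SlowA Q' ((l : ℝ) ^ AR) → (∀ m, P (Q' m)) →
        ∑ m ∈ Ioc ⌊za⌋₊ ⌊yb⌋₊, (1 / (m : ℝ)) * Wg l m ((Q' m).fn f) ≤
          ε' * (Real.log yb - Real.log za)) : False := by
  have hε'0 : 0 < ε' := by rw [hε']; positivity
  obtain ⟨Q', hQ's, hQ'P, hQ'm⟩ := hDESA (Dat (D + 1)) (fun X => X.fn f) (fun p X => X.dil p)
    (fun p X m => fn_dil f p X m) P ⟨0, 0, 0⟩ hP0 l K za yb e Q pr' S hl1N hK1 hza1 he0.le hSm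
    (fun u hu => by
      obtain ⟨hq, ⟨g2, g3, g4, g5⟩, hPu⟩ := hSu u hu
      obtain ⟨q, hqd⟩ : ∃ q : ℕ, q = pr' (cl K u) := ⟨_, rfl⟩
      rw [← hqd] at hq g2 g3 g4 g5 hPu ⊢
      obtain ⟨hq1, hq2⟩ := hPq q hq
      have hq1R : (1 : ℝ) ≤ q := by exact_mod_cast hq1
      have hq0R : (0 : ℝ) < q := by linarith
      have h1 : ya / q ≤ Real.exp u := by
        rw [← Real.exp_log hya0, ← Real.exp_log hq0R, ← Real.exp_sub]
        exact Real.exp_le_exp.2 (by simpa using g2)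
      have h2 : Real.exp u ≤ yb / q := by
        rw [← Real.exp_log hyb0, ← Real.exp_log hq0R, ← Real.exp_sub]
        exact Real.exp_le_exp.2 (by simpa using g3)
      refine ⟨?_, ?_, g4, g5, hPu⟩
      · have h3 : 2 * za ≤ Real.exp u := by
          refine le_trans ?_ h1
          rw [hza]
          rw [mul_div_assoc', div_le_div_iff₀ (by positivity) hq0R]
          calc 2 * ya * q ≤ 2 * ya * (H : ℝ) ^ (1 / 8 : ℝ) := by gcongr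
            _ = ya * (2 * (H : ℝ) ^ (1 / 8 : ℝ)) := by ring
        have h4 := Nat.lt_floor_add_one (Real.exp u)
        linarith
      · exact (Nat.floor_le (Real.exp_pos u).le).trans (h2.trans (div_le_self hyb0.le hq1R)))
  have hb := hbd Q' (hQ's.mono hKb) hQ'P
  have f1 : e * (δ₆ * Λ) ≤ e * (volume S).toReal := by gcongr
  have f2 : ε' * (Real.log yb - Real.log za) ≤ ε' * (3 * Λ) := by gcongr
  have f3 : ε' * (3 * Λ) = e * (δ₆ * Λ) * (3 / 8) := by rw [hε']; ring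
  have f5 : 0 < e * (δ₆ * Λ) := by positivity
  linarith

/-- The size of the error in the relations. -/
theorem tol (H l : ℕ) (B₃ B₅ BR ya yb tau : ℝ) (m : ℕ) (hH2 : 2 ≤ (H : ℝ)) (hB₃ : 0 ≤ B₃)
    (hB₅ : 0 ≤ B₅) (hBR : BR = 2 * (B₅ + 1 + (B₃ + 1) + 2))
    (hHl : ∀ y : ℝ, 0 ≤ y → (H : ℝ) ^ y ≤ (l : ℝ) ^ (2 * y)) (hya0 : 0 < ya)
    (hyH2 : yb ≤ ya * (H : ℝ) ^ 2) (hm0 : (0 : ℝ) < m) (hm : (m : ℝ) ≤ yb)
    (htau : tau = (H : ℝ) ^ (B₃ + 1) / ya) :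
    ((H : ℝ) ^ B₅ + 1) * tau ≤ (l : ℝ) ^ BR / m := by
  have hH0 : (0 : ℝ) < H := by linarith
  have hH1 : (1 : ℝ) ≤ H := by linarith
  have hmt : (m : ℝ) ≤ ya * (H : ℝ) ^ 2 := hm.trans hyH2
  rw [le_div_iff₀ hm0, htau]
  have h1 : ((H : ℝ) ^ B₅ + 1) ≤ (H : ℝ) ^ (B₅ + 1) := by
    rw [Real.rpow_add hH0, Real.rpow_one]
    have h2 : 1 ≤ (H : ℝ) ^ B₅ := Real.one_le_rpow hH1 hB₅
    have h3 : (H : ℝ) ^ B₅ * 2 ≤ (H : ℝ) ^ B₅ * H := by gcongr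
    linarith
  have h5 : 0 < (H : ℝ) ^ (B₃ + 1) := Real.rpow_pos_of_pos hH0 _
  have h6 : 0 < (H : ℝ) ^ (B₅ + 1) := Real.rpow_pos_of_pos hH0 _
  calc ((H : ℝ) ^ B₅ + 1) * ((H : ℝ) ^ (B₃ + 1) / ya) * (m : ℝ)
      ≤ (H : ℝ) ^ (B₅ + 1) * ((H : ℝ) ^ (B₃ + 1) / ya) * (ya * (H : ℝ) ^ 2) := by gcongr
    _ = (H : ℝ) ^ (B₅ + 1) * (H : ℝ) ^ (B₃ + 1) * (H : ℝ) ^ (2 : ℝ) := by
        rw [show (2 : ℝ) = ((2 : ℕ) : ℝ) by norm_num, Real.rpow_natCast]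
        field_simp
    _ = (H : ℝ) ^ (B₅ + 1 + (B₃ + 1) + 2) := by
        rw [← Real.rpow_add hH0, ← Real.rpow_add hH0]
    _ ≤ (l : ℝ) ^ BR := by
        rw [hBR]
        exact hHl _ (by linarith)

/-- The relation along a cell. -/
theorem rel_of_many (D : ℕ) (b : Fin (D + 1) → Fin (D + 1) → ℤ) (f : (Fin (D + 1) → ℝ) → ℂ)
    (M n₀ : ℕ) (E c : ℝ) (KK : Finset ((Fin (D + 1) → ℤ) × (Fin (D + 1) → ℤ)))
    (hPB : ∀ l L n : ℕ, n₀ ≤ l → l * l ≤ L → ∀ X X' : Dat (D + 1), X.Dg → X'.Dg →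
      Many f (c / 8) l L n X X' → (Maj b M E l X.a ∧ Maj b M E l X'.a) ∨
        ∃ k ∈ KK, nd (dp k.1 X.a - dp k.2 X'.a) ≤ E / L)
    (H l L n : ℕ) (B₃ ya tau : ℝ) (hc : 0 < c) (hH1 : 1 ≤ (H : ℝ)) (hEH : E ≤ H)
    (hyB : (H : ℝ) ^ (B₃ + 2) ≤ ya) (hya0 : 0 < ya) (hlH : (l : ℝ) ≤ H) (hn₀l : n₀ ≤ l)
    (htau : tau = (H : ℝ) ^ (B₃ + 1) / ya) (hL : ya / (H : ℝ) ^ B₃ ≤ L) (X X' : Dat (D + 1))
    (hX : X.Dg) (hX' : X'.Dg)
    (hmany : c / 8 * L ≤ (#((Ico n (n + L)).filter fun m : ℕ =>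
      c ≤ Kg l m (X.fn f) (X'.fn f)) : ℝ)) :
    ∃ θ : Option KK, RR b M E l tau KK θ X X' := by
  classical
  have hH0 : (0 : ℝ) < H := by linarith
  have hpos : ∀ y : ℝ, 0 < (H : ℝ) ^ y := fun y => Real.rpow_pos_of_pos hH0 y
  have hL1 : (H : ℝ) * H ≤ L := by
    refine le_trans ?_ hL
    rw [le_div_iff₀ (hpos _)]
    calc (H : ℝ) * H * (H : ℝ) ^ B₃ = (H : ℝ) ^ (B₃ + 2) := by
          rw [show B₃ + 2 = B₃ + 1 + 1 by ring, Real.rpow_add hH0, Real.rpow_add hH0,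
            Real.rpow_one]
          ring
      _ ≤ ya := hyB
  have hlL : l * l ≤ L := by
    have : (l : ℝ) * l ≤ L := le_trans (by gcongr) hL1
    exact_mod_cast this
  have hL0 : (0 : ℝ) < L := lt_of_lt_of_le (by positivity) hL1
  have hM' : Many f (c / 8) l L n X X' := by
    unfold Many
    refine hmany.trans ?_
    have : ((Ico n (n + L)).filter fun m : ℕ => c ≤ Kg l m (X.fn f) (X'.fn f)) ⊆
        ((Ico n (n + L)).filter fun m : ℕ => c / 8 ≤ Kg l m (X.fn f) (X'.fn f)) := by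
      intro m hm
      rw [mem_filter] at hm ⊢
      exact ⟨hm.1, by linarith [hm.2]⟩
    exact_mod_cast card_le_card this
  rcases hPB l L n hn₀l hlL _ _ hX hX' hM' with h | h
  · exact ⟨none, h⟩
  · obtain ⟨k, hk, hk'⟩ := h
    refine ⟨some ⟨k, hk⟩, ?_⟩
    show nd _ ≤ tau
    refine hk'.trans ?_
    rw [htau, div_le_div_iff₀ hL0 hya0]
    have h1 : ya ≤ L * (H : ℝ) ^ B₃ := by
      rw [div_le_iff₀ (hpos _)] at hL
      exact hL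
    calc E * ya ≤ H * (L * (H : ℝ) ^ B₃) := by gcongr
      _ = (H : ℝ) ^ (B₃ + 1) * L := by
          rw [Real.rpow_add hH0, Real.rpow_one]
          ring

end NSTEPx

open NSTEPx in
theorem nstep : NSTEP_stmt := by
  classical
  intro hWIN hTKG hDIL hPAIR hSYA hSYC hOKQ hRICH hDESA hPB hC1 D hC2 b f hf A ε₀ hA hε₀
  obtain ⟨ε, hε⟩ : ∃ ε : ℝ, ε = min ε₀ 1 := ⟨_, rfl⟩
  have hε0 : 0 < ε := by rw [hε]; exact lt_min hε₀ one_pos
  have hε1 : ε ≤ 1 := by rw [hε]; exact min_le_right _ _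
  have hεε : ε ≤ ε₀ := by rw [hε]; exact min_le_left _ _
  obtain ⟨κ₁, η, B₁, hκ₁, hκ₁₂, hη, hη1, hB₁, H₁, hD⟩ := hDIL hTKG A ε (1 / 8) hA hε0 hε1
    (by norm_num) (by norm_num)
  obtain ⟨c, B₂, H₂, hc, hc1, hB₂, hSA⟩ := hSYA hPAIR A (ε / 2) κ₁ (1 / 8) hA (by positivity)
    (by linarith) hκ₁ hκ₁₂ (by norm_num)
  obtain ⟨M, n₀, E, KK, hM, hE, hKK, hPB⟩ := hPB (D + 1) b f hf (c / 8) (by positivity)
    (by linarith)
  obtain ⟨δ, B₃, H₃, hδ, hδ1, hB₃, hSB⟩ := hSYC (Option KK) A κ₁ (1 / 8) (ε / 2 / 4) c hA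
    hκ₁ hκ₁₂ (by norm_num) (by positivity) hc hc1
  obtain ⟨H₄, hOK⟩ := hOKQ A κ₁ (1 / 8) hA hκ₁ hκ₁₂ (by norm_num)
  obtain ⟨c₅, B₅, Q₀, H₅, hc₅, hB₅, hQ₀, hRI⟩ := hRICH 1 (A + 1) κ₁ (1 / 8) (δ / 2) le_rfl
    (by linarith) hκ₁ hκ₁₂ (by norm_num) (by positivity) (by linarith)
  obtain ⟨e, he⟩ : ∃ e : ℝ, e = ε / 2 / 4 := ⟨_, rfl⟩
  have he0 : 0 < e := by rw [he]; positivity
  obtain ⟨AR, hAR⟩ : ∃ AR : ℝ, AR = 2 * (A + 2) := ⟨_, rfl⟩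
  obtain ⟨BR, hBR⟩ : ∃ BR : ℝ, BR = 2 * (B₅ + 1 + (B₃ + 1) + 2) := ⟨_, rfl⟩
  -- the proportion of the last set
  obtain ⟨δ₆, hδ₆⟩ : ∃ δ₆ : ℝ, δ₆ = min δ c₅ := ⟨_, rfl⟩
  have hδ₆0 : 0 < δ₆ := by rw [hδ₆]; exact lt_min hδ hc₅
  obtain ⟨ε', hε'⟩ : ∃ ε' : ℝ, ε' = e * δ₆ / 8 := ⟨_, rfl⟩
  have hε'0 : 0 < ε' := by rw [hε']; positivity
  -- the first case
  obtain ⟨B₆, H₆, hB₆, hC1⟩ := hC1 (D + 1) b f hf M E AR ε' hM hE (by rw [hAR]; linarith) hε'0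
  -- the second case
  obtain ⟨KS, hKS⟩ : ∃ KS : Finset (Fin (D + 1) → ℤ),
    KS = ((KK.image Prod.fst) ∪ (KK.image Prod.snd)).filter fun κ => κ ≠ 0 := ⟨_, rfl⟩
  obtain ⟨B₇, H₇, hB₇, hH₇, hC2⟩ := unif KS (fun κ B H₀ => ∀ l : ℕ, H₀ ≤ l → ∀ xa xb : ℝ,
      (l : ℝ) ^ B ≤ xa → xa * l ≤ xb → ∀ Q : ℕ → Dat (D + 1), (∀ m, (Q m).Dg) →
      SlowA Q ((l : ℝ) ^ AR) → (∀ m : ℕ, xa < m → (m : ℝ) ≤ xb →
        ∃ j : ℤ, |dp κ (Q m).a - j / Q₀| ≤ (l : ℝ) ^ BR / m) →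
      ∑ m ∈ Ioc ⌊xa⌋₊ ⌊xb⌋₊, (1 / (m : ℝ)) * Wg l m ((Q m).fn f) ≤
        ε' * (Real.log xb - Real.log xa)) (by
      intro κ B B' H H' hB hBB hH hHH h l hl xa xb hxa hxb
      have hl1 : (1 : ℝ) ≤ l := by exact_mod_cast hH.trans (hHH.trans hl)
      exact h l (hHH.trans hl) xa xb ((Real.rpow_le_rpow_of_exponent_le hl1 hBB).trans hxa) hxb)
    (by
      intro κ hκ
      rw [hKS, mem_filter] at hκ
      obtain ⟨B, H₀, hB, h⟩ := hC2 b f hf κ Q₀ AR BR ε' hκ.2 hQ₀ (by rw [hAR]; linarith)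
        (by rw [hBR]; linarith) hε'0
      exact ⟨B, max H₀ 1, hB, le_max_right _ _, fun l hl => h l ((le_max_left _ _).trans hl)⟩)
  obtain ⟨W, hW⟩ : ∃ W : ℝ, W = (H₁ + H₂ + H₃ + H₄ + H₆ + H₇ + n₀ : ℝ) + |H₅| + E := ⟨_, rfl⟩
  obtain ⟨H₀, hH₀⟩ := step_large η W hη
  refine ⟨B₁ + B₂ + (B₃ + 2) + B₅ + B₆ + B₇ + 2, H₀, by positivity, ?_⟩
  intro H hH xa xb hxa hxb Q hQ hS
  obtain ⟨w1, w2, w3, w4, w5, w6⟩ := hH₀ H hH
  have hn : ∀ n : ℕ, (0 : ℝ) ≤ n := fun n => Nat.cast_nonneg n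
  have hWn : ∀ n : ℕ, (n : ℝ) ≤ W → n ≤ H := fun n h => by exact_mod_cast h.trans w1
  have h5a := abs_nonneg H₅
  have hH1' : H₁ ≤ H := hWn _ (by
    rw [hW]; linarith [hn H₂, hn H₃, hn H₄, hn H₆, hn H₇, hn n₀])
  have hH2' : H₂ ≤ H := hWn _ (by
    rw [hW]; linarith [hn H₁, hn H₃, hn H₄, hn H₆, hn H₇, hn n₀])
  have hH3' : H₃ ≤ H := hWn _ (by
    rw [hW]; linarith [hn H₁, hn H₂, hn H₄, hn H₆, hn H₇, hn n₀])
  have hH4' : H₄ ≤ H := hWn _ (by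
    rw [hW]; linarith [hn H₁, hn H₂, hn H₃, hn H₆, hn H₇, hn n₀])
  have hH5' : H₅ ≤ H := by
    refine le_trans ?_ w1
    rw [hW]
    linarith [hn H₁, hn H₂, hn H₃, hn H₄, hn H₆, hn H₇, hn n₀, le_abs_self H₅]
  have hEH : E ≤ H := by
    refine le_trans ?_ w1
    rw [hW]
    linarith [hn H₁, hn H₂, hn H₃, hn H₄, hn H₆, hn H₇, hn n₀]
  have hH0 : (0 : ℝ) < H := by linarith
  have hH1 : (1 : ℝ) ≤ H := by linarith
  have hpos : ∀ y : ℝ, 0 < (H : ℝ) ^ y := fun y => Real.rpow_pos_of_pos hH0 y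
  have hxa1 : 1 ≤ xa := (Real.one_le_rpow hH1 (by positivity)).trans hxa
  by_contra hcon
  replace hcon := lt_of_not_ge hcon
  have hxa0 : 0 < xa := by linarith
  have hxab : xa ≤ xb := by
    refine le_trans ?_ hxb
    calc xa = xa * 1 := (mul_one _).symm
      _ ≤ xa * H := by gcongr
  have hlx : 0 ≤ Real.log xb - Real.log xa := by
    have := Real.log_le_log hxa0 hxab
    linarith
  obtain ⟨ya, yb, hya, hyb, hl1, hl2, hyab, hsum⟩ := hWIN ε xa xb (Real.log H)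
    (fun n => Wg H n ((Q n).fn f)) hxa1 (by linarith) (by rw [Real.exp_log hH0]; exact hxb)
    (lt_of_le_of_lt (mul_le_mul_of_nonneg_right hεε hlx) hcon)
  have hya1 : 1 ≤ ya := hxa1.trans hya
  have hya0 : 0 < ya := by linarith
  have hyb0 : 0 < yb := by linarith
  obtain ⟨Λ, hΛ⟩ : ∃ Λ : ℝ, Λ = Real.log yb - Real.log ya := ⟨_, rfl⟩
  have hΛ1 : 1 ≤ Λ := by rw [hΛ]; linarith
  have hyH : ya * H ≤ yb := by
    rw [← Real.log_le_log_iff (by positivity) hyb0, Real.log_mul hya0.ne' hH0.ne']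
    linarith
  have hyH2 : yb ≤ ya * (H : ℝ) ^ 2 := by
    rw [← Real.log_le_log_iff hyb0 (by positivity), Real.log_mul hya0.ne' (by positivity),
      Real.log_pow]
    push_cast
    linarith
  have hyB : ∀ y : ℝ, y ≤ B₁ + B₂ + (B₃ + 2) + B₅ + B₆ + B₇ + 2 → (H : ℝ) ^ y ≤ ya :=
    fun y hy => (Real.rpow_le_rpow_of_exponent_le hH1 hy).trans (hxa.trans hya)
  -- the lower level
  have hev : ∀ (X : Dat (D + 1)) (m : ℕ), ‖X.fn f m‖ ≤ 1 := by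
    intro X m
    unfold Dat.fn
    rw [norm_mul, norm_ee, one_mul]
    exact hf.le _
  obtain ⟨hLs, hD⟩ := hD H hH1'
  have hD := hD (Dat (D + 1)) (fun X => X.fn f) hev ya yb (hyB _ (by linarith)) hyH Q hS hsum.le
  obtain ⟨l, hl⟩ : ∃ l : ℕ, l = ⌊η * (H : ℝ) ^ (1 - 1 / 8 : ℝ)⌋₊ := ⟨_, rfl⟩
  rw [← hl] at hD
  have hlb : (H : ℝ) ^ (1 / 2 : ℝ) ≤ l := by
    have := Nat.lt_floor_add_one (η * (H : ℝ) ^ (1 - 1 / 8 : ℝ))
    rw [← hl] at this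
    linarith
  have hlH : l ≤ H := by
    rw [hl]
    refine Nat.floor_le_of_le ?_
    calc η * (H : ℝ) ^ (1 - 1 / 8 : ℝ) ≤ 1 * (H : ℝ) ^ (1 : ℝ) := by
          gcongr
          norm_num
      _ = (H : ℕ) := by rw [one_mul, Real.rpow_one]
  have hlHR : (l : ℝ) ≤ H := by exact_mod_cast hlH
  have hl1R : (1 : ℝ) ≤ l := (Real.one_le_rpow hH1 (by norm_num)).trans hlb
  have hl1N : 1 ≤ l := by exact_mod_cast hl1R
  have hlW : ∀ n : ℕ, (n : ℝ) ≤ W → n ≤ l := fun n h => by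
    exact_mod_cast h.trans (w4.trans hlb)
  have hn₀l : n₀ ≤ l := hlW _ (by
    rw [hW]; linarith [hn H₁, hn H₂, hn H₃, hn H₄, hn H₆, hn H₇])
  have hH₆l : H₆ ≤ l := hlW _ (by
    rw [hW]; linarith [hn H₁, hn H₂, hn H₃, hn H₄, hn n₀, hn H₇])
  have hH₇l : H₇ ≤ l := hlW _ (by
    rw [hW]; linarith [hn H₁, hn H₂, hn H₃, hn H₄, hn n₀, hn H₆])
  -- powers of `H` and powers of `l`
  have hHl : ∀ y : ℝ, 0 ≤ y → (H : ℝ) ^ y ≤ (l : ℝ) ^ (2 * y) := by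
    intro y hy
    calc (H : ℝ) ^ y = ((H : ℝ) ^ (1 / 2 : ℝ)) ^ (2 * y) := by
          rw [← Real.rpow_mul hH0.le]; congr 1; ring
      _ ≤ (l : ℝ) ^ (2 * y) := Real.rpow_le_rpow (hpos _).le hlb (by positivity)
  have hlHy : ∀ y : ℝ, 0 ≤ y → (l : ℝ) ^ y ≤ (H : ℝ) ^ y := fun y hy =>
    Real.rpow_le_rpow (by positivity) hlHR hy
  -- the pairs
  obtain ⟨K, hK⟩ : ∃ K : ℕ, K = ⌈(H : ℝ) ^ (A + 1)⌉₊ := ⟨_, rfl⟩
  obtain ⟨hNm, hNs⟩ := hSA H hH2' hLs (Dat (D + 1)) (fun X => X.fn f) hev ya yb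
    (hyB _ (by linarith)) hyH hyH2 Q hS l hl1N hlH hD
  rw [← hK] at hNm hNs
  obtain ⟨tau, htau⟩ : ∃ tau : ℝ, tau = (H : ℝ) ^ (B₃ + 1) / ya := ⟨_, rfl⟩
  have htau0 : 0 ≤ tau := by rw [htau]; have := hpos (B₃ + 1); positivity
  have hlo : ∀ (p : ℕ) (v : ℝ), lo (fun X : Dat (D + 1) => X.fn f) Q p v =
      ((Q ⌊(p : ℝ) * Real.exp v⌋₊).dil p).fn f := by
    intro p v
    funext m
    unfold lo
    rw [fn_dil]
  obtain ⟨Rel, hRel⟩ : ∃ Rel : Option KK → ℕ → ℕ → ℕ → Prop, Rel = fun θ p p' j =>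
    ∃ v : ℝ, cl K v = j ∧ CstA Q K p v ∧ CstA Q K p' v ∧
      RR b M E l tau KK θ ((Q ⌊(p : ℝ) * Real.exp v⌋₊).dil p)
        ((Q ⌊(p' : ℝ) * Real.exp v⌋₊).dil p') := ⟨_, rfl⟩
  obtain ⟨θ, pr, G, hGm, hG, hmass⟩ := hSB H hH3' hLs (Dat (D + 1)) (fun X => X.fn f) hev ya yb
    (hyB _ (by linarith)) hyH hyH2 Q l K hl1N hlH hK Rel (by
      intro p _ p' _ v n L hcp hcp' hL hmany
      rw [hlo, hlo] at hmany
      obtain ⟨θ, hθ⟩ := rel_of_many D b f M n₀ E c KK hPB H l L n B₃ ya tau hc hH1 hEH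
        (hyB _ (by linarith)) hya0 hlHR hn₀l htau hL _ _ (dil_Dg p _ (hQ _)) (dil_Dg p' _ (hQ _))
        hmany
      refine ⟨θ, ?_⟩
      rw [hRel]
      exact ⟨v, rfl, hcp, hcp', hθ⟩) hNm hNs
  -- the new window
  have hlog8 : Real.log ((H : ℝ) ^ (1 / 8 : ℝ)) = 1 / 8 * Real.log H := Real.log_rpow hH0 _
  obtain ⟨za, hza⟩ : ∃ za : ℝ, za = ya / (2 * (H : ℝ) ^ (1 / 8 : ℝ)) := ⟨_, rfl⟩
  have hP8 := hpos (1 / 8)
  have hzaB : ∀ y : ℝ, y ≤ B₁ + B₂ + (B₃ + 2) + B₅ + B₆ + B₇ + 1 → (H : ℝ) ^ y ≤ za := by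
    intro y hy
    rw [hza, le_div_iff₀ (by positivity)]
    calc (H : ℝ) ^ y * (2 * (H : ℝ) ^ (1 / 8 : ℝ)) ≤ (H : ℝ) ^ y * H := by
          have := hpos y
          gcongr
      _ = (H : ℝ) ^ (y + 1) := by rw [Real.rpow_add hH0, Real.rpow_one]
      _ ≤ ya := hyB _ (by linarith)
  have hza1 : 1 ≤ za := by
    have := hzaB 0 (by positivity)
    rwa [Real.rpow_zero] at this
  have hza0 : 0 < za := by linarith
  have hzaya : za ≤ ya := by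
    rw [hza]
    refine div_le_self hya0.le ?_
    have : 1 ≤ (H : ℝ) ^ (1 / 8 : ℝ) := Real.one_le_rpow hH1 (by norm_num)
    linarith
  have hPq : ∀ q ∈ PPs H κ₁ (1 / 8), 1 ≤ q ∧ (q : ℝ) ≤ (H : ℝ) ^ (1 / 8 : ℝ) := by
    intro q hq
    unfold PPs at hq
    rw [mem_filter, mem_Icc] at hq
    exact ⟨hq.2.1.one_lt.le, (Nat.le_floor_iff (hpos _).le).1 hq.1.2⟩
  have hKb : (K : ℝ) + 2 ≤ (l : ℝ) ^ AR := by
    have h1 : (K : ℝ) ≤ (H : ℝ) ^ (A + 1) + 1 := by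
      rw [hK]
      exact (Nat.ceil_lt_add_one (hpos _).le).le
    have h2 : 1 ≤ (H : ℝ) ^ (A + 1) := Real.one_le_rpow hH1 (by linarith)
    have h3 : (H : ℝ) ^ (A + 2) = H * (H : ℝ) ^ (A + 1) := by
      rw [show A + 2 = 1 + (A + 1) by ring, Real.rpow_add hH0, Real.rpow_one]
    have h4 : 4 * (H : ℝ) ^ (A + 1) ≤ H * (H : ℝ) ^ (A + 1) := by gcongr
    rw [hAR]
    refine le_trans ?_ (hHl (A + 2) (by linarith))
    rw [h3]
    linarith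
  have hK1 : 1 ≤ K := by
    rw [hK]
    exact Nat.ceil_pos.2 (hpos _)
  have hlogz : Real.log za = Real.log ya - (Real.log 2 + 1 / 8 * Real.log H) := by
    rw [hza, Real.log_div hya0.ne' (by positivity), Real.log_mul two_ne_zero hP8.ne', hlog8]
  have hlog2 : Real.log 2 ≤ 1 := by
    have := Real.log_two_lt_d9
    linarith
  have hw : Real.log yb - Real.log za ≤ 3 * Λ := by
    rw [hlogz, hΛ]
    rw [hΛ] at hΛ1
    linarith
  have hzl : za * l ≤ yb := by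
    calc za * l ≤ ya * H := by gcongr
      _ ≤ yb := hyH
  -- the last step, for a property `P` of the data
  have key : ∀ (P : Dat (D + 1) → Prop) (pr' : ℕ → ℕ) (S : Set ℝ), P ⟨0, 0, 0⟩ →
      MeasurableSet S → δ₆ * Λ ≤ (volume S).toReal →
      (∀ u ∈ S, pr' (cl K u) ∈ PPs H κ₁ (1 / 8) ∧
        GoodA (fun X : Dat (D + 1) => X.fn f) Q K l ya yb e (pr' (cl K u)) u ∧
        P ((Q ⌊((pr' (cl K u) : ℕ) : ℝ) * Real.exp u⌋₊).dil (pr' (cl K u)))) →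
      (∀ Q' : ℕ → Dat (D + 1), SlowA Q' ((l : ℝ) ^ AR) → (∀ m, P (Q' m)) →
        ∑ m ∈ Ioc ⌊za⌋₊ ⌊yb⌋₊, (1 / (m : ℝ)) * Wg l m ((Q' m).fn f) ≤
          ε' * (Real.log yb - Real.log za)) → False :=
    last_step hDESA D f H κ₁ ya yb za e δ₆ Λ ε' AR l K Q hya0 hyb0 hza hza1 hP8 hPq hl1N hK1
      hKb he0 hw hε' hδ₆0 (by linarith)
  -- a relation for one prime
  have key2 : ∀ (κ : Fin (D + 1) → ℤ) (pr' : ℕ → ℕ) (S : Set ℝ), κ ∈ KS →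
      MeasurableSet S → δ₆ * Λ ≤ (volume S).toReal →
      (∀ u ∈ S, pr' (cl K u) ∈ PPs H κ₁ (1 / 8) ∧
        GoodA (fun X : Dat (D + 1) => X.fn f) Q K l ya yb e (pr' (cl K u)) u ∧
        ∃ j : ℤ, |dp κ ((Q ⌊((pr' (cl K u) : ℕ) : ℝ) * Real.exp u⌋₊).dil (pr' (cl K u))).a -
          j / Q₀| ≤ ((H : ℝ) ^ B₅ + 1) * tau) → False := by
    intro κ pr' S hκ hSm hSv hSu
    refine key (fun X => X.Dg ∧ ∃ j : ℤ, |dp κ X.a - j / Q₀| ≤ ((H : ℝ) ^ B₅ + 1) * tau) pr' S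
      ⟨by unfold Dat.Dg; simp, 0, ?_⟩ hSm hSv (fun u hu => ?_) (fun Q' hQ's hQ'P => ?_)
    · rw [dp_zero_right]
      have := hpos B₅
      simp only [Int.cast_zero, zero_div, sub_zero, abs_zero]
      positivity
    · obtain ⟨g1, g2, g3⟩ := hSu u hu
      exact ⟨g1, g2, dil_Dg _ _ (hQ _), g3⟩
    · refine hC2 κ hκ l hH₇l za yb ((hlHy _ hB₇).trans (hzaB _ (by linarith))) hzl Q'
        (fun m => (hQ'P m).1) hQ's (fun m hm1 hm2 => ?_)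
      obtain ⟨j, hj⟩ := (hQ'P m).2
      exact ⟨j, hj.trans (tol H l B₃ B₅ BR ya yb tau m (by linarith) hB₃ hB₅ hBR hHl hya0 hyH2
        (by linarith) hm2 htau)⟩
  -- the relation at a point of `G p`
  have hGu : ∀ p, ∀ u ∈ G p, RR b M E l tau KK θ ((Q ⌊(p : ℝ) * Real.exp u⌋₊).dil p)
      ((Q ⌊((pr (cl K u) : ℕ) : ℝ) * Real.exp u⌋₊).dil (pr (cl K u))) := by
    intro p u hu
    obtain ⟨_, _, _, _, g5⟩ := hG p u hu
    rw [hRel] at g5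
    obtain ⟨v, hv, c1, c2, hR⟩ := g5
    rw [c1 u hv.symm, c2 u hv.symm]
    exact hR
  obtain ⟨hwt0, hwt1⟩ := wt_sum _ hLs
  have hGI : ∀ p ∈ PPs H κ₁ (1 / 8), G p ⊆
      Set.Icc (Real.log ya - 1 / 8 * Real.log H) (Real.log yb) := by
    intro p hp u hu
    obtain ⟨_, _, ⟨g1, g2, _, _⟩, _, _⟩ := hG p u hu
    obtain ⟨hq1, hq2⟩ := hPq p hp
    have hq1R : (1 : ℝ) ≤ p := by exact_mod_cast hq1
    have h1 : 0 ≤ Real.log p := Real.log_nonneg hq1R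
    have h2 : Real.log p ≤ 1 / 8 * Real.log H := by
      rw [← hlog8]
      exact Real.log_le_log (by linarith) hq2
    exact ⟨by linarith, by linarith⟩
  have hδΛ : 0 < δ * Λ := by positivity
  have hδ₆δ : δ₆ * Λ ≤ δ * Λ := by
    have : δ₆ ≤ δ := by rw [hδ₆]; exact min_le_left _ _
    gcongr
  have hτle : tau ≤ ((H : ℝ) ^ B₅ + 1) * tau := by
    have := hpos B₅
    nlinarith
  have hQ₀R : (0 : ℝ) < Q₀ := by exact_mod_cast hQ₀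
  have hbase : ∀ x : ℝ, nd x ≤ tau → ∃ j : ℤ, |x - j / Q₀| ≤ ((H : ℝ) ^ B₅ + 1) * tau := by
    intro x hx
    refine ⟨round x * Q₀, ?_⟩
    refine le_trans ?_ hτle
    have : ((round x * Q₀ : ℤ) : ℝ) / Q₀ = round x := by
      push_cast
      field_simp
    rw [this]
    exact hx
  rw [← he] at hG
  rw [← hΛ] at hmass
  have hUm : MeasurableSet (⋃ p ∈ PPs H κ₁ (1 / 8), G p) :=
    Finset.measurableSet_biUnion _ fun p _ => hGm p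
  have hUl : δ * Λ ≤ (volume (⋃ p ∈ PPs H κ₁ (1 / 8), G p)).toReal :=
    union_large _ G _ _ _ _ hwt0 hwt1 hδΛ.le hGI hmass
  rcases θ with _ | ⟨k, hk⟩
  · -- the first case
    refine key (fun X => X.Dg ∧ Maj b M E l X.a) pr (⋃ p ∈ PPs H κ₁ (1 / 8), G p)
      ⟨by unfold Dat.Dg; simp, fun i => ?_⟩ hUm (hδ₆δ.trans hUl) (fun u hu => ?_)
      (fun Q' hQ's hQ'P => ?_)
    · rw [om_zero, mul_zero, nd_zero]
      positivity
    · rw [Set.mem_iUnion₂] at hu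
      obtain ⟨p, _, hu⟩ := hu
      obtain ⟨_, g2, _, g4, _⟩ := hG p u hu
      exact ⟨g2, g4, dil_Dg _ _ (hQ _), (hGu p u hu).2⟩
    · exact hC1 l hH₆l za yb ((hlHy _ hB₆).trans (hzaB _ (by linarith))) hzl Q'
        (fun m => (hQ'P m).1) hQ's (fun m => (hQ'P m).2)
  · by_cases h1 : k.1 = 0
    · -- only the reference prime
      have h2 : k.2 ≠ 0 := fun h2 => hKK k hk (Prod.ext h1 h2)
      refine key2 k.2 pr (⋃ p ∈ PPs H κ₁ (1 / 8), G p) ?_ hUm (hδ₆δ.trans hUl) (fun u hu => ?_)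
      · rw [hKS, mem_filter]
        exact ⟨mem_union_right _ (mem_image_of_mem _ hk), h2⟩
      · rw [Set.mem_iUnion₂] at hu
        obtain ⟨p, _, hu⟩ := hu
        obtain ⟨_, g2, _, g4, _⟩ := hG p u hu
        refine ⟨g2, g4, hbase _ ?_⟩
        have := hGu p u hu
        change nd (dp k.1 _ - dp k.2 _) ≤ tau at this
        rw [h1, dp_zero_left, zero_sub] at this
        rwa [nd_neg] at this
    by_cases h2 : k.2 = 0
    · -- only one prime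
      obtain ⟨p, hp, hpl⟩ := one_large _ G _ _ hwt0 hwt1 hδΛ hmass
      refine key2 k.1 (fun _ => p) (G p) ?_ (hGm p) (hδ₆δ.trans hpl) (fun u hu => ?_)
      · rw [hKS, mem_filter]
        exact ⟨mem_union_left _ (mem_image_of_mem _ hk), h1⟩
      · obtain ⟨_, _, g3, _, _⟩ := hG p u hu
        refine ⟨hp, g3, hbase _ ?_⟩
        have := hGu p u hu
        change nd (dp k.1 _ - dp k.2 _) ≤ tau at this
        rwa [h2, dp_zero_left, sub_zero] at this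
    -- the system
    obtain ⟨R, hR⟩ : ∃ R : ℕ → ℝ[X], R = fun n => Polynomial.C (dp k.1 (Q n).a) * Polynomial.X :=
      ⟨_, rfl⟩
    have hRs : SlowP R ((H : ℝ) ^ A) := by
      refine slowP_of ?_
      rw [hR]
      exact slow_map (fun X : Dat (D + 1) => Polynomial.C (dp k.1 X.a) * Polynomial.X) hS
    have hRc : ∀ n, (R n).coeff 1 = dp k.1 (Q n).a := fun n => by rw [hR]; simp
    obtain ⟨bb, hbb⟩ : ∃ bb : ℝ → ℝ, bb = fun u =>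
      dp k.2 ((Q ⌊((pr (cl K u) : ℕ) : ℝ) * Real.exp u⌋₊).dil (pr (cl K u))).a := ⟨_, rfl⟩
    have hGk : ∀ p, ∀ u ∈ G p, ∃ j : ℤ, |(p : ℝ) ^ 1 * (((1 : ℕ) : ℝ) *
        (R ⌊(p : ℝ) * Real.exp u⌋₊).coeff 1) - bb u - j| ≤ tau := by
      intro p u hu
      have := hGu p u hu
      change nd (dp k.1 _ - dp k.2 _) ≤ tau at this
      obtain ⟨j, hj⟩ := exists_int_of_nd this
      refine ⟨j, ?_⟩
      rw [hRc, hbb]
      have e0 : (p : ℝ) ^ 1 * (((1 : ℕ) : ℝ) * dp k.1 (Q ⌊(p : ℝ) * Real.exp u⌋₊).a) =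
          dp k.1 ((Q ⌊(p : ℝ) * Real.exp u⌋₊).dil p).a := by
        unfold Dat.dil
        simp only [dp_smul]
        push_cast
        ring
      rw [e0]
      exact hj
    have hok := hOK H hH4' hLs 1 1 R bb G tau ya yb hya1 hyab.le htau0 hRs hGm (fun p u hu => by
      obtain ⟨g1, _, ⟨g2, g3, _, _⟩, _, _⟩ := hG p u hu
      exact ⟨g1, g2, g3, hGk p u hu⟩)
    have htauB : tau ≤ (H : ℝ) ^ (-B₅) := by
      rw [htau, div_le_iff₀ (by positivity)]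
      have h1 : (H : ℝ) ^ (B₃ + 1 + B₅) ≤ ya := hyB _ (by linarith)
      calc (H : ℝ) ^ (B₃ + 1) = (H : ℝ) ^ (-B₅) * (H : ℝ) ^ (B₃ + 1 + B₅) := by
            rw [← Real.rpow_add hH0]; congr 1; ring
        _ ≤ (H : ℝ) ^ (-B₅) * ya := by
            have := hpos (-B₅)
            gcongr
    have hRI' := hRI H hH5' _ _ hok le_rfl htauB (by
      show δ / 2 * (Real.log yb - (Real.log ya - Real.log ((H : ℝ) ^ (1 / 8 : ℝ)))) ≤ _
      rw [hΛ] at hmass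
      refine le_trans ?_ hmass
      rw [hlog8]
      have h1 : Real.log yb - (Real.log ya - 1 / 8 * Real.log H) ≤
          2 * (Real.log yb - Real.log ya) := by linarith
      calc δ / 2 * (Real.log yb - (Real.log ya - 1 / 8 * Real.log H)) ≤
            δ / 2 * (2 * (Real.log yb - Real.log ya)) := by gcongr
        _ = _ := by ring)
    obtain ⟨q, hqP, S, hSm, hSG, hSv, hSb⟩ := hRI'
    have hSG' : S ⊆ G q := hSG
    have hSb' : ∀ u ∈ S, ∃ j : ℤ, |bb u - j / Q₀| ≤ (H : ℝ) ^ B₅ * tau := hSb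
    have hSv' : c₅ * (Real.log yb - (Real.log ya - Real.log ((H : ℝ) ^ (1 / 8 : ℝ)))) ≤
      (volume S).toReal := hSv
    have hqPP : q ∈ PPs H κ₁ (1 / 8) := hqP
    refine key2 k.1 (fun _ => q) S ?_ hSm ?_ (fun u hu => ?_)
    · rw [hKS, mem_filter]
      exact ⟨mem_union_left _ (mem_image_of_mem _ hk), h1⟩
    · refine le_trans ?_ hSv'
      rw [hlog8]
      have h3 : δ₆ ≤ c₅ := by rw [hδ₆]; exact min_le_right _ _
      calc δ₆ * Λ ≤ c₅ * Λ := by gcongr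
        _ ≤ c₅ * (Real.log yb - (Real.log ya - 1 / 8 * Real.log H)) := by
            rw [hΛ]
            gcongr
            have : 0 ≤ Real.log H := by linarith
            linarith
    · obtain ⟨_, _, g3, _, _⟩ := hG q u (hSG' hu)
      refine ⟨hqPP, g3, ?_⟩
      obtain ⟨j, hj⟩ := hSb' u hu
      obtain ⟨i, hi⟩ := hGk q u (hSG' hu)
      refine ⟨j + i * Q₀, ?_⟩
      have e1 : dp k.1 ((Q ⌊(q : ℝ) * Real.exp u⌋₊).dil q).a - ((j + i * Q₀ : ℤ) : ℝ) / Q₀ =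
          ((q : ℝ) ^ 1 * (((1 : ℕ) : ℝ) * (R ⌊(q : ℝ) * Real.exp u⌋₊).coeff 1) - bb u - i) +
            (bb u - j / Q₀) := by
        rw [hRc]
        unfold Dat.dil
        simp only
        rw [dp_smul]
        push_cast
        field_simp
        ring
      show |dp k.1 ((Q ⌊(q : ℝ) * Real.exp u⌋₊).dil q).a - ((j + i * Q₀ : ℤ) : ℝ) / Q₀| ≤ _
      rw [e1]
      refine (abs_add_le _ _).trans ((add_le_add hi hj).trans (le_of_eq ?_))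
      ring

end Pool.Agent.NV
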