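import Mathlib
import Pool.Agent.Lib.NV.Defs

/-!
# Row NSZ of Theorem NV (MP_663568_nt): dimension zero.  (helper83)
-/

set_option autoImplicit false
open Finset MeasureTheory Polynomial

namespace Pool.Agent.NV

open Pool.Agent.Lib.MP_663568_nt Pool.Agent.Lib.MP_663568_nt.Katai
  Pool.Agent.Lib.MP_663568_nt.Nul Pool.Agent.SV Pool.Agent.VQ

theorem nsz : NSZ_stmt := by
  intro hV b f hf A ε hA hε
  obtain ⟨B, H₀, hB, hV⟩ := hV A ε hA hε
  refine ⟨B, H₀, hB, fun H hH xa xb hxa hxb Q hQ hS => ?_⟩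
  have hS' : SlowP (fun n => (Q n).C) ((H : ℝ) ^ A) := by
    intro j
    refine le_trans ?_ (hS j)
    classical
    simp only
    refine Nat.cast_le.mpr (card_le_card ?_)
    intro n hn
    simp only [mem_filter] at hn ⊢
    exact ⟨hn.1, fun h => hn.2 (by rw [h])⟩
  refine le_trans (sum_le_sum fun n _ => ?_) (hV H hH xa xb hxa hxb (fun n => (Q n).C) hQ hS')
  refine mul_le_mul_of_nonneg_left ?_ (by positivity)
  unfold Wg Wp
  refine div_le_div_of_nonneg_right ?_ (by positivity)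
  have h1 : ∀ h ∈ Icc 1 H, muC (n + h) * (Q n).fn f (n + h) =
      muC (n + h) * ee ((Q n).C.eval ((n : ℝ) + h)) * f 0 := by
    intro h _
    unfold Dat.fn
    rw [Subsingleton.elim (((n + h : ℕ) : ℝ) • (Q n).a + (Q n).y) 0]
    push_cast
    ring
  rw [sum_congr rfl h1, ← sum_mul, norm_mul]
  exact mul_le_of_le_one_right (norm_nonneg _) (hf.le 0)

end Pool.Agent.NV
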