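import Pool.Agent.Lib.NV.Defs

/-!
# Theorem NV (MP_663568_nt): row RES (helper68)
-/

set_option autoImplicit false
open Finset MeasureTheory Polynomial

namespace Pool.Agent.NV

open Pool.Agent.Lib.MP_663568_nt Pool.Agent.Lib.MP_663568_nt.Katai
  Pool.Agent.Lib.MP_663568_nt.Nul Pool.Agent.SV Pool.Agent.VQ

noncomputable section

namespace RESx

lemma bf_add_left {D : ℕ} (b : Fin D → Fin D → ℤ) (u v w : Fin D → ℝ) :
    bf b (u + v) w = bf b u w + bf b v w := by
  unfold bf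
  simp only [Pi.add_apply, ← Finset.sum_add_distrib]
  refine Finset.sum_congr rfl fun i _ => Finset.sum_congr rfl fun j _ => ?_
  ring

lemma bf_add_right {D : ℕ} (b : Fin D → Fin D → ℤ) (u v w : Fin D → ℝ) :
    bf b u (v + w) = bf b u v + bf b u w := by
  unfold bf
  simp only [Pi.add_apply, ← Finset.sum_add_distrib]
  refine Finset.sum_congr rfl fun i _ => Finset.sum_congr rfl fun j _ => ?_
  ring

lemma bf_smul_left {D : ℕ} (b : Fin D → Fin D → ℤ) (c : ℝ) (u v : Fin D → ℝ) :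
    bf b (c • u) v = c * bf b u v := by
  unfold bf
  simp only [Pi.smul_apply, smul_eq_mul, Finset.mul_sum]
  refine Finset.sum_congr rfl fun i _ => Finset.sum_congr rfl fun j _ => ?_
  ring

lemma bf_smul_right {D : ℕ} (b : Fin D → Fin D → ℤ) (c : ℝ) (u v : Fin D → ℝ) :
    bf b u (c • v) = c * bf b u v := by
  unfold bf
  simp only [Pi.smul_apply, smul_eq_mul, Finset.mul_sum]
  refine Finset.sum_congr rfl fun i _ => Finset.sum_congr rfl fun j _ => ?_
  ring

/-- the vectors orthogonal to `κ` -/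
def Fv {D : ℕ} (i : Fin (D + 1)) (κ : Fin (D + 1) → ℤ) (j : Fin D) : Fin (D + 1) → ℤ :=
  fun k => (if k = i.succAbove j then κ i else 0) - (if k = i then κ (i.succAbove j) else 0)

/-- the parametrisation of the orthogonal space of `κ` -/
def U {D : ℕ} (i : Fin (D + 1)) (κ : Fin (D + 1) → ℤ) (s : Fin D → ℝ) : Fin (D + 1) → ℝ :=
  fun k => ∑ j, s j * (Fv i κ j k : ℝ)

/-- the same for integral vectors -/
def Uz {D : ℕ} (i : Fin (D + 1)) (κ : Fin (D + 1) → ℤ) (s : Fin D → ℤ) : Fin (D + 1) → ℤ :=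
  fun k => ∑ j, s j * Fv i κ j k

lemma U_add {D : ℕ} (i : Fin (D + 1)) (κ : Fin (D + 1) → ℤ) (s t : Fin D → ℝ) :
    U i κ (s + t) = U i κ s + U i κ t := by
  funext k
  simp only [U, Pi.add_apply, ← Finset.sum_add_distrib]
  exact Finset.sum_congr rfl fun j _ => by ring

lemma U_smul {D : ℕ} (i : Fin (D + 1)) (κ : Fin (D + 1) → ℤ) (c : ℝ) (s : Fin D → ℝ) :
    U i κ (c • s) = c • U i κ s := by
  funext k
  simp only [U, Pi.smul_apply, smul_eq_mul, Finset.mul_sum]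
  exact Finset.sum_congr rfl fun j _ => by ring

lemma U_ic {D : ℕ} (i : Fin (D + 1)) (κ : Fin (D + 1) → ℤ) (s : Fin D → ℤ) :
    U i κ (ic s) = ic (Uz i κ s) := by
  funext k
  simp only [U, Uz, ic]
  push_cast
  rfl

/-- the form at the lower level -/
def bl {D : ℕ} (b : Fin (D + 1) → Fin (D + 1) → ℤ) (i : Fin (D + 1)) (κ : Fin (D + 1) → ℤ) :
    Fin D → Fin D → ℤ := fun j k => ∑ p, ∑ q, b p q * (Fv i κ j p * Fv i κ k q)

lemma bf_U {D : ℕ} (b : Fin (D + 1) → Fin (D + 1) → ℤ) (i : Fin (D + 1)) (κ : Fin (D + 1) → ℤ)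
    (s t : Fin D → ℝ) : bf b (U i κ s) (U i κ t) = bf (bl b i κ) s t := by
  unfold bf bl U
  push_cast
  calc ∑ p, ∑ q, (b p q : ℝ) * ((∑ j, s j * (Fv i κ j p : ℝ)) * ∑ k, t k * (Fv i κ k q : ℝ))
      = ∑ p, ∑ q, ∑ j, ∑ k, (b p q : ℝ) * ((Fv i κ j p : ℝ) * (Fv i κ k q : ℝ)) * (s j * t k) := by
        refine Finset.sum_congr rfl fun p _ => Finset.sum_congr rfl fun q _ => ?_
        rw [Finset.sum_mul_sum, Finset.mul_sum]
        refine Finset.sum_congr rfl fun j _ => ?_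
        rw [Finset.mul_sum]
        exact Finset.sum_congr rfl fun k _ => by ring
    _ = ∑ p, ∑ j, ∑ q, ∑ k, (b p q : ℝ) * ((Fv i κ j p : ℝ) * (Fv i κ k q : ℝ)) * (s j * t k) :=
        Finset.sum_congr rfl fun p _ => Finset.sum_comm
    _ = ∑ j, ∑ p, ∑ q, ∑ k, (b p q : ℝ) * ((Fv i κ j p : ℝ) * (Fv i κ k q : ℝ)) * (s j * t k) :=
        Finset.sum_comm
    _ = ∑ j, ∑ p, ∑ k, ∑ q, (b p q : ℝ) * ((Fv i κ j p : ℝ) * (Fv i κ k q : ℝ)) * (s j * t k) :=
        Finset.sum_congr rfl fun j _ => Finset.sum_congr rfl fun p _ => Finset.sum_comm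
    _ = ∑ j, ∑ k, ∑ p, ∑ q, (b p q : ℝ) * ((Fv i κ j p : ℝ) * (Fv i κ k q : ℝ)) * (s j * t k) :=
        Finset.sum_congr rfl fun j _ => Finset.sum_comm
    _ = _ := by
        refine Finset.sum_congr rfl fun j _ => Finset.sum_congr rfl fun k _ => ?_
        rw [Finset.sum_mul]
        refine Finset.sum_congr rfl fun p _ => ?_
        rw [Finset.sum_mul]

lemma U_surj {D : ℕ} {i : Fin (D + 1)} {κ : Fin (D + 1) → ℤ} (hi : κ i ≠ 0) {v : Fin (D + 1) → ℝ}
    (hv : dp κ v = 0) : U i κ (fun j => v (i.succAbove j) / κ i) = v := by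
  have hi' : (κ i : ℝ) ≠ 0 := by exact_mod_cast hi
  funext k
  rcases Fin.eq_self_or_eq_succAbove i k with h | ⟨j', h⟩
  · have h1 : (κ i : ℝ) * v i + ∑ j, (κ (i.succAbove j) : ℝ) * v (i.succAbove j) = 0 := by
      rw [← Fin.sum_univ_succAbove (fun k => (κ k : ℝ) * v k) i]
      exact hv
    rw [h]
    have h2 : ∀ j : Fin D, v (i.succAbove j) / κ i * ((Fv i κ j i : ℤ) : ℝ)
        = -((κ (i.succAbove j) : ℝ) * v (i.succAbove j)) / κ i := by
      intro j
      unfold Fv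
      rw [if_neg (Fin.succAbove_ne i j).symm, if_pos rfl]
      push_cast
      field_simp
      ring
    unfold U
    simp only [h2]
    rw [← Finset.sum_div, Finset.sum_neg_distrib, div_eq_iff hi']
    linarith
  · rw [h]
    unfold U
    rw [Finset.sum_eq_single j']
    · unfold Fv
      rw [if_pos rfl, if_neg (Fin.succAbove_ne i j')]
      push_cast
      field_simp
      ring
    · intro j _ hj
      unfold Fv
      rw [if_neg (fun h => hj (Fin.succAbove_right_injective h).symm), if_neg (Fin.succAbove_ne i j')]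
      push_cast
      ring
    · intro h
      exact absurd (Finset.mem_univ _) h

lemma continuous_ee : Continuous ee := by
  unfold ee
  fun_prop

/-- the function at the lower level -/
def gf {D : ℕ} (b : Fin (D + 1) → Fin (D + 1) → ℤ) (f : (Fin (D + 1) → ℝ) → ℂ) (i : Fin (D + 1))
    (κ : Fin (D + 1) → ℤ) (g : Fin (D + 1) → ℝ) (s : Fin D → ℝ) : ℂ :=
  ee (bf b g (U i κ s)) * f (g + U i κ s)

lemma gf_qp {D : ℕ} {b : Fin (D + 1) → Fin (D + 1) → ℤ} {f : (Fin (D + 1) → ℝ) → ℂ} (hf : QP b f)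
    (i : Fin (D + 1)) (κ : Fin (D + 1) → ℤ) (g : Fin (D + 1) → ℝ) : QP (bl b i κ) (gf b f i κ g) := by
  have hU : Continuous (U i κ) := by
    unfold U
    fun_prop
  have hbf : Continuous fun s => bf b g (U i κ s) := by
    unfold bf
    fun_prop
  refine ⟨?_, fun s => ?_, fun s n => ?_⟩
  · exact (continuous_ee.comp hbf).mul (hf.cont.comp (continuous_const.add hU))
  · unfold gf
    rw [norm_mul, norm_ee, one_mul]
    exact hf.le _
  · unfold gf
    rw [U_add, U_ic, ← add_assoc, hf.add, ← mul_assoc, ← ee_add, ← mul_assoc, ← ee_add]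
    congr 2
    rw [bf_add_right, bf_add_left b g (U i κ s), ← U_ic, bf_U]
    ring

end RESx

open RESx in
theorem res : RES_stmt := by
  intro hTW D b f hf κ Q₀ ε hκ hQ hε
  obtain ⟨i, hi⟩ : ∃ i, κ i ≠ 0 := by
    by_contra h
    push Not at h
    exact hκ (funext h)
  obtain ⟨δ, hδ, hTW⟩ := hTW (D + 1) b f hf ε hε
  obtain ⟨G, hG⟩ := exists_nat_gt (1 / δ)
  have hG0 : (0 : ℝ) < G := lt_trans (by positivity) hG
  have hG1 : 1 / (G : ℝ) ≤ δ := by
    rw [div_le_iff₀ hG0]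
    rw [div_lt_iff₀ hδ] at hG
    linarith
  -- the modulus
  set S : ℤ := ∑ k, κ k ^ 2 with hS
  have hS0 : 0 < S := by
    refine lt_of_lt_of_le (by positivity : (0 : ℤ) < κ i ^ 2) ?_
    exact Finset.single_le_sum (f := fun k => κ k ^ 2) (fun k _ => sq_nonneg _) (Finset.mem_univ i)
  have hSn : ((S.toNat : ℕ) : ℤ) = S := Int.toNat_of_nonneg hS0.le
  set M : ℕ := Q₀ * S.toNat with hM
  have hM1 : 1 ≤ M := by
    have : 1 ≤ S.toNat := by omega
    exact Nat.mul_pos hQ this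
  have hM0 : (0 : ℝ) < M := by exact_mod_cast hM1
  have hMR : (M : ℝ) = Q₀ * (S : ℝ) := by
    rw [hM]
    push_cast
    congr 1
    exact_mod_cast hSn
  -- the grid
  set e := Fintype.equivFin (Fin (D + 1) → Fin G) with he
  refine ⟨M, Fintype.card (Fin (D + 1) → Fin G), bl b i κ, fun t =>
    if h : t < Fintype.card (Fin (D + 1) → Fin G) then
      gf b f i κ (fun k => ((e.symm ⟨t, h⟩ k : ℕ) : ℝ) / G) else gf b f i κ 0, hM1, fun t => ?_, ?_⟩
  · beta_reduce
    split_ifs with h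
    · exact gf_qp hf i κ _
    · exact gf_qp hf i κ _
  intro X hX hj r hr
  obtain ⟨j, hj⟩ := hj
  -- the base point
  set y1 : Fin (D + 1) → ℝ := (r : ℝ) • X.a + X.y with hy1
  set y0 : Fin (D + 1) → ℝ := fun k => Int.fract (y1 k) with hy0
  set N : Fin (D + 1) → ℤ := fun k => ⌊y1 k⌋ with hN
  have hyN : y1 = y0 + ic N := by
    funext k
    simp only [hy0, hN, ic, Pi.add_apply]
    exact (Int.fract_add_floor _).symm
  have hy0b : ∀ k, 0 ≤ y0 k ∧ y0 k < 1 := fun k => ⟨Int.fract_nonneg _, Int.fract_lt_one _⟩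
  have hlt : ∀ k, ⌊y0 k * G⌋₊ < G := fun k => by
    rw [Nat.floor_lt (mul_nonneg (hy0b k).1 hG0.le)]
    calc y0 k * G < 1 * G := by
          have := (hy0b k).2
          gcongr
      _ = G := one_mul _
  set tt : Fin (D + 1) → Fin G := fun k => ⟨⌊y0 k * G⌋₊, hlt k⟩ with htt
  set gt : Fin (D + 1) → ℝ := fun k => ((tt k : ℕ) : ℝ) / G with hgt
  set d : Fin (D + 1) → ℝ := y0 - gt with hd
  have hdb : ∀ k, |d k| ≤ δ := by
    intro k
    have h1 := Nat.floor_le (mul_nonneg (hy0b k).1 hG0.le)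
    have h2 := Nat.lt_floor_add_one (y0 k * G)
    have h3 : d k = (y0 k * G - ⌊y0 k * G⌋₊) / G := by
      simp only [hd, hgt, htt, Pi.sub_apply]
      field_simp
    rw [h3, abs_div, abs_of_pos hG0, abs_of_nonneg (by linarith)]
    refine le_trans ?_ hG1
    gcongr
    linarith
  -- the slope
  set n1 : Fin (D + 1) → ℤ := fun k => j * κ k with hn1
  set v : Fin (D + 1) → ℝ := (M : ℝ) • X.a - ic n1 with hv
  have hv0 : dp κ v = 0 := by
    have h1 : dp κ v = (M : ℝ) * dp κ X.a - j * (S : ℝ) := by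
      simp only [hv, dp, ic, hn1, hS, Pi.sub_apply, Pi.smul_apply, smul_eq_mul]
      push_cast
      rw [Finset.mul_sum, Finset.mul_sum, ← Finset.sum_sub_distrib]
      exact Finset.sum_congr rfl fun k _ => by ring
    have hQ0 : (0 : ℝ) < Q₀ := by exact_mod_cast hQ
    rw [h1, hj, hMR]
    field_simp
    ring
  set τ : Fin D → ℝ := fun j => v (i.succAbove j) / κ i with hτ
  have hUτ : U i κ τ = v := U_surj hi hv0
  set A2 : ℝ := -bf b v (ic n1) with hA2
  set A1 : ℝ := -bf b y0 (ic n1) - bf b v (ic N) - bf b d v - bf b gt v with hA1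
  set A0 : ℝ := -bf b y0 (ic N) - bf b d gt with hA0
  refine ⟨(e tt : ℕ), (e tt).2, ⟨(1 / (M : ℝ)) • τ, (-(r / (M : ℝ))) • τ, X.C +
    (C (A2 / M ^ 2) * Polynomial.X ^ 2 + C (A1 / M - 2 * r * A2 / M ^ 2) * Polynomial.X
      + C (A0 - A1 * r / M + A2 * r ^ 2 / M ^ 2))⟩, ?_, fun m hm => ?_⟩
  · exact Polynomial.natDegree_add_le_of_degree_le hX natDegree_quadratic_le
  have hgtt : (fun t => if h : t < Fintype.card (Fin (D + 1) → Fin G) then
      gf b f i κ (fun k => ((e.symm ⟨t, h⟩ k : ℕ) : ℝ) / G) else gf b f i κ 0) (e tt : ℕ)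
      = gf b f i κ gt := by
    beta_reduce
    rw [dif_pos (e tt).2]
    congr 1
    funext k
    simp only [hgt, Fin.eta, Equiv.symm_apply_apply]
  rw [hgtt]
  set μ : ℕ := m / M with hμ
  have hmμ : (m : ℝ) = M * μ + r := by
    have := Nat.div_add_mod m M
    rw [hm] at this
    exact_mod_cast this.symm
  have hpt : (m : ℝ) • X.a + X.y = (y0 + (μ : ℝ) • v) + ic (fun k => N k + μ * n1 k) := by
    have h1 : (m : ℝ) • X.a + X.y = y1 + (μ : ℝ) • (v + ic n1) := by
      rw [hy1, hv, hmμ, sub_add_cancel, smul_smul, add_smul]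
      rw [mul_comm (M : ℝ) (μ : ℝ)]
      abel
    have h2 : ic (fun k => N k + μ * n1 k) = ic N + (μ : ℝ) • ic n1 := by
      funext k
      simp only [ic, Pi.add_apply, Pi.smul_apply, smul_eq_mul]
      push_cast
      ring
    rw [h1, hyN, h2, smul_add]
    abel
  have hic : ic (fun k => N k + μ * n1 k) = ic N + (μ : ℝ) • ic n1 := by
    funext k
    simp only [ic, Pi.add_apply, Pi.smul_apply, smul_eq_mul]
    push_cast
    ring
  have hs : (m : ℝ) • ((1 / (M : ℝ)) • τ) + (-(r / (M : ℝ))) • τ = (μ : ℝ) • τ := by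
    rw [smul_smul, ← add_smul]
    congr 1
    rw [hmμ]
    field_simp
    ring
  have hC : (X.C + (C (A2 / M ^ 2) * Polynomial.X ^ 2 + C (A1 / M - 2 * r * A2 / M ^ 2) * Polynomial.X
      + C (A0 - A1 * r / M + A2 * r ^ 2 / M ^ 2))).eval (m : ℝ)
      = X.C.eval (m : ℝ) + (A0 + A1 * μ + A2 * μ ^ 2) := by
    simp only [eval_add, eval_mul, eval_C, eval_pow, eval_X]
    congr 1
    rw [hmμ]
    field_simp
    ring
  have hx : y0 + (μ : ℝ) • v = (gt + (μ : ℝ) • v) + d := by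
    rw [hd]
    abel
  have hUm : U i κ ((μ : ℝ) • τ) = (μ : ℝ) • v := by rw [U_smul, hUτ]
  have hph : A0 + A1 * μ + A2 * μ ^ 2
      = -bf b (y0 + (μ : ℝ) • v) (ic (fun k => N k + μ * n1 k))
        + (-bf b d (gt + (μ : ℝ) • v) + -bf b gt ((μ : ℝ) • v)) := by
    rw [hic, bf_add_left, bf_add_right, bf_add_right, bf_add_right, bf_smul_left, bf_smul_left,
      bf_smul_right, bf_smul_right, bf_smul_right, bf_smul_right, hA0, hA1, hA2]
    ring
  have hmain := hTW (gt + (μ : ℝ) • v) d hdb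
  unfold Dat.fn
  dsimp only
  rw [hC, hs, ee_add, hph, ee_add, ee_add, hpt, hf.add]
  unfold gf
  rw [hUm]
  have h1 : ee (-bf b gt ((μ : ℝ) • v)) * ee (bf b gt ((μ : ℝ) • v)) = 1 := by
    rw [← ee_add, neg_add_cancel]
    simpa using ee_int 0
  have h2 : ee (X.C.eval (m : ℝ)) *
        (ee (-bf b (y0 + (μ : ℝ) • v) (ic (fun k => N k + μ * n1 k))) * f (y0 + (μ : ℝ) • v))
      - ee (X.C.eval (m : ℝ)) *
        (ee (-bf b (y0 + (μ : ℝ) • v) (ic (fun k => N k + μ * n1 k))) *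
          (ee (-bf b d (gt + (μ : ℝ) • v)) * ee (-bf b gt ((μ : ℝ) • v)))) *
        (ee (bf b gt ((μ : ℝ) • v)) * f (gt + (μ : ℝ) • v))
      = ee (X.C.eval (m : ℝ)) * ee (-bf b (y0 + (μ : ℝ) • v) (ic (fun k => N k + μ * n1 k))) *
        (f (gt + (μ : ℝ) • v + d) - ee (-bf b d (gt + (μ : ℝ) • v)) * f (gt + (μ : ℝ) • v)) := by
    rw [← hx]
    linear_combination (-(ee (X.C.eval (m : ℝ)) *
      ee (-bf b (y0 + (μ : ℝ) • v) (ic (fun k => N k + μ * n1 k))) *
      ee (-bf b d (gt + (μ : ℝ) • v)) * f (gt + (μ : ℝ) • v))) * h1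
  rw [h2, norm_mul, norm_mul, norm_ee, norm_ee, one_mul, one_mul]
  exact hmain

end

end Pool.Agent.NV
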