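import Mathlib
import Pool.Agent.Lib.NV.Defs

/-!
Theorem NV (MP_663568_nt), row SHIFT: van der Corput's inequality (helper69).
-/

set_option autoImplicit false
open Finset

namespace Pool.Agent.NV

namespace ShiftX

/-- the correlation sum -/
noncomputable def S (g : ℕ → ℂ) (n L r : ℕ) : ℂ :=
  ∑ m ∈ Ico n (n + L), g (m + r) * (starRingEnd ℂ) (g m)

lemma norm_le_one {g : ℕ → ℂ} (hg : ∀ m, ‖g m‖ ≤ 1) (i j : ℕ) :
    ‖g i * (starRingEnd ℂ) (g j)‖ ≤ 1 := by
  rw [norm_mul, RCLike.norm_conj]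
  exact mul_le_one₀ (hg i) (norm_nonneg _) (hg j)

lemma sum_le_card {φ : ℕ → ℂ} (hφ : ∀ m, ‖φ m‖ ≤ 1) (s : Finset ℕ) : ‖∑ m ∈ s, φ m‖ ≤ #s := by
  refine (norm_sum_le _ _).trans ?_
  calc ∑ m ∈ s, ‖φ m‖ ≤ ∑ _m ∈ s, (1 : ℝ) := Finset.sum_le_sum fun m _ => hφ m
    _ = #s := by simp

lemma shift_le {g : ℕ → ℂ} (hg : ∀ m, ‖g m‖ ≤ 1) (n L r k : ℕ) :
    ‖∑ m ∈ Ico n (n + L), g (m + (k + r)) * (starRingEnd ℂ) (g (m + k))‖ ≤ ‖S g n L r‖ + 2 * k := by
  obtain ⟨φ, hφd⟩ : ∃ φ : ℕ → ℂ, φ = fun m => g (m + r) * (starRingEnd ℂ) (g m) := ⟨_, rfl⟩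
  have hφ : ∀ m, ‖φ m‖ ≤ 1 := by
    intro m
    rw [hφd]
    exact norm_le_one hg _ _
  have h1 : ∑ m ∈ Ico n (n + L), g (m + (k + r)) * (starRingEnd ℂ) (g (m + k))
      = ∑ m ∈ Ico (n + k) (n + L + k), φ m := by
    rw [← Finset.sum_Ico_add' φ n (n + L) k]
    refine Finset.sum_congr rfl fun m _ => ?_
    rw [hφd]
    beta_reduce
    rw [add_assoc]
  have h2 : S g n L r = ∑ m ∈ Ico n (n + L), φ m := by
    rw [hφd]
    rfl
  have h3 := Finset.sum_Ico_consecutive φ (show n ≤ n + k by omega) (show n + k ≤ n + L + k by omega)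
  have h4 := Finset.sum_Ico_consecutive φ (show n ≤ n + L by omega) (show n + L ≤ n + L + k by omega)
  have h5 : ∑ m ∈ Ico (n + k) (n + L + k), φ m
      = ∑ m ∈ Ico n (n + L), φ m + (∑ m ∈ Ico (n + L) (n + L + k), φ m - ∑ m ∈ Ico n (n + k), φ m) := by
    linear_combination h3 - h4
  have h6 := sum_le_card hφ (Ico (n + L) (n + L + k))
  have h7 := sum_le_card hφ (Ico n (n + k))
  rw [Nat.card_Ico] at h6 h7
  have e6 : n + L + k - (n + L) = k := by omega
  have e7 : n + k - n = k := by omega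
  rw [e6] at h6
  rw [e7] at h7
  rw [h1, h2, h5]
  refine (norm_add_le _ _).trans ?_
  have h8 := norm_sub_le (∑ m ∈ Ico (n + L) (n + L + k), φ m) (∑ m ∈ Ico n (n + k), φ m)
  linarith

lemma sum_diff_le (s : ℕ → ℝ) (hs : ∀ r, 0 ≤ s r) (l k : ℕ) :
    ∑ h ∈ (Icc 1 l).filter (fun h => k < h), s (h - k) ≤ ∑ r ∈ Icc 1 l, s r := by
  have h1 : Set.InjOn (fun h => h - k) ((Icc 1 l).filter (fun h => k < h) : Finset ℕ) := by
    intro a ha b hb hab
    simp only [coe_filter, mem_Icc, Set.mem_setOf_eq] at ha hb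
    simp only at hab
    omega
  rw [← Finset.sum_image (f := s) (g := fun h => h - k) h1]
  apply Finset.sum_le_sum_of_subset_of_nonneg
  · intro r hr
    simp only [mem_image, mem_filter, mem_Icc] at hr ⊢
    omega
  · intro r _ _
    exact hs r

lemma sum_diff_le' (s : ℕ → ℝ) (hs : ∀ r, 0 ≤ s r) (l k : ℕ) (hk : k ≤ l) :
    ∑ h ∈ (Icc 1 l).filter (fun h => h < k), s (k - h) ≤ ∑ r ∈ Icc 1 l, s r := by
  have h1 : Set.InjOn (fun h => k - h) ((Icc 1 l).filter (fun h => h < k) : Finset ℕ) := by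
    intro a ha b hb hab
    simp only [coe_filter, mem_Icc, Set.mem_setOf_eq] at ha hb
    simp only at hab
    omega
  rw [← Finset.sum_image (f := s) (g := fun h => k - h) h1]
  apply Finset.sum_le_sum_of_subset_of_nonneg
  · intro r hr
    simp only [mem_image, mem_filter, mem_Icc] at hr ⊢
    omega
  · intro r _ _
    exact hs r

/-- the expanded square -/
lemma square_le {g : ℕ → ℂ} (hg : ∀ m, ‖g m‖ ≤ 1) (n L l : ℕ) :
    ∑ m ∈ Ico n (n + L), ‖∑ h ∈ Icc 1 l, g (m + h)‖ ^ 2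
      ≤ l * L + 2 * l * (∑ r ∈ Icc 1 l, ‖S g n L r‖) + 2 * l * (l * l) := by
  have e1 : ((∑ m ∈ Ico n (n + L), ‖∑ h ∈ Icc 1 l, g (m + h)‖ ^ 2 : ℝ) : ℂ)
      = ∑ k ∈ Icc 1 l, ∑ h ∈ Icc 1 l,
        ∑ m ∈ Ico n (n + L), g (m + h) * (starRingEnd ℂ) (g (m + k)) := by
    push_cast
    have e2 : ∀ m, ((‖∑ h ∈ Icc 1 l, g (m + h)‖ : ℝ) : ℂ) ^ 2
        = ∑ k ∈ Icc 1 l, ∑ h ∈ Icc 1 l, g (m + h) * (starRingEnd ℂ) (g (m + k)) := by
      intro m
      rw [← Complex.mul_conj', map_sum, Finset.sum_mul_sum, Finset.sum_comm]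
    simp_rw [e2]
    rw [Finset.sum_comm]
    refine Finset.sum_congr rfl fun k _ => ?_
    rw [Finset.sum_comm]
  obtain ⟨s, hsd⟩ : ∃ s : ℕ → ℝ, s = fun r => ‖S g n L r‖ := ⟨_, rfl⟩
  have hs : ∀ r, 0 ≤ s r := by
    intro r
    rw [hsd]
    exact norm_nonneg _
  have hinner : ∀ k ∈ Icc 1 l, ∑ h ∈ Icc 1 l,
      ‖∑ m ∈ Ico n (n + L), g (m + h) * (starRingEnd ℂ) (g (m + k))‖
      ≤ L + 2 * (∑ r ∈ Icc 1 l, s r) + 2 * (l * l) := by
    intro k hk
    rw [mem_Icc] at hk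
    have hb : ∀ h ∈ Icc 1 l, ‖∑ m ∈ Ico n (n + L), g (m + h) * (starRingEnd ℂ) (g (m + k))‖
        ≤ (if h = k then (L : ℝ) else 0) + (if k < h then s (h - k) else 0)
          + (if h < k then s (k - h) else 0) + 2 * l := by
      intro h hh
      rw [mem_Icc] at hh
      have hl0 : (0 : ℝ) ≤ 2 * l := by positivity
      rcases lt_trichotomy h k with h1 | h1 | h1
      · rw [if_neg (by omega), if_neg (by omega), if_pos h1]
        have h2 := shift_le hg n L (k - h) h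
        have h3 : h + (k - h) = k := by omega
        rw [h3] at h2
        have h4 : ‖∑ m ∈ Ico n (n + L), g (m + h) * (starRingEnd ℂ) (g (m + k))‖
            = ‖∑ m ∈ Ico n (n + L), g (m + k) * (starRingEnd ℂ) (g (m + h))‖ := by
          rw [← RCLike.norm_conj (∑ m ∈ Ico n (n + L), g (m + k) * (starRingEnd ℂ) (g (m + h))), map_sum]
          congr 1
          refine Finset.sum_congr rfl fun m _ => ?_
          rw [map_mul, Complex.conj_conj, mul_comm]
        rw [h4, hsd]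
        have h5 : (h : ℝ) ≤ l := by exact_mod_cast hh.2
        linarith
      · subst h1
        rw [if_pos rfl, if_neg (lt_irrefl _)]
        have h2 := sum_le_card (φ := fun m => g (m + h) * (starRingEnd ℂ) (g (m + h)))
          (fun m => norm_le_one hg _ _) (Ico n (n + L))
        rw [Nat.card_Ico] at h2
        have h3 : n + L - n = L := by omega
        rw [h3] at h2
        linarith
      · rw [if_neg (by omega), if_pos h1, if_neg (by omega)]
        have h2 := shift_le hg n L (h - k) k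
        have h3 : k + (h - k) = h := by omega
        rw [h3] at h2
        rw [hsd]
        have h5 : (k : ℝ) ≤ l := by exact_mod_cast hk.2
        linarith
    refine (Finset.sum_le_sum hb).trans ?_
    rw [Finset.sum_add_distrib, Finset.sum_add_distrib, Finset.sum_add_distrib, ← Finset.sum_filter,
      ← Finset.sum_filter (fun h => k < h), ← Finset.sum_filter (fun h => h < k)]
    have h1 := sum_diff_le s hs l k
    have h2 := sum_diff_le' s hs l k hk.2
    have h3 : ∑ h ∈ (Icc 1 l).filter (fun h => h = k), (L : ℝ) ≤ L := by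
      rw [Finset.sum_const, nsmul_eq_mul]
      have : #((Icc 1 l).filter (fun h => h = k)) ≤ 1 := by
        apply Finset.card_le_one.mpr
        intro a ha b hb'
        rw [mem_filter] at ha hb'
        rw [ha.2, hb'.2]
      have h4 : ((#((Icc 1 l).filter (fun h => h = k)) : ℕ) : ℝ) ≤ 1 := by exact_mod_cast this
      have h5 : (0 : ℝ) ≤ L := by positivity
      nlinarith
    have h6 : ∑ _h ∈ Icc 1 l, (2 * (l : ℝ)) = 2 * (l * l) := by
      rw [Finset.sum_const, nsmul_eq_mul, Nat.card_Icc]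
      have : ((l + 1 - 1 : ℕ) : ℝ) = l := by norm_num
      rw [this]
      ring
    linarith
  have hnorm : ‖((∑ m ∈ Ico n (n + L), ‖∑ h ∈ Icc 1 l, g (m + h)‖ ^ 2 : ℝ) : ℂ)‖
      ≤ ∑ k ∈ Icc 1 l, (L + 2 * (∑ r ∈ Icc 1 l, s r) + 2 * (l * l) : ℝ) := by
    rw [e1]
    refine (norm_sum_le _ _).trans (Finset.sum_le_sum fun k hk => ?_)
    exact (norm_sum_le _ _).trans (hinner k hk)
  rw [Complex.norm_real, Real.norm_of_nonneg (Finset.sum_nonneg fun _ _ => by positivity),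
    Finset.sum_const, nsmul_eq_mul, Nat.card_Icc] at hnorm
  have e3 : ((l + 1 - 1 : ℕ) : ℝ) = l := by norm_num
  rw [e3, hsd] at hnorm
  refine hnorm.trans (le_of_eq ?_)
  ring

end ShiftX

open Classical ShiftX in
/-- van der Corput's inequality -/
theorem shift : SHIFT' := by
  intro c hc hc1
  refine ⟨c ^ 3 / 8, ⌈10 / c ^ 3⌉₊ + 1, by positivity, ?_, ?_⟩
  · have : c ^ 3 ≤ 1 := pow_le_one₀ hc.le hc1
    linarith
  intro l L n hl hlL g hg hmany
  have hc3 : 0 < c ^ 3 := by positivity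
  have hlr : 10 / c ^ 3 ≤ l := by
    have h1 : 10 / c ^ 3 ≤ ⌈10 / c ^ 3⌉₊ := Nat.le_ceil _
    have h2 : ((⌈10 / c ^ 3⌉₊ + 1 : ℕ) : ℝ) ≤ l := by exact_mod_cast hl
    push_cast at h2
    linarith
  have hl1 : 1 ≤ l := by omega
  have hl0 : (0 : ℝ) < l := by exact_mod_cast hl1
  have hL1 : 1 ≤ L := by nlinarith
  have hL0 : (0 : ℝ) < L := by exact_mod_cast hL1
  have hlLr : (l : ℝ) * l ≤ L := by exact_mod_cast hlL
  have h10 : 10 ≤ c ^ 3 * l := by
    rw [div_le_iff₀ hc3] at hlr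
    linarith
  -- lower bound of the square
  have hlow : c ^ 3 * l ^ 2 * L ≤ ∑ m ∈ Ico n (n + L), ‖∑ h ∈ Icc 1 l, g (m + h)‖ ^ 2 := by
    calc c ^ 3 * l ^ 2 * L = (c * L) * (c * l) ^ 2 := by ring
      _ ≤ (#((Ico n (n + L)).filter fun m : ℕ => c ≤ ‖∑ h ∈ Icc 1 l, g (m + h)‖ / l) : ℝ)
          * (c * l) ^ 2 := by gcongr
      _ = ∑ m ∈ (Ico n (n + L)).filter (fun m : ℕ => c ≤ ‖∑ h ∈ Icc 1 l, g (m + h)‖ / l),
          (c * l) ^ 2 := by rw [Finset.sum_const, nsmul_eq_mul]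
      _ ≤ ∑ m ∈ (Ico n (n + L)).filter (fun m : ℕ => c ≤ ‖∑ h ∈ Icc 1 l, g (m + h)‖ / l),
          ‖∑ h ∈ Icc 1 l, g (m + h)‖ ^ 2 := by
          refine Finset.sum_le_sum fun m hm => ?_
          rw [mem_filter] at hm
          have h1 := hm.2
          rw [le_div_iff₀ hl0] at h1
          gcongr
      _ ≤ _ := Finset.sum_le_sum_of_subset_of_nonneg (filter_subset _ _) fun _ _ _ => by positivity
  have hup := square_le hg n L l
  obtain ⟨W', hW⟩ : ∃ x : ℝ, x = ∑ r ∈ Icc 1 l, ‖S g n L r‖ := ⟨_, rfl⟩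
  rw [← hW] at hup
  have h1 : c ^ 3 * l ^ 2 * L ≤ l * L + 2 * l * W' + 2 * l * (l * l) := hlow.trans hup
  have h2 : c ^ 3 * l * L ≤ L + 2 * W' + 2 * L := by
    have h3 : l * (c ^ 3 * l * L) ≤ l * (L + 2 * W' + 2 * (l * l)) := by
      calc l * (c ^ 3 * l * L) = c ^ 3 * l ^ 2 * L := by ring
        _ ≤ _ := h1
        _ = l * (L + 2 * W' + 2 * (l * l)) := by ring
    have h4 := le_of_mul_le_mul_left h3 hl0
    linarith
  have h5 : c ^ 3 / 4 * l * L ≤ W' := by nlinarith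
  -- few large values give a small sum
  by_contra hneg
  push Not at hneg
  have hS1 : ∀ r, ‖S g n L r‖ ≤ L := by
    intro r
    have h6 := sum_le_card (φ := fun m => g (m + r) * (starRingEnd ℂ) (g m))
      (fun m => norm_le_one hg _ _) (Ico n (n + L))
    rw [Nat.card_Ico] at h6
    have h7 : n + L - n = L := by omega
    rw [h7] at h6
    exact h6
  have hneg' : (#((Icc 1 l).filter fun r : ℕ => c ^ 3 / 8 * L ≤ ‖S g n L r‖) : ℝ) < c ^ 3 / 8 * l := hneg
  have h8 : W' ≤ (#((Icc 1 l).filter fun r : ℕ => c ^ 3 / 8 * L ≤ ‖S g n L r‖) : ℝ) * L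
      + l * (c ^ 3 / 8 * L) := by
    rw [hW, ← Finset.sum_filter_add_sum_filter_not (Icc 1 l) (fun r : ℕ => c ^ 3 / 8 * L ≤ ‖S g n L r‖)]
    refine add_le_add ?_ ?_
    · calc _ ≤ ∑ _r ∈ (Icc 1 l).filter (fun r : ℕ => c ^ 3 / 8 * L ≤ ‖S g n L r‖), (L : ℝ) :=
            Finset.sum_le_sum fun r _ => hS1 r
        _ = _ := by rw [Finset.sum_const, nsmul_eq_mul]
    · calc _ ≤ ∑ _r ∈ (Icc 1 l).filter (fun r : ℕ => ¬ c ^ 3 / 8 * L ≤ ‖S g n L r‖),
            (c ^ 3 / 8 * L : ℝ) := by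
            refine Finset.sum_le_sum fun r hr => ?_
            rw [mem_filter] at hr
            exact (not_le.mp hr.2).le
        _ = (#((Icc 1 l).filter (fun r : ℕ => ¬ c ^ 3 / 8 * L ≤ ‖S g n L r‖)) : ℝ)
            * (c ^ 3 / 8 * L) := by rw [Finset.sum_const, nsmul_eq_mul]
        _ ≤ l * (c ^ 3 / 8 * L) := by
            have h9 : #((Icc 1 l).filter (fun r : ℕ => ¬ c ^ 3 / 8 * L ≤ ‖S g n L r‖)) ≤ l := by
              refine (Finset.card_filter_le _ _).trans ?_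
              rw [Nat.card_Icc]
              omega
            have h10 : ((#((Icc 1 l).filter (fun r : ℕ => ¬ c ^ 3 / 8 * L ≤ ‖S g n L r‖)) : ℕ) : ℝ)
                ≤ l := by exact_mod_cast h9
            gcongr
  have h11 : (#((Icc 1 l).filter fun r : ℕ => c ^ 3 / 8 * L ≤ ‖S g n L r‖) : ℝ) * L
      < c ^ 3 / 8 * l * L := by gcongr
  nlinarith

end Pool.Agent.NV
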