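import Mathlib
import Pool.Agent.Lib.NV.Defs
import Pool.Agent.Lib.SV.RD
import Pool.Agent.Lib.VQ.REG

/-!
# Row SUBA (MP_663568_nt, project NV): passage to shorter windows.  (helper26)
-/

set_option autoImplicit false
open Finset MeasureTheory Polynomial

namespace Pool.Agent.NV

open Pool.Agent.Lib.MP_663568_nt Pool.Agent.Lib.MP_663568_nt.Katai
  Pool.Agent.Lib.MP_663568_nt.Nul Pool.Agent.SV Pool.Agent.VQ

namespace SUBAx

noncomputable section

/-- The indicator of a change. -/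
def ch {α : Type} (Q : ℕ → α) (m : ℕ) : ℝ := by
  classical
  exact if Q (m + 1) ≠ Q m then 1 else 0

theorem ch_nonneg {α : Type} (Q : ℕ → α) (m : ℕ) : 0 ≤ ch Q m := by
  unfold ch
  split_ifs <;> norm_num

theorem block {α : Type} (Q : ℕ → α) {K : ℝ} (hQ : SlowA Q K) (J : ℕ) :
    ∑ m ∈ Ico (2 ^ J) (2 ^ (J + 1)), ch Q m / (m : ℝ) ≤ K / 2 ^ J := by
  classical
  have h1 := hQ J
  have h2 : ∑ m ∈ Ico (2 ^ J) (2 ^ (J + 1)), ch Q m / (m : ℝ) ≤
      ∑ m ∈ Ico (2 ^ J) (2 ^ (J + 1)), ch Q m / 2 ^ J := by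
    refine sum_le_sum fun m hm => ?_
    rw [mem_Ico] at hm
    have h3 : ((2 : ℝ) ^ J) ≤ m := by exact_mod_cast hm.1
    exact div_le_div_of_nonneg_left (ch_nonneg Q m) (by positivity) h3
  refine h2.trans ?_
  rw [← sum_div]
  have h3 : ∑ m ∈ Ico (2 ^ J) (2 ^ (J + 1)), ch Q m ≤ K := by
    refine le_trans (le_of_eq ?_) h1
    rw [card_eq_sum_ones, sum_filter]
    push_cast
    refine sum_congr rfl fun m _ => ?_
    unfold ch
    split_ifs <;> rfl
  exact div_le_div_of_nonneg_right h3 (by positivity)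

theorem slow_nonneg {α : Type} {Q : ℕ → α} {K : ℝ} (hQ : SlowA Q K) : 0 ≤ K := by
  classical
  have := hQ 0
  exact (Nat.cast_nonneg _).trans this

theorem changes {α : Type} (Q : ℕ → α) {K : ℝ} (hQ : SlowA Q K) {a : ℕ} (M : ℕ) (ha : 1 ≤ a) :
    ∑ m ∈ Ioc a M, ch Q m / (m : ℝ) ≤ 4 * K / a := by
  have hK := slow_nonneg hQ
  set j0 := Nat.log 2 a with hj0
  have h1 : 2 ^ j0 ≤ a := Nat.pow_log_le_self 2 (by omega)
  have h2 : a < 2 ^ (j0 + 1) := Nat.lt_pow_succ_log_self (by norm_num) a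
  have hD : ∀ J : ℕ, j0 ≤ J → ∑ m ∈ Ico (2 ^ j0) (2 ^ J), ch Q m / (m : ℝ) ≤
      K * (2 / 2 ^ j0 - 2 / 2 ^ J) := by
    intro J hJ
    induction J, hJ using Nat.le_induction with
    | base => simp
    | succ J hJ ih =>
      have e := Finset.sum_Ico_consecutive (fun m : ℕ => ch Q m / (m : ℝ))
        (Nat.pow_le_pow_right (by norm_num : 0 < 2) hJ)
        (Nat.pow_le_pow_right (by norm_num : 0 < 2) (Nat.le_succ J))
      have e2 := block Q hQ J
      rw [← e]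
      have e3 : K * (2 / 2 ^ j0 - 2 / 2 ^ J) + K / 2 ^ J = K * (2 / 2 ^ j0 - 2 / 2 ^ (J + 1)) := by
        rw [pow_succ]
        field_simp
        ring
      rw [← e3]
      exact add_le_add ih e2
  set J := max j0 (Nat.log 2 M + 1) with hJ
  have h3 : M < 2 ^ J := (Nat.lt_pow_succ_log_self (by norm_num) M).trans_le
    (Nat.pow_le_pow_right (by norm_num) (le_max_right _ _))
  have h4 : ∑ m ∈ Ioc a M, ch Q m / (m : ℝ) ≤ ∑ m ∈ Ico (2 ^ j0) (2 ^ J), ch Q m / (m : ℝ) := by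
    refine sum_le_sum_of_subset_of_nonneg ?_ fun m _ _ => div_nonneg (ch_nonneg Q m) (Nat.cast_nonneg _)
    intro m hm
    rw [mem_Ioc] at hm
    rw [mem_Ico]
    exact ⟨h1.trans hm.1.le, hm.2.trans_lt h3⟩
  refine h4.trans ((hD J (le_max_left _ _)).trans ?_)
  have ha0 : (0 : ℝ) < a := by exact_mod_cast (by omega : 0 < a)
  have h5 : (a : ℝ) < 2 * 2 ^ j0 := by
    have : (a : ℝ) < 2 ^ (j0 + 1) := by exact_mod_cast h2
    rw [pow_succ] at this
    linarith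
  have h6 : K * (2 / 2 ^ j0 - 2 / 2 ^ J) ≤ K * (2 / 2 ^ j0) := by
    refine mul_le_mul_of_nonneg_left ?_ hK
    have : (0 : ℝ) ≤ 2 / 2 ^ J := by positivity
    linarith
  refine h6.trans ?_
  rw [mul_div_assoc', div_le_div_iff₀ (by positivity) ha0]
  nlinarith

theorem Ioc_shift (f : ℕ → ℝ) (a b i : ℕ) :
    ∑ n ∈ Ioc a b, f (n + i) = ∑ m ∈ Ioc (a + i) (b + i), f m := by
  have e2 : ∀ c d : ℕ, Ioc c d = Ico (c + 1) (d + 1) := by
    intro c d
    ext m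
    simp only [mem_Ioc, mem_Ico]
    omega
  rw [e2, e2, show a + i + 1 = a + 1 + i by ring, show b + i + 1 = b + 1 + i by ring,
    ← sum_Ico_add' f (a + 1) (b + 1) i]

/-- The weight of the windows with a change. -/
theorem bad {α : Type} (Q : ℕ → α) {K : ℝ} (hQ : SlowA Q K) {a H : ℕ} (b : ℕ) (ha : 1 ≤ a)
    (hH : H ≤ a) :
    ∑ n ∈ Ioc a b, (1 / (n : ℝ)) * ∑ i ∈ range H, ch Q (n + i) ≤ 8 * H * K / a := by
  have h1 : ∀ n ∈ Ioc a b, (1 / (n : ℝ)) * ∑ i ∈ range H, ch Q (n + i) ≤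
      ∑ i ∈ range H, 2 * (ch Q (n + i) / ((n + i : ℕ) : ℝ)) := by
    intro n hn
    rw [mem_Ioc] at hn
    rw [mul_sum]
    refine sum_le_sum fun i hi => ?_
    rw [mem_range] at hi
    have hn0 : (0 : ℝ) < n := by exact_mod_cast (by omega : 0 < n)
    have h2 : ((n + i : ℕ) : ℝ) ≤ 2 * n := by
      have : n + i ≤ 2 * n := by omega
      exact_mod_cast this
    have h3 : (0 : ℝ) < ((n + i : ℕ) : ℝ) := by exact_mod_cast (by omega : 0 < n + i)
    have h4 := ch_nonneg Q (n + i)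
    rw [mul_div_assoc', one_div, inv_mul_eq_div, div_le_div_iff₀ hn0 h3]
    nlinarith
  have h2 : ∀ i ∈ range H, ∑ n ∈ Ioc a b, 2 * (ch Q (n + i) / ((n + i : ℕ) : ℝ)) ≤
      2 * (4 * K / a) := by
    intro i _
    rw [← mul_sum]
    refine mul_le_mul_of_nonneg_left ?_ (by norm_num)
    refine le_trans ?_ (changes Q hQ (b + i) ha)
    rw [Ioc_shift (fun m => ch Q m / (m : ℝ)) a b i]
    refine sum_le_sum_of_subset_of_nonneg ?_ fun m _ _ => div_nonneg (ch_nonneg Q m) (Nat.cast_nonneg _)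
    intro m hm
    rw [mem_Ioc] at hm ⊢
    omega
  refine (sum_le_sum h1).trans ?_
  rw [sum_comm]
  refine (sum_le_sum h2).trans (le_of_eq ?_)
  rw [sum_const, card_range, nsmul_eq_mul]
  ring

/-- A window without change. -/
theorem const_win {α : Type} {Q : ℕ → α} {n H : ℕ} (h : ∀ i < H, Q (n + i + 1) = Q (n + i)) :
    ∀ i ≤ H, Q (n + i) = Q n := by
  intro i
  induction i with
  | zero => intro _; rfl
  | succ i ih =>
    intro hi
    rw [← add_assoc, h i (by omega), ih (by omega)]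

theorem Wg_nonneg (l m : ℕ) (g : ℕ → ℂ) : 0 ≤ Wg l m g := by unfold Wg; positivity

theorem Wg_le_one (l m : ℕ) (g : ℕ → ℂ) (hg : ∀ n, ‖g n‖ ≤ 1) : Wg l m g ≤ 1 := by
  unfold Wg
  rcases Nat.eq_zero_or_pos l with h0 | h0
  · subst h0; simp
  have hl : (0 : ℝ) < l := by exact_mod_cast h0
  rw [div_le_one hl]
  refine (norm_sum_le _ _).trans ?_
  refine (sum_le_sum (g := fun _ => (1 : ℝ)) fun h _ => ?_).trans ?_
  · rw [norm_mul]
    exact mul_le_one₀ (norm_muC _) (norm_nonneg _) (hg _)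
  · rw [sum_const, Nat.card_Icc, nsmul_eq_mul]
    simp

/-- The long window is an average of short windows. -/
theorem wg_avg (l l' m : ℕ) (hl : 1 ≤ l) (hl' : 1 ≤ l') (g : ℕ → ℂ) (hg : ∀ n, ‖g n‖ ≤ 1) :
    Wg l m g ≤ 1 / (l : ℝ) * ∑ j ∈ range l, Wg l' (m + j) g + 2 * l' / l := by
  have hf1 : ∀ n : ℕ, ‖muC (m + n) * g (m + n)‖ ≤ 1 := by
    intro n
    rw [norm_mul]
    exact mul_le_one₀ (norm_muC _) (norm_nonneg _) (hg _)
  have h := RDr.avg (fun n : ℕ => muC (m + n) * g (m + n)) hf1 l l'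
  have hl0 : (0 : ℝ) < l := by exact_mod_cast hl
  have hl0' : (0 : ℝ) < l' := by exact_mod_cast hl'
  have h1 : (l : ℝ) * Wg l m g = ‖∑ h ∈ Icc 1 l, muC (m + h) * g (m + h)‖ := by
    unfold Wg
    rw [mul_div_cancel₀ _ hl0.ne']
  have h2 : ∀ j ∈ range l, ‖∑ k ∈ Icc 1 l', muC (m + (j + k)) * g (m + (j + k))‖ =
      l' * Wg l' (m + j) g := by
    intro j _
    unfold Wg
    rw [mul_div_cancel₀ _ hl0'.ne']
    congr 1
    refine sum_congr rfl fun k _ => ?_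
    rw [← add_assoc]
  rw [Finset.sum_congr rfl h2, ← Finset.mul_sum, ← h1] at h
  have h3 : (l : ℝ) * Wg l m g ≤ ∑ j ∈ range l, Wg l' (m + j) g + 2 * l' := by
    refine le_of_mul_le_mul_left ?_ hl0'
    refine h.trans (le_of_eq ?_)
    ring
  have h4 : Wg l m g ≤ (∑ j ∈ range l, Wg l' (m + j) g + 2 * l') / l := by
    rw [le_div_iff₀ hl0]
    linarith
  refine h4.trans (le_of_eq ?_)
  ring

/-- The pointwise inequality. -/
theorem point {α : Type} (ev : α → ℕ → ℂ) (hev : ∀ x m, ‖ev x m‖ ≤ 1) (Q : ℕ → α) (l l' m : ℕ)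
    (hl : 1 ≤ l) (hl' : 1 ≤ l') :
    Wg l m (ev (Q m)) ≤ 1 / (l : ℝ) * ∑ j ∈ range l, Wg l' (m + j) (ev (Q (m + j))) +
      2 * l' / l + ∑ i ∈ range l, ch Q (m + i) := by
  have hl0 : (0 : ℝ) < l := by exact_mod_cast hl
  have h0 : 0 ≤ 1 / (l : ℝ) * ∑ j ∈ range l, Wg l' (m + j) (ev (Q (m + j))) :=
    mul_nonneg (by positivity) (sum_nonneg fun _ _ => Wg_nonneg _ _ _)
  have h1 : 0 ≤ ∑ i ∈ range l, ch Q (m + i) := sum_nonneg fun i _ => ch_nonneg Q _
  have h2 : 0 ≤ 2 * (l' : ℝ) / l := by positivity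
  by_cases hg : ∀ i < l, Q (m + i + 1) = Q (m + i)
  · have hc := const_win hg
    have h3 := wg_avg l l' m hl hl' (ev (Q m)) (hev _)
    have h4 : ∑ j ∈ range l, Wg l' (m + j) (ev (Q (m + j))) =
        ∑ j ∈ range l, Wg l' (m + j) (ev (Q m)) := by
      refine sum_congr rfl fun j hj => ?_
      rw [mem_range] at hj
      rw [hc j hj.le]
    rw [h4]
    linarith
  · push Not at hg
    obtain ⟨i, hi, hne⟩ := hg
    have h3 : ch Q (m + i) ≤ ∑ i ∈ range l, ch Q (m + i) :=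
      single_le_sum (f := fun i => ch Q (m + i)) (fun i _ => ch_nonneg Q _) (mem_range.2 hi)
    have h4 : ch Q (m + i) = 1 := by
      unfold ch
      rw [if_pos hne]
    have h5 := Wg_le_one l m (ev (Q m)) (hev _)
    linarith

/-- Translation of the sum. -/
theorem trans_sum (F : ℕ → ℝ) (hF : ∀ n, 0 ≤ F n) (hF1 : ∀ n, F n ≤ 1) (a b j l : ℕ) (ha : 1 ≤ a)
    (hab : a ≤ b) (hj : j ≤ l) :
    ∑ m ∈ Ioc a b, (1 / (m : ℝ)) * F (m + j) ≤
      ∑ m ∈ Ioc a b, (1 / (m : ℝ)) * F m + 2 * l / a := by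
  have ha0 : (0 : ℝ) < a := by exact_mod_cast ha
  have hjl : (j : ℝ) ≤ l := by exact_mod_cast hj
  have h1 : ∀ m ∈ Ioc a b, (1 / (m : ℝ)) * F (m + j) ≤
      (1 / ((m + j : ℕ) : ℝ)) * F (m + j) + j * ((m : ℝ) ^ 2)⁻¹ := by
    intro m hm
    rw [mem_Ioc] at hm
    have hm0 : (0 : ℝ) < m := by exact_mod_cast (by omega : 0 < m)
    have h2 : (1 / (m : ℝ)) ≤ 1 / ((m + j : ℕ) : ℝ) + j * ((m : ℝ) ^ 2)⁻¹ := by
      push_cast
      have h3 : (1 / (m : ℝ)) - 1 / ((m : ℝ) + j) = j / (m * (m + j)) := by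
        field_simp
        ring
      have h4 : (j : ℝ) / (m * (m + j)) ≤ j * ((m : ℝ) ^ 2)⁻¹ := by
        rw [← div_eq_mul_inv]
        apply div_le_div_of_nonneg_left (Nat.cast_nonneg _) (by positivity)
        have : (0 : ℝ) ≤ j := Nat.cast_nonneg _
        nlinarith
      linarith
    have h5 : 0 ≤ j * ((m : ℝ) ^ 2)⁻¹ := by positivity
    have h6 := hF (m + j)
    have h7 := hF1 (m + j)
    calc (1 / (m : ℝ)) * F (m + j) ≤ (1 / ((m + j : ℕ) : ℝ) + j * ((m : ℝ) ^ 2)⁻¹) * F (m + j) :=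
          mul_le_mul_of_nonneg_right h2 h6
      _ = (1 / ((m + j : ℕ) : ℝ)) * F (m + j) + j * ((m : ℝ) ^ 2)⁻¹ * F (m + j) := by ring
      _ ≤ _ := by
          have : j * ((m : ℝ) ^ 2)⁻¹ * F (m + j) ≤ j * ((m : ℝ) ^ 2)⁻¹ * 1 :=
            mul_le_mul_of_nonneg_left h7 h5
          linarith
  refine (sum_le_sum h1).trans ?_
  rw [sum_add_distrib, ← mul_sum]
  have h2 : (j : ℝ) * ∑ m ∈ Ioc a b, ((m : ℝ) ^ 2)⁻¹ ≤ l / a := by
    have h3 := sum_Ioc_inv_sq_le_sub (α := ℝ) (k := a) (n := b) (by omega) hab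
    have h4 : (0 : ℝ) ≤ (b : ℝ)⁻¹ := by positivity
    have h5 : 0 ≤ ∑ m ∈ Ioc a b, ((m : ℝ) ^ 2)⁻¹ := sum_nonneg fun m _ => by positivity
    calc (j : ℝ) * ∑ m ∈ Ioc a b, ((m : ℝ) ^ 2)⁻¹ ≤ l * (a : ℝ)⁻¹ := by
          apply mul_le_mul hjl (by linarith) h5 (Nat.cast_nonneg _)
      _ = l / a := by rw [div_eq_mul_inv]
  have h3 : ∑ m ∈ Ioc a b, (1 / ((m + j : ℕ) : ℝ)) * F (m + j) ≤
      ∑ m ∈ Ioc a b, (1 / (m : ℝ)) * F m + l / a := by
    rw [Ioc_shift (fun m => (1 / (m : ℝ)) * F m) a b j]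
    have h4 : ∑ m ∈ Ioc (a + j) (b + j), (1 / (m : ℝ)) * F m ≤
        ∑ m ∈ Ioc a (b + j), (1 / (m : ℝ)) * F m := by
      refine sum_le_sum_of_subset_of_nonneg ?_ fun m _ _ => mul_nonneg (by positivity) (hF m)
      intro m hm
      rw [mem_Ioc] at hm ⊢
      omega
    have h5 : ∑ m ∈ Ioc a (b + j), (1 / (m : ℝ)) * F m = ∑ m ∈ Ioc a b, (1 / (m : ℝ)) * F m +
        ∑ m ∈ Ioc b (b + j), (1 / (m : ℝ)) * F m :=
      (sum_Ioc_consecutive _ hab (by omega)).symm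
    have h6 : ∑ m ∈ Ioc b (b + j), (1 / (m : ℝ)) * F m ≤ l / a := by
      calc ∑ m ∈ Ioc b (b + j), (1 / (m : ℝ)) * F m ≤ ∑ m ∈ Ioc b (b + j), (1 / (a : ℝ)) := by
            refine sum_le_sum fun m hm => ?_
            rw [mem_Ioc] at hm
            have h7 : (1 / (m : ℝ)) ≤ 1 / a :=
              one_div_le_one_div_of_le ha0 (by exact_mod_cast (by omega : a ≤ m))
            calc (1 / (m : ℝ)) * F m ≤ 1 / (m : ℝ) * 1 :=
                  mul_le_mul_of_nonneg_left (hF1 m) (by positivity)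
              _ ≤ 1 / a := by rw [mul_one]; exact h7
        _ = j * (1 / a) := by
            rw [sum_const, Nat.card_Ioc, nsmul_eq_mul, show b + j - b = j by omega]
        _ ≤ l * (1 / a) := mul_le_mul_of_nonneg_right hjl (by positivity)
        _ = l / a := by ring
    linarith
  have h4 : 2 * (l : ℝ) / a = l / a + l / a := by ring
  rw [h4]
  linarith

end

end SUBAx

open SUBAx in
theorem suba : SUBA_stmt := by
  intro A ε η hA hε hη hηε hη1
  refine ⟨A + 2, ⌈Real.exp (8 / ε)⌉₊ + ⌈1 / η⌉₊ + 16, by linarith, ?_⟩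
  intro l hl α ev hev xa xb hxa hxb Q hQ
  have hl16 : 16 ≤ l := by omega
  have hlr : (16 : ℝ) ≤ l := by exact_mod_cast hl16
  have hl0 : (0 : ℝ) < l := by linarith
  have hl1 : (1 : ℝ) ≤ l := by linarith
  have hlog : 8 / ε ≤ Real.log l := by
    rw [Real.le_log_iff_exp_le hl0]
    refine (Nat.le_ceil _).trans ?_
    exact_mod_cast (by omega : ⌈Real.exp (8 / ε)⌉₊ ≤ l)
  have hηl : 1 ≤ η * (l : ℝ) := by
    have h1 : 1 / η ≤ l := (Nat.le_ceil _).trans (by exact_mod_cast (by omega : ⌈1 / η⌉₊ ≤ l))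
    rwa [div_le_iff₀' hη] at h1
  set l' := ⌊η * (l : ℝ)⌋₊ with hl'
  have hl'1 : 1 ≤ l' := by
    rw [hl', Nat.one_le_floor_iff]
    exact hηl
  have hl'2 : (l' : ℝ) ≤ η * l := Nat.floor_le (by positivity)
  -- the range
  have hpow : (l : ℝ) ^ (A + 2) = (l : ℝ) ^ A * l ^ 2 := by
    rw [Real.rpow_add hl0]
    norm_cast
  have hpA : (1 : ℝ) ≤ (l : ℝ) ^ A := Real.one_le_rpow hl1 hA
  have hxa1 : (l : ℝ) ^ 2 ≤ xa := by
    rw [hpow] at hxa
    have : (l : ℝ) ^ 2 ≤ (l : ℝ) ^ A * l ^ 2 := le_mul_of_one_le_left (by positivity) hpA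
    linarith
  have hxa0 : 0 < xa := lt_of_lt_of_le (by positivity) hxa1
  have hxa2 : 2 ≤ xa := by nlinarith
  have hxb0 : 0 < xb := lt_of_lt_of_le (by positivity) hxb
  have hxab : xa ≤ xb := le_trans (le_mul_of_one_le_right hxa0.le hl1) hxb
  set a := ⌊xa⌋₊ with ha
  set b := ⌊xb⌋₊ with hb
  have hab : a ≤ b := Nat.floor_le_floor hxab
  have ha2 : xa / 2 ≤ a := by
    have := Nat.lt_floor_add_one xa
    rw [← ha] at this
    linarith
  have ha1 : 1 ≤ a := by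
    rw [ha, Nat.one_le_floor_iff]; linarith
  have ha0 : (0 : ℝ) < a := by exact_mod_cast ha1
  have hla : 2 * (l : ℝ) ≤ a := by nlinarith
  have hla' : l ≤ a := by
    have : (l : ℝ) ≤ a := by linarith
    exact_mod_cast this
  have hΛ : Real.log l ≤ Real.log xb - Real.log xa := by
    have h1 : Real.log (xa * l) ≤ Real.log xb := Real.log_le_log (by positivity) hxb
    rw [Real.log_mul hxa0.ne' hl0.ne'] at h1
    linarith
  have hharm : ∑ n ∈ Ioc a b, (1 / (n : ℝ)) ≤ Real.log xb - Real.log xa + 1 := by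
    refine (REGx.harm ha1 hab).trans ?_
    have hb0 : (0 : ℝ) < b := by
      have : (a : ℝ) ≤ b := by exact_mod_cast hab
      linarith
    have h1 : Real.log b ≤ Real.log xb := Real.log_le_log hb0 (Nat.floor_le hxb0.le)
    have h2 : Real.log (xa / 2) ≤ Real.log a := Real.log_le_log (by positivity) ha2
    rw [Real.log_div hxa0.ne' (by norm_num)] at h2
    have h3 : Real.log 2 ≤ 1 := by
      have := Real.log_two_lt_d9
      linarith
    linarith
  -- the three parts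
  set F : ℕ → ℝ := fun y => Wg l' y (ev (Q y)) with hF
  have hF0 : ∀ n, 0 ≤ F n := fun n => Wg_nonneg _ _ _
  have hF1 : ∀ n, F n ≤ 1 := fun n => Wg_le_one _ _ _ (hev _)
  have h1 : ∀ m ∈ Ioc a b, (1 / (m : ℝ)) * Wg l m (ev (Q m)) ≤
      1 / (l : ℝ) * ∑ j ∈ range l, (1 / (m : ℝ)) * F (m + j) + 2 * η * (1 / (m : ℝ)) +
        (1 / (m : ℝ)) * ∑ i ∈ range l, ch Q (m + i) := by
    intro m hm
    rw [mem_Ioc] at hm
    have hm0 : (0 : ℝ) < m := by exact_mod_cast (by omega : 0 < m)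
    have h2 := point ev hev Q l l' m (by omega) hl'1
    have h3 : 2 * (l' : ℝ) / l ≤ 2 * η := by
      rw [div_le_iff₀ hl0]; linarith
    calc (1 / (m : ℝ)) * Wg l m (ev (Q m))
        ≤ (1 / (m : ℝ)) * (1 / (l : ℝ) * ∑ j ∈ range l, F (m + j) + 2 * η +
          ∑ i ∈ range l, ch Q (m + i)) := by
          refine mul_le_mul_of_nonneg_left ?_ (by positivity)
          have h4 : ∀ j, Wg l' (m + j) (ev (Q (m + j))) = F (m + j) := fun j => rfl
          simp only [h4] at h2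
          linarith
      _ = _ := by
          rw [← mul_sum]
          ring
  have h2 : ∑ m ∈ Ioc a b, 1 / (l : ℝ) * ∑ j ∈ range l, (1 / (m : ℝ)) * F (m + j) ≤
      ∑ m ∈ Ioc a b, (1 / (m : ℝ)) * F m + 2 * l / a := by
    rw [← mul_sum, sum_comm]
    have h3 : ∑ j ∈ range l, ∑ m ∈ Ioc a b, (1 / (m : ℝ)) * F (m + j) ≤
        ∑ j ∈ range l, (∑ m ∈ Ioc a b, (1 / (m : ℝ)) * F m + 2 * l / a) := by
      refine sum_le_sum fun j hj => ?_
      rw [mem_range] at hj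
      exact trans_sum F hF0 hF1 a b j l ha1 hab hj.le
    rw [sum_const, card_range, nsmul_eq_mul] at h3
    calc 1 / (l : ℝ) * ∑ j ∈ range l, ∑ m ∈ Ioc a b, (1 / (m : ℝ)) * F (m + j)
        ≤ 1 / (l : ℝ) * (l * (∑ m ∈ Ioc a b, (1 / (m : ℝ)) * F m + 2 * l / a)) :=
          mul_le_mul_of_nonneg_left h3 (by positivity)
      _ = _ := by field_simp
  have h3 := bad Q hQ b ha1 hla'
  have h4 : 8 * (l : ℝ) * (l : ℝ) ^ A / a ≤ 1 := by
    rw [div_le_one ha0]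
    have h5 : (l : ℝ) ^ A * l ^ 2 / 2 ≤ a := by
      rw [hpow] at hxa
      linarith
    refine le_trans ?_ h5
    have h6 : 0 ≤ (l : ℝ) ^ A := by positivity
    have h7 : 8 * (l : ℝ) ≤ l ^ 2 / 2 := by nlinarith
    calc 8 * (l : ℝ) * (l : ℝ) ^ A = (l : ℝ) ^ A * (8 * l) := by ring
      _ ≤ (l : ℝ) ^ A * (l ^ 2 / 2) := mul_le_mul_of_nonneg_left h7 h6
      _ = _ := by ring
  have h5 : 2 * (l : ℝ) / a ≤ 1 := by
    rw [div_le_one ha0]; exact hla
  refine (sum_le_sum h1).trans ?_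
  have hms : ∑ x ∈ Ioc a b, 2 * η * (1 / (x : ℝ)) = 2 * η * ∑ n ∈ Ioc a b, (1 / (n : ℝ)) :=
    (mul_sum _ _ _).symm
  have hFw : ∑ m ∈ Ioc a b, (1 / (m : ℝ)) * Wg l' m (ev (Q m)) =
      ∑ m ∈ Ioc a b, (1 / (m : ℝ)) * F m := rfl
  rw [sum_add_distrib, sum_add_distrib, hms, hFw]
  have h7 : 2 * η * ∑ n ∈ Ioc a b, (1 / (n : ℝ)) ≤
      ε / 4 * (Real.log xb - Real.log xa) + 2 := by
    have h8 : 2 * η * ∑ n ∈ Ioc a b, (1 / (n : ℝ)) ≤
        2 * η * (Real.log xb - Real.log xa + 1) :=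
      mul_le_mul_of_nonneg_left hharm (by positivity)
    have h9 : 2 * η * (Real.log xb - Real.log xa) ≤ ε / 4 * (Real.log xb - Real.log xa) := by
      refine mul_le_mul_of_nonneg_right (by linarith) ?_
      have := Real.log_nonneg hl1
      linarith
    nlinarith
  have h8 : 8 ≤ ε * (Real.log xb - Real.log xa) := by
    have h9 : 8 ≤ ε * Real.log l := by
      rw [div_le_iff₀' hε] at hlog
      exact hlog
    exact h9.trans (mul_le_mul_of_nonneg_left hΛ hε.le)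
  linarith

end Pool.Agent.NV
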