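import Mathlib
import Pool.Agent.Lib.NV.WDefs
import Pool.Agent.Lib.VQ.SUBQ

/-!
# Row SUBQF of theorem NVW (MP_663568_nt): from the phase `P` to the phases `Q + b X / Q₃`, with a
bounded weight.  (helper44, after the row SUBQ of helper55)
-/

set_option autoImplicit false
open Finset MeasureTheory Polynomial

namespace Pool.Agent.NV

open Pool.Agent.Lib.MP_663568_nt Pool.Agent.Lib.MP_663568_nt.Katai
  Pool.Agent.Lib.MP_663568_nt.Nul Pool.Agent.SV Pool.Agent.VQ

namespace SUBQFx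

theorem wg_nonneg (l m : ℕ) (g : ℕ → ℂ) : 0 ≤ Wg l m g := by unfold Wg; positivity

/-- The long window is an average of short windows. -/
theorem wg_avg (w l a : ℕ) (hl : 1 ≤ l) (g : ℕ → ℂ) (hg : ∀ m, ‖g m‖ ≤ 1) :
    (w : ℝ) * Wg w a g ≤ ∑ m ∈ range w, Wg l (a + m) g + 2 * l := by
  have hf1 : ∀ n : ℕ, ‖muC (a + n) * g (a + n)‖ ≤ 1 := by
    intro n
    rw [norm_mul]
    exact mul_le_one₀ (norm_muC _) (norm_nonneg _) (hg _)
  have h := RDr.avg (fun n : ℕ => muC (a + n) * g (a + n)) hf1 w l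
  have hl0 : (0 : ℝ) < l := by exact_mod_cast hl
  have h1 : (w : ℝ) * Wg w a g ≤ ‖∑ m ∈ Icc 1 w, muC (a + m) * g (a + m)‖ := by
    unfold Wg
    rcases Nat.eq_zero_or_pos w with h0 | h0
    · subst h0; simp
    · have h2 : (w : ℝ) ≠ 0 := by positivity
      rw [mul_div_cancel₀ _ h2]
  have h2 : ∀ m ∈ range w, ‖∑ k ∈ Icc 1 l, muC (a + (m + k)) * g (a + (m + k))‖ =
      l * Wg l (a + m) g := by
    intro m _
    unfold Wg
    rw [mul_div_cancel₀ _ hl0.ne']
    congr 1
    refine sum_congr rfl fun k _ => ?_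
    rw [← add_assoc]
  rw [Finset.sum_congr rfl h2, ← Finset.mul_sum] at h
  have h3 : ‖∑ m ∈ Icc 1 w, muC (a + m) * g (a + m)‖ ≤
      ∑ m ∈ range w, Wg l (a + m) g + 2 * l := by
    refine le_of_mul_le_mul_left ?_ hl0
    refine h.trans (le_of_eq ?_)
    ring
  exact h1.trans h3

/-- From the long window to all points of the region. -/
theorem region (H L m₀ l : ℕ) (ε κ : ℝ) (hε : 0 < ε) (hε1 : ε ≤ 1) (hL1 : 1 ≤ L)
    (hL : L = ⌊ε / 16 * (H : ℝ)⌋₊) (hl : 1 ≤ l) (g : ℕ → ℂ) (hg : ∀ m, ‖g m‖ ≤ 1) (F : ℕ → ℝ)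
    (hF : ∀ x, 0 ≤ F x)
    (hW : ε / 4 ≤ Wg (H - L) (m₀ + L) g) (hκ : 0 ≤ κ) (hsm : κ * H + 2 * l ≤ ε / 8 * H)
    (h : ∀ y, L ≤ y → y < H → Wg l (m₀ + y) g ≤ F (m₀ + y) + κ) :
    ε / 16 * (H : ℝ) ≤ ∑ x ∈ Ioc m₀ (m₀ + H), F x := by
  have hH0 : (0 : ℝ) ≤ H := Nat.cast_nonneg _
  have hLr : (L : ℝ) ≤ ε / 16 * H := by
    rw [hL]
    exact Nat.floor_le (by positivity)
  have hLH : L ≤ H := by
    have h1 : (L : ℝ) ≤ H := by nlinarith
    exact_mod_cast h1
  have hw : ((H - L : ℕ) : ℝ) = H - L := by rw [Nat.cast_sub hLH]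
  have h1 := wg_avg (H - L) l (m₀ + L) hl g hg
  have h2 : ∑ m ∈ range (H - L), Wg l (m₀ + L + m) g ≤
      ∑ m ∈ range (H - L), (F (m₀ + L + m) + κ) := by
    refine sum_le_sum fun m hm => ?_
    rw [mem_range] at hm
    have h3 := h (L + m) (by omega) (by omega)
    rw [← add_assoc] at h3
    exact h3
  rw [sum_add_distrib, sum_const, card_range, nsmul_eq_mul] at h2
  have h3 : ∑ m ∈ range (H - L), F (m₀ + L + m) ≤ ∑ x ∈ Ioc m₀ (m₀ + H), F x := by
    have h4 : ∑ x ∈ Ico (m₀ + L) (m₀ + H), F x = ∑ m ∈ range (H - L), F (m₀ + L + m) := by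
      rw [Finset.sum_Ico_eq_sum_range, show m₀ + H - (m₀ + L) = H - L by omega]
    rw [← h4]
    refine sum_le_sum_of_subset_of_nonneg (fun x hx => ?_) fun x _ _ => hF x
    rw [mem_Ico] at hx
    rw [mem_Ioc]
    omega
  have h5 : ((H - L : ℕ) : ℝ) * (ε / 4) ≤ ((H - L : ℕ) : ℝ) * Wg (H - L) (m₀ + L) g :=
    mul_le_mul_of_nonneg_left hW (Nat.cast_nonneg _)
  rw [hw] at h1 h2 h5
  have h6 : ((H : ℝ) - L) * κ ≤ κ * H := by
    have : 0 ≤ κ * L := by positivity
    nlinarith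
  have h7 : (L : ℝ) * (ε / 4) ≤ ε / 64 * H := by
    have : (L : ℝ) * (ε / 4) ≤ ε / 16 * H * (1 / 4) := by
      apply mul_le_mul hLr (by linarith) (by positivity) (by positivity)
    linarith
  nlinarith

end SUBQFx

open SUBx SUBQFx in
/-- Row SUBQF. -/
theorem subqf : SUBQF_stmt := by
  intro t Q₃ ε E' ht hQ₃ hε hε1 hE'
  have hQ' : (Q₃ : ℝ) ≠ 0 := by exact_mod_cast (by omega : Q₃ ≠ 0)
  have htr : (1 : ℝ) ≤ t := by exact_mod_cast ht
  set lam : ℝ := ε / 17 with hlam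
  have hlam0 : 0 < lam := by positivity
  have hlam1 : lam ≤ 1 := by rw [hlam]; linarith
  set M : ℝ := t * (E' * t * (2 / lam) ^ t) with hM
  have hM0 : 0 < M := by positivity
  have hden : 0 < 8 * (2 * Real.pi * M + 2) := by positivity
  set η : ℝ := ε / (8 * (2 * Real.pi * M + 2)) with hη
  have hη0 : 0 < η := by positivity
  have hη16 : η ≤ 1 := by
    rw [hη, div_le_one hden]
    have : 0 < 2 * Real.pi * M := by positivity
    linarith
  refine ⟨η, ⌈272 / ε⌉₊ + ⌈1 / η⌉₊ + 1, hη0, hη16, ?_⟩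
  intro H L m₀ l hH hL hl Φ hΦ P Q hPQ hnd hW
  have hHr : (0 : ℝ) < H := by exact_mod_cast (by omega : 0 < H)
  have hH1 : 272 / ε ≤ H :=
    (Nat.le_ceil _).trans (by exact_mod_cast (by omega : ⌈272 / ε⌉₊ ≤ H))
  have hH2 : 1 / η ≤ H :=
    (Nat.le_ceil _).trans (by exact_mod_cast (by omega : ⌈1 / η⌉₊ ≤ H))
  have hεH : 272 ≤ ε * H := by rwa [div_le_iff₀' hε] at hH1
  have hLlow : lam * H ≤ L := by
    have h1 : ε / 16 * (H : ℝ) < L + 1 := by rw [hL]; exact Nat.lt_floor_add_one _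
    rw [hlam]
    nlinarith
  have hL1 : 1 ≤ L := by
    have : (0 : ℝ) < L := lt_of_lt_of_le (by positivity) hLlow
    exact_mod_cast this
  have hl1 : 1 ≤ l := by
    rw [hl]
    apply Nat.le_floor
    rw [Nat.cast_one]
    rw [div_le_iff₀' hη0] at hH2
    exact hH2
  have hlη : (l : ℝ) ≤ η * H := by rw [hl]; exact Nat.floor_le (by positivity)
  have hlH : l ≤ H := by
    have : (l : ℝ) ≤ H := by nlinarith
    exact_mod_cast this
  have hl0 : (0 : ℝ) < l := by exact_mod_cast hl1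
  -- the rational approximations
  have hap : ∀ i : ℕ, ∃ a : ℤ, ∃ r : ℝ, (i ≤ t → (taylor (m₀ : ℝ) (P - Q)).coeff i = a / Q₃ + r) ∧
      (1 ≤ i → i ≤ t → |r| ≤ E' / (L : ℝ) ^ i) := by
    intro i
    by_cases h1 : 1 ≤ i ∧ i ≤ t
    · obtain ⟨a, r, h2, h3⟩ := near_rat Q₃ hQ₃ _ _ (hnd i h1.1 h1.2)
      exact ⟨a, r, fun _ => h2, fun _ _ => h3⟩
    · refine ⟨0, (taylor (m₀ : ℝ) (P - Q)).coeff i, fun _ => by simp, fun h2 h3 => ?_⟩
      exact absurd ⟨h2, h3⟩ h1
  choose a r har hr using hap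
  have hmain : ∀ y, L ≤ y → y < H → Wg l (m₀ + y) (tw P Φ) ≤
      ∑ b ∈ range Q₃, Wg l (m₀ + y) (tw (Q + C ((b : ℝ) / Q₃) * X) Φ) + 2 * Real.pi * (η * M) := by
    intro y hLy hyH
    have h1 := twist Q₃ l hQ₃ (fun h => muC (m₀ + y + h) * Φ (m₀ + y + h)) (fun h => by
        rw [norm_mul]
        exact mul_le_one₀ (norm_muC _) (norm_nonneg _) (hΦ _))
      (fun h => ∑ i ∈ range (t + 1), a i * ((y : ℤ) + h) ^ i)
      (fun h => by
        refine Int.ModEq.sum fun i _ => ?_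
        refine Int.ModEq.mul_left _ (Int.ModEq.pow _ (Int.ModEq.add_left _ ?_))
        rw [Int.natCast_mod]
        exact Int.mod_modEq _ _)
      (fun h => P.eval (((m₀ + y : ℕ) : ℝ) + h)) (fun h => Q.eval (((m₀ + y : ℕ) : ℝ) + h))
      (fun h => ∑ i ∈ range (t + 1), r i * (((y : ℝ) + h) ^ i - (y : ℝ) ^ i))
      (∑ i ∈ range (t + 1), r i * (y : ℝ) ^ i) ((m₀ + y : ℕ) : ℝ) (η * M)
      (fun h _ _ => by
        have h2 : P.eval (((m₀ + y : ℕ) : ℝ) + h) = Q.eval (((m₀ + y : ℕ) : ℝ) + h) +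
            (P - Q).eval ((m₀ : ℝ) + ((y : ℝ) + h)) := by
          rw [eval_sub]
          push_cast
          rw [add_assoc]
          ring
        have h3 : (P - Q).eval ((m₀ : ℝ) + ((y : ℝ) + h)) =
            ∑ i ∈ range (t + 1), ((a i : ℝ) * ((y : ℝ) + h) ^ i / Q₃ +
              r i * (((y : ℝ) + h) ^ i - (y : ℝ) ^ i) + r i * (y : ℝ) ^ i) := by
          rw [eval_taylor_sum _ t hPQ]
          refine sum_congr rfl fun i hi => ?_
          rw [har i (by rw [mem_range] at hi; omega)]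
          ring
        rw [h2, h3, sum_add_distrib, sum_add_distrib]
        push_cast
        rw [sum_div]
        ring)
      (fun h _ hhl => by
        have hy2 : (y : ℝ) + h ≤ 2 * H := by
          have h5 : (y : ℝ) ≤ H := by exact_mod_cast hyH.le
          have h6 : (h : ℝ) ≤ H := by exact_mod_cast hhl.trans hlH
          linarith
        have hterm : ∀ i ∈ range (t + 1), |r i * (((y : ℝ) + h) ^ i - (y : ℝ) ^ i)| ≤
            if i = 0 then 0 else η * (E' * t * (2 / lam) ^ t) := by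
          intro i hi
          rw [mem_range] at hi
          split_ifs with h0
          · rw [h0]; simp
          · have h1 : 1 ≤ i := by omega
            rw [abs_mul]
            have h4 := abs_pow_sub_pow_le ((y : ℝ) + h) (y : ℝ) i
            rw [add_sub_cancel_left, Nat.abs_cast, abs_of_nonneg (by positivity : (0 : ℝ) ≤ y + h),
              Nat.abs_cast, max_eq_left (by linarith [Nat.cast_nonneg (α := ℝ) h])] at h4
            have h5 : (h : ℝ) * i * ((y : ℝ) + h) ^ (i - 1) ≤ l * i * (2 * H) ^ (i - 1) := by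
              apply mul_le_mul
              · apply mul_le_mul_of_nonneg_right _ (by positivity)
                exact_mod_cast hhl
              · exact pow_le_pow_left₀ (by positivity) hy2 _
              · positivity
              · positivity
            refine (mul_le_mul (hr i h1 (by omega)) (h4.trans h5) (abs_nonneg _)
              (by positivity)).trans ?_
            exact term_le hE' hlam0 hlam1 hHr hLlow hl0.le hlη h1 (by omega)
        refine (abs_sum_le_sum_abs _ _).trans ((sum_le_sum hterm).trans ?_)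
        rw [sum_range_succ', if_pos rfl, add_zero]
        simp only [Nat.add_eq_zero_iff, one_ne_zero, and_false, if_false, sum_const, card_range,
          nsmul_eq_mul]
        rw [hM]
        apply le_of_eq
        ring)
    have h2 : Wg l (m₀ + y) (tw P Φ) ≤ (∑ b ∈ range Q₃, ‖∑ h ∈ Icc 1 l, (muC (m₀ + y + h) * Φ (m₀ + y + h)) *
        ee (Q.eval (((m₀ + y : ℕ) : ℝ) + h) + (b : ℝ) / Q₃ * (((m₀ + y : ℕ) : ℝ) + h))‖ +
          l * (2 * Real.pi * (η * M))) / l := by
      have h0 : Wg l (m₀ + y) (tw P Φ) = ‖∑ h ∈ Icc 1 l, (muC (m₀ + y + h) * Φ (m₀ + y + h)) *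
          ee (P.eval (((m₀ + y : ℕ) : ℝ) + h))‖ / l := by
        unfold Wg tw
        congr 2
        refine sum_congr rfl fun h _ => ?_
        push_cast
        ring
      rw [h0]
      exact div_le_div_of_nonneg_right h1 hl0.le
    refine h2.trans (le_of_eq ?_)
    rw [add_div, sum_div, mul_div_cancel_left₀ _ hl0.ne']
    congr 1
    refine sum_congr rfl fun b _ => ?_
    unfold Wg tw
    congr 2
    refine sum_congr rfl fun h _ => ?_
    rw [eval_add, eval_mul, eval_C, eval_X]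
    push_cast
    ring
  refine region H L m₀ l ε (2 * Real.pi * (η * M)) hε hε1 hL1 hL hl1 (tw P Φ)
    (fun m => by
      unfold tw
      rw [norm_mul, norm_ee, one_mul]
      exact hΦ m)
    (fun x => ∑ b ∈ range Q₃, Wg l x (tw (Q + C ((b : ℝ) / Q₃) * X) Φ))
    (fun x => sum_nonneg fun b _ => wg_nonneg _ _ _) hW (by positivity) ?_ hmain
  have h1 : η * (8 * (2 * Real.pi * M + 2)) = ε := by rw [hη]; field_simp
  have h2 : 2 * Real.pi * (η * M) * H + 2 * (η * H) = ε / 8 * H := by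
    rw [← h1]; ring
  linarith

end Pool.Agent.NV
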