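import Pool.Agent.Lib.VQ.SYB
import Pool.Agent.Lib.NV.Defs

/-!
# Theorem NV, row SYC: reference primes in the cells and a type of relation (helper87)
-/

set_option autoImplicit false
open Finset MeasureTheory Polynomial

namespace Pool.Agent.NV

open Pool.Agent.Lib.MP_663568_nt Pool.Agent.Lib.MP_663568_nt.Katai
  Pool.Agent.Lib.MP_663568_nt.Nul Pool.Agent.SV Pool.Agent.VQ

namespace SYCx

open Pool.Agent.VQ.SYBx

/-- Many integers of a cell (for any property `g`). -/
lemma count_cell {K j : ℕ} (g : ℕ → Prop) {c₁ : ℝ} {N : Set ℝ} (hK : 3 ≤ K)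
    (h8 : 8 ≤ aj K (j + 1)) (hN : N ⊆ Ej K j) (hc₁ : 0 ≤ c₁)
    (hK1 : ∀ v ∈ N, g ⌊Real.exp v⌋₊)
    (hvol : c₁ * (Real.log (aj K (j + 1)) - Real.log (aj K j)) ≤ (volume N).toReal) :
    c₁ / 2 * ((aj K (j + 1) - aj K j : ℕ) : ℝ) ≤
      (by classical exact (#((Ico (aj K j) (aj K j + (aj K (j + 1) - aj K j))).filter
        fun m : ℕ => g m) : ℝ)) := by
  classical
  set S := (Ico (aj K j) (aj K j + (aj K (j + 1) - aj K j))).filter fun m : ℕ => g m with hS
  have hmono : aj K j ≤ aj K (j + 1) := aj_mono K (Nat.le_succ j)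
  have ha0 := aj_pos' K j
  have ha1 := aj_pos' K (j + 1)
  have hsub : N ⊆ ⋃ m ∈ S, Set.Ico (Real.log m) (Real.log ((m : ℝ) + 1)) := by
    intro v hv
    have h1 := mem_Ej_iff.1 (hN hv)
    have h2 : 1 ≤ ⌊Real.exp v⌋₊ := (aj_pos K j).trans h1.1
    have hm0 : (0 : ℝ) < ⌊Real.exp v⌋₊ := by exact_mod_cast h2
    rw [Set.mem_iUnion₂]
    refine ⟨⌊Real.exp v⌋₊, ?_, ?_⟩
    · rw [hS, mem_filter, mem_Ico]
      exact ⟨⟨h1.1, by omega⟩, hK1 v hv⟩
    · rw [Set.mem_Ico, Real.log_le_iff_le_exp hm0, Real.lt_log_iff_exp_lt (by positivity)]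
      exact ⟨Nat.floor_le (Real.exp_pos _).le, Nat.lt_floor_add_one _⟩
  have hv1 : (volume N).toReal ≤ #S / (aj K j : ℝ) := by
    have h1 : volume N ≤ ENNReal.ofReal (#S / (aj K j : ℝ)) := by
      refine (measure_mono hsub).trans ((measure_biUnion_finset_le _ _).trans ?_)
      have h2 : ∀ m ∈ S, volume (Set.Ico (Real.log m) (Real.log ((m : ℝ) + 1))) ≤
          ENNReal.ofReal (1 / (aj K j : ℝ)) := by
        intro m hm
        rw [Real.volume_Ico]
        apply ENNReal.ofReal_le_ofReal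
        have h3 : aj K j ≤ m := (mem_Ico.1 (mem_filter.1 hm).1).1
        have h4 : (aj K j : ℝ) ≤ m := by exact_mod_cast h3
        have hm0 : (0 : ℝ) < m := by linarith
        have h5 : Real.log (((m : ℝ) + 1) / m) ≤ ((m : ℝ) + 1) / m - 1 :=
          Real.log_le_sub_one_of_pos (by positivity)
        rw [Real.log_div (by positivity) hm0.ne'] at h5
        have h6 : ((m : ℝ) + 1) / m - 1 = 1 / m := by field_simp; ring
        rw [h6] at h5
        exact h5.trans (one_div_le_one_div_of_le ha0 h4)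
      refine (sum_le_sum h2).trans ?_
      rw [sum_const, nsmul_eq_mul, ← ENNReal.ofReal_natCast, ← ENNReal.ofReal_mul (Nat.cast_nonneg _)]
      apply ENNReal.ofReal_le_ofReal
      rw [mul_one_div]
    exact ENNReal.toReal_le_of_le_ofReal (by positivity) h1
  have h2 : ((aj K (j + 1) - aj K j : ℕ) : ℝ) = (aj K (j + 1) : ℝ) - aj K j := Nat.cast_sub hmono
  have h3 : (aj K (j + 1) : ℝ) ≤ 2 * aj K j := by
    have := aj_double hK h8
    have := le_aj K j
    linarith
  have h4 : 1 - (aj K j : ℝ) / aj K (j + 1) ≤ Real.log (aj K (j + 1)) - Real.log (aj K j) := by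
    have h5 : Real.log ((aj K j : ℝ) / aj K (j + 1)) ≤ (aj K j : ℝ) / aj K (j + 1) - 1 :=
      Real.log_le_sub_one_of_pos (by positivity)
    rw [Real.log_div ha0.ne' ha1.ne'] at h5
    linarith
  have h5 : ((aj K (j + 1) : ℝ) - aj K j) / (2 * aj K j) ≤ 1 - (aj K j : ℝ) / aj K (j + 1) := by
    rw [one_sub_div ha1.ne', div_le_div_iff₀ (by positivity) ha1]
    have h6 : (0 : ℝ) ≤ (aj K (j + 1) : ℝ) - aj K j := by
      have : (aj K j : ℝ) ≤ aj K (j + 1) := by exact_mod_cast hmono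
      linarith
    gcongr
  have h6 : c₁ * (((aj K (j + 1) : ℝ) - aj K j) / (2 * aj K j)) ≤ #S / (aj K j : ℝ) := by
    refine le_trans ?_ (hvol.trans hv1)
    gcongr
    exact h5.trans h4
  rw [h2]
  have h7 : c₁ / 2 * ((aj K (j + 1) : ℝ) - aj K j) =
      c₁ * (((aj K (j + 1) : ℝ) - aj K j) / (2 * aj K j)) * aj K j := by
    field_simp
  rw [h7]
  calc c₁ * (((aj K (j + 1) : ℝ) - aj K j) / (2 * aj K j)) * aj K j ≤ #S / (aj K j : ℝ) * aj K j := by
        gcongr
    _ = #S := by field_simp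

/-- Pigeonhole over the types. -/
lemma pigeon {T : Type} [Fintype T] [Nonempty T] (PP : Finset ℕ) (w : ℕ → ℝ) (hw : ∀ p, 0 ≤ w p)
    (J : ℕ) (a : ℕ → ℕ → ℝ) (ha : ∀ j p, 0 ≤ a j p) (R : T → ℕ → ℕ → Prop) {D : ℝ}
    (h : D ≤ ∑ p ∈ PP, w p * ∑ j ∈ range J,
      (by classical exact if ∃ θ, R θ j p then a j p else 0)) :
    ∃ θ : T, D / Fintype.card T ≤ ∑ p ∈ PP, w p * ∑ j ∈ range J,
      (by classical exact if R θ j p then a j p else 0) := by
  classical
  have hT : (0 : ℝ) < Fintype.card T := by exact_mod_cast Fintype.card_pos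
  by_contra hcon
  have hcon' : ∀ θ : T, ∑ p ∈ PP, w p * ∑ j ∈ range J, (if R θ j p then a j p else 0) <
      D / Fintype.card T := by
    intro θ
    by_contra h1
    exact hcon ⟨θ, not_lt.1 h1⟩
  have h1 : ∑ θ : T, ∑ p ∈ PP, w p * ∑ j ∈ range J, (if R θ j p then a j p else 0) < D := by
    calc ∑ θ : T, ∑ p ∈ PP, w p * ∑ j ∈ range J, (if R θ j p then a j p else 0) <
          ∑ _θ : T, D / Fintype.card T :=
          sum_lt_sum_of_nonempty univ_nonempty fun θ _ => hcon' θ
      _ = D := by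
          rw [sum_const, card_univ, nsmul_eq_mul]
          field_simp
  have h2 : ∑ p ∈ PP, w p * ∑ j ∈ range J, (if ∃ θ, R θ j p then a j p else 0) ≤
      ∑ θ : T, ∑ p ∈ PP, w p * ∑ j ∈ range J, (if R θ j p then a j p else 0) := by
    rw [sum_comm]
    refine sum_le_sum fun p _ => ?_
    rw [← mul_sum]
    refine mul_le_mul_of_nonneg_left ?_ (hw p)
    rw [sum_comm]
    refine sum_le_sum fun j _ => ?_
    split_ifs with h3
    · obtain ⟨θ, hθ⟩ := h3
      have h4 : (if R θ j p then a j p else 0) ≤ ∑ θ' : T, (if R θ' j p then a j p else 0) :=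
        single_le_sum (f := fun θ' : T => if R θ' j p then a j p else 0) (fun θ' _ => by
          split_ifs
          · exact ha j p
          · exact le_rfl) (mem_univ θ)
      rwa [if_pos hθ] at h4
    · exact sum_nonneg fun θ _ => by
        split_ifs
        · exact ha j p
        · exact le_rfl
  linarith

end SYCx

open Pool.Agent.VQ.SYBx Pool.Agent.VQ.SYAx in
/-- **Row SYC.** -/
theorem syc : SYC_stmt := by
  classical
  intro Ty _ _ A κ₁ κ₂ e c hA hκ₁ hκ hκ₂ he hc hc1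
  have hTy : (1 : ℝ) ≤ Fintype.card Ty := by exact_mod_cast Fintype.card_pos
  refine ⟨c / 2 / Fintype.card Ty, A + 6, 3000, by positivity, ?_, by linarith, ?_⟩
  · rw [div_le_one (by linarith)]
    linarith
  intro H hH hLs α₀ ev hev xa xb hxa hxab _ Q l K hl1 _ hK Rl hRl hmeas hsum
  obtain ⟨PP, hPP⟩ : ∃ PP : Finset ℕ, PP = PPs H κ₁ κ₂ := ⟨_, rfl⟩
  rw [← hPP] at hsum hLs ⊢
  -- the size of `H`
  have hH3000 : (3000 : ℝ) ≤ H := by exact_mod_cast hH
  have hH0 : (0 : ℝ) < H := by linarith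
  have hH1 : (1 : ℝ) ≤ H := by linarith
  have hlH : 8 ≤ Real.log H := by
    rw [Real.le_log_iff_exp_le hH0]
    have h1 := Real.exp_one_lt_d9
    have h2 : Real.exp 8 = Real.exp 1 ^ 8 := by rw [← Real.exp_nat_mul]; norm_num
    rw [h2]
    calc Real.exp 1 ^ 8 ≤ (2.7182818286 : ℝ) ^ 8 := by gcongr
      _ ≤ 3000 := by norm_num
      _ ≤ H := hH3000
  set s : ℝ := Real.sqrt H with hs
  have hs0 : 0 < s := Real.sqrt_pos.2 hH0
  have hss : s * s = H := Real.mul_self_sqrt hH0.le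
  have hs50 : 50 ≤ s := by
    rw [hs]; exact Real.le_sqrt_of_sq_le (by linarith)
  -- `K`
  have hHA : (1 : ℝ) ≤ (H : ℝ) ^ A := Real.one_le_rpow hH1 hA
  have hHA1 : (H : ℝ) ^ (A + 1) = (H : ℝ) ^ A * H := by rw [Real.rpow_add hH0, Real.rpow_one]
  have hKge : (H : ℝ) ^ A * H ≤ K := by
    rw [← hHA1, hK]
    exact Nat.le_ceil _
  have hKle : (K : ℝ) ≤ 2 * ((H : ℝ) ^ A * H) := by
    have h1 : (K : ℝ) ≤ (H : ℝ) ^ A * H + 1 := by
      rw [← hHA1, hK]
      exact (Nat.ceil_lt_add_one (by positivity)).le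
    nlinarith
  have hK3' : (3 : ℝ) ≤ K := by nlinarith
  have hK3 : 3 ≤ K := by exact_mod_cast hK3'
  have hK1 : 1 ≤ K := by omega
  -- `xa`, `xb`
  have hHA6 : (H : ℝ) ^ A * H ^ 6 = (H : ℝ) ^ (A + 6) := by
    rw [Real.rpow_add hH0, show (6 : ℝ) = ((6 : ℕ) : ℝ) by norm_num, Real.rpow_natCast]
  have hxa0 : 0 < xa := lt_of_lt_of_le (Real.rpow_pos_of_pos hH0 _) hxa
  have hxb0 : 0 < xb := lt_of_lt_of_le (by positivity) hxab
  have hxa6 : (H : ℝ) ^ A * H ^ 6 ≤ xa := by rw [hHA6]; exact hxa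
  have hlxa : 6 * Real.log H ≤ Real.log xa := by
    have h1 : (H : ℝ) ^ 6 ≤ xa := by
      refine le_trans ?_ hxa6
      have : (0 : ℝ) ≤ (H : ℝ) ^ 6 := by positivity
      nlinarith
    have h2 := Real.log_le_log (by positivity) h1
    rw [Real.log_pow] at h2
    exact_mod_cast h2
  obtain ⟨Λ, hΛ⟩ : ∃ Λ : ℝ, Λ = Real.log xb - Real.log xa := ⟨_, rfl⟩
  rw [← hΛ] at hsum ⊢
  have hΛ1 : Real.log H ≤ Λ := by
    have := Real.log_le_log (by positivity) hxab
    rw [Real.log_mul hxa0.ne' hH0.ne'] at this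
    linarith
  have hpp : ∀ p ∈ PP, 1 ≤ p ∧ 0 ≤ Real.log p ∧ Real.log p ≤ 1 / 4 * Real.log H := by
    intro p hp
    rw [hPP, PPs, mem_filter, mem_Icc] at hp
    have h1 : (p : ℝ) ≤ (H : ℝ) ^ κ₂ :=
      (Nat.cast_le.2 hp.1.2).trans (Nat.floor_le (by positivity))
    have hp0 : (0 : ℝ) < p := by exact_mod_cast hp.1.1
    refine ⟨hp.1.1, Real.log_natCast_nonneg _, ?_⟩
    have h2 := Real.log_le_log hp0 h1
    rw [Real.log_rpow hH0] at h2
    nlinarith
  set N : ℕ → ℕ → Set ℝ := fun p p' => NpA ev Q K l xa xb e c p p' with hN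
  have hNv : ∀ p ∈ PP, ∀ p' v, v ∈ N p p' → Real.log xa - 1 / 4 * Real.log H ≤ v ∧
      v ≤ Real.log xb ∧ 0 ≤ v ∧ 8 ≤ Real.exp v := by
    intro p hp p' v hv
    obtain ⟨h1, h2, h3⟩ := hpp p hp
    have h4 := hv.1.1
    have h5 := hv.1.2.1
    have h6 : 8 ≤ v := by linarith
    refine ⟨by linarith, by linarith, by linarith, ?_⟩
    have := Real.add_one_le_exp v
    linarith
  have hfin : ∀ p ∈ PP, ∀ p' j, volume (N p p' ∩ Ej K j) ≠ ⊤ := by
    intro p hp p' j
    refine ne_top_of_le_ne_top (b := volume (Set.Icc 0 (Real.log xb))) (by simp) (measure_mono ?_)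
    intro v hv
    have := hNv p hp p' v hv.1
    exact ⟨this.2.2.1, this.2.1⟩
  obtain ⟨J, hJ⟩ : ∃ J : ℕ, J = ⌊(K : ℝ) * Real.log xb⌋₊ + 1 := ⟨_, rfl⟩
  set α : ℕ → ℕ → ℕ → ℝ := fun j p p' => (volume (N p p' ∩ Ej K j)).toReal with hα
  set I : Set ℝ := Set.Icc (Real.log xa - 1 / 4 * Real.log H - 1) (Real.log xb + 1) with hI
  set μ : ℕ → ℝ := fun j => (volume (Ej K j ∩ I)).toReal with hμ
  -- large cells are related
  have hkey : ∀ j, ∀ p ∈ PP, ∀ p' ∈ PP, (N p p' ∩ Ej K j).Nonempty →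
      c / 4 * (Real.log (aj K (j + 1)) - Real.log (aj K j)) ≤ α j p p' → ∃ θ, Rl θ p p' j := by
    intro j p hp p' hp' hne hbig
    obtain ⟨u, hu1, hu2⟩ := hne
    obtain ⟨h3, h4, h5, h6⟩ := hNv p hp _ u hu1
    have hcl : cl K u = j := (cl_iff hK1 h5).2 hu2
    obtain ⟨g1, g2, g3⟩ := hu1
    obtain ⟨f1, f2, f3⟩ := cell_facts hK3 h6 hu2
    set L : ℕ := aj K (j + 1) - aj K j with hL
    have hmono : aj K j ≤ aj K (j + 1) := aj_mono K (Nat.le_succ j)
    have hLr : (L : ℝ) = (aj K (j + 1) : ℝ) - aj K j := by rw [hL, Nat.cast_sub hmono]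
    have hK0 : (0 : ℝ) < K := by linarith
    have hLxa : xa ≤ L * ((H : ℝ) ^ A * H ^ 2) := by
      have k1 := len_ge K j
      rw [← hLr] at k1
      have k2 : xa ≤ Real.exp u * s := by
        have k3 : Real.log xa ≤ u + 1 / 2 * Real.log H := by linarith
        have k4 := Real.exp_le_exp.2 k3
        rw [Real.exp_log hxa0, Real.exp_add] at k4
        have k5 : Real.exp (1 / 2 * Real.log H) = s := by
          rw [hs, Real.sqrt_eq_rpow, Real.rpow_def_of_pos hH0, mul_comm]
        rwa [k5] at k4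
      have k6 : Real.exp u / 2 ≤ Real.exp ((j : ℝ) / K) := by linarith
      have k7 : Real.exp u / 2 / (2 * ((H : ℝ) ^ A * H)) ≤ Real.exp ((j : ℝ) / K) / K := by
        gcongr
      have k8 : Real.exp u / 2 / (2 * ((H : ℝ) ^ A * H)) * ((H : ℝ) ^ A * H ^ 2) =
          Real.exp u * H / 4 := by field_simp; ring
      have k9 : (H : ℝ) ^ A * H ^ 2 ≤ xa := by
        refine le_trans ?_ hxa6
        gcongr
        norm_num
      have k10 : 0 < (H : ℝ) ^ A * H ^ 2 := by positivity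
      calc xa ≤ (s / 4) * xa - xa := by nlinarith
        _ ≤ (s / 4) * (Real.exp u * s) - (H : ℝ) ^ A * H ^ 2 := by
            have : s / 4 * xa ≤ s / 4 * (Real.exp u * s) := by gcongr
            linarith
        _ = Real.exp u * H / 4 - (H : ℝ) ^ A * H ^ 2 := by rw [← hss]; ring
        _ = (Real.exp u / 2 / (2 * ((H : ℝ) ^ A * H)) - 1) * ((H : ℝ) ^ A * H ^ 2) := by
            rw [sub_mul, k8, one_mul]
        _ ≤ L * ((H : ℝ) ^ A * H ^ 2) := by
            refine mul_le_mul_of_nonneg_right ?_ k10.le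
            linarith
    have hLB : xa / (H : ℝ) ^ (A + 6) ≤ L := by
      rw [div_le_iff₀ (by positivity), ← hHA6]
      refine hLxa.trans ?_
      have : (H : ℝ) ^ 2 ≤ H ^ 6 := pow_le_pow_right₀ hH1 (by norm_num)
      gcongr
    have hKv : ∀ v ∈ N p p' ∩ Ej K j, c ≤ Kg l ⌊Real.exp v⌋₊ (lo ev Q p u) (lo ev Q p' u) := by
      intro v hv
      obtain ⟨q3, q4, q5, q6⟩ := hNv p hp _ v hv.1
      have hclv : cl K v = cl K u := by rw [hcl]; exact (cl_iff hK1 q5).2 hv.2
      have q7 := hv.1.2.2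
      have q8 : lo ev Q p v = lo ev Q p u := by
        unfold lo
        rw [g1.2.2.1 v hclv]
      have q9 : lo ev Q p' v = lo ev Q p' u := by
        unfold lo
        rw [g2.2.2.1 v hclv]
      rw [← q8, ← q9]
      exact q7
    have hcount := SYCx.count_cell (fun m => c ≤ Kg l m (lo ev Q p u) (lo ev Q p' u))
      (c₁ := c / 4) hK3 f1 (Set.inter_subset_right (s := N p p') (t := Ej K j)) (by positivity)
      hKv hbig
    rw [← hL] at hcount
    have h7 := hRl p (hPP ▸ hp) p' (hPP ▸ hp') u (aj K j) L g1.2.2.1 g2.2.2.1 hLB (by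
      refine le_trans (le_of_eq ?_) (hcount.trans (le_of_eq ?_))
      · ring
      · norm_cast)
    rwa [hcl] at h7
  obtain ⟨p0, hp0, hbig⟩ := choice PP (wt PP) (wt_nonneg PP) (sum_wt PP hLs) J α μ
    (fun j p p' => ∃ θ, Rl θ p p' j) (c := c)
    (Λ := Λ) (T := Λ + 1 / 4 * Real.log H + 2) hc.le (by
      intro j p hp p' hp' hr
      have hμ0 : 0 ≤ μ j := ENNReal.toReal_nonneg
      by_cases hne : (N p p' ∩ Ej K j).Nonempty
      · have h1 : α j p p' < c / 4 * (Real.log (aj K (j + 1)) - Real.log (aj K j)) := by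
          by_contra h2
          exact hr (hkey j p hp p' hp' hne (not_lt.1 h2))
        obtain ⟨v, hv1, hv2⟩ := hne
        obtain ⟨h3, h4, h5, h6⟩ := hNv p hp p' v hv1
        obtain ⟨h7, h8, h9⟩ := cell_facts hK3 h6 hv2
        have h10 : Ej K j ⊆ I := by
          intro w hw
          have := hw.1
          have := hw.2
          have := hv2.1
          have := hv2.2
          exact ⟨by linarith, by linarith⟩
        have h11 : μ j = Real.log (aj K (j + 1)) - Real.log (aj K j) := by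
          rw [hμ]
          simp only
          rw [Set.inter_eq_left.2 h10, vol_Ej]
        rw [h11]
        exact h1.le
      · have h1 : α j p p' = 0 := by
          rw [hα]
          simp only
          rw [Set.not_nonempty_iff_eq_empty.1 hne, measure_empty, ENNReal.toReal_zero]
        rw [h1]
        positivity) (by
      have h1 := sum_le_vol K J (a := Real.log xa - 1 / 4 * Real.log H - 1) (b := Real.log xb + 1)
        (by linarith)
      refine h1.trans (le_of_eq ?_)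
      rw [hΛ]; ring) (by linarith) (by
      refine hsum.trans ?_
      refine sum_le_sum fun p hp => sum_le_sum fun p' _ => ?_
      have hww : 0 ≤ wt PP p * wt PP p' := mul_nonneg (wt_nonneg _ _) (wt_nonneg _ _)
      refine mul_le_mul_of_nonneg_left ?_ hww
      refine vol_le_sum hK1 (fun v hv => ?_) (fun j => hfin p hp p' j)
      obtain ⟨h3, h4, h5, h6⟩ := hNv p hp p' v hv
      rw [hJ]
      exact ⟨h5, cl_lt h5 h4⟩) (fun j => ENNReal.toReal_nonneg)
  obtain ⟨θ, hθ⟩ := SYCx.pigeon PP (wt PP) (wt_nonneg PP) J (fun j p => α j p (p0 j))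
    (fun j p => ENNReal.toReal_nonneg) (fun θ j p => Rl θ p (p0 j) j) (D := c / 2 * Λ)
    (by convert hbig)
  -- the sets
  set T : ℕ → ℕ → Set ℝ := fun p j => if Rl θ p (p0 j) j then N p (p0 j) ∩ Ej K j else ∅ with hT
  have hTm : ∀ p j, MeasurableSet (T p j) := by
    intro p j
    rw [hT]
    simp only
    split_ifs
    · exact (hmeas p (p0 j)).inter (meas_Ej K j)
    · exact MeasurableSet.empty
  have hTs : ∀ p j, T p j ⊆ Ej K j := by
    intro p j
    rw [hT]
    simp only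
    split_ifs
    · exact Set.inter_subset_right
    · exact Set.empty_subset _
  refine ⟨θ, p0, fun p => if p ∈ PP then ⋃ j ∈ range J, T p j else ∅, ?_, ?_, ?_⟩
  · intro p
    simp only
    split_ifs
    · exact Finset.measurableSet_biUnion _ fun j _ => hTm p j
    · exact MeasurableSet.empty
  · intro p u hu
    simp only at hu
    by_cases hp : p ∈ PP
    · rw [if_pos hp, Set.mem_iUnion₂] at hu
      obtain ⟨j, _, hj⟩ := hu
      rw [hT] at hj
      simp only at hj
      split_ifs at hj with hr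
      · obtain ⟨hu1, hu2⟩ := hj
        obtain ⟨h3, h4, h5, h6⟩ := hNv p hp _ u hu1
        have hcl : cl K u = j := (cl_iff hK1 h5).2 hu2
        obtain ⟨g1, g2, g3⟩ := hu1
        rw [hcl]
        exact ⟨hp, hp0 j, g1, g2, hr⟩
      · exact absurd hj (Set.notMem_empty u)
    · rw [if_neg hp] at hu
      exact absurd hu (Set.notMem_empty u)
  · refine le_trans (le_of_eq ?_) (hθ.trans (le_of_eq ?_))
    · ring
    · refine sum_congr rfl fun p hp => ?_
      simp only [if_pos hp]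
      rw [sum_part K J (T p) (hTm p) (hTs p) (by
        intro j
        rw [hT]
        simp only
        split_ifs
        · exact hfin p hp _ _
        · simp)]
      congr 1
      refine sum_congr rfl fun j _ => ?_
      rw [hT]
      simp only
      split_ifs with hr
      · rfl
      · simp

end Pool.Agent.NV
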