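import Mathlib
import Pool.Agent.Lib.NV.Defs
import Pool.Agent.Lib.VQ.TOR

/-!
# Theorem NV (MP_663568_nt), row TRIG: trigonometric approximation of a continuous family of
periodic functions.  (helper21)
-/

set_option autoImplicit false
open Finset

namespace Pool.Agent.NV

open Pool.Agent.Lib.MP_663568_nt Pool.Agent.Lib.MP_663568_nt.Katai
  Pool.Agent.Lib.MP_663568_nt.Nul Pool.Agent.SV Pool.Agent.VQ

namespace TRIGx

/-- The projection to the torus. -/
noncomputable def pr {D : ℕ} (u : Fin D → ℝ) : UnitAddTorus (Fin D) :=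
  fun j => ((u j : ℝ) : UnitAddCircle)

theorem pr_open (D : ℕ) : IsOpenQuotientMap (pr : (Fin D → ℝ) → UnitAddTorus (Fin D)) := by
  have h : IsOpenQuotientMap (Pi.map (fun (_ : Fin D) (x : ℝ) => ((x : ℝ) : UnitAddCircle))) :=
    IsOpenQuotientMap.piMap fun _ => QuotientAddGroup.isOpenQuotientMap_mk
  exact h

theorem pr_eq {D : ℕ} {u v : Fin D → ℝ} (h : pr u = pr v) : ∃ n : Fin D → ℤ, u = v + ic n := by
  have h1 : ∀ j, ∃ n : ℤ, u j = v j + n := by
    intro j
    have h2 : ((u j : ℝ) : UnitAddCircle) = ((v j : ℝ) : UnitAddCircle) := congrFun h j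
    rw [QuotientAddGroup.eq] at h2
    obtain ⟨n, hn⟩ := AddSubgroup.mem_zmultiples_iff.1 h2
    refine ⟨-n, ?_⟩
    have h3 : (n : ℝ) = -u j + v j := by
      rw [← hn]
      simp
    push_cast
    linarith
  choose n hn using h1
  exact ⟨n, funext hn⟩

theorem mFourier_pr {D : ℕ} (k : Fin D → ℤ) (u : Fin D → ℝ) :
    UnitAddTorus.mFourier k (pr u) = ee (dp k u) := by
  have h1 : ∀ (s : Finset (Fin D)) (a : Fin D → ℝ), ∏ j ∈ s, ee (a j) = ee (∑ j ∈ s, a j) := by
    intro s a
    classical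
    induction s using Finset.induction_on with
    | empty => simp [ee]
    | insert j s hj ih => rw [prod_insert hj, sum_insert hj, ih, ee_add1]
  unfold dp
  rw [← h1]
  show ∏ j, fourier (k j) (pr u j) = _
  refine prod_congr rfl fun j _ => ?_
  unfold pr
  rw [fourier_coe_apply, ee]
  congr 1
  push_cast
  ring

end TRIGx

open TRIGx in
theorem trig : TRIG_stmt := by
  classical
  intro D D' G hG hper ε hε
  have hq : IsOpenQuotientMap
      (Prod.map (id : (Fin D → ℝ) → (Fin D → ℝ)) (pr : (Fin D' → ℝ) → UnitAddTorus (Fin D'))) :=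
    IsOpenQuotientMap.id.prodMap (pr_open D')
  obtain ⟨G', hG', hGG⟩ : ∃ G' : (Fin D → ℝ) × UnitAddTorus (Fin D') → ℂ, Continuous G' ∧
      ∀ x u, G' (x, pr u) = G x u := by
    let F : C((Fin D → ℝ) × (Fin D' → ℝ), ℂ) := ⟨Function.uncurry G, hG⟩
    have hF : ∀ z w : (Fin D → ℝ) × (Fin D' → ℝ),
        Prod.map id pr z = Prod.map id pr w → F z = F w := by
      rintro ⟨x, u⟩ ⟨x', u'⟩ h
      have h3 : x = x' := congrArg Prod.fst h
      have h2 : pr u = pr u' := congrArg Prod.snd h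
      obtain ⟨n, hn⟩ := pr_eq h2
      show G x u = G x' u'
      rw [h3, hn, hper]
    refine ⟨fun z => F (Function.surjInv hq.surjective z), ?_, ?_⟩
    · rw [← hq.continuous_comp_iff]
      have h1 : (fun z => F (Function.surjInv hq.surjective z)) ∘ Prod.map id pr = ⇑F := by
        funext z
        exact hF _ _ (Function.surjInv_eq hq.surjective _)
      rw [h1]
      exact F.continuous
    · intro x u
      exact hF _ (x, u) (Function.surjInv_eq hq.surjective (x, pr u))
  let Φ : C(Fin D → ℝ, C(UnitAddTorus (Fin D'), ℂ)) :=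
    ContinuousMap.curry ⟨G', hG'⟩
  have hcube : IsCompact (Set.pi Set.univ fun _ : Fin D => Set.Icc (0 : ℝ) 1) :=
    isCompact_univ_pi fun _ => isCompact_Icc
  have himg : IsCompact (Φ '' (Set.pi Set.univ fun _ : Fin D => Set.Icc (0 : ℝ) 1)) :=
    hcube.image Φ.continuous
  obtain ⟨t, _, htf, htc⟩ := himg.finite_cover_balls (e := ε / 2) (by positivity)
  have happ : ∀ F : C(UnitAddTorus (Fin D'), ℂ), ∃ c : (Fin D' → ℤ) →₀ ℂ,
      ∀ u, ‖F (pr u) - ∑ k ∈ c.support, c k * ee (dp k u)‖ ≤ ε / 2 := by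
    intro F
    have hden : F ∈ (Submodule.span ℂ
        (Set.range (UnitAddTorus.mFourier (d := Fin D')))).topologicalClosure := by
      rw [UnitAddTorus.span_mFourier_closure_eq_top]
      trivial
    have hden' : F ∈ closure ((Submodule.span ℂ
        (Set.range (UnitAddTorus.mFourier (d := Fin D')))) :
          Set C(UnitAddTorus (Fin D'), ℂ)) := hden
    obtain ⟨P, hP, hFP⟩ := Metric.mem_closure_iff.1 hden' (ε / 2) (by positivity)
    rw [dist_eq_norm] at hFP
    obtain ⟨c, hc⟩ := (Finsupp.mem_span_range_iff_exists_finsupp).1 hP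
    refine ⟨c, fun u => ?_⟩
    have h1 : P (pr u) = ∑ k ∈ c.support, c k * ee (dp k u) := by
      rw [← hc, Finsupp.sum, ContinuousMap.sum_apply]
      refine sum_congr rfl fun k _ => ?_
      rw [ContinuousMap.smul_apply, smul_eq_mul, mFourier_pr]
    rw [← h1]
    exact ((F - P).norm_coe_le_norm (pr u)).trans hFP.le
  choose c hc using happ
  refine ⟨htf.toFinset.biUnion fun F => (c F).support,
    ∑ F ∈ htf.toFinset, ∑ k ∈ (c F).support, ‖c F k‖,
    sum_nonneg fun _ _ => sum_nonneg fun _ _ => norm_nonneg _, ?_⟩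
  intro x hx
  have hx1 : Φ x ∈ Φ '' (Set.pi Set.univ fun _ : Fin D => Set.Icc (0 : ℝ) 1) :=
    ⟨x, fun i _ => ⟨(hx i).1, (hx i).2⟩, rfl⟩
  obtain ⟨F, hF, hxF⟩ := Set.mem_iUnion₂.1 (htc hx1)
  have hFt : F ∈ htf.toFinset := htf.mem_toFinset.2 hF
  refine ⟨fun k => c F k, fun k => ?_, fun u => ?_⟩
  · by_cases hk : k ∈ (c F).support
    · refine le_trans ?_ (single_le_sum (f := fun F => ∑ k ∈ (c F).support, ‖c F k‖)
        (fun _ _ => sum_nonneg fun _ _ => norm_nonneg _) hFt)
      exact single_le_sum (f := fun k => ‖c F k‖) (fun _ _ => norm_nonneg _) hk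
    · show ‖(c F) k‖ ≤ _
      rw [Finsupp.notMem_support_iff.1 hk, norm_zero]
      exact sum_nonneg fun _ _ => sum_nonneg fun _ _ => norm_nonneg _
  · have h1 : ∑ k ∈ htf.toFinset.biUnion fun F => (c F).support, c F k * ee (dp k u) =
        ∑ k ∈ (c F).support, c F k * ee (dp k u) := by
      symm
      refine sum_subset (subset_biUnion_of_mem (fun F => (c F).support) hFt) fun k _ hk => ?_
      rw [Finsupp.notMem_support_iff.1 hk, zero_mul]
    rw [h1]
    have h2 : ‖G x u - F (pr u)‖ ≤ ε / 2 := by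
      have h3 : Φ x (pr u) = G x u := hGG x u
      rw [← h3]
      have h4 : ‖Φ x - F‖ < ε / 2 := by
        rw [← dist_eq_norm]
        exact Metric.mem_ball.1 hxF
      exact ((Φ x - F).norm_coe_le_norm (pr u)).trans h4.le
    calc ‖G x u - ∑ k ∈ (c F).support, c F k * ee (dp k u)‖
        ≤ ‖G x u - F (pr u)‖ + ‖F (pr u) - ∑ k ∈ (c F).support, c F k * ee (dp k u)‖ :=
          norm_sub_le_norm_sub_add_norm_sub _ _ _
      _ ≤ ε / 2 + ε / 2 := add_le_add h2 (hc F u)
      _ = ε := by ring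

end Pool.Agent.NV
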