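import Mathlib
import Pool.Agent.Lib.NV.Defs

/-!
# Theorem NV (MP_663568_nt), row TW: continuity of theta functions, uniform on the whole space.
(helper21)
-/

set_option autoImplicit false
open Finset

namespace Pool.Agent.NV

open Pool.Agent.Lib.MP_663568_nt Pool.Agent.Lib.MP_663568_nt.Katai
  Pool.Agent.Lib.MP_663568_nt.Nul Pool.Agent.SV Pool.Agent.VQ

namespace TWx

theorem ee_cont : Continuous ee := by
  unfold ee
  fun_prop

theorem ee_norm (x : ℝ) : ‖ee x‖ = 1 := by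
  unfold ee
  rw [Complex.norm_exp]
  simp

theorem ee_zero : ee 0 = 1 := by
  unfold ee
  simp

theorem bf_add_left {D : ℕ} (b : Fin D → Fin D → ℤ) (u u' v : Fin D → ℝ) :
    bf b (u + u') v = bf b u v + bf b u' v := by
  unfold bf
  rw [← sum_add_distrib]
  refine sum_congr rfl fun i _ => ?_
  rw [← sum_add_distrib]
  refine sum_congr rfl fun j _ => ?_
  rw [Pi.add_apply]
  ring

theorem bf_add_right {D : ℕ} (b : Fin D → Fin D → ℤ) (u v v' : Fin D → ℝ) :
    bf b u (v + v') = bf b u v + bf b u v' := by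
  unfold bf
  rw [← sum_add_distrib]
  refine sum_congr rfl fun i _ => ?_
  rw [← sum_add_distrib]
  refine sum_congr rfl fun j _ => ?_
  rw [Pi.add_apply]
  ring

theorem bf_zero_left {D : ℕ} (b : Fin D → Fin D → ℤ) (v : Fin D → ℝ) : bf b 0 v = 0 := by
  unfold bf
  simp

end TWx

open TWx in
theorem twc : TW_stmt := by
  intro D b f hf ε hε
  let Ψ : (Fin D → ℝ) × (Fin D → ℝ) → ℂ := fun z => f (z.1 + z.2) - ee (-bf b z.2 z.1) * f z.1
  have hb : Continuous fun z : (Fin D → ℝ) × (Fin D → ℝ) => bf b z.2 z.1 := by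
    unfold bf
    fun_prop
  have hΨ : Continuous Ψ := by
    refine Continuous.sub ?_ (Continuous.mul ?_ ?_)
    · exact hf.cont.comp (by fun_prop)
    · exact ee_cont.comp hb.neg
    · exact hf.cont.comp continuous_fst
  have hK : IsCompact ((Set.pi Set.univ fun _ : Fin D => Set.Icc (0 : ℝ) 1) ×ˢ
      (Set.pi Set.univ fun _ : Fin D => Set.Icc (-1 : ℝ) 1)) :=
    (isCompact_univ_pi fun _ => isCompact_Icc).prod (isCompact_univ_pi fun _ => isCompact_Icc)
  have hu := hK.uniformContinuousOn_of_continuous hΨ.continuousOn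
  obtain ⟨δ, hδ, hu⟩ := Metric.uniformContinuousOn_iff.1 hu ε hε
  refine ⟨min (δ / 2) 1, lt_min (by positivity) one_pos, fun x d hd => ?_⟩
  obtain ⟨n, x0, hx0, hx⟩ : ∃ (n : Fin D → ℤ) (x0 : Fin D → ℝ),
      (∀ i, 0 ≤ x0 i ∧ x0 i ≤ 1) ∧ x = x0 + ic n := by
    refine ⟨fun i => ⌊x i⌋, fun i => Int.fract (x i), fun i =>
      ⟨Int.fract_nonneg _, (Int.fract_lt_one _).le⟩, ?_⟩
    funext i
    show x i = Int.fract (x i) + (⌊x i⌋ : ℝ)
    rw [add_comm]
    exact (Int.floor_add_fract _).symm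
  have h1 : f (x + d) - ee (-bf b d x) * f x = ee (-bf b (x0 + d) (ic n)) * Ψ (x0, d) := by
    have e1 : x + d = (x0 + d) + ic n := by
      rw [hx]
      abel
    rw [e1, hf.add, hx, hf.add, bf_add_right]
    show _ = ee (-bf b (x0 + d) (ic n)) * (f (x0 + d) - ee (-bf b d x0) * f x0)
    rw [bf_add_left, mul_sub, ← mul_assoc, ← mul_assoc, ← ee_add, ← ee_add]
    congr 3
    ring
  have h2 : Ψ (x0, (0 : Fin D → ℝ)) = 0 := by
    show f (x0 + 0) - ee (-bf b 0 x0) * f x0 = 0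
    rw [bf_zero_left, neg_zero, ee_zero, add_zero, one_mul, sub_self]
  have h3 : ‖d‖ ≤ min (δ / 2) 1 := by
    rw [pi_norm_le_iff_of_nonneg (le_min (by positivity) zero_le_one)]
    intro i
    exact hd i
  have h4 := hu (x0, d) ⟨fun i _ => ⟨(hx0 i).1, (hx0 i).2⟩, fun i _ =>
    ⟨(abs_le.1 ((hd i).trans (min_le_right _ _))).1,
      (abs_le.1 ((hd i).trans (min_le_right _ _))).2⟩⟩ (x0, 0)
    ⟨fun i _ => ⟨(hx0 i).1, (hx0 i).2⟩, fun i _ => ⟨by norm_num, by norm_num⟩⟩ (by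
      rw [Prod.dist_eq, dist_self]
      rw [max_lt_iff]
      refine ⟨hδ, ?_⟩
      rw [dist_zero_right]
      have := h3.trans (min_le_left _ _)
      linarith)
  rw [h1, norm_mul, ee_norm, one_mul]
  rw [h2, dist_zero_right] at h4
  exact h4.le

end Pool.Agent.NV
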