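import Mathlib
import Pool.Agent.Lib.NV.Defs
import Pool.Agent.Lib.TS2.VRT
import Pool.Agent.Lib.TS2.CO
import Pool.Agent.Lib.MP_663568_nt_h86.FLev

/-!
# Row VRTA of Theorem NV (MP_663568_nt): functions with one vertical frequency (helper95)
-/

set_option autoImplicit false
open Finset MeasureTheory Polynomial

namespace Pool.Agent.NV

open Pool.Agent.Lib.MP_663568_nt Pool.Agent.Lib.MP_663568_nt.Katai
  Pool.Agent.Lib.MP_663568_nt.Nul Pool.Agent.Lib.MP_663568_nt.Fib Pool.Agent.SV Pool.Agent.VQ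

namespace VRTAx

open Pool.Agent.TS2 (Two Gam bil kz)
open Pool.Agent.TS2.VRTx

variable {d r : ℕ} {B : Fin r → Fin d → Fin d → ℤ}

lemma mem_x (n : Fin d → ℤ) : (⟨ic n, 0⟩ : Two B) ∈ Gam B := by
  refine ⟨n, 0, ?_⟩
  apply Two.ext
  · rfl
  · funext c
    simp

lemma kz_bil (k : Fin r → ℤ) (u v : Fin d → ℝ) : kz k (bil B u v) = bf (kB B k) u v := by
  simp only [kz, bil, bf, kB, Finset.mul_sum]
  rw [Finset.sum_comm]
  refine sum_congr rfl fun i _ => ?_
  rw [Finset.sum_comm]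
  refine sum_congr rfl fun j _ => ?_
  push_cast
  rw [Finset.sum_mul]
  exact sum_congr rfl fun c _ => by ring

lemma split (u : Fin d → ℝ) (z : Fin r → ℝ) : (⟨u, z⟩ : Two B) = ⟨u, 0⟩ * ⟨0, z⟩ := by
  apply Two.ext
  · simp
  · simp

/-- the theta function of a function with vertical frequency `k` -/
lemma qp_of {F : Two B → ℂ} {k : Fin r → ℤ} (hF : TS2.VerK k F) {M : ℝ} (hM : 0 < M)
    (hb : ∀ g, ‖F g‖ ≤ M) : QP (kB B k) (fun u => (M : ℂ)⁻¹ * F ⟨u, 0⟩) := by
  refine ⟨?_, fun u => ?_, fun u n => ?_⟩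
  · exact continuous_const.mul (hF.1.1.comp (Two.continuous_mk continuous_id continuous_const))
  · rw [norm_mul, norm_inv, Complex.norm_real, Real.norm_of_nonneg hM.le, inv_mul_le_iff₀ hM,
      mul_one]
    exact hb _
  · have h1 : (⟨u, 0⟩ : Two B) * ⟨ic n, 0⟩ = ⟨u + ic n, 0⟩ * ⟨0, bil B u (ic n)⟩ := by
      apply Two.ext
      · simp
      · simp
    have h2 : F ⟨u, 0⟩ = ee (kz k (bil B u (ic n))) * F ⟨u + ic n, 0⟩ := by
      rw [← hF.2, ← h1, hF.1.2 _ _ (mem_x n)]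
    have h3 : F ⟨u + ic n, 0⟩ = ee (-bf (kB B k) u (ic n)) * F ⟨u, 0⟩ := by
      rw [h2, kz_bil, ← mul_assoc, ← ee_add, neg_add_cancel]
      have := ee_int 0
      simp only [Int.cast_zero] at this
      rw [this, one_mul]
    rw [h3]
    ring

end VRTAx

open VRTAx TS2.VRTx

/-- Row VRTA. -/
theorem vrta : VRTA_stmt := by
  classical
  intro d r B f hc hper ε hε
  have hCO := TS2.rowCO d r B
  have hmem : ∀ e ∈ (List.finRange r).map (cen B), ∃ c, e = cen B c := by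
    intro e he
    rw [List.mem_map] at he
    obtain ⟨c, -, rfl⟩ := he
    exact ⟨c, rfl⟩
  obtain ⟨ι, hι, Fs, h1, h2⟩ := fourier_list (TS2.Gam B) hCO ((List.finRange r).map (cen B))
    (fun e he => by
      obtain ⟨c, rfl⟩ := hmem e he
      exact cen_oneP c)
    (fun F => Reg (TS2.Gam B) F) (fun F hF => hF)
    (fun F hF e he x => by
      obtain ⟨c, rfl⟩ := hmem e he
      rw [cen_mul, hF.2 _ _ (one_mem c)])
    (fun F _ e he e' he' t t' x => by
      obtain ⟨c, rfl⟩ := hmem e he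
      obtain ⟨c', rfl⟩ := hmem e' he'
      have h : cen B c t * cen B c' t' = cen B c' t' * cen B c t := central (cen B c' t') _
      rw [← mul_assoc, ← mul_assoc, h])
    (fun F hF e he m => by
      obtain ⟨c, rfl⟩ := hmem e he
      exact reg_Pop _ F hF _ (cen_oneP c).1 m)
    (fun F hF a => by
      refine ⟨continuous_const.mul hF.1, fun x γ hγ => ?_⟩
      show a * F (x * γ) = a * F x
      rw [hF.2 x γ hγ]) f ⟨hc, hper⟩ ε hε
  have h3 : ∀ i, ∃ k : Fin r → ℤ, TS2.VerK k (Fs i) := by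
    intro i
    have h4 : ∀ c, ∃ m : ℤ, Freq (cen B c) m (Fs i) := fun c =>
      (h1 i).2 _ (List.mem_map.mpr ⟨c, List.mem_finRange c, rfl⟩)
    choose k hk using h4
    exact ⟨k, verK_of (h1 i).1 hk⟩
  choose k hk using h3
  have h4 : ∀ i, ∃ C : ℝ, ∀ g, ‖Fs i g‖ ≤ C := fun i => (reg_bdd hCO (h1 i).1).imp fun _ h => h.2
  choose C hC using h4
  set M : ℝ := 1 + ∑ i, |C i| with hM
  have hM0 : 0 < M := by
    have : 0 ≤ ∑ i, |C i| := sum_nonneg fun i _ => abs_nonneg _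
    linarith
  have hb : ∀ i g, ‖Fs i g‖ ≤ M := by
    intro i g
    have h5 : |C i| ≤ ∑ i, |C i| := single_le_sum (fun i _ => abs_nonneg (C i)) (mem_univ i)
    have := hC i g
    have := le_abs_self (C i)
    linarith
  -- enumeration of the indices
  set n := Fintype.card ι
  let eq := Fintype.equivFin ι
  let fz : (Fin d → ℝ) → ℂ := fun _ => 0
  refine ⟨n, M, fun t => if ht : t < n then k (eq.symm ⟨t, ht⟩) else 0,
    fun t => if ht : t < n then (fun u => (M : ℂ)⁻¹ * Fs (eq.symm ⟨t, ht⟩) ⟨u, 0⟩) else fz,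
    hM0.le, fun t => ?_, fun g => ?_⟩
  · by_cases ht : t < n
    · simp only [ht, dite_true]
      exact qp_of (hk _) hM0 (hb _)
    · simp only [ht, dite_false]
      refine ⟨continuous_const, fun u => ?_, fun u m => ?_⟩
      · simp [fz]
      · simp [fz]
  · have h5 : ∑ t ∈ range n, (M : ℂ) * (ee (dp (if ht : t < n then k (eq.symm ⟨t, ht⟩) else 0) g.z) *
        (if ht : t < n then (fun u => (M : ℂ)⁻¹ * Fs (eq.symm ⟨t, ht⟩) ⟨u, 0⟩) else fz) g.x) =
        ∑ i, Fs i g := by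
      rw [← Fin.sum_univ_eq_sum_range (fun t => (M : ℂ) *
        (ee (dp (if ht : t < n then k (eq.symm ⟨t, ht⟩) else 0) g.z) *
        (if ht : t < n then (fun u => (M : ℂ)⁻¹ * Fs (eq.symm ⟨t, ht⟩) ⟨u, 0⟩) else fz) g.x)) n]
      rw [← Equiv.sum_comp eq.symm]
      refine sum_congr rfl fun t _ => ?_
      have ht := t.2
      simp only [ht, dite_true, Fin.eta]
      have h6 : Fs (eq.symm t) g = ee (TS2.kz (k (eq.symm t)) g.z) * Fs (eq.symm t) ⟨g.x, 0⟩ := by
        rw [← (hk (eq.symm t)).2, ← split]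
      rw [h6]
      have hM' : (M : ℂ) ≠ 0 := by exact_mod_cast hM0.ne'
      have h7 : dp (k (eq.symm t)) g.z = TS2.kz (k (eq.symm t)) g.z := rfl
      rw [h7]
      field_simp
    rw [h5]
    exact h2 g

end Pool.Agent.NV
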