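import Mathlib
import Pool.Agent.Lib.NV.WDefs
import Pool.Agent.Lib.NV.NFIN
import Pool.Agent.Lib.VQ.WFIN

/-!
# Row WNFIN of Theorem NV (MP_663568_nt): free phases, the assembly (helper9, after VQ.WFIN by
helper95)
-/

set_option autoImplicit false
open Finset MeasureTheory Polynomial Filter

namespace Pool.Agent.NV

open Pool.Agent.Lib.MP_663568_nt Pool.Agent.Lib.MP_663568_nt.Katai
  Pool.Agent.Lib.MP_663568_nt.Nul Pool.Agent.SV Pool.Agent.VQ

noncomputable section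

namespace WNFINx

lemma Wg_nonneg (l m : ℕ) (g : ℕ → ℂ) : 0 ≤ Wg l m g := by
  unfold Wg
  positivity

lemma Wg_le_one (l m : ℕ) (g : ℕ → ℂ) (hg : ∀ m, ‖g m‖ ≤ 1) : Wg l m g ≤ 1 := by
  unfold Wg
  apply div_le_one_of_le₀ _ (Nat.cast_nonneg _)
  refine (norm_sum_le_of_le (f := fun h : ℕ => muC (m + h) * g (m + h))
    (n := fun _ => (1 : ℝ)) _ fun h _ => ?_).trans (by simp)
  rw [norm_mul]
  exact mul_le_one₀ (norm_muC _) (norm_nonneg _) (hg _)

lemma fn_le {D : ℕ} {b : Fin D → Fin D → ℤ} {f : (Fin D → ℝ) → ℂ} (hf : QP b f) (X : Dat D)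
    (m : ℕ) : ‖X.fn f m‖ ≤ 1 := by
  unfold Dat.fn
  rw [norm_mul, norm_ee, one_mul]
  exact hf.le _

lemma tw_le {P : ℝ[X]} {Φ : ℕ → ℂ} (h : ∀ m, ‖Φ m‖ ≤ 1) (m : ℕ) : ‖tw P Φ m‖ ≤ 1 := by
  unfold tw
  rw [norm_mul, norm_ee, one_mul]
  exact h m

/-- The datum with a linear phase added. -/
def addL {D : ℕ} (c : ℝ) (k : Fin D → ℤ) (X : Dat D) : Dat D :=
  ⟨X.a, X.y, X.C + Polynomial.C (c - dp k X.a) * Polynomial.X⟩

lemma addL_dg {D : ℕ} (c : ℝ) (k : Fin D → ℤ) (X : Dat D) (h : X.Dg) : (addL c k X).Dg := by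
  unfold Dat.Dg addL at *
  refine (natDegree_add_le _ _).trans (max_le h ?_)
  exact ((natDegree_C_mul_le _ _).trans natDegree_X_le).trans (by norm_num)

lemma addL_fn {D : ℕ} (c : ℝ) (k : Fin D → ℤ) (X : Dat D) (f : (Fin D → ℝ) → ℂ) :
    tw (Polynomial.C (-dp k X.a) * Polynomial.X + Polynomial.C c * Polynomial.X) (X.fn f) =
      (addL c k X).fn f := by
  funext m
  unfold tw Dat.fn addL
  simp only
  rw [← mul_assoc, ← ee_add]
  congr 2
  simp only [eval_add, eval_mul, eval_C, eval_X]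
  ring

/-- A family is constant on an interval without changes. -/
lemma const_of_no_change {α : Type} {Q : ℕ → α} {m K : ℕ}
    (h : ∀ n, m ≤ n → n ≤ m + K → Q (n + 1) = Q n) : ∀ j, j ≤ K → Q (m + j) = Q m := by
  intro j
  induction j with
  | zero => intro _; rfl
  | succ j ih =>
    intro hj
    rw [← ih (by omega), ← h (m + j) (by omega) (by omega)]
    rfl

/-- The case `ε ≤ 1`. -/
theorem main (hCLU : CLUF') (hSTR : STR') (hSUB : SUBQF_stmt) (hREG : REG_stmt) (t D : ℕ)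
    (ht : 1 ≤ t) (hN : NS D) (b : Fin D → Fin D → ℤ) (f : (Fin D → ℝ) → ℂ) (hf : QP b f)
    (A ε : ℝ) (hA : 0 ≤ A) (hε : 0 < ε) (hε1 : ε ≤ 1) :
    ∃ (B : ℝ) (H₀ : ℕ), 0 ≤ B ∧
      ∀ H : ℕ, H₀ ≤ H → ∀ xa xb : ℝ, (H : ℝ) ^ B ≤ xa → xa * H ≤ xb → ∀ Q : ℕ → Dat D,
      (∀ n, (Q n).Dg) → SlowA Q ((H : ℝ) ^ A) → ∀ P : ℕ → ℝ[X],
      (∀ n, (P n).natDegree ≤ t) → (∀ n : ℕ, (P n).derivative.eval (n : ℝ) = 0) →
      ∑ n ∈ Ioc ⌊xa⌋₊ ⌊xb⌋₊, (1 / (n : ℝ)) * Wg H n (tw (P n) ((Q n).fn f)) ≤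
        ε * (Real.log xb - Real.log xa) := by
  classical
  obtain ⟨c₁, E, qs, H₁, KK, hc₁, hc₁1, hE, hqs, hclu⟩ := hCLU D b f hf t ε ht hε hε1
  obtain ⟨E', Q₃, L₀, hE', hQ₃, hstr⟩ := hSTR t qs c₁ E ht hqs hc₁ hc₁1 hE
  obtain ⟨η, H₂, hη, hη1, hsub⟩ := hSUB t Q₃ ε E' ht hQ₃ hε hε1 hE'
  obtain ⟨B₁, H₃, hB₁, hreg⟩ := hREG A ε (ε / 16) hA hε hε1 (by positivity)
  have hQ₃0 : (0 : ℝ) < Q₃ := by exact_mod_cast hQ₃
  have hKK0 : (0 : ℝ) < (#KK : ℝ) + 1 := by positivity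
  obtain ⟨B₂, H₄, hB₂, hvw⟩ := hN b f hf (A + 1)
    (ε / 16 * ε / (100 * (((#KK : ℝ) + 1) * Q₃))) (by linarith) (by positivity)
  obtain ⟨H₅, hH₅2, hH₅⟩ := WFINx.large A η B₂ 1 H₄ hA hη
  obtain ⟨H₆, hH₆2, hH₆⟩ := WFINx.large A (ε / 16) B₂ 1 L₀ hA (by positivity)
  refine ⟨max B₁ (B₂ + 1), max (max H₁ H₂) (max H₃ (max H₅ H₆)), by positivity, ?_⟩
  intro H hH xa xb hxa hxb Q hQ hQs P hP hPQ
  have hHa : H₁ ≤ H := by omega
  have hHb : H₂ ≤ H := by omega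
  have hHc : H₃ ≤ H := by omega
  have hHd : H₅ ≤ H := by omega
  have hHe : H₆ ≤ H := by omega
  obtain ⟨f1, f2, f3, f4⟩ := hH₅ H hHd
  obtain ⟨g1, -, -, -⟩ := hH₆ H hHe
  have hH2 : (2 : ℝ) ≤ H := by exact_mod_cast hH₅2.trans hHd
  have hH1 : (1 : ℝ) ≤ H := by linarith
  have hH0 : (0 : ℝ) < H := by linarith
  have hxa1 : (H : ℝ) ^ B₁ ≤ xa :=
    (Real.rpow_le_rpow_of_exponent_le hH1 (le_max_left _ _)).trans hxa
  have hxa2 : (H : ℝ) ^ (B₂ + 1) ≤ xa :=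
    (Real.rpow_le_rpow_of_exponent_le hH1 (le_max_right _ _)).trans hxa
  have hxa0 : 0 < xa := lt_of_lt_of_le (Real.rpow_pos_of_pos hH0 _) hxa1
  have hxab : xa ≤ xb := by nlinarith
  have hxb0 : 0 < xb := hxa0.trans_le hxab
  by_contra hcon
  rw [not_le] at hcon
  set l : ℕ := ⌊η * (H : ℝ)⌋₊ with hl
  set L : ℕ := ⌊ε / 16 * (H : ℝ)⌋₊ with hL
  have hlH : (l : ℝ) ≤ H := by
    refine (Nat.floor_le (by positivity)).trans ?_
    nlinarith
  have hLH : L ≤ H := by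
    have h1 : (L : ℝ) ≤ H := by
      refine (Nat.floor_le (by positivity)).trans ?_
      nlinarith
    exact_mod_cast h1
  have hfl : ∀ n m, ‖(Q n).fn f m‖ ≤ 1 := fun n m => fn_le hf _ m
  -- the region statement
  have hG := hreg H hHc xa xb hxa1 hxb {n | Q (n + 1) ≠ Q n} (fun j => by
      have := hQs j
      convert this using 3
      ext n
      simp only [mem_filter, Set.mem_ofPred_eq])
    (fun n => Wg H n (tw (P n) ((Q n).fn f)))
    (fun x => ∑ k ∈ KK, ∑ b ∈ range Q₃, Wg l x ((addL ((b : ℝ) / Q₃) k (Q x)).fn f))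
    (fun n => Wg_nonneg _ _ _) (fun n => Wg_le_one _ _ _ (tw_le (hfl n)))
    (fun n => sum_nonneg fun k _ => sum_nonneg fun b _ => Wg_nonneg _ _ _) ?_ hcon
  · -- the sum of the right side
    have hsum : ∑ x ∈ Ioc ⌊xa / 2⌋₊ ⌊2 * xb⌋₊, (1 / (x : ℝ)) *
        ∑ k ∈ KK, ∑ b ∈ range Q₃, Wg l x ((addL ((b : ℝ) / Q₃) k (Q x)).fn f) =
        ∑ k ∈ KK, ∑ b ∈ range Q₃, ∑ x ∈ Ioc ⌊xa / 2⌋₊ ⌊2 * xb⌋₊, (1 / (x : ℝ)) *
          Wg l x ((addL ((b : ℝ) / Q₃) k (Q x)).fn f) := by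
      simp only [mul_sum]
      rw [sum_comm]
      refine sum_congr rfl fun k _ => ?_
      rw [sum_comm]
    rw [hsum] at hG
    have hb : ∀ k ∈ KK, ∑ b ∈ range Q₃, ∑ x ∈ Ioc ⌊xa / 2⌋₊ ⌊2 * xb⌋₊, (1 / (x : ℝ)) *
        Wg l x ((addL ((b : ℝ) / Q₃) k (Q x)).fn f) ≤
        ∑ _b ∈ range Q₃, ε / 16 * ε / (100 * (((#KK : ℝ) + 1) * Q₃)) *
          (Real.log (2 * xb) - Real.log (xa / 2)) := by
      intro k _
      refine sum_le_sum fun b _ => ?_
      refine hvw l f1 (xa / 2) (2 * xb) ?_ ?_ (fun x => addL ((b : ℝ) / Q₃) k (Q x))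
        (fun n => addL_dg _ _ _ (hQ n)) (fun j => ?_)
      · calc (l : ℝ) ^ B₂ ≤ (H : ℝ) ^ B₂ := Real.rpow_le_rpow (Nat.cast_nonneg _) hlH hB₂
          _ ≤ xa / 2 := by linarith
      · have : xa * l ≤ xa * H := by gcongr
        nlinarith [mul_nonneg hxa0.le (Nat.cast_nonneg (α := ℝ) l)]
      · exact (NFINx.slowA_map (addL ((b : ℝ) / Q₃) k) hQs j).trans f2
    have hG' := hG.trans (sum_le_sum hb)
    rw [sum_const, sum_const, card_range, nsmul_eq_mul, nsmul_eq_mul] at hG'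
    have e2 : Real.log H ≤ Real.log xb - Real.log xa := by
      rw [← Real.log_div hxb0.ne' hxa0.ne']
      refine Real.log_le_log hH0 ?_
      rw [le_div_iff₀ hxa0]
      linarith
    have e3 : Real.log 2 ≤ 1 := by
      have := Real.log_two_lt_d9
      linarith
    have e30 : 0 ≤ Real.log 2 := Real.log_nonneg (by norm_num)
    have e4 : 0 < ε / 16 * ε := by positivity
    have e5 : Real.log (2 * xb) - Real.log (xa / 2) =
        Real.log xb - Real.log xa + 2 * Real.log 2 := by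
      rw [Real.log_mul (by norm_num) hxb0.ne', Real.log_div hxa0.ne' (by norm_num)]
      ring
    rw [e5] at hG'
    have e1 : (#KK : ℝ) * ((Q₃ : ℝ) * (ε / 16 * ε / (100 * (((#KK : ℝ) + 1) * Q₃)) *
        (Real.log xb - Real.log xa + 2 * Real.log 2))) ≤
        ε / 16 * ε / 100 * (Real.log xb - Real.log xa + 2 * Real.log 2) := by
      have h1 : (#KK : ℝ) * ((Q₃ : ℝ) * (ε / 16 * ε / (100 * (((#KK : ℝ) + 1) * Q₃)) *
          (Real.log xb - Real.log xa + 2 * Real.log 2))) =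
          (#KK : ℝ) / ((#KK : ℝ) + 1) *
            (ε / 16 * ε / 100 * (Real.log xb - Real.log xa + 2 * Real.log 2)) := by
        field_simp
      rw [h1]
      refine mul_le_of_le_one_left ?_ ?_
      · have : 0 ≤ Real.log xb - Real.log xa := by linarith
        positivity
      · rw [div_le_one hKK0]
        linarith
    have hG2 := hG'.trans e1
    nlinarith
  · -- one region
    intro m₀ hm₀ hbad hJ
    have hch : ∀ n, m₀ ≤ n → n ≤ m₀ + 2 * H → Q (n + 1) = Q n := by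
      intro n h1 h2
      have := hbad n h1 h2
      simpa using this
    have hcst := const_of_no_change hch
    set J : Finset ℕ := (range L).filter fun j =>
      ε / 2 ≤ Wg H (m₀ + j) (tw (P (m₀ + j)) ((Q (m₀ + j)).fn f)) with hJd
    have hJL : ∀ j ∈ J, j < L := fun j hj => mem_range.1 (mem_filter.1 hj).1
    obtain ⟨R, k, hk, hR1, hR2, hR3⟩ := hclu H L m₀ hHa hL (Q m₀) J (fun j => P (m₀ + j))
      hJL hJ (fun j _ => hP _) (fun j hj => by
        have h1 := (mem_filter.1 hj).2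
        rwa [hcst j (by have := hJL j hj; omega)] at h1)
    set Q₁ : ℝ[X] := C (-dp k (Q m₀).a) * X with hQ₁
    have hQ₁d : Q₁.natDegree ≤ t := by
      rw [hQ₁]
      exact ((natDegree_C_mul_le _ _).trans natDegree_X_le).trans ht
    have hD : (R - Q₁).natDegree ≤ t := (natDegree_sub_le _ _).trans (max_le hR1 hQ₁d)
    have h4 := hstr H L m₀ g1 hLH (R - Q₁) hD ?_
    · have h5 := hsub H L m₀ l hHb hL hl ((Q m₀).fn f) (hfl m₀) R Q₁ hD h4 hR2
      refine h5.trans (sum_le_sum fun x hx => ?_)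
      rw [mem_Ioc] at hx
      have h6 := hcst (x - m₀) (by omega)
      rw [show m₀ + (x - m₀) = x by omega] at h6
      rw [h6]
      simp only [hQ₁, addL_fn]
      exact single_le_sum (f := fun k => ∑ b ∈ range Q₃,
        Wg l x ((addL ((b : ℝ) / Q₃) k (Q m₀)).fn f))
        (fun k _ => sum_nonneg fun b _ => Wg_nonneg _ _ _) hk
    · refine hR3.trans (Nat.cast_le.2 (card_le_card ?_))
      intro j hj
      rw [mem_filter] at hj ⊢
      refine ⟨mem_range.2 (hJL j hj.1), ?_⟩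
      have h7 := hj.2
      have h8 : (P (m₀ + j)).derivative.eval ((m₀ : ℝ) + j) = 0 := by
        have := hPQ (m₀ + j)
        push_cast at this
        exact this
      rw [h8, sub_zero] at h7
      have h9 : (R - Q₁).derivative.eval ((m₀ : ℝ) + j) =
          R.derivative.eval ((m₀ : ℝ) + j) + dp k (Q m₀).a := by
        rw [hQ₁]
        simp
      rw [h9]
      exact h7

end WNFINx

/-- **Row WNFIN.** -/
theorem wnfin : WNFIN_stmt := by
  intro hCLU hSTR hSUB hREG t D ht hN b f hf A ε hA hε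
  obtain ⟨B, H₀, hB, h⟩ := WNFINx.main hCLU hSTR hSUB hREG t D ht hN b f hf A (min ε 1) hA
    (lt_min hε one_pos) (min_le_right _ _)
  refine ⟨B, max H₀ 1, hB, fun H hH xa xb hxa hxb Q hQ hQs P hP hPQ => ?_⟩
  refine (h H ((le_max_left _ _).trans hH) xa xb hxa hxb Q hQ hQs P hP hPQ).trans ?_
  have hH1 : (1 : ℝ) ≤ H := by exact_mod_cast (le_max_right _ _).trans hH
  have hxa0 : 0 < xa := lt_of_lt_of_le (Real.rpow_pos_of_pos (by linarith) _) hxa
  have hle : xa ≤ xb := by nlinarith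
  have := Real.log_le_log hxa0 hle
  exact mul_le_mul_of_nonneg_right (min_le_left _ _) (by linarith)

end

end Pool.Agent.NV
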