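import Mathlib
import Pool.Agent.Lib.NV.WDefs
import Pool.Agent.Lib.NV.NFIN

/-!
# Row WNGRP of Theorem NV (MP_663568_nt): free phases, the theorem for the groups (helper9,
after NFIN by helper95)
-/

set_option autoImplicit false
open Finset MeasureTheory Polynomial

namespace Pool.Agent.NV

open Pool.Agent.Lib.MP_663568_nt Pool.Agent.Lib.MP_663568_nt.Katai
  Pool.Agent.Lib.MP_663568_nt.Nul Pool.Agent.SV Pool.Agent.VQ

open NFINx

/-- Row WNGRP. -/
theorem wngrp : WNGRP_stmt := by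
  classical
  intro hV hP hN s d r B F hs1 hc hper A ε hA hε
  obtain ⟨T, M, k, f, hM, hq, hF⟩ := hV d r B F hc hper (ε / 4) (by positivity)
  set ε₂ : ℝ := ε / (2 * (T * M + 1)) with hε₂
  have hTM : 0 ≤ (T : ℝ) * M := by positivity
  have hε₂0 : 0 < ε₂ := by positivity
  have h1 : ∀ t, ∃ (B : ℝ) (H₀ : ℕ), 0 ≤ B ∧
      ∀ H : ℕ, H₀ ≤ H → ∀ xa xb : ℝ, (H : ℝ) ^ B ≤ xa → xa * H ≤ xb → ∀ Q : ℕ → Dat d,
      (∀ n, (Q n).Dg) → SlowA Q ((H : ℝ) ^ A) → ∀ P : ℕ → ℝ[X], (∀ n, (P n).natDegree ≤ s) →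
      (∀ n : ℕ, (P n).derivative.eval (n : ℝ) = 0) →
      ∑ n ∈ Ioc ⌊xa⌋₊ ⌊xb⌋₊, (1 / (n : ℝ)) * Wg H n (tw (P n) ((Q n).fn (f t))) ≤
        ε₂ * (Real.log xb - Real.log xa) := fun t => hN s d hs1 _ _ (hq t) A ε₂ hA hε₂0
  choose Bt Ht hBt h using h1
  have hP' := hP d r B
  choose C hC1 hC2 using hP'
  have hsB : ∀ t ∈ range T, Bt t ≤ ∑ t ∈ range T, Bt t := fun t ht =>
    single_le_sum (fun i _ => hBt i) ht
  have hsH : ∀ t ∈ range T, Ht t ≤ ∑ t ∈ range T, Ht t := fun t ht =>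
    single_le_sum (f := Ht) (fun i _ => Nat.zero_le _) ht
  refine ⟨1 + ∑ t ∈ range T, Bt t, 3 + ∑ t ∈ range T, Ht t,
    by have := sum_nonneg fun t (_ : t ∈ range T) => hBt t; linarith,
    fun H hH xa xb hxa hxb g x hs P hPd hPz => ?_⟩
  have hH3 : 3 ≤ H := by omega
  have hH3' : (3 : ℝ) ≤ H := by exact_mod_cast hH3
  have hH1 : (1 : ℝ) ≤ H := by linarith
  have hsum0 : 0 ≤ ∑ t ∈ range T, Bt t := sum_nonneg fun t _ => hBt t
  have hxa3 : 3 ≤ xa := by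
    refine le_trans ?_ hxa
    calc (3 : ℝ) ≤ (H : ℝ) ^ (1 : ℝ) := by rw [Real.rpow_one]; exact hH3'
      _ ≤ (H : ℝ) ^ (1 + ∑ t ∈ range T, Bt t) :=
        Real.rpow_le_rpow_of_exponent_le hH1 (by linarith)
  set Λ : ℝ := Real.log xb - Real.log xa with hΛ
  have hxab : xa ≤ xb := by
    refine le_trans ?_ hxb
    nlinarith
  have hΛ1 : 1 ≤ Λ := by
    have h2 : Real.log (xa * H) ≤ Real.log xb := Real.log_le_log (by positivity) hxb
    rw [Real.log_mul (by linarith) (by linarith)] at h2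
    have h3 : 1 ≤ Real.log H := by
      have h4 : Real.exp 1 ≤ H := by
        have := Real.exp_one_lt_d9
        linarith
      have := Real.log_le_log (Real.exp_pos 1) h4
      rwa [Real.log_exp] at this
    rw [hΛ]
    linarith
  -- the data
  set Q : ℕ → ℕ → Dat d := fun t n => ⟨(g n).x, (x n).x, C (k t) (g n) (x n)⟩ with hQ
  have hfn : ∀ t n m, ((Q t n).fn (f t)) m =
      ee (dp (k t) ((g n) ^ m * x n).z) * f t ((g n) ^ m * x n).x := by
    intro t n m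
    obtain ⟨h2, h3⟩ := hC2 (k t) (g n) (x n) m
    rw [h2, h3]
    rfl
  have hslow : ∀ t, SlowA (Q t) ((H : ℝ) ^ A) := fun t =>
    slowA_map (fun v : TS2.Two B × TS2.Two B => (⟨v.1.x, v.2.x, C (k t) v.1 v.2⟩ : Dat d)) hs
  have hw : ∀ n, ‖∑ h ∈ Icc 1 H, muC (n + h) * (ee ((P n).eval (((n + h : ℕ) : ℝ))) *
      F ((g n) ^ (n + h) * x n))‖ / H ≤
      ∑ t ∈ range T, M * Wg H n (tw (P n) ((Q t n).fn (f t))) + ε / 4 := by
    intro n
    refine window (by omega) hM (fun h => muC (n + h))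
      (fun h => ee ((P n).eval (((n + h : ℕ) : ℝ))) * F ((g n) ^ (n + h) * x n))
      (fun t h => tw (P n) ((Q t n).fn (f t)) (n + h)) (fun h => norm_muC _) (fun h => ?_)
    have e1 : ee ((P n).eval (((n + h : ℕ) : ℝ))) * F ((g n) ^ (n + h) * x n) -
        ∑ t ∈ range T, (M : ℂ) * tw (P n) ((Q t n).fn (f t)) (n + h) =
        ee ((P n).eval (((n + h : ℕ) : ℝ))) * (F ((g n) ^ (n + h) * x n) -
        ∑ t ∈ range T, (M : ℂ) * (ee (dp (k t) ((g n) ^ (n + h) * x n).z) *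
          f t ((g n) ^ (n + h) * x n).x)) := by
      rw [mul_sub, mul_sum]
      congr 1
      refine sum_congr rfl fun t _ => ?_
      unfold tw
      rw [hfn]
      ring
    rw [e1, norm_mul, norm_ee, one_mul]
    exact hF _
  have ht : ∀ t ∈ range T, ∑ n ∈ Ioc ⌊xa⌋₊ ⌊xb⌋₊, (1 / (n : ℝ)) *
      Wg H n (tw (P n) ((Q t n).fn (f t))) ≤ ε₂ * Λ := by
    intro t ht
    have h2 := hsB t ht
    have h3 := hsH t ht
    refine h t H (by omega) xa xb (le_trans ?_ hxa) hxb (Q t) (fun n => hC1 _ _ _) (hslow t)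
      P hPd hPz
    exact Real.rpow_le_rpow_of_exponent_le hH1 (by linarith)
  calc ∑ n ∈ Ioc ⌊xa⌋₊ ⌊xb⌋₊, (1 / (n : ℝ)) *
        (‖∑ h ∈ Icc 1 H, muC (n + h) * (ee ((P n).eval (((n + h : ℕ) : ℝ))) *
          F ((g n) ^ (n + h) * x n))‖ / H)
      ≤ ∑ n ∈ Ioc ⌊xa⌋₊ ⌊xb⌋₊, (1 / (n : ℝ)) *
        (∑ t ∈ range T, M * Wg H n (tw (P n) ((Q t n).fn (f t))) + ε / 4) :=
        sum_le_sum fun n _ => mul_le_mul_of_nonneg_left (hw n) (by positivity)
    _ = ∑ t ∈ range T, M * ∑ n ∈ Ioc ⌊xa⌋₊ ⌊xb⌋₊, (1 / (n : ℝ)) *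
          Wg H n (tw (P n) ((Q t n).fn (f t))) +
        ε / 4 * ∑ n ∈ Ioc ⌊xa⌋₊ ⌊xb⌋₊, (1 / (n : ℝ)) := by
        simp only [mul_add, sum_add_distrib, mul_sum]
        rw [sum_comm]
        congr 1
        · exact sum_congr rfl fun _ _ => sum_congr rfl fun _ _ => by ring
        · exact sum_congr rfl fun _ _ => by ring
    _ ≤ ∑ t ∈ range T, M * (ε₂ * Λ) + ε / 4 * (Λ + 1) := by
        refine add_le_add (sum_le_sum fun t h2 => mul_le_mul_of_nonneg_left (ht t h2) hM) ?_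
        exact mul_le_mul_of_nonneg_left (sum_inv_le xa xb (by linarith) hxab) (by positivity)
    _ = (T * M) * ε₂ * Λ + ε / 4 * (Λ + 1) := by
        rw [sum_const, card_range, nsmul_eq_mul]
        ring
    _ ≤ ε * Λ := by
        have h2 : (T * M) * ε₂ ≤ ε / 2 := by
          rw [hε₂, ← mul_div_assoc, div_le_div_iff₀ (by positivity) (by norm_num)]
          nlinarith
        have h3 : (T * M) * ε₂ * Λ ≤ ε / 2 * Λ := mul_le_mul_of_nonneg_right h2 (by linarith)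
        have h4 : ε / 4 * (Λ + 1) ≤ ε / 4 * (2 * Λ) :=
          mul_le_mul_of_nonneg_left (by linarith) (by positivity)
        linarith

end Pool.Agent.NV
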