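import Mathlib
import Pool.Agent.Lib.NV.Defs

/-!
# Row POW of Theorem NV (MP_663568_nt): powers in a group of step two (helper95)
-/

set_option autoImplicit false
open Finset MeasureTheory Polynomial

namespace Pool.Agent.NV

namespace POWx

open Pool.Agent.TS2 (Two Gam bil bil_smul_left)

variable {d r : ℕ} {B : Fin r → Fin d → Fin d → ℤ}

lemma pow_x (g : Two B) (m : ℕ) : (g ^ m).x = (m : ℝ) • g.x := by
  induction m with
  | zero => simp
  | succ m ih =>
    rw [pow_succ, TS2.Two.mul_x, ih]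
    push_cast
    rw [add_smul, one_smul]

lemma pow_z (g : Two B) (m : ℕ) :
    (g ^ m).z = (m : ℝ) • g.z + ((m : ℝ) * (m - 1) / 2) • bil B g.x g.x := by
  induction m with
  | zero => simp
  | succ m ih =>
    rw [pow_succ, TS2.Two.mul_z, ih, pow_x, bil_smul_left]
    push_cast
    funext c
    simp only [Pi.add_apply, Pi.smul_apply, smul_eq_mul]
    ring

lemma dp_add {D : ℕ} (k : Fin D → ℤ) (u v : Fin D → ℝ) : dp k (u + v) = dp k u + dp k v := by
  simp only [dp, Pi.add_apply, ← sum_add_distrib]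
  exact sum_congr rfl fun i _ => by ring

lemma dp_smul {D : ℕ} (k : Fin D → ℤ) (s : ℝ) (u : Fin D → ℝ) : dp k (s • u) = s * dp k u := by
  simp only [dp, Pi.smul_apply, smul_eq_mul, mul_sum]
  exact sum_congr rfl fun i _ => by ring

end POWx

open POWx

/-- Row POW. -/
theorem pow : POW_stmt := by
  intro d r B k g x
  set u := dp k g.z
  set v := dp k (TS2.bil B g.x g.x)
  set w := dp k (TS2.bil B g.x x.x)
  refine ⟨C (v / 2) * X ^ 2 + C (u + w - v / 2) * X + C (dp k x.z), ?_, fun m => ⟨?_, ?_⟩⟩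
  · exact natDegree_quadratic_le
  · rw [TS2.Two.mul_x, pow_x]
  · rw [TS2.Two.mul_z, pow_z, pow_x, TS2.bil_smul_left, dp_add, dp_add, dp_add, dp_smul, dp_smul,
      dp_smul]
    simp only [eval_add, eval_mul, eval_C, eval_pow, eval_X]
    ring

end Pool.Agent.NV
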