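import Mathlib
import Pool.Agent.Lib.NV.WDefs
import Pool.Agent.Lib.NV.CLUF
import Pool.Agent.Lib.NV.SUBQF
import Pool.Agent.Lib.NV.WNFIN
import Pool.Agent.Lib.NV.WNGRP
import Pool.Agent.Lib.NV.PAIRA
import Pool.Agent.Lib.NV.TRIG
import Pool.Agent.Lib.NV.VRTA
import Pool.Agent.Lib.NV.POW
import Pool.Agent.Lib.VQ.STR
import Pool.Agent.Lib.VQ.REC
import Pool.Agent.Lib.VQ.LAG
import Pool.Agent.Lib.VQ.REG

/-!
# Theorem NVW (MP_663568_nt): assembly of the second stage.  (helper19)
-/

set_option autoImplicit false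
open Finset MeasureTheory Polynomial

namespace Pool.Agent.NV

open Pool.Agent.SV Pool.Agent.VQ

/-- From the nilsequences of dimension `D` to the same with free phases without linear term. -/
theorem nsw (h : ∀ D : ℕ, NS D) (t D : ℕ) (ht : 1 ≤ t) : NSW t D :=
  wnfin (cluf paira trig) (str vqrec lag) subqf reg t D ht (h D)

/-- **Theorem NVW** from the statements `NS D`. -/
theorem nvwt_of (h : ∀ D : ℕ, NS D) : NVWT := wngrp vrta pow (nsw h)

end Pool.Agent.NV
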