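import Mathlib
import Pool.Agent.Lib.VQ.WMain
import Pool.Agent.Lib.VQ.WTop
import Pool.Agent.Lib.NV.BRK
import Pool.Agent.Lib.NV.CASE1
import Pool.Agent.Lib.NV.CASE2
import Pool.Agent.Lib.NV.CLUF
import Pool.Agent.Lib.NV.DER
import Pool.Agent.Lib.NV.DILA
import Pool.Agent.Lib.NV.FRZ
import Pool.Agent.Lib.NV.LOC
import Pool.Agent.Lib.NV.NFIN
import Pool.Agent.Lib.NV.NSTEP
import Pool.Agent.Lib.NV.NSZ
import Pool.Agent.Lib.NV.PAIRA
import Pool.Agent.Lib.NV.PBRK
import Pool.Agent.Lib.NV.POW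
import Pool.Agent.Lib.NV.RES
import Pool.Agent.Lib.NV.SHIFT
import Pool.Agent.Lib.NV.SUBA
import Pool.Agent.Lib.NV.SUBQF
import Pool.Agent.Lib.NV.SYAA
import Pool.Agent.Lib.NV.SYC
import Pool.Agent.Lib.NV.TRIG
import Pool.Agent.Lib.NV.TW
import Pool.Agent.Lib.NV.VRTA
import Pool.Agent.Lib.NV.WNFIN
import Pool.Agent.Lib.NV.WNGRP
import Pool.Agent.Lib.NV.Whole

/-!
# Theorem NV (MP_663568_nt): the assembly from the rows.  (helper28)
-/

set_option autoImplicit false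

namespace Pool.Agent.NV

open Pool.Agent.SV Pool.Agent.VQ

theorem rich' : RICH' := by
  have hNTT : NTT' := ntt vqrec nta sv1 svq nrt phq ntb
  have hE1 : E1T' := e1t (p3t p1t) p2t k2
  exact rich j1 j2 k1 k3 p0t hE1 hNTT

theorem ns_of (hLIN : LIN_stmt) (hDEC : DEC_stmt) (hDESA : DESA_stmt) : ∀ D, NS D := by
  have hPB : PBRK' := pbrk (der shift trig) brk hLIN
  have hLOC : LOC' := loc twc trig
  have hC1 : CASE1' := case1 hDEC hLOC suba (ww 2 2 (by norm_num))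
  have hstep := nstep win tkg dila paira syaa syc okq rich' hDESA hPB hC1
  intro D
  induction D with
  | zero => exact nsz (vw 2)
  | succ D ih => exact hstep D (case2 (res twc) (frz twc) D ih)

theorem nvt_of (hLIN : LIN_stmt) (hDEC : DEC_stmt) (hDESA : DESA_stmt) : NVT :=
  nfin vrta pow (ns_of hLIN hDEC hDESA)

/-- Theorem NVW from the last rows. -/
theorem nvw_of (hLIN : LIN_stmt) (hDEC : DEC_stmt) (hDESA : DESA_stmt) : NVWT :=
  nvwt_of (ns_of hLIN hDEC hDESA)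

end Pool.Agent.NV
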