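import Mathlib

/-! Linear algebra over the rationals with integral matrices (helper33, project NV). -/

set_option autoImplicit false
open Finset

namespace Pool.Agent.NV.LAux

/-- A common denominator for finitely many rationals. -/
theorem clear {ι : Type} (s : Finset ι) (q : ι → ℚ) :
    ∃ N : ℕ, 1 ≤ N ∧ ∀ i ∈ s, ∃ z : ℤ, (z : ℚ) = N * q i := by
  classical
  refine ⟨∏ i ∈ s, (q i).den, ?_, fun i hi => ?_⟩
  · exact Nat.one_le_iff_ne_zero.2 (Finset.prod_ne_zero_iff.2 fun i _ => (q i).den_nz)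
  · obtain ⟨c, hc⟩ := Finset.dvd_prod_of_mem (fun i => (q i).den) hi
    refine ⟨c * (q i).num, ?_⟩
    rw [hc]
    push_cast
    have h : ((q i).den : ℚ) * q i = (q i).num := by
      rw [mul_comm]; exact Rat.mul_den_eq_num (q i)
    rw [mul_comm ((q i).den : ℚ) (c : ℚ), mul_assoc, h]

/-- A linear map over a field has a generalised inverse. -/
theorem ginv {V : Type} [AddCommGroup V] [Module ℚ V] (f : V →ₗ[ℚ] V) :
    ∃ g : V →ₗ[ℚ] V, f ∘ₗ g ∘ₗ f = f := by
  obtain ⟨s, hs⟩ := LinearMap.exists_rightInverse_of_surjective f.rangeRestrict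
    (LinearMap.range_eq_top.2 f.surjective_rangeRestrict)
  obtain ⟨p, hp⟩ := LinearMap.exists_leftInverse_of_injective (LinearMap.range f).subtype
    (LinearMap.ker_eq_bot.2 (Submodule.injective_subtype _))
  refine ⟨s ∘ₗ p, ?_⟩
  ext v
  have h1 : p (f v) = f.rangeRestrict v := by
    have := LinearMap.congr_fun hp (f.rangeRestrict v)
    simpa using this
  have h2 := LinearMap.congr_fun hs (f.rangeRestrict v)
  have h3 : f (s (f.rangeRestrict v)) = f v := by
    have := congrArg Subtype.val h2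
    simpa using this
  simp [h1, h3]

/-- An integral generalised inverse: `Om P Om = N Om`. -/
theorem genInv {D : ℕ} (Om : Matrix (Fin D) (Fin D) ℤ) :
    ∃ (P : Matrix (Fin D) (Fin D) ℤ) (N : ℕ), 1 ≤ N ∧ Om * P * Om = (N : ℤ) • Om := by
  obtain ⟨g, hg⟩ := ginv (Matrix.toLin' (Om.map (Int.cast : ℤ → ℚ)))
  obtain ⟨N, hN, hz⟩ := clear (univ : Finset (Fin D × Fin D))
    (fun x => LinearMap.toMatrix' g x.1 x.2)
  choose z hz using fun x : Fin D × Fin D => hz x (mem_univ _)
  refine ⟨Matrix.of fun i j => z (i, j), N, hN, ?_⟩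
  have hP : (Matrix.of fun i j => z (i, j)).map (Int.cast : ℤ → ℚ) =
      (N : ℚ) • LinearMap.toMatrix' g := by
    ext i j
    simp only [Matrix.map_apply, Matrix.of_apply, Matrix.smul_apply, smul_eq_mul]
    exact hz (i, j)
  have h1 : Om.map (Int.cast : ℤ → ℚ) * LinearMap.toMatrix' g * Om.map (Int.cast : ℤ → ℚ) =
      Om.map (Int.cast : ℤ → ℚ) := by
    have h := congrArg LinearMap.toMatrix' hg
    rw [LinearMap.toMatrix'_comp, LinearMap.toMatrix'_comp, LinearMap.toMatrix'_toLin',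
      ← Matrix.mul_assoc] at h
    exact h
  have h2 : (Om * (Matrix.of fun i j => z (i, j)) * Om).map (Int.cast : ℤ → ℚ) =
      ((N : ℤ) • Om).map (Int.cast : ℤ → ℚ) := by
    have hm : ∀ A B : Matrix (Fin D) (Fin D) ℤ, (A * B).map (Int.cast : ℤ → ℚ) =
        A.map (Int.cast : ℤ → ℚ) * B.map (Int.cast : ℤ → ℚ) := fun A B =>
      Matrix.map_mul (f := Int.castRingHom ℚ)
    rw [hm, hm, hP, Matrix.mul_smul, Matrix.smul_mul, h1]
    ext i j
    rw [Matrix.smul_apply, Matrix.map_apply, Matrix.map_apply, Matrix.smul_apply, smul_eq_mul,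
      smul_eq_mul]
    push_cast
    ring
  ext i j
  have h3 := congrFun (congrFun h2 i) j
  simp only [Matrix.map_apply] at h3
  exact_mod_cast h3

end Pool.Agent.NV.LAux
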