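import Mathlib
import Pool.Agent.Lib.NV.Defs
import Pool.Agent.Lib.NV.LAux

/-! Row DEC of project NV: decomposition of a slope at which the commutator form is almost rational
(helper33). -/

set_option autoImplicit false
open Finset

namespace Pool.Agent.NV

open Pool.Agent.Lib.MP_663568_nt Pool.Agent.Lib.MP_663568_nt.Katai
  Pool.Agent.Lib.MP_663568_nt.Nul Pool.Agent.SV Pool.Agent.VQ

namespace DECx

/-- The matrix of the commutator form. -/
def Om {D : ℕ} (b : Fin D → Fin D → ℤ) : Matrix (Fin D) (Fin D) ℤ := fun i j => b i j - b j i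

/-- The real matrix of an integral matrix. -/
def re {D : ℕ} (A : Matrix (Fin D) (Fin D) ℤ) : Matrix (Fin D) (Fin D) ℝ := fun i j => (A i j : ℝ)

theorem re_mul {D : ℕ} (A B : Matrix (Fin D) (Fin D) ℤ) : re (A * B) = re A * re B := by
  ext i j
  simp only [re, Matrix.mul_apply]
  push_cast
  rfl

theorem om_eq {D : ℕ} (b : Fin D → Fin D → ℤ) (w v : Fin D → ℝ) :
    om b w v = ∑ i, w i * (re (Om b)).mulVec v i := by
  have h : bf b v w = ∑ i, ∑ j, (b j i : ℝ) * (v j * w i) := Finset.sum_comm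
  unfold om
  rw [h]
  unfold bf
  rw [← Finset.sum_sub_distrib]
  refine Finset.sum_congr rfl fun i _ => ?_
  rw [← Finset.sum_sub_distrib]
  simp only [Matrix.mulVec, dotProduct, re, Om]
  rw [Finset.mul_sum]
  refine Finset.sum_congr rfl fun j _ => ?_
  push_cast
  ring

theorem om_ev1 {D : ℕ} (b : Fin D → Fin D → ℤ) (a : Fin D → ℝ) (j : Fin D) :
    om b (ev1 j) a = (re (Om b)).mulVec a j := by
  rw [om_eq]
  simp [ev1, Pi.single_apply]

end DECx

open DECx in
theorem dec : DEC_stmt := by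
  intro D b M E hM hE
  obtain ⟨P, N, hN, hP⟩ := LAux.genInv (Om b)
  have hMr : (1 : ℝ) ≤ M := by exact_mod_cast hM
  have hNr : (1 : ℝ) ≤ N := by exact_mod_cast hN
  have hM0 : (M : ℝ) ≠ 0 := by positivity
  have hN0 : (N : ℝ) ≠ 0 := by positivity
  have hS : 0 ≤ ∑ i, ∑ j, |(P i j : ℝ)| :=
    Finset.sum_nonneg fun i _ => Finset.sum_nonneg fun j _ => abs_nonneg _
  refine ⟨N * M, (∑ i, ∑ j, |(P i j : ℝ)|) * E, Nat.one_le_iff_ne_zero.2
    (Nat.mul_ne_zero (by omega) (by omega)), mul_nonneg hS hE, fun l a hl ha => ?_⟩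
  have hlr : (1 : ℝ) ≤ l := by exact_mod_cast hl
  have hlpos : (0 : ℝ) < l := by linarith
  refine ⟨fun i => ∑ j, P i j * round ((M : ℝ) * om b (ev1 j) a),
    fun i => a i - (∑ j, (P i j : ℝ) * om b (ev1 j) a) / N,
    fun i => (∑ j, (P i j : ℝ) * ((M : ℝ) * om b (ev1 j) a -
      round ((M : ℝ) * om b (ev1 j) a))) / (N * M), ?_, ?_, ?_⟩
  · ext i
    simp only [Pi.add_apply]
    push_cast
    have h1 : (∑ j, (P i j : ℝ) * ((M : ℝ) * om b (ev1 j) a -
        round ((M : ℝ) * om b (ev1 j) a))) = M * (∑ j, (P i j : ℝ) * om b (ev1 j) a) -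
        ∑ j, (P i j : ℝ) * (round ((M : ℝ) * om b (ev1 j) a) : ℝ) := by
      rw [Finset.mul_sum, ← Finset.sum_sub_distrib]
      exact Finset.sum_congr rfl fun j _ => by ring
    rw [h1]
    field_simp
    ring
  · intro w
    rw [om_eq]
    refine Finset.sum_eq_zero fun i _ => ?_
    have h1 : (fun i => a i - (∑ j, (P i j : ℝ) * om b (ev1 j) a) / N) =
        a - (N : ℝ)⁻¹ • (re P).mulVec ((re (Om b)).mulVec a) := by
      ext i
      simp only [Pi.sub_apply, Pi.smul_apply, smul_eq_mul, om_ev1]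
      rw [div_eq_inv_mul]
      rfl
    have h2 : re (Om b) * re P * re (Om b) = (N : ℝ) • re (Om b) := by
      rw [← re_mul, ← re_mul, hP]
      ext i j
      simp [re]
    have h3 : (re (Om b)).mulVec (a - (N : ℝ)⁻¹ • (re P).mulVec ((re (Om b)).mulVec a)) = 0 := by
      rw [Matrix.mulVec_sub, Matrix.mulVec_smul, Matrix.mulVec_mulVec, Matrix.mulVec_mulVec,
        h2, Matrix.smul_mulVec, smul_smul, inv_mul_cancel₀ hN0, one_smul,
        sub_self]
    rw [h1, h3]
    simp
  · intro i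
    have hNM : (1 : ℝ) ≤ N * M := by nlinarith
    have h1 : |∑ j, (P i j : ℝ) * ((M : ℝ) * om b (ev1 j) a -
        round ((M : ℝ) * om b (ev1 j) a))| ≤ (∑ i, ∑ j, |(P i j : ℝ)|) * (E / l) := by
      calc |∑ j, (P i j : ℝ) * ((M : ℝ) * om b (ev1 j) a - round ((M : ℝ) * om b (ev1 j) a))|
          ≤ ∑ j, |(P i j : ℝ) * ((M : ℝ) * om b (ev1 j) a -
              round ((M : ℝ) * om b (ev1 j) a))| := Finset.abs_sum_le_sum_abs _ _
        _ ≤ ∑ j, |(P i j : ℝ)| * (E / l) := by
            refine Finset.sum_le_sum fun j _ => ?_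
            rw [abs_mul]
            exact mul_le_mul_of_nonneg_left (ha j) (abs_nonneg _)
        _ = (∑ j, |(P i j : ℝ)|) * (E / l) := by rw [Finset.sum_mul]
        _ ≤ (∑ i, ∑ j, |(P i j : ℝ)|) * (E / l) := by
            refine mul_le_mul_of_nonneg_right ?_ (by positivity)
            exact Finset.single_le_sum (f := fun i => ∑ j, |(P i j : ℝ)|)
              (fun i _ => Finset.sum_nonneg fun j _ => abs_nonneg _) (mem_univ i)
    rw [abs_div, abs_of_pos (by positivity : (0 : ℝ) < N * M)]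
    calc _ ≤ |∑ j, (P i j : ℝ) * ((M : ℝ) * om b (ev1 j) a -
        round ((M : ℝ) * om b (ev1 j) a))| := div_le_self (abs_nonneg _) hNM
      _ ≤ _ := h1
      _ = _ := by ring

end Pool.Agent.NV
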