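import Mathlib
import Pool.Agent.Lib.NV.LAux

/-! Row LIN of project NV: the statement for one set of relations (helper33). -/

set_option autoImplicit false
open Finset

namespace Pool.Agent.NV.LINx

open Pool.Agent.NV.LAux

/-- The rational vector of an integral vector. -/
def qv {n : ℕ} (κ : Fin n → ℤ) : Fin n → ℚ := fun i => (κ i : ℚ)

/-- A rational vector outside the span of the relations is detected by an integral vector. -/
theorem detect {n : ℕ} (KK : Finset (Fin n → ℤ)) (ρ : Fin n → ℤ)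
    (h : qv ρ ∉ Submodule.span ℚ (qv '' (KK : Set (Fin n → ℤ)))) :
    ∃ w : Fin n → ℤ, (∀ κ ∈ KK, ∑ i, κ i * w i = 0) ∧ ∑ i, ρ i * w i ≠ 0 := by
  obtain ⟨f, hf, hf'⟩ := Submodule.exists_dual_map_eq_bot_of_notMem h inferInstance
  obtain ⟨N, hN, hz⟩ := clear (univ : Finset (Fin n)) (fun i => f (Pi.single i 1))
  choose z hz using fun i : Fin n => hz i (mem_univ _)
  have hexp : ∀ u : Fin n → ℤ, (N : ℚ) * f (qv u) = ((∑ i, u i * z i : ℤ) : ℚ) := by
    intro u
    have h1 : f (qv u) = ∑ i, (u i : ℚ) * f (Pi.single i 1) := by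
      conv_lhs => rw [pi_eq_sum_univ' (qv u)]
      rw [map_sum]
      refine sum_congr rfl fun i _ => ?_
      rw [map_smul, smul_eq_mul]
      congr 2
    rw [h1, mul_sum]
    push_cast
    refine sum_congr rfl fun i _ => ?_
    rw [hz i]
    ring
  have hN0 : (N : ℚ) ≠ 0 := by
    have : (1 : ℚ) ≤ N := by exact_mod_cast hN
    positivity
  refine ⟨z, fun κ hκ => ?_, ?_⟩
  · have h1 : f (qv κ) = 0 := by
      have h2 : f (qv κ) ∈ (Submodule.span ℚ (qv '' (KK : Set (Fin n → ℤ)))).map f :=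
        Submodule.mem_map_of_mem (Submodule.subset_span ⟨κ, hκ, rfl⟩)
      rw [hf'] at h2
      simpa using h2
    have h2 := hexp κ
    rw [h1, mul_zero] at h2
    exact_mod_cast h2.symm
  · intro h0
    have h2 := hexp ρ
    rw [h0] at h2
    simp only [Int.cast_zero, mul_eq_zero] at h2
    exact h2.elim hN0 hf

/-- The first vector `(x, 0)`. -/
def inl {D : ℕ} (x : Fin D → ℤ) : Fin (D + D) → ℤ := Fin.append x 0
/-- The second vector `(0, x)`. -/
def inr {D : ℕ} (x : Fin D → ℤ) : Fin (D + D) → ℤ := Fin.append 0 x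

/-- The two alternatives for one set of relations. -/
def Alt1 {D : ℕ} (om : Fin D → Fin D → ℤ) (M S : ℕ) (KK : Finset (Fin (D + D) → ℤ)) : Prop :=
  ∀ i : Fin D, ∃ n n' : (Fin (D + D) → ℤ) → ℤ, (∀ κ, |n κ| ≤ S) ∧ (∀ κ, |n' κ| ≤ S) ∧
    (∀ j : Fin D, (M : ℤ) * om i j = ∑ κ ∈ KK, n κ * κ (Fin.castAdd D j)) ∧
    (∀ j : Fin D, 0 = ∑ κ ∈ KK, n κ * κ (Fin.natAdd D j)) ∧
    (∀ j : Fin D, 0 = ∑ κ ∈ KK, n' κ * κ (Fin.castAdd D j)) ∧
    (∀ j : Fin D, (M : ℤ) * om i j = ∑ κ ∈ KK, n' κ * κ (Fin.natAdd D j))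

/-- The second alternative. -/
def Alt2 {D : ℕ} (om : Fin D → Fin D → ℤ) (S : ℕ) (KK : Finset (Fin (D + D) → ℤ)) : Prop :=
  ∃ w : Fin (D + D) → ℤ, (∀ i, |w i| ≤ S) ∧ (∀ κ ∈ KK, ∑ i, κ i * w i = 0) ∧
    ∃ i : Fin D, (∑ j, om i j * w (Fin.castAdd D j) ≠ 0 ∨
      ∑ j, om i j * w (Fin.natAdd D j) ≠ 0)

theorem sum_inl {D : ℕ} (x : Fin D → ℤ) (w : Fin (D + D) → ℤ) :
    ∑ i, inl x i * w i = ∑ j, x j * w (Fin.castAdd D j) := by
  rw [Fin.sum_univ_add]
  simp only [inl, Fin.append_left, Fin.append_right, Pi.zero_apply, zero_mul,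
    Finset.sum_const_zero, add_zero]

theorem sum_inr {D : ℕ} (x : Fin D → ℤ) (w : Fin (D + D) → ℤ) :
    ∑ i, inr x i * w i = ∑ j, x j * w (Fin.natAdd D j) := by
  rw [Fin.sum_univ_add]
  simp only [inr, Fin.append_left, Fin.append_right, Pi.zero_apply, zero_mul,
    Finset.sum_const_zero, zero_add]

/-- Coordinates bounded by the sum of the absolute values. -/
theorem abs_le_sum {n : ℕ} (w : Fin n → ℤ) (i : Fin n) :
    |w i| ≤ ((∑ j, (w j).natAbs : ℕ) : ℤ) := by
  have h : (w i).natAbs ≤ ∑ j, (w j).natAbs :=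
    Finset.single_le_sum (f := fun j => (w j).natAbs) (fun _ _ => Nat.zero_le _) (mem_univ i)
  rw [Int.abs_eq_natAbs]
  exact_mod_cast h

theorem one {D : ℕ} (om : Fin D → Fin D → ℤ) (KK : Finset (Fin (D + D) → ℤ)) :
    ∃ M S : ℕ, 1 ≤ M ∧ (Alt1 om M S KK ∨ Alt2 om S KK) := by
  classical
  set V := Submodule.span ℚ (qv '' (KK : Set (Fin (D + D) → ℤ))) with hV
  by_cases hall : ∀ x : Fin D × Bool, qv (if x.2 then inl (om x.1) else inr (om x.1)) ∈ V
  · have hex : ∀ x : Fin D × Bool, ∃ c : (Fin (D + D) → ℤ) → ℚ,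
        ∑ κ ∈ KK, c κ • qv κ = qv (if x.2 then inl (om x.1) else inr (om x.1)) := by
      intro x
      obtain ⟨c, hc⟩ := (Submodule.mem_span_image_finset_iff_exists_fun ℚ).1 (hall x)
      refine ⟨fun κ => if h : κ ∈ KK then c ⟨κ, h⟩ else 0, ?_⟩
      rw [← hc, ← Finset.sum_coe_sort]
      refine Finset.sum_congr rfl fun i _ => ?_
      simp [i.2]
    choose c hc using hex
    obtain ⟨N, hN, hz⟩ := clear ((univ : Finset (Fin D × Bool)) ×ˢ KK) (fun y => c y.1 y.2)
    have hz' : ∀ y : (Fin D × Bool) × (Fin (D + D) → ℤ), ∃ z : ℤ, y.2 ∈ KK →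
        (z : ℚ) = N * c y.1 y.2 := by
      intro y
      by_cases hy : y.2 ∈ KK
      · obtain ⟨z, hz⟩ := hz y (mem_product.2 ⟨mem_univ _, hy⟩)
        exact ⟨z, fun _ => hz⟩
      · exact ⟨0, fun h => absurd h hy⟩
    choose z hz' using hz'
    set S : ℕ := ∑ x : Fin D × Bool, ∑ κ ∈ KK, (z (x, κ)).natAbs with hS
    have hSle : ∀ (x : Fin D × Bool) (κ : Fin (D + D) → ℤ), |if κ ∈ KK then z (x, κ) else 0| ≤ S := by
      intro x κ
      split_ifs with hκ
      · rw [Int.abs_eq_natAbs]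
        have h1 : (z (x, κ)).natAbs ≤ ∑ κ ∈ KK, (z (x, κ)).natAbs :=
          Finset.single_le_sum (f := fun κ => (z (x, κ)).natAbs) (fun _ _ => Nat.zero_le _) hκ
        have h2 : ∑ κ ∈ KK, (z (x, κ)).natAbs ≤ S :=
          Finset.single_le_sum (f := fun x => ∑ κ ∈ KK, (z (x, κ)).natAbs)
            (fun _ _ => Nat.zero_le _) (mem_univ x)
        exact_mod_cast h1.trans h2
      · simp
    have hcomb : ∀ (x : Fin D × Bool) (i : Fin (D + D)),
        (N : ℤ) * (if x.2 then inl (om x.1) else inr (om x.1)) i =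
          ∑ κ ∈ KK, (if κ ∈ KK then z (x, κ) else 0) * κ i := by
      intro x i
      have h1 := congrFun (hc x) i
      rw [Finset.sum_apply] at h1
      have h2 : ((N : ℤ) * (if x.2 then inl (om x.1) else inr (om x.1)) i : ℚ) =
          ((∑ κ ∈ KK, (if κ ∈ KK then z (x, κ) else 0) * κ i : ℤ) : ℚ) := by
        rw [show (((if x.2 then inl (om x.1) else inr (om x.1)) i : ℤ) : ℚ) =
          qv (if x.2 then inl (om x.1) else inr (om x.1)) i from rfl, ← h1, Int.cast_sum, mul_sum]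
        refine sum_congr rfl fun κ hκ => ?_
        rw [if_pos hκ]
        push_cast
        rw [hz' (x, κ) hκ]
        simp only [Pi.smul_apply, smul_eq_mul, qv]
        ring
      exact_mod_cast h2
    refine ⟨N, S, hN, Or.inl fun i => ⟨_, _, hSle (i, true), hSle (i, false), ?_, ?_, ?_, ?_⟩⟩
    · intro j
      have h := hcomb (i, true) (Fin.castAdd D j)
      simpa only [inl, Fin.append_left, if_true] using h
    · intro j
      have h := hcomb (i, true) (Fin.natAdd D j)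
      simpa only [inl, Fin.append_right, Pi.zero_apply, mul_zero, if_true] using h
    · intro j
      have h := hcomb (i, false) (Fin.castAdd D j)
      simpa only [inr, Fin.append_left, Pi.zero_apply, mul_zero, if_false,
        Bool.false_eq_true] using h
    · intro j
      have h := hcomb (i, false) (Fin.natAdd D j)
      simpa only [inr, Fin.append_right, if_false, Bool.false_eq_true] using h
  · obtain ⟨⟨i, t⟩, hit⟩ := not_forall.1 hall
    obtain ⟨w, hw1, hw2⟩ := detect KK _ hit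
    refine ⟨1, ∑ j, (w j).natAbs, le_rfl, Or.inr ⟨w, abs_le_sum w, hw1, i, ?_⟩⟩
    cases t with
    | true =>
      left
      have : ∑ i_1, inl (om i) i_1 * w i_1 ≠ 0 := by simpa using hw2
      rwa [sum_inl] at this
    | false =>
      right
      have : ∑ i_1, inr (om i) i_1 * w i_1 ≠ 0 := by simpa using hw2
      rwa [sum_inr] at this

theorem Alt1.mono {D : ℕ} {om : Fin D → Fin D → ℤ} {M S : ℕ} {KK : Finset (Fin (D + D) → ℤ)}
    (h : Alt1 om M S KK) (t : ℕ) {S' : ℕ} (hS : t * S ≤ S') : Alt1 om (t * M) S' KK := by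
  intro i
  obtain ⟨n, n', h1, h2, h3, h4, h5, h6⟩ := h i
  have hb : ∀ m : (Fin (D + D) → ℤ) → ℤ, (∀ κ, |m κ| ≤ S) → ∀ κ, |(t : ℤ) * m κ| ≤ S' := by
    intro m hm κ
    rw [abs_mul, Nat.abs_cast]
    calc (t : ℤ) * |m κ| ≤ t * S := by
          exact mul_le_mul_of_nonneg_left (hm κ) (Int.natCast_nonneg t)
      _ ≤ S' := by exact_mod_cast hS
  refine ⟨fun κ => t * n κ, fun κ => t * n' κ, hb n h1, hb n' h2, ?_, ?_, ?_, ?_⟩
  · intro j
    push_cast
    rw [mul_assoc, h3 j, mul_sum]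
    exact sum_congr rfl fun κ _ => by ring
  · intro j
    have := congrArg (fun x => (t : ℤ) * x) (h4 j)
    simp only [mul_zero] at this
    rw [this, mul_sum]
    exact sum_congr rfl fun κ _ => by ring
  · intro j
    have := congrArg (fun x => (t : ℤ) * x) (h5 j)
    simp only [mul_zero] at this
    rw [this, mul_sum]
    exact sum_congr rfl fun κ _ => by ring
  · intro j
    push_cast
    rw [mul_assoc, h6 j, mul_sum]
    exact sum_congr rfl fun κ _ => by ring

theorem Alt2.mono {D : ℕ} {om : Fin D → Fin D → ℤ} {S S' : ℕ} {KK : Finset (Fin (D + D) → ℤ)}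
    (h : Alt2 om S KK) (hS : S ≤ S') : Alt2 om S' KK := by
  obtain ⟨w, h1, h2⟩ := h
  exact ⟨w, fun i => (h1 i).trans (by exact_mod_cast hS), h2⟩

/-- Uniform constants for all sets of relations in a box. -/
theorem all {D : ℕ} (C : ℕ) (om : Fin D → Fin D → ℤ) : ∃ M S : ℕ, 1 ≤ M ∧
    ∀ KK : Finset (Fin (D + D) → ℤ), (∀ κ ∈ KK, ∀ i, |κ i| ≤ C) →
      (Alt1 om M S KK ∨ Alt2 om S KK) := by
  classical
  choose M S hM h using fun KK : Finset (Fin (D + D) → ℤ) => one om KK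
  set U : Finset (Finset (Fin (D + D) → ℤ)) :=
    (Fintype.piFinset fun _ : Fin (D + D) => Finset.Icc (-(C : ℤ)) C).powerset with hU
  refine ⟨∏ K ∈ U, M K, (∏ K ∈ U, M K) * ∑ K ∈ U, S K, ?_, fun KK hKK => ?_⟩
  · exact Nat.one_le_iff_ne_zero.2 (Finset.prod_ne_zero_iff.2 fun K _ =>
      Nat.one_le_iff_ne_zero.1 (hM K))
  · have hmem : KK ∈ U := by
      rw [hU, mem_powerset]
      intro κ hκ
      rw [Fintype.mem_piFinset]
      intro i
      have := abs_le.1 (hKK κ hκ i)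
      exact Finset.mem_Icc.2 this
    have hpos : 1 ≤ ∏ K ∈ U, M K := Nat.one_le_iff_ne_zero.2
      (Finset.prod_ne_zero_iff.2 fun K _ => Nat.one_le_iff_ne_zero.1 (hM K))
    have hSle : S KK ≤ ∑ K ∈ U, S K :=
      Finset.single_le_sum (f := fun K => S K) (fun _ _ => Nat.zero_le _) hmem
    rcases h KK with h1 | h1
    · left
      have e : ∏ K ∈ U, M K = (∏ K ∈ U.erase KK, M K) * M KK :=
        (Finset.prod_erase_mul _ _ hmem).symm
      rw [e]
      refine h1.mono _ ?_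
      have h2 : (∏ K ∈ U.erase KK, M K) ≤ (∏ K ∈ U.erase KK, M K) * M KK :=
        Nat.le_mul_of_pos_right _ (hM KK)
      exact Nat.mul_le_mul h2 hSle
    · right
      refine h1.mono (hSle.trans ?_)
      exact Nat.le_mul_of_pos_left _ hpos

end Pool.Agent.NV.LINx
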