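import Mathlib
import Pool.Agent.Lib.NV.Defs
import Pool.Agent.Lib.NV.LIN0

/-! Row LIN of project NV: either the rows of the commutator form are combinations of the relations,
or some vector orthogonal to the relations has a non-zero image (helper33). -/

set_option autoImplicit false
open Finset

namespace Pool.Agent.NV

theorem lin : LIN_stmt := by
  intro D C b
  obtain ⟨M, S, hM, h⟩ := LINx.all C (fun i j => b i j - b j i)
  exact ⟨M, S, hM, fun KK hKK => h KK hKK⟩

end Pool.Agent.NV
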