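import Mathlib
import Pool.Agent.Lib.NV.MainA
import Pool.Agent.Lib.NV.BV
import Pool.Agent.Lib.NV.DEC
import Pool.Agent.Lib.NV.LIN
import Pool.Agent.Lib.NV.DESA

/-!
# Theorem NV (MP_663568_nt): the final theorems.  (helper19)
-/

set_option autoImplicit false

namespace Pool.Agent.NV

/-- Nilsequences of step two with few changes. -/
theorem ns_all : ∀ D : ℕ, NS D := ns_of lin dec desa

/-- The same with free phases without linear term. -/
theorem nsw_all (t D : ℕ) (ht : 1 ≤ t) : NSW t D := nsw ns_all t D ht

/-- One window, all groups of step two. -/
theorem nvt_all : NVT := nvt_of lin dec desa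

/-- One window, all groups of step two, free phases without linear term. -/
theorem nvw_all : NVWT := nvwt_of ns_all

end Pool.Agent.NV
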