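import Mathlib
import Pool.Agent.Lib.NV.WDefs
import Pool.Agent.Lib.NV.VRTA
import Pool.Agent.Lib.VQ.PAvg

/-!
# Theorem NVW (MP_663568_nt): from one window to the sum over `n ≤ N`, supremum inside.  (helper19)
-/

set_option autoImplicit false
open Finset MeasureTheory Polynomial

namespace Pool.Agent.NV

open Pool.Agent.Lib.MP_663568_nt Pool.Agent.Lib.MP_663568_nt.Katai
  Pool.Agent.Lib.MP_663568_nt.Nul Pool.Agent.SV Pool.Agent.VQ Pool.Agent.TS2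

noncomputable section

namespace Avgx

/-- The supremum over the phases without linear term. -/
def Sup (t : ℕ) (Φ : ℕ → ℂ) (H n : ℕ) : ℝ :=
  ⨆ P : {P : Polynomial ℝ // P.natDegree ≤ t ∧ P.coeff 1 = 0},
    ‖∑ h ∈ Finset.Icc 1 H,
      Complex.exp (2 * Real.pi * Complex.I * (((P : Polynomial ℝ).eval (h : ℝ) : ℝ) : ℂ)) *
        Φ (n + h) * ((ArithmeticFunction.moebius (n + h) : ℤ) : ℂ)‖

/-- **From one window to `n ≤ N`.** -/
theorem tot {M : ℝ} (hM : 0 ≤ M) {ε B : ℝ} (hε : 0 < ε) (hB0 : 0 ≤ B) :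
    ∃ (C : ℝ) (H₀ : ℕ), B ^ 2 + B + 1 ≤ C ∧ ∀ H N : ℕ, H₀ ≤ H → (H : ℝ) ^ C ≤ N →
    ∀ F : ℕ → ℝ, (∀ n, F n ≤ M) →
    ∑ n ∈ Ioc ⌊(H : ℝ) ^ B⌋₊ ⌊(N : ℝ)⌋₊, (1 / (n : ℝ)) * F n ≤
        ε / 4 * (Real.log N - Real.log ((H : ℝ) ^ B)) →
    ∑ n ∈ Icc 1 N, (1 / (n : ℝ)) * F n ≤ ε * Real.log N := by
  refine ⟨B ^ 2 + B + 1 + 4 * M * (B + 1) / ε, ⌈Real.exp 1⌉₊ + 3, ?_, ?_⟩
  · have : 0 ≤ 4 * M * (B + 1) / ε := by positivity
    linarith
  intro H N hH hN F hF h1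
  have hHe : Real.exp 1 ≤ H := (Nat.le_ceil _).trans (by exact_mod_cast (by omega : ⌈Real.exp 1⌉₊ ≤ H))
  have hH1 : (1 : ℝ) ≤ H := by exact_mod_cast (by omega : 1 ≤ H)
  have hH0 : (0 : ℝ) < H := by linarith
  have hh1 : 1 ≤ Real.log H := by rw [Real.le_log_iff_exp_le hH0]; exact hHe
  obtain ⟨C, hC⟩ : ∃ C : ℝ, C = B ^ 2 + B + 1 + 4 * M * (B + 1) / ε := ⟨_, rfl⟩
  rw [← hC] at hN
  have hC0 : 0 ≤ 4 * M * (B + 1) / ε := by positivity
  have hC1 : B + 1 ≤ C := by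
    have := sq_nonneg B
    linarith
  have hC2 : 4 * M * (B + 1) / ε ≤ C := by
    have := sq_nonneg B
    linarith
  obtain ⟨Λ, hΛ⟩ : ∃ Λ, Λ = Real.log N := ⟨_, rfl⟩
  rw [← hΛ] at h1 ⊢
  have hCΛ : C * Real.log H ≤ Λ := by
    rw [hΛ, ← Real.log_rpow hH0]
    exact Real.log_le_log (Real.rpow_pos_of_pos hH0 _) hN
  have hΛ0 : 0 ≤ Λ := le_trans (by
    have : 0 ≤ C := by linarith
    positivity) hCΛ
  rw [Nat.floor_natCast] at h1
  obtain ⟨n₁, hn₁⟩ : ∃ n₁ : ℕ, n₁ = ⌊(H : ℝ) ^ B⌋₊ := ⟨_, rfl⟩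
  have hHB1 : 1 ≤ (H : ℝ) ^ B := Real.one_le_rpow hH1 hB0
  have hn₁1 : 1 ≤ n₁ := by rw [hn₁]; exact Nat.le_floor (by exact_mod_cast hHB1)
  have hn₁u : (n₁ : ℝ) ≤ (H : ℝ) ^ B := by rw [hn₁]; exact Nat.floor_le (by positivity)
  have hn₁N : n₁ ≤ N := by
    have : (n₁ : ℝ) ≤ N := by
      refine hn₁u.trans (le_trans ?_ hN)
      exact Real.rpow_le_rpow_of_exponent_le hH1 (by linarith)
    exact_mod_cast this
  rw [← hn₁] at h1
  have h3 : ∑ n ∈ Icc 1 N, (1 / (n : ℝ)) * F n =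
      ∑ n ∈ Icc 1 n₁, (1 / (n : ℝ)) * F n + ∑ n ∈ Ioc n₁ N, (1 / (n : ℝ)) * F n := by
    have e1 : Icc 1 N = Ioc 0 N := by ext n; rw [mem_Icc, mem_Ioc]; omega
    have e2 : Icc 1 n₁ = Ioc 0 n₁ := by ext n; rw [mem_Icc, mem_Ioc]; omega
    rw [e1, e2, sum_Ioc_consecutive _ (Nat.zero_le _) hn₁N]
  have h4 : ∑ n ∈ Icc 1 n₁, (1 / (n : ℝ)) * F n ≤ ε / 4 * Λ := by
    have e1 : ∑ n ∈ Icc 1 n₁, (1 / (n : ℝ)) * F n ≤ ∑ n ∈ Icc 1 n₁, 1 / (n : ℝ) * M :=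
      sum_le_sum fun n _ => mul_le_mul_of_nonneg_left (hF n) (by positivity)
    rw [← sum_mul] at e1
    have e2 := PAvgx.sum_small n₁
    have e3 : Real.log n₁ ≤ B * Real.log H := by
      rw [← Real.log_rpow hH0]
      exact Real.log_le_log (by exact_mod_cast hn₁1) hn₁u
    have e4 : 4 * M * (B + 1) / ε * Real.log H ≤ Λ :=
      (mul_le_mul_of_nonneg_right hC2 (by linarith)).trans hCΛ
    have e5 : M * ((B + 1) * Real.log H) ≤ ε / 4 * Λ := by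
      have e6 := mul_le_mul_of_nonneg_left e4 (show 0 ≤ ε / 4 by positivity)
      have e7 : ε / 4 * (4 * M * (B + 1) / ε * Real.log H) = M * ((B + 1) * Real.log H) := by
        field_simp
      linarith
    have e8 : ∑ n ∈ Icc 1 n₁, 1 / (n : ℝ) ≤ (B + 1) * Real.log H := by linarith
    have e9 := mul_le_mul_of_nonneg_right e8 hM
    linarith
  have h5 : Real.log ((H : ℝ) ^ B) = B * Real.log H := Real.log_rpow hH0 _
  have h6 : ε / 4 * (Λ - Real.log ((H : ℝ) ^ B)) ≤ ε / 4 * Λ := by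
    refine mul_le_mul_of_nonneg_left ?_ (by positivity)
    rw [h5]
    have : 0 ≤ B * Real.log H := by positivity
    linarith
  rw [h3]
  have h7 : 0 ≤ ε * Λ := by positivity
  linarith

/-- The absolute polynomial of a centred one. -/
theorem abs_poly (P : ℝ[X]) (Φ : ℕ → ℂ) (H n : ℕ) (hH : 1 ≤ H) :
    ‖∑ h ∈ Finset.Icc 1 H,
        Complex.exp (2 * Real.pi * Complex.I * ((P.eval (h : ℝ) : ℝ) : ℂ)) * Φ (n + h) *
          ((ArithmeticFunction.moebius (n + h) : ℤ) : ℂ)‖ =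
      H * (‖∑ h ∈ Icc 1 H, muC (n + h) *
        (ee ((P.comp (X - C (n : ℝ))).eval (((n + h : ℕ) : ℝ))) * Φ (n + h))‖ / H) := by
  have h1 : ∑ h ∈ Finset.Icc 1 H,
        Complex.exp (2 * Real.pi * Complex.I * ((P.eval (h : ℝ) : ℝ) : ℂ)) * Φ (n + h) *
          ((ArithmeticFunction.moebius (n + h) : ℤ) : ℂ) =
      ∑ h ∈ Icc 1 H, muC (n + h) *
        (ee ((P.comp (X - C (n : ℝ))).eval (((n + h : ℕ) : ℝ))) * Φ (n + h)) := by
    refine sum_congr rfl fun h _ => ?_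
    rw [eval_comp]
    simp only [eval_sub, eval_X, eval_C, Nat.cast_add, add_sub_cancel_left]
    unfold muC ee
    ring
  rw [h1]
  have : (H : ℝ) ≠ 0 := by
    have : H ≠ 0 := by omega
    exact_mod_cast this
  field_simp

theorem bound {M : ℝ} (P : ℝ[X]) (Φ : ℕ → ℂ) (hΦ : ∀ m, ‖Φ m‖ ≤ M) (H n : ℕ) :
    ‖∑ h ∈ Icc 1 H, muC (n + h) * (ee (P.eval (((n + h : ℕ) : ℝ))) * Φ (n + h))‖ ≤ H * M := by
  have hM : 0 ≤ M := (norm_nonneg _).trans (hΦ 0)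
  calc ‖∑ h ∈ Icc 1 H, muC (n + h) * (ee (P.eval (((n + h : ℕ) : ℝ))) * Φ (n + h))‖
      ≤ ∑ h ∈ Icc 1 H, M := by
        refine norm_sum_le_of_le _ fun h _ => ?_
        rw [norm_mul, norm_mul, norm_ee, one_mul]
        have h1 : ‖muC (n + h)‖ ≤ 1 := by
          unfold muC
          rw [Complex.norm_intCast]
          exact_mod_cast ArithmeticFunction.abs_moebius_le_one
        calc ‖muC (n + h)‖ * ‖Φ (n + h)‖ ≤ 1 * M :=
              mul_le_mul h1 (hΦ _) (norm_nonneg _) zero_le_one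
          _ = M := one_mul M
    _ = H * M := by
        rw [sum_const, Nat.card_Icc, nsmul_eq_mul]
        simp

/-- Choice of almost optimal polynomials. -/
theorem choice {M : ℝ} (t : ℕ) (Φ : ℕ → ℕ → ℂ) (_hΦ : ∀ n m, ‖Φ n m‖ ≤ M) (H : ℕ) (hH : 1 ≤ H)
    {e : ℝ} (he : 0 < e) : ∃ P : ℕ → ℝ[X], (∀ n, (P n).natDegree ≤ t) ∧
    (∀ n : ℕ, (P n).derivative.eval (n : ℝ) = 0) ∧
    ∀ n, Sup t (Φ n) H n ≤ H * (‖∑ h ∈ Icc 1 H, muC (n + h) *
        (ee ((P n).eval (((n + h : ℕ) : ℝ))) * Φ n (n + h))‖ / H) + e := by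
  have hne : Nonempty {P : Polynomial ℝ // P.natDegree ≤ t ∧ P.coeff 1 = 0} :=
    ⟨⟨0, by simp, by simp⟩⟩
  have hex : ∀ n : ℕ, ∃ P : {P : Polynomial ℝ // P.natDegree ≤ t ∧ P.coeff 1 = 0},
      Sup t (Φ n) H n - e < ‖∑ h ∈ Finset.Icc 1 H,
        Complex.exp (2 * Real.pi * Complex.I * (((P : Polynomial ℝ).eval (h : ℝ) : ℝ) : ℂ)) *
          Φ n (n + h) * ((ArithmeticFunction.moebius (n + h) : ℤ) : ℂ)‖ := fun n =>
    exists_lt_of_lt_ciSup (by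
      show Sup t (Φ n) H n - e < Sup t (Φ n) H n
      linarith)
  choose P hP using hex
  refine ⟨fun n => (P n : ℝ[X]).comp (X - C (n : ℝ)), fun n => ?_, fun n => ?_, fun n => ?_⟩
  · exact (PAvgx.abs_poly (P n) H n).1.trans (P n).2.1
  · rw [(PAvgx.abs_poly (P n) H n).2.1]; exact (P n).2.2
  · have h1 := hP n
    rw [abs_poly (P n : ℝ[X]) (Φ n) H n hH] at h1
    linarith

/-- **Theorem NVW**, supremum inside. -/
theorem nvw_final (hW : NVWT) {d r : ℕ} (B : Fin r → Fin d → Fin d → ℤ) (f : Two B ⧸ Gam B → ℂ)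
    (hf : Continuous f) (t : ℕ) (A ε : ℝ) (hε : 0 < ε) :
    ∃ (C : ℝ) (H₀ : ℕ), ∀ H N : ℕ, H₀ ≤ H → (H : ℝ) ^ C ≤ N → ∀ g x : ℕ → Two B,
    (∀ j : ℕ, (({n : ℕ | 2 ^ j ≤ n ∧ n < 2 ^ (j + 1) ∧ (g (n + 1), x (n + 1)) ≠ (g n, x n)}.ncard :
      ℕ) : ℝ) ≤ (H : ℝ) ^ A) →
    ∑ n ∈ Icc 1 N, (1 / (n : ℝ)) *
      Sup t (fun m => f (QuotientGroup.mk ((g n) ^ m * x n))) H n ≤ ε * H * Real.log N := by
  classical
  -- the function on the group
  obtain ⟨F, hF⟩ : ∃ F : Two B → ℂ, F = fun g => f (QuotientGroup.mk g) := ⟨_, rfl⟩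
  have hFc : Continuous F := by
    rw [hF]
    exact hf.comp continuous_quotient_mk'
  have hFp : ∀ g : Two B, ∀ γ ∈ Gam B, F (g * γ) = F g := by
    intro g γ hγ
    rw [hF]
    show f (QuotientGroup.mk (g * γ)) = f (QuotientGroup.mk g)
    rw [QuotientGroup.mk_mul_of_mem g hγ]
  obtain ⟨M, hM0, hM⟩ : ∃ M : ℝ, 0 ≤ M ∧ ∀ g, ‖F g‖ ≤ M := by
    obtain ⟨T, M, k, ph, hM, hq, hap⟩ := vrta d r B F hFc hFp 1 one_pos
    refine ⟨T * M + 1, by positivity, fun g => ?_⟩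
    have h1 := hap g
    have h2 : ‖∑ t ∈ range T, (M : ℂ) * (ee (dp (k t) g.z) * ph t g.x)‖ ≤ T * M := by
      calc ‖∑ t ∈ range T, (M : ℂ) * (ee (dp (k t) g.z) * ph t g.x)‖ ≤ ∑ t ∈ range T, M := by
            refine norm_sum_le_of_le _ fun t _ => ?_
            rw [norm_mul, norm_mul, norm_ee, one_mul, Complex.norm_real, Real.norm_of_nonneg hM]
            exact mul_le_of_le_one_right hM ((hq t).le _)
        _ = T * M := by rw [sum_const, card_range, nsmul_eq_mul]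
    calc ‖F g‖ = ‖(F g - ∑ t ∈ range T, (M : ℂ) * (ee (dp (k t) g.z) * ph t g.x)) +
          ∑ t ∈ range T, (M : ℂ) * (ee (dp (k t) g.z) * ph t g.x)‖ := by rw [sub_add_cancel]
      _ ≤ _ := norm_add_le _ _
      _ ≤ T * M + 1 := by linarith
  -- the window estimate
  obtain ⟨t', ht', htt'⟩ : ∃ t' : ℕ, 1 ≤ t' ∧ t ≤ t' := ⟨t + 1, by omega, by omega⟩
  obtain ⟨B₀, H₁, hB0, hWin⟩ := hW t' d r B F ht' hFc hFp (max A 0) (ε / 2 / 4) (le_max_right _ _)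
    (by positivity)
  obtain ⟨C, H₂, hC, htot⟩ := tot hM0 (show 0 < ε / 2 by linarith) hB0
  refine ⟨max C 1, max (max H₁ H₂) 3, fun H N hH hN g x hs => ?_⟩
  have hH1 : H₁ ≤ H := ((le_max_left _ _).trans (le_max_left _ _)).trans hH
  have hH2 : H₂ ≤ H := ((le_max_right _ _).trans (le_max_left _ _)).trans hH
  have hH3 : 3 ≤ H := (le_max_right _ _).trans hH
  have hHone : (1 : ℝ) ≤ H := by exact_mod_cast (by omega : 1 ≤ H)
  have hH0 : (0 : ℝ) < H := by linarith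
  have hNC : (H : ℝ) ^ C ≤ N :=
    (Real.rpow_le_rpow_of_exponent_le hHone (le_max_left _ _)).trans hN
  have hHN : H ≤ N := by
    have : (H : ℝ) ≤ N := by
      refine le_trans ?_ hN
      calc (H : ℝ) = (H : ℝ) ^ (1 : ℝ) := (Real.rpow_one _).symm
        _ ≤ _ := Real.rpow_le_rpow_of_exponent_le hHone (le_max_right _ _)
    exact_mod_cast this
  obtain ⟨hl1, hharm⟩ := PAvgx.harm' (by omega : 3 ≤ N)
  have hB2 := sq_nonneg B₀
  obtain ⟨P, hPd, hP0, hP⟩ := choice t (fun n m => f (QuotientGroup.mk ((g n) ^ m * x n)))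
    (fun n m => by
      have := hM ((g n) ^ m * x n)
      rwa [hF] at this) H (by omega) (e := ε / 4 * H) (by positivity)
  have hslow : SlowA (fun n => (g n, x n)) ((H : ℝ) ^ (max A 0)) := by
    intro j
    refine le_trans ?_ ((hs j).trans (Real.rpow_le_rpow_of_exponent_le hHone (le_max_left _ _)))
    have hfin : {n : ℕ | 2 ^ j ≤ n ∧ n < 2 ^ (j + 1) ∧ (g (n + 1), x (n + 1)) ≠ (g n, x n)}.Finite :=
      (Set.finite_Ico (2 ^ j) (2 ^ (j + 1))).subset fun n hn => ⟨hn.1, hn.2.1⟩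
    have h1 : ((((Ico (2 ^ j) (2 ^ (j + 1))).filter fun n => (g (n + 1), x (n + 1)) ≠ (g n, x n) :
        Finset ℕ) : Set ℕ)).ncard ≤
        {n : ℕ | 2 ^ j ≤ n ∧ n < 2 ^ (j + 1) ∧ (g (n + 1), x (n + 1)) ≠ (g n, x n)}.ncard := by
      refine Set.ncard_le_ncard ?_ hfin
      intro n hn
      rw [coe_filter] at hn
      have := mem_Ico.1 hn.1
      exact ⟨this.1, this.2, hn.2⟩
    rw [Set.ncard_coe_finset] at h1
    have h2 := (Nat.cast_le (α := ℝ)).2 h1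
    refine le_trans (le_of_eq ?_) h2
    refine congrArg (Nat.cast : ℕ → ℝ) ?_
    congr
  have hw := hWin H hH1 ((H : ℝ) ^ B₀) N le_rfl (by
    calc (H : ℝ) ^ B₀ * H = (H : ℝ) ^ (B₀ + 1) := by rw [Real.rpow_add hH0, Real.rpow_one]
      _ ≤ (H : ℝ) ^ C := Real.rpow_le_rpow_of_exponent_le hHone (by linarith)
      _ ≤ N := hNC) g x hslow P (fun n => (hPd n).trans htt') hP0
  have hb : ∀ n, ‖∑ h ∈ Icc 1 H, muC (n + h) * (ee ((P n).eval (((n + h : ℕ) : ℝ))) *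
      F ((g n) ^ (n + h) * x n))‖ / H ≤ M := by
    intro n
    rw [div_le_iff₀ hH0, mul_comm M]
    exact bound (P n) (fun m => F ((g n) ^ m * x n)) (fun m => hM _) H n
  have hall := htot H N hH2 hNC _ hb hw
  calc ∑ n ∈ Icc 1 N, (1 / (n : ℝ)) *
      Sup t (fun m => f (QuotientGroup.mk ((g n) ^ m * x n))) H n
      ≤ ∑ n ∈ Icc 1 N, (1 / (n : ℝ)) * (H * (‖∑ h ∈ Icc 1 H, muC (n + h) *
        (ee ((P n).eval (((n + h : ℕ) : ℝ))) * F ((g n) ^ (n + h) * x n))‖ / H) + ε / 4 * H) := by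
        refine sum_le_sum fun n _ => mul_le_mul_of_nonneg_left ?_ (by positivity)
        rw [hF]
        exact hP n
    _ = H * ∑ n ∈ Icc 1 N, (1 / (n : ℝ)) * (‖∑ h ∈ Icc 1 H, muC (n + h) *
        (ee ((P n).eval (((n + h : ℕ) : ℝ))) * F ((g n) ^ (n + h) * x n))‖ / H) +
        ε / 4 * H * ∑ n ∈ Icc 1 N, 1 / (n : ℝ) := by
        rw [mul_sum, mul_sum, ← sum_add_distrib]
        refine sum_congr rfl fun n _ => ?_
        ring
    _ ≤ H * (ε / 2 * Real.log N) + ε / 4 * H * (2 * Real.log N) :=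
        add_le_add (mul_le_mul_of_nonneg_left hall hH0.le)
          (mul_le_mul_of_nonneg_left hharm (by positivity))
    _ = ε * H * Real.log N := by ring

end Avgx

end

end Pool.Agent.NV
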