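import Mathlib
import Pool.Agent.Lib.NV.BRK

/-!
# The dichotomy for the bracket linear functions (MP_663568_nt, project NV2).  (helper19)
-/

set_option autoImplicit false
open Finset

namespace Pool.Agent.NV

open Pool.Agent.Lib.MP_663568_nt Pool.Agent.Lib.MP_663568_nt.Katai
  Pool.Agent.Lib.MP_663568_nt.Nul

namespace DICHx

theorem clear {α : Type} (s : Finset α) (g : α → ℚ) :
    ∃ M : ℕ, 1 ≤ M ∧ ∀ i ∈ s, ∃ z : ℤ, (M : ℚ) * g i = z := by
  classical
  induction s using Finset.induction_on with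
  | empty => exact ⟨1, le_rfl, by simp⟩
  | insert a s _ ih =>
    obtain ⟨M, hM, h⟩ := ih
    refine ⟨M * (g a).den, Nat.mul_pos hM (g a).den_pos, fun i hi => ?_⟩
    rw [mem_insert] at hi
    rcases hi with rfl | hi
    · refine ⟨M * (g i).num, ?_⟩
      have h1 : ((g i).den : ℚ) * g i = (g i).num := by
        rw [mul_comm]
        exact Rat.mul_den_eq_num _
      push_cast
      rw [mul_assoc, h1]
    · obtain ⟨z, hz⟩ := h i hi
      refine ⟨(g a).den * z, ?_⟩
      push_cast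
      rw [← hz]
      ring

/-- One target vector. -/
theorem span_alt {ι : Type} [Fintype ι] [DecidableEq ι] (KK : Finset (ι → ℤ)) (v : ι → ℤ) :
    (∃ M : ℕ, 1 ≤ M ∧ ∃ a : (ι → ℤ) → ℤ, ∀ i, (M : ℤ) * v i = ∑ κ ∈ KK, a κ * κ i) ∨
      ∃ w : ι → ℤ, (∀ κ ∈ KK, ∑ i, w i * κ i = 0) ∧ ∑ i, w i * v i ≠ 0 := by
  classical
  obtain ⟨cast, hcast⟩ : ∃ cast : (ι → ℤ) → (ι → ℚ), cast = fun κ i => (κ i : ℚ) := ⟨_, rfl⟩
  by_cases hv : cast v ∈ Submodule.span ℚ ((KK.image cast : Finset (ι → ℚ)) : Set (ι → ℚ))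
  · left
    rw [Submodule.mem_span_finset] at hv
    obtain ⟨f, -, hf⟩ := hv
    obtain ⟨M, hM, hz⟩ := clear KK (fun κ => f (cast κ))
    choose! a ha using hz
    refine ⟨M, hM, a, fun i => ?_⟩
    have h1 : ∑ x ∈ KK.image cast, f x • x = ∑ κ ∈ KK, f (cast κ) • cast κ := by
      refine sum_image fun x _ y _ hxy => ?_
      rw [hcast] at hxy
      funext i
      have h0 : ((x i : ℤ) : ℚ) = ((y i : ℤ) : ℚ) := congrFun hxy i
      exact_mod_cast h0
    rw [h1] at hf
    have h2 := congrFun hf i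
    rw [Finset.sum_apply] at h2
    have h3 : ((M : ℤ) * v i : ℚ) = ∑ κ ∈ KK, (a κ : ℚ) * κ i := by
      have h4 : (v i : ℚ) = cast v i := by rw [hcast]
      push_cast
      rw [h4, ← h2, mul_sum]
      refine sum_congr rfl fun κ hκ => ?_
      rw [← ha κ hκ, Pi.smul_apply, smul_eq_mul, hcast]
      ring
    exact_mod_cast h3
  · right
    obtain ⟨f, hf, hker⟩ := Submodule.exists_le_ker_of_notMem hv
    obtain ⟨M, hM, hz⟩ := clear (univ : Finset ι) (fun i => f fun j => if i = j then 1 else 0)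
    have hMq : (M : ℚ) ≠ 0 := by
      have : M ≠ 0 := by omega
      exact_mod_cast this
    choose! w hw using hz
    have hfw : ∀ x : ι → ℤ, (M : ℚ) * f (cast x) = ((∑ i, w i * x i : ℤ) : ℚ) := by
      intro x
      rw [LinearMap.pi_apply_eq_sum_univ f (cast x), mul_sum]
      push_cast
      refine sum_congr rfl fun i _ => ?_
      rw [← hw i (mem_univ i), smul_eq_mul, hcast]
      ring
    refine ⟨w, fun κ hκ => ?_, fun h => ?_⟩
    · have h1 : cast κ ∈ Submodule.span ℚ ((KK.image cast : Finset (ι → ℚ)) : Set (ι → ℚ)) :=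
        Submodule.subset_span (by
          rw [coe_image]
          exact Set.mem_image_of_mem _ hκ)
      have h2 := LinearMap.mem_ker.1 (hker h1)
      have h3 := hfw κ
      rw [h2, mul_zero] at h3
      exact_mod_cast h3.symm
    · have h3 := hfw v
      rw [h, Int.cast_zero] at h3
      exact hf ((mul_eq_zero.1 h3).resolve_left hMq)

/-- The alternative with a constant `B`. -/
def Alt {ι : Type} [Fintype ι] (V KK : Finset (ι → ℤ)) (B : ℕ) : Prop :=
  (∃ M : ℕ, 1 ≤ M ∧ M ≤ B ∧ ∀ v ∈ V, ∃ a : (ι → ℤ) → ℤ, (∀ κ ∈ KK, |a κ| ≤ B) ∧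
      ∀ i, (M : ℤ) * v i = ∑ κ ∈ KK, a κ * κ i) ∨
    ∃ w : ι → ℤ, (∀ i, |w i| ≤ B) ∧ (∀ κ ∈ KK, ∑ i, w i * κ i = 0) ∧
      ∃ v ∈ V, ∑ i, w i * v i ≠ 0

theorem Alt.mono {ι : Type} [Fintype ι] {V KK : Finset (ι → ℤ)} {B B' : ℕ} (h : B ≤ B')
    (hA : Alt V KK B) : Alt V KK B' := by
  rcases hA with ⟨M, h1, h2, h3⟩ | ⟨w, h1, h2⟩
  · left
    refine ⟨M, h1, h2.trans h, fun v hv => ?_⟩
    obtain ⟨a, ha, hb⟩ := h3 v hv
    exact ⟨a, fun κ hκ => (ha κ hκ).trans (by exact_mod_cast h), hb⟩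
  · right
    exact ⟨w, fun i => (h1 i).trans (by exact_mod_cast h), h2⟩

theorem bound {α : Type} (s : Finset α) (f : α → ℤ) : ∃ B : ℕ, ∀ x ∈ s, |f x| ≤ B := by
  refine ⟨∑ x ∈ s, (f x).natAbs, fun x hx => ?_⟩
  have h1 : (f x).natAbs ≤ ∑ x ∈ s, (f x).natAbs :=
    single_le_sum (f := fun x => (f x).natAbs) (fun _ _ => Nat.zero_le _) hx
  rw [Int.abs_eq_natAbs]
  exact_mod_cast h1

theorem alt_one {ι : Type} [Fintype ι] [DecidableEq ι] (V KK : Finset (ι → ℤ)) :
    ∃ B : ℕ, Alt V KK B := by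
  classical
  by_cases hall : ∀ v ∈ V, ∃ M : ℕ, 1 ≤ M ∧ ∃ a : (ι → ℤ) → ℤ, ∀ i,
      (M : ℤ) * v i = ∑ κ ∈ KK, a κ * κ i
  · choose! M hM a ha using hall
    obtain ⟨P, hP⟩ : ∃ P : ℕ, P = ∏ v ∈ V, M v := ⟨_, rfl⟩
    have hP1 : 1 ≤ P := by
      rw [hP]
      exact Nat.one_le_iff_ne_zero.2 (prod_ne_zero_iff.2 fun v hv =>
        Nat.one_le_iff_ne_zero.1 (hM v hv))
    obtain ⟨B, hB⟩ := bound (V ×ˢ KK) (fun p => ((∏ v ∈ V.erase p.1, M v : ℕ) : ℤ) * a p.1 p.2)
    refine ⟨max P B, Or.inl ⟨P, hP1, le_max_left _ _, fun v hv => ?_⟩⟩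
    refine ⟨fun κ => ((∏ v' ∈ V.erase v, M v' : ℕ) : ℤ) * a v κ, fun κ hκ => ?_, fun i => ?_⟩
    · exact (hB (v, κ) (mem_product.2 ⟨hv, hκ⟩)).trans (by exact_mod_cast le_max_right _ _)
    · have h1 : (P : ℤ) = ((∏ v' ∈ V.erase v, M v' : ℕ) : ℤ) * M v := by
        rw [hP, ← Finset.mul_prod_erase _ _ hv]
        push_cast
        ring
      rw [h1, mul_assoc, ha v hv i, mul_sum]
      refine sum_congr rfl fun κ _ => by ring
  · push Not at hall
    obtain ⟨v, hv, hno⟩ := hall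
    rcases span_alt KK v with ⟨M, hM, a, ha⟩ | ⟨w, hw1, hw2⟩
    · obtain ⟨i, hi⟩ := hno M hM a
      exact absurd (ha i) hi
    · obtain ⟨B, hB⟩ := bound (univ : Finset ι) w
      exact ⟨B, Or.inr ⟨w, fun i => hB i (mem_univ i), hw1, v, hv, hw2⟩⟩

/-- **The dichotomy**, with a constant which depends only on the size of the vectors. -/
theorem alt {ι : Type} [Fintype ι] [DecidableEq ι] (V : Finset (ι → ℤ)) (C : ℕ) :
    ∃ B : ℕ, ∀ KK : Finset (ι → ℤ), (∀ κ ∈ KK, ∀ i, |κ i| ≤ C) → Alt V KK B := by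
  classical
  choose f hf using fun KK : Finset (ι → ℤ) => alt_one V KK
  obtain ⟨box, hbox⟩ : ∃ box : Finset (ι → ℤ),
      box = Fintype.piFinset fun _ : ι => Icc (-(C : ℤ)) C := ⟨_, rfl⟩
  refine ⟨∑ KK ∈ box.powerset, f KK, fun KK hKK => (hf KK).mono ?_⟩
  refine single_le_sum (f := f) (fun _ _ => Nat.zero_le _) (mem_powerset.2 fun κ hκ => ?_)
  rw [hbox, Fintype.mem_piFinset]
  intro i
  rw [mem_Icc]
  exact abs_le.1 (hKK κ hκ i)

theorem card_box {ι : Type} [Fintype ι] [DecidableEq ι] (C : ℕ) (KK : Finset (ι → ℤ))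
    (h : ∀ κ ∈ KK, ∀ i, |κ i| ≤ C) : #KK ≤ (2 * C + 1) ^ Fintype.card ι := by
  classical
  have h1 : KK ⊆ Fintype.piFinset fun _ : ι => Icc (-(C : ℤ)) C := by
    intro κ hκ
    rw [Fintype.mem_piFinset]
    intro i
    rw [mem_Icc]
    exact abs_le.1 (h κ hκ i)
  refine (card_le_card h1).trans (le_of_eq ?_)
  rw [Fintype.card_piFinset, prod_const, card_univ, Int.card_Icc]
  congr 1
  omega

/-- **The pair theorem for bracket linear functions.** -/
theorem br2 (D : ℕ) (om : Fin D → Fin D → ℤ) (hom : ∀ i j, om i j = -om j i) (c : ℝ) (hc : 0 < c)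
    (hc1 : c ≤ 1) (K₀ : ℕ) : ∃ C : ℕ, 1 ≤ C ∧ ∀ (l : ℕ) (a a' : Fin D → ℝ) (ξ τ : ℝ)
    (S : Finset ℕ), C ≤ l → 0 ≤ τ → S ⊆ Icc 1 l → c * l ≤ #S →
    (∀ r ∈ S, ∃ k k' : Fin D → ℤ, (∀ i, |k i| ≤ K₀) ∧ (∀ i, |k' i| ≤ K₀) ∧
      nd (ξ * r + ∑ i, ∑ j, (om i j : ℝ) * Int.fract ((r : ℝ) * a i) * a j -
        ∑ i, ∑ j, (om i j : ℝ) * Int.fract ((r : ℝ) * a' i) * a' j +
        (∑ i, (k i : ℝ) * a i + ∑ i, (k' i : ℝ) * a' i)) ≤ τ) →
    (∃ M : ℕ, 1 ≤ M ∧ M ≤ C ∧ ∀ i, nd (M * ∑ j, (om i j : ℝ) * a j) ≤ C / l ∧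
      nd (M * ∑ j, (om i j : ℝ) * a' j) ≤ C / l) ∨
    ∃ k k' : Fin D → ℤ, (∀ i, |k i| ≤ C) ∧ (∀ i, |k' i| ≤ C) ∧ (k ≠ 0 ∨ k' ≠ 0) ∧
      nd (∑ i, (k i : ℝ) * a i + ∑ i, (k' i : ℝ) * a' i) ≤ C * τ := by
  classical
  -- the number of the frequencies
  obtain ⟨J, hJ⟩ : ∃ J : Finset ((Fin D → ℤ) × (Fin D → ℤ)),
      J = (Fintype.piFinset fun _ : Fin D => Icc (-(K₀ : ℤ)) K₀) ×ˢ
        (Fintype.piFinset fun _ : Fin D => Icc (-(K₀ : ℤ)) K₀) := ⟨_, rfl⟩
  have hJne : J.Nonempty := ⟨(0, 0), by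
    rw [hJ, mem_product]
    constructor <;>
    · rw [Fintype.mem_piFinset]
      intro i
      rw [mem_Icc]
      simp⟩
  have hJ1 : 1 ≤ #J := card_pos.2 hJne
  have hJr : (1 : ℝ) ≤ #J := by exact_mod_cast hJ1
  obtain ⟨C₁, hC₁, hbrk⟩ := BRKx.brk (D + D) (c / #J) (by positivity)
    ((div_le_self hc.le hJr).trans hc1)
  -- the targets
  obtain ⟨V, hV⟩ : ∃ V : Finset (Fin D ⊕ Fin D → ℤ),
      V = (univ.image fun i : Fin D => Sum.elim (om i) (0 : Fin D → ℤ)) ∪
        (univ.image fun i : Fin D => Sum.elim (0 : Fin D → ℤ) (om i)) := ⟨_, rfl⟩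
  obtain ⟨B, hB⟩ := alt V C₁
  obtain ⟨Om, hOm⟩ := bound (univ : Finset (Fin D × Fin D)) (fun p => om p.1 p.2)
  have hOm' : ∀ i j, |om i j| ≤ Om := fun i j => hOm (i, j) (mem_univ _)
  obtain ⟨C, hC⟩ : ∃ C : ℕ, C = C₁ + B + (2 * C₁ + 1) ^ (D + D) * (B * C₁) +
      C₁ * (D * (B * Om)) + C₁ * ((D + D) * B) := ⟨_, rfl⟩
  refine ⟨C, by omega, ?_⟩
  intro l a a' ξ τ S hl hτ hS hSc hyp
  have hl1 : 1 ≤ l := by omega
  have hlr : (0 : ℝ) < l := by exact_mod_cast hl1
  -- the pigeonhole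
  choose! k hk using hyp
  choose! k' hk' using hk
  obtain ⟨p, -, hp⟩ : ∃ p ∈ J, c / #J * l ≤ #(S.filter fun r => (k r, k' r) = p) := by
    have hmap : ∀ r ∈ S, (fun r => (k r, k' r)) r ∈ J := by
      intro r hr
      obtain ⟨h1, h2, _⟩ := hk' r hr
      rw [hJ, mem_product, Fintype.mem_piFinset, Fintype.mem_piFinset]
      exact ⟨fun i => mem_Icc.2 (abs_le.1 (h1 i)), fun i => mem_Icc.2 (abs_le.1 (h2 i))⟩
    by_contra hcon
    push Not at hcon
    have h1 := card_eq_sum_card_fiberwise hmap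
    have h2 : (#S : ℝ) < #J * (c / #J * l) := by
      rw [h1]
      push_cast
      calc ∑ b ∈ J, (#(S.filter fun r => (k r, k' r) = b) : ℝ) < ∑ b ∈ J, c / #J * l :=
            sum_lt_sum_of_nonempty hJne hcon
        _ = #J * (c / #J * l) := by rw [sum_const, nsmul_eq_mul]
    have h3 : (#J : ℝ) * (c / #J * l) = c * l := by
      have hJ0 : (#J : ℝ) ≠ 0 := by linarith
      rw [← mul_assoc, mul_div_cancel₀ c hJ0]
    rw [h3] at h2
    linarith
  obtain ⟨γ, hγ⟩ : ∃ γ : Fin D ⊕ Fin D → ℝ, γ = Sum.elim a a' := ⟨_, rfl⟩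
  obtain ⟨β, hβ⟩ : ∃ β : Fin D ⊕ Fin D → ℝ, β = Sum.elim (fun i => -∑ j, (om i j : ℝ) * a j)
    (fun i => ∑ j, (om i j : ℝ) * a' j) := ⟨_, rfl⟩
  obtain ⟨q, KK, hq1, hq2, hKK, hw⟩ := hbrk (Fin D ⊕ Fin D) (by
    rw [Fintype.card_sum, Fintype.card_fin]) l γ β
    (ξ + ∑ i, ∑ j, (om i j : ℝ) * a i * a j - ∑ i, ∑ j, (om i j : ℝ) * a' i * a' j)
    (∑ i, (p.1 i : ℝ) * a i + ∑ i, (p.2 i : ℝ) * a' i) τ
    (S.filter fun r => (k r, k' r) = p) (by omega) hτ ((filter_subset _ _).trans hS) hp (by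
      intro r hr
      rw [mem_filter] at hr
      obtain ⟨-, -, h3⟩ := hk' r hr.1
      have h4 : k r = p.1 := congrArg Prod.fst hr.2
      have h5 : k' r = p.2 := congrArg Prod.snd hr.2
      rw [h4, h5] at h3
      refine le_trans (le_of_eq ?_) h3
      congr 1
      rw [Fintype.sum_sum_type, hγ, hβ]
      simp only [Sum.elim_inl, Sum.elim_inr]
      have e1 : ∀ b : Fin D → ℝ, ∑ i, ∑ j, (om i j : ℝ) * Int.fract ((r : ℝ) * b i) * b j =
          (∑ i, ∑ j, (om i j : ℝ) * b i * b j) * r -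
            ∑ i, (∑ j, (om i j : ℝ) * b j) * (⌊(r : ℝ) * b i⌋ : ℤ) := by
        intro b
        rw [sum_mul, ← sum_sub_distrib]
        refine sum_congr rfl fun i _ => ?_
        rw [sum_mul, sum_mul, ← sum_sub_distrib]
        refine sum_congr rfl fun j _ => ?_
        have : Int.fract ((r : ℝ) * b i) = r * b i - ⌊(r : ℝ) * b i⌋ := rfl
        rw [this]
        ring
      rw [e1 a, e1 a']
      have e2 : ∑ i, -(∑ j, (om i j : ℝ) * a j) * ((⌊(r : ℝ) * a i⌋ : ℤ) : ℝ) =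
          -∑ i, (∑ j, (om i j : ℝ) * a j) * ((⌊(r : ℝ) * a i⌋ : ℤ) : ℝ) := by
        rw [← sum_neg_distrib]
        refine sum_congr rfl fun i _ => by ring
      rw [e2]
      ring)
  have hKKb : ∀ κ ∈ KK, ∀ i, |κ i| ≤ C₁ := fun κ hκ => (hKK κ hκ).2.1
  rcases hB KK hKKb with ⟨M, hM1, hMB, hMV⟩ | ⟨w, hw1, hw2, v, hv, hv2⟩
  · -- the first case
    left
    have hkey : ∀ v ∈ V, nd (M * ∑ i, (v i : ℝ) * γ i) ≤ C / l := by
      intro v hv
      obtain ⟨b, hb1, hb2⟩ := hMV v hv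
      have h1 : (M : ℝ) * ∑ i, (v i : ℝ) * γ i = ∑ κ ∈ KK, (b κ : ℝ) * ∑ i, (κ i : ℝ) * γ i := by
        have h2 : ∀ κ ∈ KK, (b κ : ℝ) * ∑ i, (κ i : ℝ) * γ i =
            ∑ i, ((b κ * κ i : ℤ) : ℝ) * γ i := by
          intro κ _
          rw [mul_sum]
          refine sum_congr rfl fun i _ => ?_
          push_cast
          ring
        rw [sum_congr rfl h2, sum_comm, mul_sum]
        refine sum_congr rfl fun i _ => ?_
        rw [← sum_mul]
        have h3 : ((M : ℝ) * (v i : ℝ)) = ∑ κ ∈ KK, ((b κ * κ i : ℤ) : ℝ) := by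
          have := hb2 i
          exact_mod_cast this
        rw [← h3]
        ring
      rw [h1]
      have h4 : ∀ s ⊆ KK, nd (∑ κ ∈ s, (b κ : ℝ) * ∑ i, (κ i : ℝ) * γ i) ≤
          #s * (B * (C₁ / l)) := by
        intro s
        induction s using Finset.induction_on with
        | empty =>
          intro _
          simp only [sum_empty, card_empty, Nat.cast_zero, zero_mul]
          have := nd_int 0
          rw [Int.cast_zero] at this
          rw [this]
        | insert κ s hκs ih =>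
          intro hs
          rw [sum_insert hκs, card_insert_of_notMem hκs]
          have hκ := hs (mem_insert_self _ _)
          refine (nd_add_le _ _).trans ?_
          have h5 := ih ((subset_insert _ _).trans hs)
          have h6 : nd ((b κ : ℝ) * ∑ i, (κ i : ℝ) * γ i) ≤ B * (C₁ / l) := by
            refine (nd_int_mul_le _ _).trans ?_
            refine mul_le_mul ?_ (hKK κ hκ).2.2 (nd_nonneg _) (Nat.cast_nonneg _)
            have := hb1 κ hκ
            have h7 : ((|b κ| : ℤ) : ℝ) ≤ ((B : ℤ) : ℝ) := by exact_mod_cast this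
            rw [Int.cast_abs] at h7
            exact_mod_cast h7
          push_cast
          linarith
      refine (h4 KK (Subset.refl _)).trans ?_
      have h8 : (#KK : ℝ) ≤ (((2 * C₁ + 1) ^ (D + D) : ℕ) : ℝ) := by
        have := card_box C₁ KK hKKb
        rw [Fintype.card_sum, Fintype.card_fin] at this
        exact_mod_cast this
      have h9 : (((2 * C₁ + 1) ^ (D + D) * (B * C₁) : ℕ) : ℝ) ≤ C := by
        exact_mod_cast (by omega : (2 * C₁ + 1) ^ (D + D) * (B * C₁) ≤ C)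
      calc (#KK : ℝ) * (B * (C₁ / l)) ≤ (((2 * C₁ + 1) ^ (D + D) : ℕ) : ℝ) * (B * (C₁ / l)) :=
            mul_le_mul_of_nonneg_right h8 (by positivity)
        _ = (((2 * C₁ + 1) ^ (D + D) * (B * C₁) : ℕ) : ℝ) / l := by
            push_cast
            ring
        _ ≤ C / l := div_le_div_of_nonneg_right h9 hlr.le
    refine ⟨M, hM1, by omega, fun i => ⟨?_, ?_⟩⟩
    · have h1 := hkey (Sum.elim (om i) 0) (by
        rw [hV, mem_union]
        left
        exact mem_image_of_mem _ (mem_univ i))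
      rw [Fintype.sum_sum_type, hγ] at h1
      simpa using h1
    · have h1 := hkey (Sum.elim 0 (om i)) (by
        rw [hV, mem_union]
        right
        exact mem_image_of_mem _ (mem_univ i))
      rw [Fintype.sum_sum_type, hγ] at h1
      simpa using h1
  · -- the second case
    right
    have h1 := hw w hw2
    obtain ⟨k₁, hk₁⟩ : ∃ k₁ : Fin D → ℤ, k₁ = fun j => -(q : ℤ) * ∑ i, w (Sum.inl i) * om i j :=
      ⟨_, rfl⟩
    obtain ⟨k₂, hk₂⟩ : ∃ k₂ : Fin D → ℤ, k₂ = fun j => (q : ℤ) * ∑ i, w (Sum.inr i) * om i j :=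
      ⟨_, rfl⟩
    have hsz : ∀ (u : Fin D → ℤ), (∀ i, |u i| ≤ B) → ∀ j, |(q : ℤ) * ∑ i, u i * om i j| ≤ C := by
      intro u hu j
      rw [abs_mul, Nat.abs_cast]
      have h2 : |∑ i, u i * om i j| ≤ ((D * (B * Om) : ℕ) : ℤ) := by
        refine (abs_sum_le_sum_abs _ _).trans ?_
        calc ∑ i, |u i * om i j| ≤ ∑ i : Fin D, ((B * Om : ℕ) : ℤ) := by
              refine sum_le_sum fun i _ => ?_
              rw [abs_mul]
              push_cast
              exact mul_le_mul (hu i) (hOm' i j) (abs_nonneg _) (Int.natCast_nonneg _)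
          _ = _ := by
              rw [sum_const, card_univ, Fintype.card_fin, nsmul_eq_mul]
              push_cast
              ring
      have h3 : (q : ℤ) ≤ C₁ := by exact_mod_cast hq2
      calc (q : ℤ) * |∑ i, u i * om i j| ≤ C₁ * ((D * (B * Om) : ℕ) : ℤ) :=
            mul_le_mul h3 h2 (abs_nonneg _) (Int.natCast_nonneg _)
        _ ≤ C := by exact_mod_cast (by omega : C₁ * (D * (B * Om)) ≤ C)
    refine ⟨k₁, k₂, fun j => ?_, fun j => ?_, ?_, ?_⟩
    · rw [hk₁]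
      show |-(q : ℤ) * ∑ i, w (Sum.inl i) * om i j| ≤ C
      rw [neg_mul, abs_neg]
      exact hsz (fun i => w (Sum.inl i)) (fun i => hw1 _) j
    · rw [hk₂]
      exact hsz (fun i => w (Sum.inr i)) (fun i => hw1 _) j
    · have hq0 : (q : ℤ) ≠ 0 := by
        have : q ≠ 0 := by omega
        exact_mod_cast this
      rw [hV, mem_union, mem_image, mem_image] at hv
      rcases hv with ⟨i, -, rfl⟩ | ⟨i, -, rfl⟩
      · left
        intro h
        have h2 := congrFun h i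
        rw [hk₁, Pi.zero_apply] at h2
        have h3 : ∑ x, w (Sum.inl x) * om x i = 0 := by
          rcases mul_eq_zero.1 h2 with h3 | h3
          · exact absurd (neg_eq_zero.1 h3) hq0
          · exact h3
        apply hv2
        rw [Fintype.sum_sum_type]
        simp only [Sum.elim_inl, Sum.elim_inr, Pi.zero_apply, mul_zero, sum_const_zero, add_zero]
        rw [← neg_eq_zero, ← sum_neg_distrib, ← h3]
        refine sum_congr rfl fun j _ => ?_
        rw [hom i j]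
        ring
      · right
        intro h
        have h2 := congrFun h i
        rw [hk₂, Pi.zero_apply] at h2
        have h3 : ∑ x, w (Sum.inr x) * om x i = 0 := by
          rcases mul_eq_zero.1 h2 with h3 | h3
          · exact absurd h3 hq0
          · exact h3
        apply hv2
        rw [Fintype.sum_sum_type]
        simp only [Sum.elim_inl, Sum.elim_inr, Pi.zero_apply, mul_zero, sum_const_zero, zero_add]
        rw [← neg_eq_zero, ← sum_neg_distrib, ← h3]
        refine sum_congr rfl fun j _ => ?_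
        rw [hom i j]
        ring
    · have h2 : ∑ i, (k₁ i : ℝ) * a i + ∑ i, (k₂ i : ℝ) * a' i = q * ∑ i, (w i : ℝ) * β i := by
        rw [Fintype.sum_sum_type, hβ, hk₁, hk₂, mul_add, mul_sum, mul_sum]
        simp only [Sum.elim_inl, Sum.elim_inr]
        congr 1
        · have e1 : ∀ i : Fin D, (q : ℝ) * ((w (Sum.inl i) : ℝ) * -∑ j, (om i j : ℝ) * a j) =
              ∑ j, -((q : ℝ) * (w (Sum.inl i) * om i j)) * a j := by
            intro i
            rw [← sum_neg_distrib, mul_sum, mul_sum]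
            refine sum_congr rfl fun j _ => by ring
          rw [sum_congr rfl fun i _ => e1 i, sum_comm]
          refine sum_congr rfl fun j _ => ?_
          rw [← sum_mul]
          congr 1
          push_cast
          rw [mul_sum]
          refine sum_congr rfl fun i _ => by ring
        · have e1 : ∀ i : Fin D, (q : ℝ) * ((w (Sum.inr i) : ℝ) * ∑ j, (om i j : ℝ) * a' j) =
              ∑ j, ((q : ℝ) * (w (Sum.inr i) * om i j)) * a' j := by
            intro i
            rw [mul_sum, mul_sum]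
            refine sum_congr rfl fun j _ => by ring
          rw [sum_congr rfl fun i _ => e1 i, sum_comm]
          refine sum_congr rfl fun j _ => ?_
          rw [← sum_mul]
          congr 1
          push_cast
          rw [mul_sum]
      rw [h2]
      refine h1.trans (mul_le_mul_of_nonneg_right ?_ hτ)
      have h3 : ∑ i, |(w i : ℝ)| ≤ (((D + D) * B : ℕ) : ℝ) := by
        calc ∑ i, |(w i : ℝ)| ≤ ∑ i : Fin D ⊕ Fin D, (B : ℝ) := by
              refine sum_le_sum fun i _ => ?_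
              have := hw1 i
              have h7 : ((|w i| : ℤ) : ℝ) ≤ ((B : ℤ) : ℝ) := by exact_mod_cast this
              rw [Int.cast_abs] at h7
              exact_mod_cast h7
          _ = _ := by
              rw [sum_const, card_univ, Fintype.card_sum, Fintype.card_fin, nsmul_eq_mul]
              push_cast
              ring
      calc (C₁ : ℝ) * ∑ i, |(w i : ℝ)| ≤ C₁ * (((D + D) * B : ℕ) : ℝ) :=
            mul_le_mul_of_nonneg_left h3 (Nat.cast_nonneg _)
        _ = ((C₁ * ((D + D) * B) : ℕ) : ℝ) := by push_cast; ring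
        _ ≤ C := by exact_mod_cast (by omega : C₁ * ((D + D) * B) ≤ C)

end DICHx

end Pool.Agent.NV
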