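import Mathlib
import Pool.Agent.Lib.VQ.Defs
import Pool.Agent.Lib.SV.Core

/-!
# Rich points for several coefficients at once (MP_663568_nt, NVG; helper95)

`VQ.rich` for a family of systems with the same primes, the same good sets and different
frequencies and exponents: the rich points and the auxiliary prime are the same for all of them.
-/

set_option autoImplicit false
open Finset MeasureTheory Polynomial

namespace Pool.Agent.NV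

open Pool.Agent.Lib.MP_663568_nt Pool.Agent.Lib.MP_663568_nt.Katai
  Pool.Agent.Lib.MP_663568_nt.Nul Pool.Agent.SV Pool.Agent.VQ

/-- A positive proportion of the window has all the `b` near rational numbers with bounded
denominator. -/
def RICHALL' : Prop := ∀ (T : ℕ) (A κ₁ κ₂ δ : ℝ), 1 ≤ T → 0 ≤ A → 0 < κ₁ → κ₁ ≤ κ₂ →
  κ₂ ≤ 1 / 4 → 0 < δ → δ ≤ 1 →
  ∃ (c B : ℝ) (Q₀ : ℕ) (H₀ : ℝ), 0 < c ∧ 0 ≤ B ∧ 1 ≤ Q₀ ∧ ∀ H : ℝ, H₀ ≤ H →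
  ∀ (ι : Type) (t : ι → ℕ) (s : ι → Sys) (s₀ : Sys) (R : ℝ), (∀ i, 1 ≤ t i ∧ t i ≤ T) →
  s₀.OK (H ^ κ₁) (H ^ κ₂) R → (∀ i, dum (s i) = s₀) →
  (∀ i, OKT (s i) (t i) (H ^ κ₁) (H ^ κ₂) R) → R ≤ H ^ A → (∀ i, (s i).tau ≤ H ^ (-B)) →
  δ * (s₀.hi - s₀.lo) ≤ mass s₀ →
  ∃ q ∈ s₀.PP, ∃ S : Set ℝ, MeasurableSet S ∧ S ⊆ s₀.G q ∧
    c * (s₀.hi - s₀.lo) ≤ (volume S).toReal ∧
    ∀ u ∈ S, ∀ i, ∃ j : ℤ, |(s i).b u - j / Q₀| ≤ H ^ B * (s i).tau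

def RICHALL_stmt : Prop :=
  J1_stmt → J2_stmt → K1_stmt → K3_stmt → P0T_stmt → E1T' → NTT' → RICHALL'

theorem richall : RICHALL_stmt := by
  intro hJ1 hJ2 hK1 hK3 hP0 hE1 hNT
  classical
  intro T A κ₁ κ₂ δ hT hA hκ₁ hκ₁₂ hκ₂ hδ hδ1
  have hκ₂0 : 0 < κ₂ := by linarith
  have hT1 : (1 : ℝ) ≤ T := by exact_mod_cast hT
  have hT0 : (0 : ℝ) < T := by linarith
  -- the constants
  obtain ⟨r, hr⟩ : ∃ r : ℕ, (T * A + 1) / κ₁ + 1 ≤ (2 : ℝ) ^ r := by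
    obtain ⟨r, hr⟩ := pow_unbounded_of_one_lt ((T * A + 1) / κ₁ + 1) (one_lt_two (α := ℝ))
    exact ⟨r, hr.le⟩
  obtain ⟨k, hk⟩ : ∃ k : ℕ, k = 2 ^ r := ⟨_, rfl⟩
  have hkr : (T * A + 1) / κ₁ + 1 ≤ (k : ℝ) := by rw [hk]; push_cast; exact hr
  have hk1 : 1 ≤ k := by rw [hk]; exact Nat.one_le_two_pow
  have hk0 : (1 : ℝ) ≤ k := by exact_mod_cast hk1
  have hkκT : T * A + 1 ≤ 2 * k * κ₁ := by
    have h1 : (T * A + 1) / κ₁ ≤ (k : ℝ) := by linarith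
    rw [div_le_iff₀ hκ₁] at h1
    have h2 : 0 ≤ k * κ₁ := by positivity
    linarith
  have hkκ : ∀ t : ℕ, t ≤ T → t * A + 1 ≤ 2 * k * κ₁ := by
    intro t ht
    have h1 : (t : ℝ) ≤ T := by exact_mod_cast ht
    have h2 : t * A ≤ T * A := by gcongr
    linarith
  obtain ⟨z, hz⟩ : ∃ z : ℝ, z = 1 / k := ⟨_, rfl⟩
  have hz0 : 0 < z := by rw [hz]; positivity
  have hkz : k * z = 1 := by rw [hz]; field_simp
  obtain ⟨J, hJ⟩ : ∃ J : ℕ, J = ⌊κ₂ / z⌋₊ + 1 := ⟨_, rfl⟩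
  obtain ⟨m, hm⟩ : ∃ m : ℕ, max 1 ((2 * k * κ₂ + 2) / κ₁) ≤ m := exists_nat_ge _
  have hm1 : 1 ≤ m := by
    have : (1 : ℝ) ≤ m := (le_max_left _ _).trans hm
    exact_mod_cast this
  have hm2 : 2 * k * κ₂ + 2 ≤ κ₁ * m := by
    have := (le_max_right _ _).trans hm
    rw [div_le_iff₀ hκ₁] at this
    linarith
  obtain ⟨δ₁, hδ₁, hδ₁1, X₀, hJ2⟩ := hJ2 (δ ^ 2 / 2) m J (by positivity) (by nlinarith) hm1
    (by omega)
  obtain ⟨δ₂, hδ₂⟩ : ∃ δ₂ : ℝ, δ₂ = δ₁ ^ k / 4 := ⟨_, rfl⟩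
  have hδ₂0 : 0 < δ₂ := by rw [hδ₂]; positivity
  obtain ⟨C', hC'⟩ : ∃ C' : ℝ, C' = (2 + 1) * (m : ℝ) + 2 + 2 := ⟨_, rfl⟩
  have hC'0 : 0 < C' := by rw [hC']; positivity
  obtain ⟨cN, hcN⟩ : ∃ cN : ℝ, cN = δ₂ ^ 2 / (C' * ((2 * k).factorial : ℝ) ^ 2) := ⟨_, rfl⟩
  have hcN0 : 0 < cN := by
    have : (0 : ℝ) < (2 * k).factorial := by exact_mod_cast Nat.factorial_pos _
    rw [hcN]; positivity
  have hNTt : ∀ t : ℕ, ∃ (Q₁ : ℕ) (H₁ : ℝ), 1 ≤ t → t ≤ T → 1 ≤ Q₁ ∧ ∀ H : ℝ, H₁ ≤ H →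
      ∀ R β M E2 : ℝ, 1 ≤ R → R ≤ H ^ A → 0 < M → 0 ≤ E2 → H ^ (2 * k * κ₂ * t + 2) * E2 ≤ M →
      ∀ Nn : Finset (ℕ × ℕ), (∀ x ∈ Nn, CloseT t (H ^ κ₁) (H ^ κ₂) R β M E2 k x) →
      cN / (R * Real.log H) ≤ ∑ x ∈ Nn, 1 / ((x.1 : ℝ) * x.2) →
      ∃ q : ℕ, 1 ≤ q ∧ q ≤ Q₁ ∧ ∃ a : ℤ, |(q : ℝ) * β - a * M| ≤ H * R * E2 := by
    intro t
    by_cases h : 1 ≤ t ∧ t ≤ T
    · obtain ⟨Q₁, H₁, hQ₁, h1⟩ := hNT t k κ₁ κ₂ A cN h.1 hk1 hκ₁ hκ₁₂ (by linarith) hcN0 hA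
        (hkκ t h.2)
      exact ⟨Q₁, H₁, fun _ _ => ⟨hQ₁, h1⟩⟩
    · exact ⟨0, 0, fun h1 h2 => absurd ⟨h1, h2⟩ h⟩
  choose Qt Ht hNTt using hNTt
  obtain ⟨Q₁, hQ₁⟩ : ∃ Q₁ : ℕ, Q₁ = ∑ t ∈ Icc 1 T, Qt t := ⟨_, rfl⟩
  obtain ⟨H₁, hH₁⟩ : ∃ H₁ : ℝ, H₁ = ∑ t ∈ Icc 1 T, |Ht t| := ⟨_, rfl⟩
  have hQt : ∀ t, 1 ≤ t → t ≤ T → Qt t ≤ Q₁ := by
    intro t h1 h2
    rw [hQ₁]
    exact single_le_sum (f := Qt) (fun _ _ => Nat.zero_le _) (mem_Icc.2 ⟨h1, h2⟩)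
  have hHt : ∀ t, 1 ≤ t → t ≤ T → Ht t ≤ H₁ := by
    intro t h1 h2
    rw [hH₁]
    exact (le_abs_self _).trans (single_le_sum (f := fun t => |Ht t|) (fun _ _ => abs_nonneg _)
      (mem_Icc.2 ⟨h1, h2⟩))
  obtain ⟨H₀, hH₀⟩ := core_large κ₁ κ₂ (9 + 4 * k) X₀ H₁ hκ₁ hκ₂0
  obtain ⟨B, hB⟩ : ∃ B : ℝ, B = A + 2 * T + 4 := ⟨_, rfl⟩
  have hB0 : 0 ≤ B := by rw [hB]; positivity
  refine ⟨2 * δ₂, B, Q₁.factorial, H₀, by positivity, hB0, Nat.factorial_pos _, ?_⟩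
  intro H hH ι t s s₀ R hti hdm hdum hOK hR hτ hmass
  obtain ⟨b1, b2, b3, b4, b5, -, b7, b8⟩ := hH₀ H hH
  have hH0 : 0 < H := by linarith
  have hR1 : 1 ≤ R := hdm.Rone
  have hR0 : 0 < R := by linarith
  obtain ⟨X, hX⟩ : ∃ X : ℝ, X = Real.log H := ⟨_, rfl⟩
  rw [← hX] at b4 b5
  have hX0 : 0 < X := by linarith
  have hHexp : ∀ y : ℝ, H ^ y = Real.exp (y * X) := fun y => by
    rw [Real.rpow_def_of_pos hH0, hX, mul_comm]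
  have hP1pos : 0 < H ^ κ₁ := Real.rpow_pos_of_pos hH0 _
  have hP2pos : 0 < H ^ κ₂ := Real.rpow_pos_of_pos hH0 _
  have hP12 : H ^ κ₁ ≤ H ^ κ₂ := Real.rpow_le_rpow_of_exponent_le b8 hκ₁₂
  have hP21 : 1 ≤ H ^ κ₂ := by linarith
  have hk4 : 4 * (k : ℝ) ≤ H := by
    have : 4 * (k : ℝ) ≤ 9 + 4 * k := by linarith
    exact this.trans b7
  have hH9 : 9 ≤ H := by
    have : (9 : ℝ) ≤ 9 + 4 * k := by linarith
    exact this.trans b7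
  -- the cells
  obtain ⟨g, hg⟩ : ∃ g : ℝ, g = Real.exp (z * X) := ⟨_, rfl⟩
  have hg1 : 1 ≤ g := by rw [hg]; exact Real.one_le_exp (by positivity)
  have hg0 : 0 < g := by linarith
  have hlg : k * Real.log g = X := by rw [hg, Real.log_exp, ← mul_assoc, hkz, one_mul]
  obtain ⟨cell, hcell⟩ : ∃ cell : ℕ → ℕ, cell = fun p : ℕ => ⌊Real.log p / (z * X)⌋₊ :=
    ⟨_, rfl⟩
  have hp1 : ∀ p ∈ s₀.PP, 1 ≤ p := fun p hp => (hdm.prime p hp).one_lt.le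
  have hcJ : ∀ p ∈ s₀.PP, cell p < J := by
    intro p hp
    rw [hcell, hJ]
    refine cell_lt hz0 hX0 ?_
    have := hdm.le p hp
    rw [hHexp] at this
    calc Real.log p ≤ Real.log (Real.exp (κ₂ * X)) :=
          Real.log_le_log (by exact_mod_cast hp1 p hp) this
      _ = κ₂ * X := Real.log_exp _
  have hcg : ∀ p ∈ s₀.PP, ∀ p' ∈ s₀.PP, cell p = cell p' → (p : ℝ) ≤ g * p' := by
    intro p hp p' hp' hc
    rw [hcell] at hc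
    rw [hg]
    exact cell_ratio hz0 hX0 (hp1 p hp) (hp1 p' hp') hc
  -- the auxiliary primes
  obtain ⟨q, hqi, hqP, hqm⟩ := hJ2 s₀ _ _ R hdm b2 cell hcJ
    (hJ1 s₀ _ _ R δ hdm hδ.le hmass)
  obtain ⟨hsym', hid'⟩ := k0 s₀ _ _ R hdm cell m q hm1 hqP
  have hsym : Sym (Mv s₀ cell) (om s₀) sg (Ed s₀ cell q) Prod.swap s₀.lo s₀.hi := hsym'
  rw [hid'] at hqm
  have hqm' : δ₁ * (s₀.hi - s₀.lo) ≤
      ∑ i ∈ Mv s₀ cell, om s₀ i * (volume (Ed s₀ cell q i)).toReal := hqm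
  -- many paths
  have hK := hK1 _ _ _ _ _ _ _ hsym δ₁ hδ₁.le hqm' r
  rw [← hk] at hK
  obtain ⟨S, hS⟩ : ∃ S : Set ℝ, S = {v | δ₂ ≤ (Op (Mv s₀ cell) (om s₀) sg (Ed s₀ cell q))^[k]
    (fun _ => 1) v} := ⟨_, rfl⟩
  obtain ⟨hSm, hSs, hSi⟩ := hK3 _ _ _ _ _ _ _ hsym k δ₂ hk1 hδ₂0 (by
    refine le_trans (le_of_eq ?_) hK
    rw [hδ₂]; ring) S hS
  obtain ⟨ψ, hψ⟩ : ∃ ψ : ℝ → ℝ, ψ = (Op (Mv s₀ cell) (om s₀) sg (Ed s₀ cell q))^[k]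
    (S.indicator fun _ => 1) := ⟨_, rfl⟩
  rw [← hψ] at hSi
  have hind0 : ∀ v, 0 ≤ S.indicator (fun _ => (1 : ℝ)) v := fun v =>
    Set.indicator_nonneg (fun _ _ => zero_le_one) v
  have hind1 : ∀ v, S.indicator (fun _ => (1 : ℝ)) v ≤ 1 := fun v =>
    Set.indicator_le_self' (fun _ _ => zero_le_one) v
  have hψb : ∀ v, 0 ≤ ψ v ∧ ψ v ≤ 1 := fun v => by
    rw [hψ]
    exact Op_iter_bound hsym hind0 hind1 k v
  have hSfin : volume S ≠ ⊤ := ((measure_mono hSs).trans_lt (by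
    rw [Real.volume_Icc]; exact ENNReal.ofReal_lt_top)).ne
  have hvolS : 2 * δ₂ * (s₀.hi - s₀.lo) ≤ (volume S).toReal := by
    refine hSi.trans ?_
    have h1 : ‖∫ v in S, ψ v‖ ≤ 1 * volume.real S := by
      refine norm_setIntegral_le_of_norm_le_const (lt_top_iff_ne_top.2 hSfin) fun v _ => ?_
      rw [Real.norm_of_nonneg (hψb v).1]
      exact (hψb v).2
    rw [one_mul] at h1
    exact (le_abs_self _).trans h1
  -- the rich points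
  have hgood : ∀ v ∈ S, ∀ i, v ∈ s₀.G (q i) := by
    intro v hv i
    rw [hS] at hv
    obtain ⟨j, _, hj⟩ := Op_iter_move (I := Mv s₀ cell) (ω := om s₀) (σ := sg)
      (E := Ed s₀ cell q) (f := fun _ => 1) hk1 (v := v) (by
        intro h0
        have : δ₂ ≤ _ := hv
        rw [h0] at this
        linarith)
    exact Ed_start hj i
  refine ⟨q ⟨0, by omega⟩, hqP _, S, hSm, fun v hv => hgood v hv _, hvolS, ?_⟩
  intro v hv ix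
  -- one exponent
  obtain ⟨t, ht⟩ : ∃ t' : ℕ, t' = t ix := ⟨_, rfl⟩
  obtain ⟨ht1n, htT⟩ := hti ix
  have h := hOK ix
  have hτ := hτ ix
  have hdu := hdum ix
  generalize s ix = s at h hτ hdu ⊢
  rw [← ht] at ht1n htT h
  subst hdu
  have ht1 : (1 : ℝ) ≤ t := by exact_mod_cast ht1n
  have htT' : (t : ℝ) ≤ T := by exact_mod_cast htT
  have ht0 : (0 : ℝ) < t := by linarith
  have hτ0 := h.tau0
  have hP2t : (H ^ κ₂) ^ t ≤ H ^ (t : ℝ) := by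
    rw [Real.rpow_natCast]
    refine pow_le_pow_left₀ hP2pos.le ?_ t
    calc H ^ κ₂ ≤ H ^ (1 : ℝ) := Real.rpow_le_rpow_of_exponent_le b8 (by linarith)
      _ = H := Real.rpow_one H
  have hP1t : 1 ≤ (H ^ κ₁) ^ t := one_le_pow₀ (by linarith)
  have hgk : g ^ (t * k) = H ^ (t : ℝ) := by
    rw [hg, ← Real.exp_nat_mul, hHexp]
    push_cast
    congr 1
    calc (t : ℝ) * k * (z * X) = t * (k * z) * X := by ring
      _ = t * X := by rw [hkz, mul_one]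
  -- the small quantities
  have hBτ : H ^ B * s.tau ≤ 1 := by
    calc H ^ B * s.tau ≤ H ^ B * H ^ (-B) := by gcongr
      _ = 1 := by rw [← Real.rpow_add hH0]; simp
  have hsm : 8 * (H ^ κ₂) ^ t * s.tau < 1 := by
    have e1 : H ^ (t : ℝ) * H ^ (1 : ℝ) * s.tau ≤ 1 := by
      refine le_trans ?_ hBτ
      rw [← Real.rpow_add hH0]
      refine mul_le_mul_of_nonneg_right (Real.rpow_le_rpow_of_exponent_le b8 ?_) hτ0
      rw [hB]; linarith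
    rw [Real.rpow_one] at e1
    have e2 : (H ^ κ₂) ^ t * s.tau ≤ H ^ (t : ℝ) * s.tau := by gcongr
    have e3 : 0 ≤ H ^ (t : ℝ) * s.tau := by positivity
    have e4 : H ^ (t : ℝ) * s.tau * 9 ≤ H ^ (t : ℝ) * s.tau * H := by gcongr
    have e5 : H ^ (t : ℝ) * s.tau * H = H ^ (t : ℝ) * H * s.tau := by ring
    linarith
  -- the lift
  obtain ⟨β, hβ⟩ := hP0 s t _ _ R h m q hqi hqP
  obtain ⟨M, hM⟩ : ∃ M : ℝ, M = ((∏ i, q i : ℕ) : ℝ) ^ t := ⟨_, rfl⟩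
  obtain ⟨E2, hE2⟩ : ∃ E2 : ℝ, E2 = k * g ^ (t * k) * (4 * (H ^ κ₂) ^ t * s.tau) / (H ^ κ₁) ^ t :=
    ⟨_, rfl⟩
  have hE20 : 0 ≤ E2 := by rw [hE2]; positivity
  have hE2b : E2 ≤ H * (H ^ (t : ℝ) * H ^ (t : ℝ) * s.tau) := by
    rw [hE2, hgk]
    rw [div_le_iff₀ (by positivity)]
    have e0 : 0 ≤ H * (H ^ (t : ℝ) * H ^ (t : ℝ) * s.tau) := by positivity
    calc (k : ℝ) * H ^ (t : ℝ) * (4 * (H ^ κ₂) ^ t * s.tau)
        = 4 * k * (H ^ (t : ℝ) * (H ^ κ₂) ^ t * s.tau) := by ring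
      _ ≤ H * (H ^ (t : ℝ) * H ^ (t : ℝ) * s.tau) := by gcongr
      _ ≤ _ := le_mul_of_one_le_right e0 hP1t
  have hHE : H * R * E2 ≤ H ^ B * s.tau := by
    calc H * R * E2 ≤ H * H ^ A * (H * (H ^ (t : ℝ) * H ^ (t : ℝ) * s.tau)) := by gcongr
      _ = H ^ (1 : ℝ) * H ^ A * (H ^ (1 : ℝ) * (H ^ (t : ℝ) * H ^ (t : ℝ))) * s.tau := by
          rw [Real.rpow_one]; ring
      _ = H ^ (1 + A + (1 + (t + t))) * s.tau := by
          rw [← Real.rpow_add hH0, ← Real.rpow_add hH0, ← Real.rpow_add hH0,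
            ← Real.rpow_add hH0]
      _ ≤ H ^ B * s.tau := by
          refine mul_le_mul_of_nonneg_right (Real.rpow_le_rpow_of_exponent_le b8 ?_) hτ0
          rw [hB]; linarith
  have hE21 : E2 ≤ 1 := by
    have e1 : 1 ≤ H * R := one_le_mul_of_one_le_of_one_le b8 hR1
    calc E2 = 1 * E2 := (one_mul _).symm
      _ ≤ H * R * E2 := by gcongr
      _ ≤ 1 := hHE.trans hBτ
  have hMbig : H ^ (2 * k * κ₂ * t + 2) ≤ M := by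
    have e0 : H ^ (2 * k * κ₂ + 2) ≤ ((∏ i, q i : ℕ) : ℝ) := by
      push_cast
      calc H ^ (2 * k * κ₂ + 2) ≤ H ^ (κ₁ * m) := Real.rpow_le_rpow_of_exponent_le b8 hm2
        _ = (H ^ κ₁) ^ m := by rw [Real.rpow_mul hH0.le, Real.rpow_natCast]
        _ = ∏ _i : Fin m, H ^ κ₁ := by rw [prod_const, card_univ, Fintype.card_fin]
        _ ≤ ∏ i, (q i : ℝ) := prod_le_prod (fun _ _ => hP1pos.le) fun i _ => hdm.ge _ (hqP i)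
    rw [hM]
    calc H ^ (2 * k * κ₂ * t + 2) ≤ H ^ ((2 * k * κ₂ + 2) * t) :=
          Real.rpow_le_rpow_of_exponent_le b8 (by nlinarith)
      _ = (H ^ (2 * k * κ₂ + 2)) ^ t := by rw [Real.rpow_mul hH0.le, Real.rpow_natCast]
      _ ≤ _ := pow_le_pow_left₀ (Real.rpow_nonneg hH0.le _) e0 t
  have hM0 : 0 < M := lt_of_lt_of_le (Real.rpow_pos_of_pos hH0 _) hMbig
  have hv' : δ₂ ≤ (Op (Mv s cell) (om s) sg (Ed s cell q))^[k] (fun _ => 1) v := by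
    rw [hS] at hv
    exact hv
  obtain ⟨Nn, hNn, hNs⟩ := hE1 s t _ _ R g ht1n h hsm hg1 m q hm1 hqi hqP β hβ cell hcg k δ₂ v hk1
    hδ₂0 hv'
  rw [← hE2, ← hM] at hNn
  have hlow : cN / (R * Real.log H) ≤ ∑ x ∈ Nn, 1 / ((x.1 : ℝ) * x.2) := by
    refine le_trans ?_ hNs
    rw [hlg, hcN, div_div, ← hX]
    apply div_le_div_of_nonneg_left (by positivity)
    · have : (0 : ℝ) < (2 * k).factorial := by exact_mod_cast Nat.factorial_pos _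
      positivity
    · have e1 : (2 * X + 1) * (m * R) + 2 * X * R + 2 ≤ C' * (R * X) := by
        rw [hC']
        have a1 : (m : ℝ) * R ≤ m * R * X := by
          have : m * R * 1 ≤ m * R * X := by gcongr
          linarith
        have a2 : 1 ≤ R * X := one_le_mul_of_one_le_of_one_le hR1 b4
        linarith
      calc ((2 * X + 1) * (m * R) + 2 * X * R + 2) *
            ((2 * k).factorial : ℝ) ^ 2 ≤ C' * (R * X) * ((2 * k).factorial : ℝ) ^ 2 := by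
            gcongr
        _ = _ := by ring
  obtain ⟨q', hq1, hq2, j, hj⟩ := (hNTt t ht1n htT).2 H ((hHt t ht1n htT).trans b1) R (β v) M E2
    hR1 hR hM0 hE20 (by
      calc H ^ (2 * k * κ₂ * t + 2) * E2 ≤ H ^ (2 * k * κ₂ * t + 2) * 1 := by gcongr
        _ = H ^ (2 * k * κ₂ * t + 2) := mul_one _
        _ ≤ M := hMbig) Nn hNn hlow
  obtain ⟨j', hj'⟩ := factorial_lift hq1 (hq2.trans (hQt t ht1n htT)) hj
  -- back to `b`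
  obtain ⟨kb, hkb⟩ := (hβ v (hgood v hv)).1
  obtain ⟨Mz, hMz⟩ : ∃ Mz : ℤ, M = Mz := ⟨((∏ i, q i : ℕ) : ℤ) ^ t, by rw [hM]; push_cast; rfl⟩
  have hF0 : (0 : ℝ) < Q₁.factorial := by exact_mod_cast Nat.factorial_pos Q₁
  refine ⟨j' * Mz - Q₁.factorial * kb, ?_⟩
  have e1 : s.b v - ((j' * Mz - Q₁.factorial * kb : ℤ) : ℝ) / (Q₁.factorial : ℝ) =
      ((Q₁.factorial : ℝ) * β v - j' * M) / (Q₁.factorial : ℝ) := by
    have a2 : s.b v = β v - kb := by linarith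
    push_cast
    rw [← hMz, a2]
    field_simp
    ring
  rw [e1, abs_div, abs_of_pos hF0, div_le_iff₀ hF0]
  refine hj'.trans ?_
  calc (Q₁.factorial : ℝ) * (H * R * E2) ≤ Q₁.factorial * (H ^ B * s.tau) := by gcongr
    _ = _ := by ring

end Pool.Agent.NV
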